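import Pool.Agent.FibC.KDefs
import Pool.Agent.LowDeg.Place

/-! Module P16: centres of places. -/

set_option autoImplicit false
set_option linter.unusedVariables false

open Polynomial IntermediateField

namespace Pool.Agent.FibC

open Pool.Agent.LowDeg

variable {N : ℕ} {K E : Type} [Field K] [CharZero K] [Algebra ℂ K] [Field E] [Algebra K E]

/-- `z` is the centre of the place `P` (up to a factor) on the projective curve with generic point
`x`. -/
def IsCtr (x : Fin (N + 1) → E) (P : Place K E) (z : Fin (N + 1) → K) : Prop :=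
  z ≠ 0 ∧ ∃ g : E, ∀ j, P.IsVal (g * x j) (z j)

/-- PROOF: divide by the coordinate `x_i` of least order at `P` (`i` with `x_i ≠ 0`). -/
theorem exists_ctr (x : Fin (N + 1) → E) (hx : x ≠ 0) (P : Place K E) :
    ∃ z : Fin (N + 1) → K, IsCtr x P z := by
  classical
  obtain ⟨i0, hi0⟩ : ∃ i, x i ≠ 0 := by
    by_contra h
    push Not at h
    exact hx (funext h)
  obtain ⟨i, hi, hmin⟩ := (Finset.univ.filter fun i => x i ≠ 0).exists_min_image
    (fun i => P.ord (x i)) ⟨i0, by simp [hi0]⟩
  have hi' : x i ≠ 0 := (Finset.mem_filter.mp hi).2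
  have hint : ∀ j, P.Int ((x i)⁻¹ * x j) := by
    intro j
    by_cases hj : x j = 0
    · exact Or.inl (by rw [hj, mul_zero])
    · have h1 := hmin j (by simp [hj])
      exact Or.inr (by rw [P.ord_mul _ _ (inv_ne_zero hi') hj, P.ord_inv]; omega)
  choose z hz using fun j => (hint j).exists_isVal
  refine ⟨z, ?_, (x i)⁻¹, hz⟩
  intro h0
  have h1 := hz i
  rw [inv_mul_cancel₀ hi', h0] at h1
  exact zero_ne_one (h1.unique Place.isVal_one)

/-- PROOF: two normalisations differ by a factor `g / g'` which is a unit at `P`. -/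
theorem ctr_unique {x : Fin (N + 1) → E} {P : Place K E} {z z' : Fin (N + 1) → K}
    (h : IsCtr x P z) (h' : IsCtr x P z') : ∃ r : K, r ≠ 0 ∧ z' = r • z := by
  obtain ⟨hz, g, hg⟩ := h
  obtain ⟨hz', g', hg'⟩ := h'
  obtain ⟨j, hj⟩ : ∃ j, z j ≠ 0 := by
    by_contra h
    push Not at h
    exact hz (funext h)
  have hgx : g * x j ≠ 0 := (hg j).ne_zero hj
  have hg0 : g ≠ 0 := left_ne_zero_of_mul hgx
  have hxj : x j ≠ 0 := right_ne_zero_of_mul hgx
  have hu : P.IsVal (g' / g) (z' j / z j) := by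
    have h1 := (hg' j).div (hg j) hj
    have h2 : g' * x j / (g * x j) = g' / g := by
      rw [mul_div_mul_right _ _ hxj]
    rwa [h2] at h1
  have hall : z' = (z' j / z j) • z := by
    funext i
    have h1 := hu.mul (hg i)
    have h2 : g' / g * (g * x i) = g' * x i := by
      field_simp
    rw [h2] at h1
    exact (hg' i).unique h1
  refine ⟨z' j / z j, ?_, hall⟩
  intro h0
  rw [h0, zero_smul] at hall
  exact hz' hall

namespace CtrAux

omit [CharZero K] in
theorem aeval_smul_hom {S : Type} [CommRing S] [Algebra ℂ S] {e : ℕ}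
    {G : MvPolynomial (Fin (N + 1)) ℂ} (hG : G.IsHomogeneous e) (g : S) (x : Fin (N + 1) → S) :
    MvPolynomial.aeval (fun j => g * x j) G = g ^ e * MvPolynomial.aeval x G := by
  conv_lhs => rw [G.as_sum]
  conv_rhs => rw [G.as_sum]
  rw [map_sum, map_sum, Finset.mul_sum]
  refine Finset.sum_congr rfl fun m hm => ?_
  rw [MvPolynomial.aeval_monomial, MvPolynomial.aeval_monomial]
  have h1 : m.degree = e := by
    rw [Finsupp.degree_eq_weight_one]
    exact hG (MvPolynomial.mem_support_iff.mp hm)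
  have h2 : (m.prod fun i k => (g * x i) ^ k) = g ^ e * m.prod fun i k => x i ^ k := by
    rw [Finsupp.prod, Finsupp.prod, ← h1, Finsupp.degree_apply, ← Finset.prod_pow_eq_pow_sum,
      ← Finset.prod_mul_distrib]
    exact Finset.prod_congr rfl fun i _ => mul_pow _ _ _
  rw [h2]
  ring

end CtrAux

/-- PROOF: values of forms: `G(g x) = g^e G(x) = 0`. -/
theorem ctr_on {ξ : Fin (N + 1) → K} {x : Fin (N + 1) → E}
    (hx : ∀ (e : ℕ) (G : MvPolynomial (Fin (N + 1)) ℂ), G.IsHomogeneous e →
      MvPolynomial.aeval ξ G = 0 →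
      MvPolynomial.eval₂ ((algebraMap K E).comp (algebraMap ℂ K)) x G = 0)
    {P : Place K E} {z : Fin (N + 1) → K} (h : IsCtr x P z) : On ξ z := by
  intro e G hG h0
  obtain ⟨hz, g, hg⟩ := h
  let _ : Algebra ℂ E := ((algebraMap K E).comp (algebraMap ℂ K)).toAlgebra
  have : IsScalarTower ℂ K E := IsScalarTower.of_algebraMap_eq (fun _ => rfl)
  have h1 : P.IsVal (MvPolynomial.aeval (fun j => g * x j) G) (MvPolynomial.aeval z G) :=
    Place.IsVal.aeval hg G
  have h2 : MvPolynomial.aeval x G = 0 := hx e G hG h0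
  rw [CtrAux.aeval_smul_hom hG, h2, mul_zero] at h1
  exact h1.unique (Place.isVal_zero_iff.2 P.sm_zero)

end Pool.Agent.FibC
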