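import Pool.Agent.FibC.KDefs

/-! Module F5: automorphisms of `K` and scaling of vectors. -/

set_option autoImplicit false
set_option linter.unusedSectionVars false

open MvPolynomial

namespace Pool.Agent.FibC

variable {N : ℕ} {K : Type} [Field K] [Algebra ℂ K]

namespace KActAux

/-- the polynomial with coefficients `z` -/
noncomputable def pol (z : Fin (N + 1) → K) : Polynomial K :=
  ∑ i, Polynomial.C (z i) * Polynomial.X ^ (i : ℕ)

theorem pol_coeff (z : Fin (N + 1) → K) (j : Fin (N + 1)) : (pol z).coeff (j : ℕ) = z j := by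
  rw [pol, Polynomial.finsetSum_coeff, Finset.sum_eq_single j]
  · rw [Polynomial.coeff_C_mul_X_pow, if_pos rfl]
  · intro i _ hij
    rw [Polynomial.coeff_C_mul_X_pow, if_neg (fun h => hij (Fin.ext h.symm))]
  · intro h
    exact absurd (Finset.mem_univ _) h

theorem pol_ne {z : Fin (N + 1) → K} (hz : z ≠ 0) : pol z ≠ 0 := by
  intro h
  apply hz
  funext j
  rw [← pol_coeff z j, h, Polynomial.coeff_zero, Pi.zero_apply]

theorem pol_eval (z : Fin (N + 1) → K) (s : ℂ) : (pol z).eval (algebraMap ℂ K s) =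
    ∑ i : Fin (N + 1), algebraMap ℂ K (s ^ (i : ℕ)) * z i := by
  rw [pol, Polynomial.eval_finsetSum]
  refine Finset.sum_congr rfl (fun i _ => ?_)
  rw [Polynomial.eval_mul, Polynomial.eval_C, Polynomial.eval_pow, Polynomial.eval_X, map_pow,
    mul_comm]

/-- scaling a vector scales the value of a form -/
theorem aeval_scale (r : K) (z : Fin (N + 1) → K) {e : ℕ} {G : MvPolynomial (Fin (N + 1)) ℂ}
    (hG : G.IsHomogeneous e) : aeval (r • z) G = r ^ e * aeval z G := by
  rw [aeval_def, aeval_def, eval₂_eq', eval₂_eq', Finset.mul_sum]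
  refine Finset.sum_congr rfl (fun d hd => ?_)
  have h1 : ∑ i, d i = e := by
    have h2 := hG (mem_support_iff.mp hd)
    rw [Finsupp.weight_apply, Finsupp.sum_fintype _ _ (fun i => by simp)] at h2
    simpa using h2
  have h3 : ∏ i, (r • z) i ^ d i = r ^ e * ∏ i, z i ^ d i := by
    rw [← h1, ← Finset.prod_pow_eq_pow_sum, ← Finset.prod_mul_distrib]
    refine Finset.prod_congr rfl (fun i _ => ?_)
    rw [Pi.smul_apply, smul_eq_mul, mul_pow]
  rw [h3]
  ring

theorem on_scale {ξ z : Fin (N + 1) → K} (hon : On ξ z) (r : K) : On ξ (r • z) := by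
  intro e G hG h
  rw [aeval_scale r z hG, hon e G hG h, mul_zero]

theorem linF_scale (r : K) (z : Fin (N + 1) → K) : linF (r • z) = C r * linF z := by
  rw [linF, linF, Finset.mul_sum]
  refine Finset.sum_congr rfl (fun j _ => ?_)
  rw [Pi.smul_apply, smul_eq_mul, C_mul, mul_assoc]

/-- values under an automorphism -/
theorem aeval_act (ρ : K ≃ₐ[ℂ] K) (z : Fin (N + 1) → K) (G : MvPolynomial (Fin (N + 1)) ℂ) :
    aeval (fun i => ρ (z i)) G = ρ (aeval z G) := by
  have h := comp_aeval_apply z (ρ : K →ₐ[ℂ] K) G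
  exact h.symm

theorem on_act {ξ z : Fin (N + 1) → K} (ρ : K ≃ₐ[ℂ] K) (hon : On ξ z) :
    On ξ (fun i => ρ (z i)) := by
  intro e G hG h
  rw [aeval_act, hon e G hG h, map_zero]

theorem ne_act {z : Fin (N + 1) → K} (ρ : K ≃ₐ[ℂ] K) (hz : z ≠ 0) : (fun i => ρ (z i)) ≠ 0 := by
  intro h
  apply hz
  funext i
  have h1 := congrFun h i
  rw [Pi.zero_apply] at h1 ⊢
  exact (map_eq_zero_iff ρ ρ.injective).mp h1

theorem linF_act (ρ : K ≃ₐ[ℂ] K) (z : Fin (N + 1) → K) :
    map (ρ : K →+* K) (linF z) = linF (fun i => ρ (z i)) := by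
  rw [linF, linF, map_sum]
  refine Finset.sum_congr rfl (fun j _ => ?_)
  rw [map_mul, map_C, map_X]
  rfl

theorem prod_act (ρ : K ≃ₐ[ℂ] K) (T : Multiset (Fin (N + 1) → K)) :
    map (ρ : K →+* K) (T.map linF).prod = ((T.map fun z i => ρ (z i)).map linF).prod := by
  rw [map_multiset_prod, Multiset.map_map, Multiset.map_map]
  congr 1
  exact Multiset.map_congr rfl (fun z _ => linF_act ρ z)

theorem cyv_act (ρ : K ≃ₐ[ℂ] K) (T : Multiset (Fin (N + 1) → K)) :
    act ρ (cyv T) = cyv (T.map fun z i => ρ (z i)) := by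
  rw [cyv, cyv, map_multiset_sum, Multiset.map_map, Multiset.map_map]
  rfl

theorem fix_act (ρ : K ≃ₐ[ℂ] K) (s : ℂ) : ρ (algebraMap ℂ K s) = algebraMap ℂ K s := ρ.commutes s

theorem eval_act (ρ : K ≃ₐ[ℂ] K) (c : Polynomial K) (x : K) (hx : ρ x = x) :
    (c.map (ρ : K →+* K)).eval x = ρ (c.eval x) := by
  conv_lhs => rw [← hx]
  exact Polynomial.eval_map_apply (ρ : K →+* K) x

/-- specialisation of the transported family -/
theorem spec_act (ρ : K ≃ₐ[ℂ] K) (FF : MvPolynomial (Fin (N + 1)) (Polynomial K)) (x : K)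
    (hx : ρ x = x) : map (Polynomial.evalRingHom x) (map (Polynomial.mapRingHom (ρ : K →+* K)) FF) =
      map (ρ : K →+* K) (map (Polynomial.evalRingHom x) FF) := by
  have h : (Polynomial.evalRingHom x).comp (Polynomial.mapRingHom (ρ : K →+* K)) =
      (ρ : K →+* K).comp (Polynomial.evalRingHom x) := by
    apply Polynomial.ringHom_ext
    · intro a
      simp
    · simp [hx]
  rw [map_map, map_map, h]

end KActAux

open KActAux

/-- For finitely many nonzero vectors over `K` there is a linear form over `ℂ` without zeros among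
them. PROOF: a vector space over an infinite field is not a finite union of proper subspaces (or:
induction; or: `ℓ = (1, s, s², …)` with `s ∈ ℂ` outside the finitely many roots of the nonzero
polynomials `∑ z_i X^i`). -/
theorem exists_form (T : Finset (Fin (N + 1) → K)) (hT : ∀ z ∈ T, z ≠ 0) :
    ∃ ℓ : Fin (N + 1) → ℂ, ∀ z ∈ T, ∑ i, algebraMap ℂ K (ℓ i) * z i ≠ 0 := by
  classical
  set P : Polynomial K := ∏ z ∈ T, pol z with hP
  have hP0 : P ≠ 0 := Finset.prod_ne_zero_iff.mpr (fun z hz => pol_ne (hT z hz))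
  have hinj : Function.Injective (algebraMap ℂ K) := (algebraMap ℂ K).injective
  obtain ⟨s, hs⟩ : ∃ s : ℂ, P.eval (algebraMap ℂ K s) ≠ 0 := by
    by_contra hcon
    push Not at hcon
    apply hP0
    apply Polynomial.eq_zero_of_infinite_isRoot
    refine Set.Infinite.mono (s := Set.range (algebraMap ℂ K)) ?_ (Set.infinite_range_of_injective hinj)
    rintro _ ⟨s, rfl⟩
    exact hcon s
  refine ⟨fun i => s ^ (i : ℕ), fun z hz => ?_⟩
  rw [← pol_eval]
  rw [hP, Polynomial.eval_prod] at hs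
  exact Finset.prod_ne_zero_iff.mp hs z hz

/-- PROOF: choose `ℓ` with `ℓ(z) ≠ 0`; constant family `linF (z / ℓ(z))`, `c = 1`, `n = 0`. -/
theorem rescale {ξ z : Fin (N + 1) → K} (hz : z ≠ 0) (hon : On ξ z) (r : K) (hr : r ≠ 0) :
    FreeAbelianGroup.of (r • z) - FreeAbelianGroup.of z ∈ KRat ξ := by
  classical
  obtain ⟨ℓ, hℓ⟩ := exists_form {z} (fun w hw => by rw [Finset.mem_singleton] at hw; rwa [hw])
  have hlz := hℓ z (Finset.mem_singleton_self z)
  set lz : K := ∑ i, algebraMap ℂ K (ℓ i) * z i with hlzd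
  apply AddSubgroup.subset_closure
  refine ⟨{r • z}, {z}, ⟨?_, ?_, ℓ, 1, 0, map Polynomial.C (linF (lz⁻¹ • z)), (r * lz)⁻¹, lz⁻¹,
    one_ne_zero, inv_ne_zero (mul_ne_zero hr hlz), inv_ne_zero hlz, ?_, ?_, ?_⟩, ?_⟩
  · intro w hw
    rw [Multiset.mem_singleton] at hw
    rw [hw]
    exact ⟨smul_ne_zero hr hz, on_scale hon r⟩
  · intro w hw
    rw [Multiset.mem_singleton] at hw
    rw [hw]
    exact ⟨hz, hon⟩
  · intro s _
    refine ⟨{lz⁻¹ • z}, ?_, ?_⟩
    · intro w hw
      rw [Multiset.mem_singleton] at hw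
      rw [hw]
      refine ⟨on_scale hon _, ?_⟩
      have h1 : ∀ i, algebraMap ℂ K (ℓ i) * (lz⁻¹ • z) i = lz⁻¹ * (algebraMap ℂ K (ℓ i) * z i) := by
        intro i
        rw [Pi.smul_apply, smul_eq_mul]
        ring
      rw [Finset.sum_congr rfl (fun i _ => h1 i), ← Finset.mul_sum, ← hlzd, inv_mul_cancel₀ hlz]
    · rw [map_map, pow_zero, C_1, one_mul, Multiset.map_singleton, Multiset.prod_singleton]
      have h1 : (Polynomial.evalRingHom (algebraMap ℂ K s)).comp Polynomial.C = RingHom.id K := by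
        ext x; simp
      rw [h1, map_id]
  · rw [map_map, Multiset.map_singleton, Multiset.prod_singleton]
    have h1 : (Polynomial.evalRingHom (0 : K)).comp Polynomial.C = RingHom.id K := by
      ext x; simp
    rw [h1, map_id, linF_scale, linF_scale, ← mul_assoc, ← C_mul]
    congr 2
    field_simp
  · rw [map_map, Multiset.map_singleton, Multiset.prod_singleton]
    have h1 : (Polynomial.evalRingHom (1 : K)).comp Polynomial.C = RingHom.id K := by
      ext x; simp
    rw [h1, map_id, linF_scale]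
  · rw [cyv, cyv, Multiset.map_singleton, Multiset.map_singleton, Multiset.sum_singleton,
      Multiset.sum_singleton]

/-- PROOF: closure induction; apply `ρ` to the coefficients of `FF` and `c`; `ℓ` and `s` are over
`ℂ`, so are the forms `G`. Note that `ρ` need not fix `ξ`. -/
theorem act_KRat {ξ : Fin (N + 1) → K} (ρ : K ≃ₐ[ℂ] K) {κ : Zv N K} (hκ : κ ∈ KRat ξ) :
    act ρ κ ∈ KRat ξ := by
  have hle : KRat ξ ≤ (KRat ξ).comap (act ρ) := by
    rw [KRat, AddSubgroup.closure_le]
    rintro _ ⟨T₀, T₁, ⟨h0, h1, ℓ, c, n, FF, c₀, c₁, hc, hc0, hc1, hs, hF0, hF1⟩, rfl⟩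
    rw [SetLike.mem_coe, AddSubgroup.mem_comap, map_sub, cyv_act, cyv_act]
    apply AddSubgroup.subset_closure
    refine ⟨_, _, ⟨?_, ?_, ℓ, c.map (ρ : K →+* K), n, map (Polynomial.mapRingHom (ρ : K →+* K)) FF,
      ρ c₀, ρ c₁, ?_, ?_, ?_, ?_, ?_, ?_⟩, rfl⟩
    · intro w hw
      obtain ⟨z, hz, rfl⟩ := Multiset.mem_map.mp hw
      exact ⟨ne_act ρ (h0 z hz).1, on_act ρ (h0 z hz).2⟩
    · intro w hw
      obtain ⟨z, hz, rfl⟩ := Multiset.mem_map.mp hw
      exact ⟨ne_act ρ (h1 z hz).1, on_act ρ (h1 z hz).2⟩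
    · intro h
      apply hc
      exact Polynomial.map_injective (ρ : K →+* K) ρ.injective (by rw [h, Polynomial.map_zero])
    · exact (map_ne_zero_iff ρ ρ.injective).mpr hc0
    · exact (map_ne_zero_iff ρ ρ.injective).mpr hc1
    · intro s hsc
      rw [eval_act ρ c _ (fix_act ρ s)] at hsc
      have hsc' : c.eval (algebraMap ℂ K s) ≠ 0 := by
        intro h
        rw [h, map_zero] at hsc
        exact hsc rfl
      obtain ⟨T, hT, hTF⟩ := hs s hsc'
      refine ⟨T.map fun z i => ρ (z i), ?_, ?_⟩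
      · intro w hw
        obtain ⟨z, hz, rfl⟩ := Multiset.mem_map.mp hw
        refine ⟨on_act ρ (hT z hz).1, ?_⟩
        have h2 := congrArg ρ (hT z hz).2
        rw [map_sum, map_one] at h2
        rw [← h2]
        refine Finset.sum_congr rfl (fun i _ => ?_)
        rw [map_mul, fix_act]
      · rw [spec_act ρ FF _ (fix_act ρ s), hTF, map_mul, map_C, prod_act,
          eval_act ρ c _ (fix_act ρ s)]
        congr 2
        exact map_pow ρ _ n
    · rw [spec_act ρ FF 0 (map_zero ρ), hF0, map_mul, map_C, prod_act]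
      rfl
    · rw [spec_act ρ FF 1 (map_one ρ), hF1, map_mul, map_C, prod_act]
      rfl
  exact hle hκ

theorem act_ND {ξ : Fin (N + 1) → K} (ρ : K ≃ₐ[ℂ] K) {κ : Zv N K} (hκ : κ ∈ ND ξ) :
    act ρ κ ∈ ND ξ := by
  have hle : ND ξ ≤ (ND ξ).comap (act ρ) := by
    rw [ND, AddSubgroup.closure_le]
    rintro _ ⟨z, ⟨hz, hon, e, G, hG, hGz, hGξ⟩, rfl⟩
    rw [SetLike.mem_coe, AddSubgroup.mem_comap]
    apply AddSubgroup.subset_closure
    refine ⟨fun i => ρ (z i), ⟨ne_act ρ hz, on_act ρ hon, e, G, hG, ?_, hGξ⟩, ?_⟩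
    · rw [aeval_act, hGz, map_zero]
    · exact FreeAbelianGroup.map_of_apply z
  exact hle hκ

end Pool.Agent.FibC
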