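import Pool.Agent.FibC.ChowFam
import Pool.Agent.FibC.KAct
import Pool.Agent.FibC.Ctr

/-! Module P17: principal divisors are rationally equivalent to zero. -/

set_option autoImplicit false
set_option linter.unusedVariables false

open Polynomial IntermediateField

namespace Pool.Agent.FibC

open Pool.Agent.LowDeg

namespace LinkAux

section Ord

variable {K E : Type} [Field K] [Field E] [Algebra K E]

/-- the function `ψ = φ / (φ - 1)` -/
lemma trans_psi {φ : E} (hφt : Transcendental K φ) : Transcendental K (φ / (φ - 1)) := by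
  intro h
  have h1 : φ - 1 ≠ 0 := by
    intro h0
    apply hφt
    rw [sub_eq_zero.mp h0]
    exact isAlgebraic_one
  have h2 : φ / (φ - 1) - 1 = (φ - 1)⁻¹ := by
    field_simp
    ring
  have h3 : IsAlgebraic K ((φ - 1)⁻¹) := by
    rw [← h2]
    exact h.sub isAlgebraic_one
  have h4 : IsAlgebraic K (φ - 1) := by
    have := h3.inv
    rwa [inv_inv] at this
  apply hφt
  have h5 := h4.add (isAlgebraic_one (R := K) (A := E))
  rwa [sub_add_cancel] at h5

lemma psi_sub {φ : E} (h1 : φ - 1 ≠ 0) : φ / (φ - 1) - 1 = (φ - 1)⁻¹ := by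
  field_simp
  ring

lemma ord_psi (P : Place K E) {φ : E} (h0 : φ ≠ 0) (h1 : φ - 1 ≠ 0) (h : 0 < P.ord φ) :
    P.ord (φ / (φ - 1)) = P.ord φ := by
  have h2 : P.IsVal φ 0 := Place.isVal_zero_iff.2 (Or.inr h)
  have h3 : P.IsVal (φ - 1) (0 - 1) := h2.sub P.isVal_one
  have h4 : P.ord (φ - 1) = 0 := h3.ord_eq_zero (by simp)
  rw [P.ord_div h0 h1, h4, sub_zero]

lemma ord_psi_one (P : Place K E) {φ : E} (h0 : φ ≠ 0) (h1 : φ - 1 ≠ 0) (h : P.ord φ < 0) :
    P.ord (φ / (φ - 1) - 1) = -P.ord φ := by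
  rw [psi_sub h1, P.ord_inv]
  have h2 : P.ord φ < P.ord (-1 : E) := by
    rw [P.ord_neg, P.ord_one]; exact h
  have h3 := (Place.ord_add_eq_of_lt (P := P) h0 (neg_ne_zero.2 one_ne_zero) h2).2
  rw [← sub_eq_add_neg] at h3
  rw [h3]

lemma sm_psi (P : Place K E) {φ : E} (h0 : φ ≠ 0) (h1 : φ - 1 ≠ 0) :
    P.Sm (φ / (φ - 1) - algebraMap K E 0) ↔ 0 < P.ord φ := by
  have hne : φ / (φ - 1) ≠ 0 := div_ne_zero h0 h1
  rw [map_zero, sub_zero, Place.sm_iff_ord hne]
  constructor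
  · intro h
    rw [P.ord_div h0 h1] at h
    by_contra hcon
    rcases lt_or_eq_of_le (not_lt.mp hcon) with h2 | h2
    · have h3 : P.ord φ < P.ord (-1 : E) := by
        rw [P.ord_neg, P.ord_one]; exact h2
      have h4 := (Place.ord_add_eq_of_lt (P := P) h0 (neg_ne_zero.2 one_ne_zero) h3).2
      rw [← sub_eq_add_neg] at h4
      omega
    · have h3 : P.Int φ := Or.inr h2.ge
      have h4 : P.Int (φ - 1) := h3.sub P.int_one
      have h5 := h4.resolve_left h1
      omega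
  · intro h
    rw [ord_psi P h0 h1 h]
    exact h

lemma sm_psi_one (P : Place K E) {φ : E} (h0 : φ ≠ 0) (h1 : φ - 1 ≠ 0) :
    P.Sm (φ / (φ - 1) - algebraMap K E 1) ↔ P.ord φ < 0 := by
  rw [map_one]
  have hne : φ / (φ - 1) - 1 ≠ 0 := by
    rw [psi_sub h1]; exact inv_ne_zero h1
  rw [Place.sm_iff_ord hne]
  constructor
  · intro h
    rw [psi_sub h1, P.ord_inv] at h
    by_contra hcon
    have h3 : P.Int φ := Or.inr (not_lt.mp hcon)
    have h4 : P.Int (φ - 1) := h3.sub P.int_one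
    have h5 := h4.resolve_left h1
    omega
  · intro h
    rw [ord_psi_one P h0 h1 h]
    omega

end Ord

section Cyc

variable {N : ℕ} {K : Type} [Field K] {ι : Type}

lemma cyv_sum (S : Finset ι) (n : ι → ℕ) (z : ι → Fin (N + 1) → K) :
    cyv (∑ P ∈ S, n P • ({z P} : Multiset (Fin (N + 1) → K))) =
      ∑ P ∈ S, n P • (FreeAbelianGroup.of (z P) : Zv N K) := by
  classical
  unfold cyv
  induction S using Finset.induction_on with
  | empty => simp
  | insert i S hi ih =>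
    rw [Finset.sum_insert hi, Finset.sum_insert hi, Multiset.map_add, Multiset.sum_add, ih,
      Multiset.map_nsmul, Multiset.sum_nsmul, Multiset.map_singleton, Multiset.sum_singleton]

omit [Field K] in
lemma mem_sum_nsmul (S : Finset ι) (n : ι → ℕ) (z : ι → Fin (N + 1) → K) {w : Fin (N + 1) → K}
    (hw : w ∈ ∑ P ∈ S, n P • ({z P} : Multiset (Fin (N + 1) → K))) : ∃ P ∈ S, w = z P := by
  rw [Multiset.mem_sum] at hw
  obtain ⟨P, hP, hw⟩ := hw
  exact ⟨P, hP, by simpa using Multiset.mem_of_mem_nsmul hw⟩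

end Cyc

end LinkAux

variable {N : ℕ} {K E : Type} [Field K] [IsAlgClosed K] [CharZero K] [Algebra ℂ K] [Field E]
  [Algebra K E]

open LinkAux in
/-- the transcendental case of `div_KRat`, for the set of all zeros and poles -/
theorem LinkAux.div_KRat_trans (a : E) (ha : Transcendental K a) [FiniteDimensional K⟮a⟯ E]
    {ξ : Fin (N + 1) → K} (x : Fin (N + 1) → E) (hx0 : x ≠ 0)
    (hx : ∀ (e : ℕ) (G : MvPolynomial (Fin (N + 1)) ℂ), G.IsHomogeneous e →
      MvPolynomial.aeval ξ G = 0 →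
      MvPolynomial.eval₂ ((algebraMap K E).comp (algebraMap ℂ K)) x G = 0)
    (φ : E) (hφ : φ ≠ 0) (hφt : Transcendental K φ) (S : Finset (Place K E))
    (hS : ∀ P : Place K E, P ∈ S ↔ P.ord φ ≠ 0) (hne : S.Nonempty)
    (z : Place K E → Fin (N + 1) → K) (hz : ∀ P ∈ S, IsCtr x P (z P)) :
    ∑ P ∈ S, P.ord φ • FreeAbelianGroup.of (z P) ∈ KRat ξ := by
  classical
  have h1 : φ - 1 ≠ 0 := by
    intro h0
    apply hφt
    rw [sub_eq_zero.mp h0]
    exact isAlgebraic_one
  set ψ : E := φ / (φ - 1) with hψdef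
  have hψt : Transcendental K ψ := trans_psi hφt
  -- the linear form
  obtain ⟨ℓ, hℓ⟩ := exists_form (N := N) (K := K) (S.image z) (by
    intro w hw
    obtain ⟨P, hP, rfl⟩ := Finset.mem_image.mp hw
    exact (hz P hP).1)
  have hℓS : ∀ P ∈ S, ∑ i, algebraMap ℂ K (ℓ i) * z P i ≠ 0 := fun P hP =>
    hℓ _ (Finset.mem_image_of_mem z hP)
  set lx : E := ∑ i, algebraMap K E (algebraMap ℂ K (ℓ i)) * x i with hlx
  -- `g ℓ(x)` has the value `ℓ(z)`
  have hval : ∀ (P : Place K E) (g : E) (w : Fin (N + 1) → K), (∀ j, P.IsVal (g * x j) (w j)) →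
      P.IsVal (g * lx) (∑ i, algebraMap ℂ K (ℓ i) * w i) := by
    intro P g w hg
    have e1 : g * lx = ∑ i, algebraMap K E (algebraMap ℂ K (ℓ i)) * (g * x i) := by
      rw [hlx, Finset.mul_sum]
      exact Finset.sum_congr rfl fun i _ => by ring
    rw [e1]
    exact Place.IsVal.sum _ fun i _ => (P.isVal_const _).mul (hg i)
  have hlx0 : lx ≠ 0 := by
    obtain ⟨P, hP⟩ := hne
    obtain ⟨-, g, hg⟩ := hz P hP
    have h2 := (hval P g (z P) hg).ne_zero (hℓS P hP)
    exact right_ne_zero_of_mul h2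
  set y : Fin (N + 1) → E := fun j => lx⁻¹ * x j with hy
  -- values at the zeros and poles
  have hyS : ∀ P ∈ S, ∀ j, P.IsVal (y j) ((∑ i, algebraMap ℂ K (ℓ i) * z P i)⁻¹ * z P j) := by
    intro P hP j
    obtain ⟨-, g, hg⟩ := hz P hP
    have h2 := hval P g (z P) hg
    have h3 := h2.ne_zero (hℓS P hP)
    have hg0 : g ≠ 0 := left_ne_zero_of_mul h3
    have h4 := (h2.inv (hℓS P hP)).mul (hg j)
    have e1 : (g * lx)⁻¹ * (g * x j) = y j := by
      rw [hy]; field_simp
    rwa [e1] at h4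
  -- finiteness
  have hfinψ : ∀ s : K, {P : Place K E | P.Sm (ψ - algebraMap K E s)}.Finite := by
    intro s
    have h2 : ψ - algebraMap K E s ≠ 0 := by
      intro h0
      apply hψt
      rw [sub_eq_zero.mp h0]
      exact isAlgebraic_algebraMap s
    refine (finite_zeros a ha _ h2).subset ?_
    intro P hP
    have h3 : 0 < P.ord (ψ - algebraMap K E s) := (Place.sm_iff_ord h2).1 hP
    exact h3.ne'
  have hfiny : {P : Place K E | ∃ j, ¬ P.Int (y j)}.Finite := by
    have h2 : ∀ j, {P : Place K E | ¬ P.Int (y j)}.Finite := by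
      intro j
      by_cases h0 : y j = 0
      · refine Set.Finite.subset Set.finite_empty ?_
        intro P hP
        exact hP (by rw [h0]; exact P.int_zero)
      · refine (finite_zeros a ha _ h0).subset ?_
        intro P hP h3
        exact hP (Or.inr (le_of_eq h3.symm))
    have h3 : {P : Place K E | ∃ j, ¬ P.Int (y j)} = ⋃ j, {P : Place K E | ¬ P.Int (y j)} := by
      ext P; simp
    rw [h3]
    exact Set.finite_iUnion h2
  have hbad : {s : K | ∃ P : Place K E, P.Sm (ψ - algebraMap K E s) ∧ ∃ j, ¬ P.Int (y j)}.Finite := by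
    have h2 : ∀ P : Place K E, {s : K | P.Sm (ψ - algebraMap K E s)}.Finite := by
      intro P
      refine Set.Subsingleton.finite ?_
      intro s hs s' hs'
      exact Place.IsVal.unique (P := P) hs hs'
    refine (hfiny.biUnion fun P _ => h2 P).subset ?_
    rintro s ⟨P, hP, hj⟩
    exact Set.mem_biUnion (show P ∈ {P : Place K E | ∃ j, ¬ P.Int (y j)} from hj) hP
  set c : K[X] := ∏ s ∈ hbad.toFinset, (X - C s) with hc
  have hc0 : c ≠ 0 := Finset.prod_ne_zero_iff.2 fun s _ => X_sub_C_ne_zero s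
  have hce : ∀ s, c.eval s ≠ 0 → ∀ P : Place K E, P.Sm (ψ - algebraMap K E s) → ∀ j,
      P.Int (y j) := by
    intro s hs P hP j
    by_contra hj
    apply hs
    rw [hc, eval_prod]
    refine Finset.prod_eq_zero (i := s) (hbad.mem_toFinset.2 ⟨P, hP, j, hj⟩) ?_
    simp
  have hcne : ∀ s, (∀ P : Place K E, P.Sm (ψ - algebraMap K E s) → P ∈ S) → c.eval s ≠ 0 := by
    intro s hs
    rw [hc, eval_prod]
    refine Finset.prod_ne_zero_iff.2 fun s' hs' => ?_
    rw [eval_sub, eval_X, eval_C]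
    intro h0
    rw [sub_eq_zero.mp h0] at hs
    obtain ⟨P, hP, j, hj⟩ := hbad.mem_toFinset.1 hs'
    exact hj (hyS P (hs P hP) j).int
  -- zeros and poles
  have hS0 : ∀ P : Place K E, P.Sm (ψ - algebraMap K E 0) → P ∈ S := by
    intro P hP
    exact (hS P).2 ((sm_psi P hφ h1).1 hP).ne'
  have hS1 : ∀ P : Place K E, P.Sm (ψ - algebraMap K E 1) → P ∈ S := by
    intro P hP
    exact (hS P).2 ((sm_psi_one P hφ h1).1 hP).ne
  have hc00 := hcne 0 hS0
  have hc01 := hcne 1 hS1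
  -- the family
  set S' : K → Finset (Place K E) := fun s => (hfinψ s).toFinset with hS'
  have hS'mem : ∀ s P, P ∈ S' s ↔ P.Sm (ψ - algebraMap K E s) := by
    intro s P
    rw [hS']
    simp
  have hzex : ∀ P : Place K E, ∃ w : Fin (N + 1) → K, (∀ j, P.Int (y j)) → ∀ j, P.IsVal (y j) (w j) := by
    intro P
    by_cases h : ∀ j, P.Int (y j)
    · choose w hw using fun j => (h j).exists_isVal
      exact ⟨w, fun _ => hw⟩
    · exact ⟨0, fun h' => absurd h' h⟩
  choose z' hz' using hzex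
  have hz'S : ∀ P ∈ S, z P = (∑ i, algebraMap ℂ K (ℓ i) * z P i) • z' P := by
    intro P hP
    funext j
    have h2 := (hz' P fun j => (hyS P hP j).int) j
    have h3 := h2.unique (hyS P hP j)
    rw [Pi.smul_apply, smul_eq_mul, h3, mul_inv_cancel_left₀ (hℓS P hP)]
  have := (algebraic_of_transcendental a ha ψ hψt).2
  obtain ⟨n, FF, hFF⟩ := exists_family (N := N) ψ hψt c hc0 y hce S' hS'mem z' (by
    intro s hs P hP j
    exact hz' P (hce s hs P ((hS'mem s P).1 hP)) j)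
  set T : K → Multiset (Fin (N + 1) → K) := fun s =>
    ∑ P ∈ S' s, (P.ord (ψ - algebraMap K E s)).toNat • ({z' P} : Multiset (Fin (N + 1) → K)) with hT
  -- the points of the family
  have hpts : ∀ s, c.eval s ≠ 0 → ∀ w ∈ T s, On ξ w ∧ ∑ i, algebraMap ℂ K (ℓ i) * w i = 1 := by
    intro s hs w hw
    obtain ⟨P, hP, rfl⟩ := mem_sum_nsmul _ _ _ hw
    have h2 := hz' P (hce s hs P ((hS'mem s P).1 hP))
    have h3 : P.IsVal (lx⁻¹ * lx) (∑ i, algebraMap ℂ K (ℓ i) * z' P i) := hval P lx⁻¹ (z' P) h2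
    rw [inv_mul_cancel₀ hlx0] at h3
    have h4 : ∑ i, algebraMap ℂ K (ℓ i) * z' P i = 1 := h3.unique P.isVal_one
    have h5 : z' P ≠ 0 := by
      intro h0
      rw [h0] at h4
      simp at h4
    exact ⟨ctr_on hx ⟨h5, lx⁻¹, h2⟩, h4⟩
  have hpts0 : ∀ w : Fin (N + 1) → K, ∑ i, algebraMap ℂ K (ℓ i) * w i = 1 → w ≠ 0 := by
    intro w h4 h0
    rw [h0] at h4
    simp at h4
  have hlink : KLink ξ (T 0) (T 1) := by
    refine ⟨fun w hw => ⟨hpts0 w (hpts 0 hc00 w hw).2, (hpts 0 hc00 w hw).1⟩,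
      fun w hw => ⟨hpts0 w (hpts 1 hc01 w hw).2, (hpts 1 hc01 w hw).1⟩,
      ℓ, c, n, FF, c.eval 0 ^ n, c.eval 1 ^ n, hc0, pow_ne_zero _ hc00, pow_ne_zero _ hc01,
      ?_, ?_, ?_⟩
    · intro s hs
      exact ⟨T (algebraMap ℂ K s), hpts _ hs, hFF _ hs⟩
    · exact hFF 0 hc00
    · exact hFF 1 hc01
  have hmem : cyv (T 0) - cyv (T 1) ∈ KRat ξ :=
    AddSubgroup.subset_closure ⟨T 0, T 1, hlink, rfl⟩
  -- comparison
  have hT0 : cyv (T 0) = ∑ P ∈ S' 0, P.ord φ • (FreeAbelianGroup.of (z' P) : Zv N K) := by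
    rw [hT, cyv_sum]
    refine Finset.sum_congr rfl fun P hP => ?_
    have h2 := (hS'mem 0 P).1 hP
    have h3 := (sm_psi P hφ h1).1 h2
    rw [map_zero, sub_zero, ord_psi P hφ h1 h3, ← natCast_zsmul, Int.toNat_of_nonneg h3.le]
  have hT1 : cyv (T 1) = ∑ P ∈ S' 1, (-P.ord φ) • (FreeAbelianGroup.of (z' P) : Zv N K) := by
    rw [hT, cyv_sum]
    refine Finset.sum_congr rfl fun P hP => ?_
    have h2 := (hS'mem 1 P).1 hP
    have h3 := (sm_psi_one P hφ h1).1 h2
    rw [map_one, ord_psi_one P hφ h1 h3, ← natCast_zsmul, Int.toNat_of_nonneg (by omega)]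
  have hunion : S = S' 0 ∪ S' 1 := by
    ext P
    rw [Finset.mem_union, hS'mem, hS'mem, sm_psi P hφ h1, sm_psi_one P hφ h1, hS]
    omega
  have hdisj : Disjoint (S' 0) (S' 1) := by
    rw [Finset.disjoint_left]
    intro P hP hP'
    rw [hS'mem, sm_psi P hφ h1] at hP
    rw [hS'mem, sm_psi_one P hφ h1] at hP'
    omega
  have hdiff : cyv (T 0) - cyv (T 1) = ∑ P ∈ S, P.ord φ • (FreeAbelianGroup.of (z' P) : Zv N K) := by
    rw [hT0, hT1, hunion, Finset.sum_union hdisj, sub_eq_add_neg, ← Finset.sum_neg_distrib]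
    congr 1
    refine Finset.sum_congr rfl fun P hP => ?_
    rw [neg_smul, neg_neg]
  have hrest : ∑ P ∈ S, P.ord φ • (FreeAbelianGroup.of (z P) : Zv N K) -
      ∑ P ∈ S, P.ord φ • (FreeAbelianGroup.of (z' P) : Zv N K) ∈ KRat ξ := by
    rw [← Finset.sum_sub_distrib]
    refine AddSubgroup.sum_mem _ fun P hP => ?_
    rw [← smul_sub]
    refine AddSubgroup.zsmul_mem _ ?_ _
    have h2 : z P = (∑ i, algebraMap ℂ K (ℓ i) * z P i) • z' P := hz'S P hP
    have h3 : z' P ≠ 0 := by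
      intro h0
      rw [h0, smul_zero] at h2
      exact (hz P hP).1 h2
    have h4 : On ξ (z' P) := by
      refine ctr_on hx (P := P) ⟨h3, lx⁻¹, ?_⟩
      exact hz' P fun j => (hyS P hP j).int
    have h5 := rescale h3 h4 (∑ i, algebraMap ℂ K (ℓ i) * z P i) (hℓS P hP)
    rwa [← h2] at h5
  have h := AddSubgroup.add_mem _ hrest hmem
  rw [hdiff, sub_add_cancel] at h
  exact h

/-- Principal divisors. -/
theorem div_KRat (a : E) (ha : Transcendental K a) [FiniteDimensional K⟮a⟯ E]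
    {ξ : Fin (N + 1) → K} (x : Fin (N + 1) → E) (hx0 : x ≠ 0)
    (hx : ∀ (e : ℕ) (G : MvPolynomial (Fin (N + 1)) ℂ), G.IsHomogeneous e →
      MvPolynomial.aeval ξ G = 0 →
      MvPolynomial.eval₂ ((algebraMap K E).comp (algebraMap ℂ K)) x G = 0)
    (φ : E) (hφ : φ ≠ 0) (S : Finset (Place K E)) (hS : ∀ P : Place K E, P.ord φ ≠ 0 → P ∈ S)
    (z : Place K E → Fin (N + 1) → K) (hz : ∀ P ∈ S, IsCtr x P (z P)) :
    ∑ P ∈ S, P.ord φ • FreeAbelianGroup.of (z P) ∈ KRat ξ := by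
  classical
  have hsub : ∑ P ∈ S.filter (fun P => P.ord φ ≠ 0), P.ord φ • FreeAbelianGroup.of (z P) =
      ∑ P ∈ S, P.ord φ • FreeAbelianGroup.of (z P) := by
    refine Finset.sum_filter_of_ne fun P _ h => ?_
    intro h0
    exact h (by rw [h0, zero_smul])
  rw [← hsub]
  by_cases hφt : Transcendental K φ
  · rcases (S.filter (fun P => P.ord φ ≠ 0)).eq_empty_or_nonempty with he | hne
    · rw [he, Finset.sum_empty]
      exact AddSubgroup.zero_mem _
    · refine LinkAux.div_KRat_trans a ha x hx0 hx φ hφ hφt _ ?_ hne z ?_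
      · intro P
        rw [Finset.mem_filter]
        exact ⟨fun h => h.2, fun h => ⟨hS P h, h⟩⟩
      · intro P hP
        exact hz P (Finset.mem_filter.1 hP).1
  · rw [Transcendental, not_not] at hφt
    obtain ⟨c, hc⟩ := TraceValAux.mem_range_of_isIntegral φ hφt.isIntegral
    have hc0 : c ≠ 0 := by
      rintro rfl
      exact hφ (by rw [← hc, map_zero])
    have he : S.filter (fun P => P.ord φ ≠ 0) = ∅ := by
      refine Finset.filter_eq_empty_iff.2 fun P _ => ?_
      rw [not_not, ← hc]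
      exact P.ord_const c hc0
    rw [he, Finset.sum_empty]
    exact AddSubgroup.zero_mem _

end Pool.Agent.FibC
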