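import Pool.Agent.FibC.Model
import Pool.Agent.LowDeg.DerExt

/-! Module P7: existence of the model. -/

set_option autoImplicit false
set_option linter.unusedVariables false

open Polynomial IntermediateField

namespace Pool.Agent.FibC

open Pool.Agent.LowDeg

namespace ModelExAux

theorem exists_Omega {k K L : Type} [Field k] [Field K] [Field L] [Algebra k K] [Algebra k L]
    (a : L) (ha : Transcendental k a) [FiniteDimensional k⟮a⟯ L] :
    ∃ (E : Type) (_ : Field E) (_ : Algebra K E) (j : L →+* E),
      (∀ c : k, j (algebraMap k L c) = algebraMap K E (algebraMap k K c)) ∧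
      Transcendental K (j a) := by
  obtain ⟨Ω, _, _, hcl⟩ : ∃ (Ω : Type) (_ : Field Ω) (_ : Algebra (RatFunc K) Ω), IsAlgClosed Ω :=
    ⟨AlgebraicClosure (RatFunc K), inferInstance, inferInstance, inferInstance⟩
  let iK : Algebra K Ω := ((algebraMap (RatFunc K) Ω).comp (algebraMap K (RatFunc K))).toAlgebra
  have : IsScalarTower K (RatFunc K) Ω := IsScalarTower.of_algebraMap_eq (fun _ => rfl)
  set X : Ω := algebraMap (RatFunc K) Ω RatFunc.X with hX
  have hXt : Transcendental K X := by
    rw [hX, transcendental_algebraMap_iff (algebraMap (RatFunc K) Ω).injective]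
    exact RatFunc.transcendental_X
  let ik : Algebra k Ω := ((algebraMap K Ω).comp (algebraMap k K)).toAlgebra
  have : IsScalarTower k K Ω := IsScalarTower.of_algebraMap_eq (fun _ => rfl)
  have hXk : Transcendental k X := by
    intro h
    exact hXt (h.tower_top K)
  let e1 := RatFunc.algEquivOfTranscendental a ha
  let e2 := RatFunc.algEquivOfTranscendental X hXk
  let σ : k⟮a⟯ →ₐ[k] Ω := (k⟮X⟯.val).comp ((e1.symm.trans e2).toAlgHom)
  have hσ : σ (AdjoinSimple.gen k a) = X := by
    change ((e2 (e1.symm (AdjoinSimple.gen k a)) : k⟮X⟯) : Ω) = X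
    rw [RatFunc.algEquivOfTranscendental_symm_gen, RatFunc.algEquivOfTranscendental_X]
  let ia : Algebra k⟮a⟯ Ω := σ.toRingHom.toAlgebra
  have hia : ∀ x : k⟮a⟯, algebraMap k⟮a⟯ Ω x = σ x := fun _ => rfl
  have : Algebra.IsAlgebraic k⟮a⟯ L := Algebra.IsAlgebraic.of_finite _ _
  let ι : L →ₐ[k⟮a⟯] Ω := IsAlgClosed.lift
  refine ⟨Ω, inferInstance, iK, ι.toRingHom, fun c => ?_, ?_⟩
  · change ι (algebraMap k L c) = _
    rw [IsScalarTower.algebraMap_apply k k⟮a⟯ L, ι.commutes, hia, σ.commutes]
    rfl
  · have : ι.toRingHom a = X := by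
      have h2 := ι.commutes (AdjoinSimple.gen k a)
      rw [hia, hσ] at h2
      exact h2
    rw [this]
    exact hXt

/-- Steps 1 and 2 -/
theorem exists_E {k K L : Type} [Field k] [Field K] [Field L] [Algebra k K] [Algebra k L]
    (a : L) (ha : Transcendental k a) [FiniteDimensional k⟮a⟯ L] :
    ∃ (E : Type) (_ : Field E) (_ : Algebra K E) (j : L →+* E),
      (∀ c : k, j (algebraMap k L c) = algebraMap K E (algebraMap k K c)) ∧
      Transcendental K (j a) ∧ (∀ G : IntermediateField K E, (∀ x, j x ∈ G) → G = ⊤) := by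
  obtain ⟨Ω, _, _, ι, h1, h2⟩ := exists_Omega (K := K) a ha
  let E : IntermediateField K Ω := IntermediateField.adjoin K (Set.range ι)
  let j : L →+* E := ι.codRestrict E (fun x => IntermediateField.subset_adjoin K _ ⟨x, rfl⟩)
  refine ⟨E, inferInstance, inferInstance, j, fun c => ?_, ?_, fun G hG => ?_⟩
  · apply Subtype.ext
    exact h1 c
  · intro h
    apply h2
    exact (isAlgebraic_algebraMap_iff (R := K) (A := Ω) (a := j a) Subtype.val_injective).2 h
  · have h3 : E ≤ IntermediateField.lift G := by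
      apply IntermediateField.adjoin_le_iff.2
      rintro _ ⟨x, rfl⟩
      exact (IntermediateField.mem_lift (j x)).2 (hG x)
    rw [_root_.eq_top_iff]
    intro x _
    exact (IntermediateField.mem_lift x).1 (h3 x.2)

section Abs

variable {k K L E : Type} [Field k] [Field K] [Field L] [Field E] [Algebra k K] [Algebra k L]
  [Algebra K E]

theorem mem_adj {a : L} (j : L →+* E)
    (hc : ∀ c : k, j (algebraMap k L c) = algebraMap K E (algebraMap k K c)) {x : L}
    (hx : x ∈ k⟮a⟯) : j x ∈ K⟮j a⟯ := by
  let F : IntermediateField k L :=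
    { carrier := {x | j x ∈ K⟮j a⟯}
      mul_mem' := fun {x y} hx hy => by
        rw [Set.mem_ofPred_eq] at *
        rw [map_mul]
        exact mul_mem hx hy
      add_mem' := fun {x y} hx hy => by
        rw [Set.mem_ofPred_eq] at *
        rw [map_add]
        exact add_mem hx hy
      algebraMap_mem' := fun c => by
        rw [Set.mem_ofPred_eq, hc]
        exact IntermediateField.algebraMap_mem _ _
      inv_mem' := fun x hx => by
        rw [Set.mem_ofPred_eq] at *
        rw [map_inv₀]
        exact inv_mem hx }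
  have hF : k⟮a⟯ ≤ F := by
    rw [IntermediateField.adjoin_simple_le_iff]
    exact IntermediateField.mem_adjoin_simple_self K (j a)
  exact hF hx

theorem exists_ja {a : L} (j : L →+* E)
    (hc : ∀ c : k, j (algebraMap k L c) = algebraMap K E (algebraMap k K c)) :
    ∃ ja : k⟮a⟯ →+* K⟮j a⟯, ∀ x : k⟮a⟯, ((ja x : K⟮j a⟯) : E) = j (x : L) :=
  ⟨(j.comp (algebraMap k⟮a⟯ L)).codRestrict K⟮j a⟯ (fun x => mem_adj j hc x.2), fun _ => rfl⟩

/-- expansion in a basis -/
theorem j_expand {a : L} (j : L →+* E) (ja : k⟮a⟯ →+* K⟮j a⟯)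
    (hja : ∀ x : k⟮a⟯, ((ja x : K⟮j a⟯) : E) = j (x : L)) {m : ℕ}
    (b : Module.Basis (Fin m) k⟮a⟯ L) (x : L) :
    j x = ∑ i, (ja (b.repr x i)) • j (b i) := by
  conv_lhs => rw [← b.sum_repr x]
  rw [map_sum]
  refine Finset.sum_congr rfl (fun i _ => ?_)
  rw [Algebra.smul_def, map_mul, Algebra.smul_def]
  congr 1
  exact (hja _).symm

theorem span_top {a : L} [FiniteDimensional k⟮a⟯ L] (j : L →+* E)
    (hc : ∀ c : k, j (algebraMap k L c) = algebraMap K E (algebraMap k K c))
    (hgen : ∀ G : IntermediateField K E, (∀ x, j x ∈ G) → G = ⊤) {m : ℕ}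
    (b : Module.Basis (Fin m) k⟮a⟯ L) :
    Submodule.span K⟮j a⟯ (Set.range (fun i => j (b i))) = ⊤ := by
  obtain ⟨ja, hja⟩ := exists_ja (K := K) (a := a) j hc
  have h1 : ∀ x : L, j x ∈ Submodule.span K⟮j a⟯ (Set.range (fun i => j (b i))) := by
    intro x
    rw [j_expand j ja hja b x]
    exact Submodule.sum_mem _ (fun i _ => Submodule.smul_mem _ _
      (Submodule.subset_span ⟨i, rfl⟩))
  have halg : ∀ y ∈ Set.range j, IsAlgebraic K⟮j a⟯ y := by
    rintro _ ⟨x, rfl⟩
    have hx : IsAlgebraic k⟮a⟯ x := (IsIntegral.of_finite _ x).isAlgebraic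
    exact hx.ringHom_of_comp_eq ja j ja.injective (RingHom.ext (fun y => hja y))
  have h2 := IntermediateField.adjoin_toSubalgebra_of_isAlgebraic halg
  have h3 : (IntermediateField.adjoin K⟮j a⟯ (Set.range j)).restrictScalars K = ⊤ := by
    apply hgen
    intro x
    exact IntermediateField.subset_adjoin K⟮j a⟯ _ ⟨x, rfl⟩
  have h4 : Subalgebra.toSubmodule (Algebra.adjoin K⟮j a⟯ (Set.range j)) =
      Submodule.span K⟮j a⟯ (Set.range j) := by
    rw [Algebra.adjoin_eq_span]
    congr 1
    have : Set.range j = ((MonoidHom.mrange (j : L →* E) : Submonoid E) : Set E) := by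
      ext y
      simp
    rw [this, Submonoid.closure_eq]
  rw [_root_.eq_top_iff]
  intro y _
  have h5 : y ∈ (IntermediateField.adjoin K⟮j a⟯ (Set.range j)).restrictScalars K := by
    rw [h3]
    exact IntermediateField.mem_top
  have h6 : y ∈ Algebra.adjoin K⟮j a⟯ (Set.range j) := by
    rw [← h2]
    exact h5
  have h7 : y ∈ Submodule.span K⟮j a⟯ (Set.range j) := by
    rw [← h4]
    exact h6
  refine Submodule.span_le.2 ?_ h7
  rintro _ ⟨x, rfl⟩
  exact h1 x

end Abs

section Der

variable {k K L E : Type} [Field k] [Field K] [Field L] [Field E] [Algebra k K] [Algebra k L]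
  [Algebra K E]

theorem exists_DE [CharZero k] {a : L} [FiniteDimensional k⟮a⟯ L] (j : L →+* E)
    (hc : ∀ c : k, j (algebraMap k L c) = algebraMap K E (algebraMap k K c))
    (trans : Transcendental K (j a)) [FiniteDimensional K⟮j a⟯ E] (D : Derivation k K K) :
    ∃ DE : Derivation ℤ E E, (∀ x : K, DE (algebraMap K E x) = algebraMap K E (D x)) ∧
      ∀ x : L, DE (j x) = 0 := by
  have : CharZero K := charZero_of_injective_algebraMap (algebraMap k K).injective
  have : CharZero k⟮a⟯ := charZero_of_injective_algebraMap (algebraMap k k⟮a⟯).injective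
  let ik : Algebra k E := ((algebraMap K E).comp (algebraMap k K)).toAlgebra
  have : IsScalarTower k K E := IsScalarTower.of_algebraMap_eq (fun _ => rfl)
  obtain ⟨D1, h1, h2⟩ := exists_derivation (k := k) (j a) trans D 0
  let iL : Algebra L E := j.toAlgebra
  let ikk : Algebra k⟮a⟯ E := (j.comp (algebraMap k⟮a⟯ L)).toAlgebra
  have : IsScalarTower k⟮a⟯ L E := IsScalarTower.of_algebraMap_eq (fun _ => rfl)
  let F : IntermediateField k L :=
    { carrier := {x | D1 (j x) = 0}
      mul_mem' := fun {x y} hx hy => by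
        rw [Set.mem_ofPred_eq] at *
        rw [map_mul, Derivation.leibniz, hx, hy, smul_zero, smul_zero, add_zero]
      add_mem' := fun {x y} hx hy => by
        rw [Set.mem_ofPred_eq] at *
        rw [map_add, map_add, hx, hy, add_zero]
      algebraMap_mem' := fun c => by
        rw [Set.mem_ofPred_eq, hc, h1, Derivation.map_algebraMap, map_zero]
      inv_mem' := fun x hx => by
        rw [Set.mem_ofPred_eq] at *
        rw [map_inv₀, Derivation.leibniz_inv, hx, smul_zero] }
  have hF : k⟮a⟯ ≤ F := by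
    rw [IntermediateField.adjoin_simple_le_iff]
    exact h2
  let d' : Derivation k⟮a⟯ L E :=
    Derivation.mk'
      { toFun := fun x => D1 (j x)
        map_add' := fun x y => by rw [map_add, map_add]
        map_smul' := fun r x => by
          have hr : D1 (j (algebraMap k⟮a⟯ L r)) = 0 := hF r.2
          rw [Algebra.smul_def, map_mul, Derivation.leibniz, hr, smul_zero, add_zero,
            RingHom.id_apply, smul_eq_mul]
          exact (Algebra.smul_def r (D1 (j x))).symm }
      (fun x y => by
        change D1 (j (x * y)) = x • D1 (j y) + y • D1 (j x)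
        rw [map_mul, Derivation.leibniz]
        rfl)
  have : Algebra.IsAlgebraic k⟮a⟯ L := Algebra.IsAlgebraic.of_finite _ _
  have : Algebra.FormallyEtale k⟮a⟯ L := Algebra.FormallyEtale.of_isSeparable _ _
  have : Subsingleton (Ω[L⁄k⟮a⟯]) := inferInstance
  have hz : ∀ x : L, d' x = 0 := by
    intro x
    rw [← d'.liftKaehlerDifferential_comp_D x, Subsingleton.elim (KaehlerDifferential.D k⟮a⟯ L x) 0,
      map_zero]
  refine ⟨D1.restrictScalars ℤ, h1, hz⟩

theorem DE_aeval (D : Derivation k K K) (DE : Derivation ℤ E E)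
    (DE_K : ∀ x : K, DE (algebraMap K E x) = algebraMap K E (D x)) (t : E) (ht : DE t = 0)
    (p : K[X]) : ∃ p' : K[X], (∀ i, p'.coeff i = D (p.coeff i)) ∧
      DE (aeval t p) = aeval t p' := by
  induction p using Polynomial.induction_on' with
  | add p q h1 h2 =>
    obtain ⟨p', h1, h1'⟩ := h1
    obtain ⟨q', h2, h2'⟩ := h2
    refine ⟨p' + q', fun i => ?_, ?_⟩
    · rw [coeff_add, coeff_add, map_add, h1, h2]
    · rw [map_add, map_add, map_add, h1', h2']
  | monomial n c =>
    refine ⟨monomial n (D c), fun i => ?_, ?_⟩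
    · rw [coeff_monomial, coeff_monomial]
      split_ifs
      · rfl
      · rw [map_zero]
    · rw [aeval_monomial, aeval_monomial, Derivation.leibniz, Derivation.leibniz_pow, ht, DE_K]
      simp only [smul_eq_mul, mul_zero, smul_zero, zero_mul, zero_add]
      ring

/-- the field `K(t)` is closed under the derivation -/
theorem DE_mem (D : Derivation k K K) (DE : Derivation ℤ E E)
    (DE_K : ∀ x : K, DE (algebraMap K E x) = algebraMap K E (D x)) (t : E) (ht : DE t = 0)
    {x : E} (hx : x ∈ K⟮t⟯) : DE x ∈ K⟮t⟯ := by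
  let F : IntermediateField K E :=
    { carrier := {x | x ∈ K⟮t⟯ ∧ DE x ∈ K⟮t⟯}
      mul_mem' := fun {x y} hx hy => by
        rw [Set.mem_ofPred_eq] at *
        refine ⟨mul_mem hx.1 hy.1, ?_⟩
        rw [Derivation.leibniz, smul_eq_mul, smul_eq_mul]
        exact add_mem (mul_mem hx.1 hy.2) (mul_mem hy.1 hx.2)
      add_mem' := fun {x y} hx hy => by
        rw [Set.mem_ofPred_eq] at *
        refine ⟨add_mem hx.1 hy.1, ?_⟩
        rw [map_add]
        exact add_mem hx.2 hy.2
      algebraMap_mem' := fun c => by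
        rw [Set.mem_ofPred_eq, DE_K]
        exact ⟨IntermediateField.algebraMap_mem _ _, IntermediateField.algebraMap_mem _ _⟩
      inv_mem' := fun x hx => by
        rw [Set.mem_ofPred_eq] at *
        refine ⟨inv_mem hx.1, ?_⟩
        rw [Derivation.leibniz_inv, smul_eq_mul]
        exact mul_mem (neg_mem (pow_mem (inv_mem hx.1) 2)) hx.2 }
  have hF : K⟮t⟯ ≤ F := by
    rw [IntermediateField.adjoin_simple_le_iff]
    refine ⟨IntermediateField.mem_adjoin_simple_self K t, ?_⟩
    rw [ht]
    exact zero_mem _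
  exact (hF hx).2

/-- constants -/
theorem const_mem {a : L} (j : L →+* E)
    (hc : ∀ c : k, j (algebraMap k L c) = algebraMap K E (algebraMap k K c))
    (trans : Transcendental K (j a)) (D : Derivation k K K)
    (hD : ∀ x : K, D x = 0 → ∃ c : k, x = algebraMap k K c) (DE : Derivation ℤ E E)
    (DE_K : ∀ x : K, DE (algebraMap K E x) = algebraMap K E (D x))
    (DE_L : ∀ x : L, DE (j x) = 0) {x : E} (hx : x ∈ K⟮j a⟯) (hx0 : DE x = 0) :
    ∃ c : k⟮a⟯, x = j (c : L) := by
  have hinj : Function.Injective (aeval (j a) : K[X] →ₐ[K] E) := transcendental_iff_injective.1 trans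
  obtain ⟨f, hf⟩ := (RatFunc.algEquivOfTranscendental (j a) trans).surjective ⟨x, hx⟩
  have hf1 : x = aeval (j a) f.num / aeval (j a) f.denom := by
    rw [← RatFunc.algEquivOfTranscendental_apply (j a) trans f, hf]
  set p := f.num with hp
  set q := f.denom with hq
  have hcop : IsCoprime p q := f.isCoprime_num_denom
  have hqm : q.Monic := f.monic_denom
  have hq0 : aeval (j a) q ≠ 0 := by
    intro h
    apply hqm.ne_zero
    apply hinj
    rw [h, map_zero]
  obtain ⟨p', hp1, hp2⟩ := DE_aeval D DE DE_K (j a) (DE_L a) p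
  obtain ⟨q', hq1, hq2⟩ := DE_aeval D DE DE_K (j a) (DE_L a) q
  have h1 : x * aeval (j a) q = aeval (j a) p := by
    rw [hf1, div_mul_cancel₀ _ hq0]
  have h2 : aeval (j a) p' = x * aeval (j a) q' := by
    rw [← hp2, ← h1, Derivation.leibniz, hx0, smul_zero, add_zero, smul_eq_mul, hq2]
  have h3 : p' * q = p * q' := by
    apply hinj
    rw [map_mul, map_mul, h2, ← h1]
    ring
  have h4 : q ∣ q' := by
    have h5 : q ∣ p * q' := ⟨p', by rw [← h3, mul_comm]⟩
    exact hcop.symm.dvd_of_dvd_mul_left h5
  have hdeg : ∀ i, q.natDegree ≤ i → q'.coeff i = 0 := by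
    intro i hi
    rw [hq1]
    rcases hi.eq_or_lt with h | h
    · rw [← h]
      have : q.coeff q.natDegree = 1 := hqm
      rw [this, Derivation.map_one_eq_zero]
    · rw [coeff_eq_zero_of_natDegree_lt h, map_zero]
  have h5 : q' = 0 := by
    by_contra hne
    have h6 := Polynomial.natDegree_le_of_dvd h4 hne
    have h7 := hdeg _ h6
    exact hne (Polynomial.leadingCoeff_eq_zero.1 h7)
  have h6 : p' = 0 := by
    rw [h5, mul_zero] at h3
    exact (mul_eq_zero.1 h3).resolve_right hqm.ne_zero
  have key : ∀ (r r' : K[X]), (∀ i, r'.coeff i = D (r.coeff i)) → r' = 0 →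
      ∃ r0 : k[X], r = r0.map (algebraMap k K) := by
    intro r r' h h0
    have : r ∈ Polynomial.lifts (algebraMap k K) := by
      rw [Polynomial.lifts_iff_coeff_lifts]
      intro n
      obtain ⟨c, hc⟩ := hD (r.coeff n) (by rw [← h, h0, coeff_zero])
      exact ⟨c, hc.symm⟩
    obtain ⟨r0, hr0⟩ := (Polynomial.mem_lifts _).1 this
    exact ⟨r0, hr0.symm⟩
  obtain ⟨p0, hp0⟩ := key p p' hp1 h6
  obtain ⟨q0, hq0'⟩ := key q q' hq1 h5
  have hmap : ∀ r0 : k[X], aeval (j a) (r0.map (algebraMap k K)) = j (aeval a r0) := by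
    intro r0
    induction r0 using Polynomial.induction_on' with
    | add p q h1 h2 => rw [Polynomial.map_add, map_add, map_add, map_add, h1, h2]
    | monomial n c =>
      rw [Polynomial.map_monomial, aeval_monomial, aeval_monomial, map_mul, hc, map_pow]
  have hmem : ∀ r0 : k[X], aeval a r0 ∈ k⟮a⟯ := fun r0 =>
    IntermediateField.algebra_adjoin_le_adjoin k _ (Polynomial.aeval_mem_adjoin_singleton k a)
  refine ⟨⟨aeval a p0 / aeval a q0, div_mem (hmem p0) (hmem q0)⟩, ?_⟩
  change x = j (aeval a p0 / aeval a q0)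
  rw [hf1, hp0, hq0', hmap, hmap, map_div₀]

theorem indep {a : L} (j : L →+* E)
    (hc : ∀ c : k, j (algebraMap k L c) = algebraMap K E (algebraMap k K c))
    (trans : Transcendental K (j a)) (D : Derivation k K K)
    (hD : ∀ x : K, D x = 0 → ∃ c : k, x = algebraMap k K c) (DE : Derivation ℤ E E)
    (DE_K : ∀ x : K, DE (algebraMap K E x) = algebraMap K E (D x))
    (DE_L : ∀ x : L, DE (j x) = 0) {m : ℕ} (b : Module.Basis (Fin m) k⟮a⟯ L) :
    LinearIndependent K⟮j a⟯ (fun i => j (b i)) := by
  have main : ∀ (n : ℕ) (s : Finset (Fin m)), s.card = n → ∀ c : Fin m → E,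
      (∀ i, c i ∈ K⟮j a⟯) → ∑ i ∈ s, c i * j (b i) = 0 → ∀ i ∈ s, c i = 0 := by
    intro n
    induction n with
    | zero =>
      intro s hs c _ _ i hi
      rw [Finset.card_eq_zero] at hs
      rw [hs] at hi
      exact absurd hi (Finset.notMem_empty i)
    | succ n ih =>
      intro s hs c hcm hsum
      by_contra hcon
      push Not at hcon
      obtain ⟨i0, hi0, hne⟩ := hcon
      set c' : Fin m → E := fun i => c i / c i0 with hc'
      have hcm' : ∀ i, c' i ∈ K⟮j a⟯ := fun i => div_mem (hcm i) (hcm i0)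
      have h1 : c' i0 = 1 := div_self hne
      have hsum' : ∑ i ∈ s, c' i * j (b i) = 0 := by
        have : ∑ i ∈ s, c' i * j (b i) = (c i0)⁻¹ * ∑ i ∈ s, c i * j (b i) := by
          rw [Finset.mul_sum]
          refine Finset.sum_congr rfl (fun i _ => ?_)
          rw [hc']
          change c i / c i0 * _ = _
          rw [div_eq_inv_mul, mul_assoc]
        rw [this, hsum, mul_zero]
      have h2 : ∑ i ∈ s.erase i0, DE (c' i) * j (b i) = 0 := by
        have h3 := congrArg DE hsum'
        rw [map_sum, map_zero, ← Finset.add_sum_erase _ _ hi0, h1] at h3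
        rw [← h3]
        rw [one_mul, DE_L, zero_add]
        refine Finset.sum_congr rfl (fun i _ => ?_)
        rw [Derivation.leibniz, DE_L, smul_zero, zero_add, smul_eq_mul, mul_comm]
      have h4 : ∀ i ∈ s, DE (c' i) = 0 := by
        intro i hi
        by_cases h : i = i0
        · rw [h, h1, Derivation.map_one_eq_zero]
        · refine ih (s.erase i0) (by rw [Finset.card_erase_of_mem hi0, hs]; rfl)
            (fun i => DE (c' i)) (fun i => DE_mem D DE DE_K (j a) (DE_L a) (hcm' i)) h2 i
            (Finset.mem_erase.2 ⟨h, hi⟩)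
      have h5 : ∀ i, ∃ d : k⟮a⟯, i ∈ s → c' i = j (d : L) := by
        intro i
        by_cases hi : i ∈ s
        · obtain ⟨d, hd⟩ := const_mem j hc trans D hD DE DE_K DE_L (hcm' i) (h4 i hi)
          exact ⟨d, fun _ => hd⟩
        · exact ⟨0, fun h => absurd h hi⟩
      choose d hd using h5
      have h6 : ∑ i ∈ s, d i • b i = 0 := by
        apply j.injective
        rw [map_sum, map_zero, ← hsum']
        refine Finset.sum_congr rfl (fun i hi => ?_)
        rw [hd i hi, ← map_mul]
        rfl
      have h7 := linearIndependent_iff'.1 b.linearIndependent s d h6 i0 hi0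
      have h8 := hd i0 hi0
      rw [h7, h1] at h8
      have h9 : ((0 : k⟮a⟯) : L) = 0 := rfl
      rw [h9, map_zero] at h8
      exact one_ne_zero h8
  rw [linearIndependent_iff']
  intro s g hg i hi
  have := main s.card s rfl (fun i => (g i : E)) (fun i => (g i).2) hg i hi
  exact Subtype.ext this

theorem exists_basis {a : L} [FiniteDimensional k⟮a⟯ L] (j : L →+* E)
    (hc : ∀ c : k, j (algebraMap k L c) = algebraMap K E (algebraMap k K c))
    (hgen : ∀ G : IntermediateField K E, (∀ x, j x ∈ G) → G = ⊤)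
    (trans : Transcendental K (j a)) (D : Derivation k K K)
    (hD : ∀ x : K, D x = 0 → ∃ c : k, x = algebraMap k K c) (DE : Derivation ℤ E E)
    (DE_K : ∀ x : K, DE (algebraMap K E x) = algebraMap K E (D x))
    (DE_L : ∀ x : L, DE (j x) = 0) {m : ℕ} (b : Module.Basis (Fin m) k⟮a⟯ L) :
    ∃ bE : Module.Basis (Fin m) K⟮j a⟯ E, ∀ i, bE i = j (b i) := by
  refine ⟨Module.Basis.mk (indep j hc trans D hD DE DE_K DE_L b)
    (span_top j hc hgen b).ge, fun i => ?_⟩
  rw [Module.Basis.mk_apply]

theorem trace_eq {a : L} (j : L →+* E)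
    (hc : ∀ c : k, j (algebraMap k L c) = algebraMap K E (algebraMap k K c))
    {m : ℕ} (b : Module.Basis (Fin m) k⟮a⟯ L) (bE : Module.Basis (Fin m) K⟮j a⟯ E)
    (hb : ∀ i, bE i = j (b i)) (x : L) :
    ((Algebra.trace K⟮j a⟯ E (j x) : K⟮j a⟯) : E) = j (Algebra.trace k⟮a⟯ L x : k⟮a⟯) := by
  obtain ⟨ja, hja⟩ := exists_ja (K := K) (a := a) j hc
  have h1 : ∀ (y : L) (i : Fin m), bE.repr (j y) i = ja (b.repr y i) := by
    intro y i
    have h2 : j y = ∑ l, (ja (b.repr y l)) • bE l := by
      rw [j_expand j ja hja b y]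
      refine Finset.sum_congr rfl (fun l _ => ?_)
      rw [hb]
    rw [h2, map_sum]
    rw [Finsupp.finsetSum_apply]
    simp only [map_smul, Module.Basis.repr_self, Finsupp.smul_apply, Finsupp.single_apply,
      smul_eq_mul, mul_ite, mul_one, mul_zero]
    simp
  rw [Algebra.trace_eq_matrix_trace b, Algebra.trace_eq_matrix_trace bE, ← hja]
  congr 1
  rw [Matrix.trace, Matrix.trace, map_sum]
  refine Finset.sum_congr rfl (fun i _ => ?_)
  rw [Matrix.diag_apply, Matrix.diag_apply, Algebra.leftMulMatrix_eq_repr_mul,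
    Algebra.leftMulMatrix_eq_repr_mul, hb, ← map_mul, h1]

end Der

end ModelExAux

open ModelExAux in
/-- PROOF: `Ω` = algebraic closure of `RatFunc K`, `X ∈ Ω`. Since `L` is algebraic over `k⟮a⟯` and `Ω`
is algebraically closed there is `ι : L → Ω` over `k` with `ι a = X` (`k⟮a⟯ → Ω`, `a ↦ X`, as `a` and
`X` are transcendental over `k`). `E` = the subfield `K(ι L)` of `Ω`; it is spanned over `K(X)` by the
`ι (b i)`, `b` a basis of `L / k(a)` (this span is a ring, finite over the field `K(X)`, so a field).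
The derivation `D` extends to `K(X)` by `X ↦ 0` and to `Ω` (algebraic, characteristic zero;
`LowDeg.exists_derivation` for finite extensions suffices: take `E'` = finite extension of `K(X)`
generated by `ι L`), it is zero on `ι L` (algebraic over `k(X)`, on which it is zero).
INDEPENDENCE of `ι (b i)` over `K(X)`: let `∑ c i ι (b i) = 0` be a nontrivial relation with the
least number of nonzero `c i ∈ K(X)`, one of them equal to `1`. Applying the derivation gives a
shorter relation `∑ (∂ c i) ι (b i) = 0`, so all `∂ c i = 0`, so `c i ∈ k(X)` (write `c = p / q` with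
`p, q ∈ K[X]` coprime, `q` monic: `p' q = p q'` (derivatives of the coefficients) gives `q ∣ q'`,
`deg q' < deg q`, so `q' = 0`, `p' = 0`, so the coefficients are in the image of `k` by `hD`),
contradicting the independence of the `b i` over `k(a)`.
TRACE: `Algebra.trace_eq_matrix_trace` with the bases `b` and `bE`; the matrices of the
multiplication by `x` and by `ι x` agree. -/
theorem exists_model {k K L : Type} [Field k] [IsAlgClosed k] [CharZero k] [Field K] [Field L]
    [Algebra k K] [Algebra k L] (a : L) (ha : Transcendental k a) [FiniteDimensional k⟮a⟯ L]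
    (D : Derivation k K K) (hD : ∀ x : K, D x = 0 → ∃ c : k, x = algebraMap k K c) :
    Nonempty (Model k K L a D) := by
  obtain ⟨E, fE, aE, j, hc, trans, hgen⟩ := exists_E (K := K) a ha
  have b := Module.finBasis k⟮a⟯ L
  have fin : FiniteDimensional K⟮j a⟯ E := by
    refine ⟨⟨(Set.finite_range (fun i => j (b i))).toFinset, ?_⟩⟩
    rw [Set.Finite.coe_toFinset]
    exact span_top j hc hgen b
  obtain ⟨DE, DE_K, DE_L⟩ := exists_DE j hc trans D
  refine ⟨{ E := E, fE := fE, aE := aE, j := j, comm := hc, trans := trans, fin := fin, DE := DE, DE_K := DE_K, DE_L := DE_L, basis := fun b => exists_basis j hc hgen trans D hD DE DE_K DE_L b, trace := fun x => ?_ }⟩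
  obtain ⟨bE, hbE⟩ := exists_basis j hc hgen trans D hD DE DE_K DE_L b
  exact trace_eq j hc b bE hbE x

end Pool.Agent.FibC
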