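import Pool.Agent.FibC.Unram

/-! Module P10: embeddings of `L` in `K` come from places. -/

set_option autoImplicit false
set_option linter.unusedVariables false

open Polynomial IntermediateField

namespace Pool.Agent.FibC

open Pool.Agent.LowDeg

namespace PlaceHomAux

/-- Two embeddings with the same value at `a` agree on `k(a)`. -/
theorem agree {k K L : Type} [Field k] [Field K] [Field L] [Algebra k K] [Algebra k L] {a : L}
    (σ τ : L →ₐ[k] K) (h : τ a = σ a) (x : k⟮a⟯) : τ (x : L) = σ (x : L) := by
  have h1 : τ.comp k⟮a⟯.val = σ.comp k⟮a⟯.val := by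
    apply IntermediateField.adjoin_algHom_ext
    intro y hy
    rw [Set.mem_singleton_iff] at hy
    subst hy
    exact h
  exact DFunLike.congr_fun h1 x

/-- If `S` indexes pairwise different embeddings with the same value at `a` as `σ` and has `[L : k(a)]`
elements, then `σ` is one of them. -/
theorem mem_of_card {k K L : Type} [Field k] [Field K] [Field L] [Algebra k K] [Algebra k L] {a : L}
    [FiniteDimensional k⟮a⟯ L] (σ : L →ₐ[k] K) {ι : Type} (S : Finset ι)
    (hS : S.card = Module.finrank k⟮a⟯ L) (τ : S → (L →ₐ[k] K)) (ha : ∀ P, τ P a = σ a)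
    (hinj : Function.Injective τ) : ∃ P, τ P = σ := by
  classical
  letI : Algebra k⟮a⟯ K := (σ.toRingHom.comp (algebraMap k⟮a⟯ L)).toAlgebra
  have hal : ∀ x : k⟮a⟯, algebraMap k⟮a⟯ K x = σ (x : L) := fun x => rfl
  let f : ∀ ρ : L →ₐ[k] K, ρ a = σ a → (L →ₐ[k⟮a⟯] K) := fun ρ hρ =>
    { ρ.toRingHom with
      commutes' := fun x => by
        show ρ (x : L) = _
        rw [hal, agree σ ρ hρ] }
  have hf : ∀ ρ hρ x, f ρ hρ x = ρ x := fun ρ hρ x => rfl
  have hfin : Finite (L →ₐ[k⟮a⟯] K) := inferInstance
  have hcard : Nat.card (L →ₐ[k⟮a⟯] K) ≤ Module.finrank k⟮a⟯ L := card_algHom_le_finrank _ _ _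
  let g : S → (L →ₐ[k⟮a⟯] K) := fun P => f (τ P) (ha P)
  have hg : Function.Injective g := by
    intro P Q h
    apply hinj
    apply AlgHom.ext
    intro x
    have := DFunLike.congr_fun h x
    exact this
  have hb : Function.Bijective g := by
    apply hg.bijective_of_nat_card_le
    have h1 : Nat.card S = Module.finrank k⟮a⟯ L := by
      rw [Nat.card_eq_fintype_card, Fintype.card_coe, hS]
    rw [h1]
    exact hcard
  obtain ⟨P, hP⟩ := hb.2 (f σ rfl)
  refine ⟨P, AlgHom.ext fun x => ?_⟩
  exact DFunLike.congr_fun hP x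

end PlaceHomAux

variable {k K L : Type} [Field k] [IsAlgClosed k] [CharZero k] [Field K] [IsAlgClosed K] [CharZero K]
  [Field L] [Algebra k K] [Algebra k L] {a : L} {D : Derivation k K K} (M : Model k K L a D)

/-- Every embedding of `L` in `K` over `k` comes from a place.

PROOF: `c = σ a` is not in `k` (injectivity, `a` transcendental). By `card_over` there are exactly
`m = [L : k(a)]` places over the value `c` of `a` (a finite set by `finite_zeros`), they are trivial
on `L` (`triv_iff`), and their value maps (`triv_hom`) are pairwise different embeddings `L → K` over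
`k` with `a ↦ c` (`triv_unique`). There are at most `m` embeddings of `L` in `K` over `k` with `a ↦ c`
(`K` becomes an algebra over `k⟮a⟯` by `a ↦ c`; they are the `k⟮a⟯`-algebra homomorphisms `L → K`;
`AlgHom.card_le`), so `σ` is one of them. -/
theorem exists_place_hom (ha : Transcendental k a) [FiniteDimensional k⟮a⟯ L] (σ : L →ₐ[k] K) :
    ∃ P : Place K M.E, M.Triv P σ := by
  classical
  set c : K := σ a with hc
  have hck : c ∉ Set.range (algebraMap k K) := by
    rintro ⟨c₀, hc₀⟩
    apply ha
    have h1 : σ (algebraMap k L c₀) = σ a := by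
      rw [AlgHom.commutes, hc₀]
    have h2 : algebraMap k L c₀ = a := σ.toRingHom.injective h1
    rw [← h2]
    exact isAlgebraic_algebraMap c₀
  set t : M.E := M.j a - algebraMap K M.E c with ht
  have ht0 : t ≠ 0 := by
    intro h0
    apply M.trans
    rw [sub_eq_zero.1 h0]
    exact isAlgebraic_algebraMap c
  have hfin : {P : Place K M.E | P.ord t ≠ 0}.Finite := finite_zeros (M.j a) M.trans t ht0
  let S : Finset (Place K M.E) := hfin.toFinset.filter fun P => P.IsVal (M.j a) c
  have hS : ∀ P, P ∈ S ↔ P.IsVal (M.j a) c := by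
    intro P
    simp only [S, Finset.mem_filter, Set.Finite.mem_toFinset, Set.mem_ofPred_eq]
    refine ⟨fun h => h.2, fun h => ⟨?_, h⟩⟩
    have h1 : P.Sm t := h
    have := (P.sm_iff_ord ht0).1 h1
    omega
  have hcard := card_over M ha hck S hS
  have hex : ∀ P : S, ∃ τ : L →ₐ[k] K, M.Triv P.1 τ := by
    intro P
    have hv := (hS P.1).1 P.2
    obtain ⟨v, hv'⟩ := (triv_iff M ha hv).2 hck
    obtain ⟨τ, hτ⟩ := triv_hom M hv'
    refine ⟨τ, fun x => ?_⟩
    rw [hτ x]
    exact hv' x
  choose τ hτ using hex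
  obtain ⟨P, hP⟩ := PlaceHomAux.mem_of_card (a := a) σ S hcard τ
    (fun P => (hτ P a).unique ((hS P.1).1 P.2))
    (fun P Q h => Subtype.ext (triv_unique M ha (hτ P) (by rw [h]; exact hτ Q)))
  exact ⟨P.1, by rw [← hP]; exact hτ P⟩

end Pool.Agent.FibC
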