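import Pool.Agent.FibC.MinDeg
import Pool.Agent.FibC.PlaceHom
import Pool.Agent.FibC.Link
import Pool.Agent.FibC.ModelEx

/-! Module P18: cycles of generic points of a curve over `k` which are orthogonal to the regular
differentials. -/

set_option autoImplicit false
set_option linter.unusedVariables false

open Polynomial IntermediateField

namespace Pool.Agent.FibC

open Pool.Agent.LowDeg

namespace ALAux

section fiber
variable {ι β A : Type} [Fintype ι] [AddCommGroup A]

/-- a sum over the fibres of a map -/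
theorem sum_fib [DecidableEq β] (P : ι → β) (c : ι → ℤ) (f : β → A) (g : ι → A)
    (hfg : ∀ i, f (P i) = g i) :
    ∑ Q ∈ Finset.univ.image P, (∑ i ∈ Finset.univ.filter (fun i => P i = Q), c i) • f Q =
      ∑ i, c i • g i := by
  classical
  rw [← Finset.sum_fiberwise_of_maps_to (s := (Finset.univ : Finset ι))
    (t := Finset.univ.image P) (g := P) (fun i _ => Finset.mem_image_of_mem P (Finset.mem_univ i))
    (fun i => c i • g i)]
  refine Finset.sum_congr rfl fun Q _ => ?_
  rw [Finset.sum_smul]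
  refine Finset.sum_congr rfl fun i hi => ?_
  rw [← hfg i, (Finset.mem_filter.mp hi).2]

end fiber

variable {N : ℕ} {k K L : Type} [Field k] [IsAlgClosed k] [CharZero k] [Field K] [IsAlgClosed K]
  [CharZero K] [Algebra ℂ K] [Field L] [Algebra k K] [Algebra k L] {a : L} {D : Derivation k K K}
  (M : Model k K L a D)

/-- the centre at a place trivial on `L` -/
theorem ctr_triv (x : Fin (N + 1) → L) (hx0 : x ≠ 0) {P : Place K M.E} {σ : L →ₐ[k] K}
    (h : M.Triv P σ) : IsCtr (fun j => M.j (x j)) P (fun j => σ (x j)) := by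
  refine ⟨?_, 1, fun j => ?_⟩
  · intro h0
    apply hx0
    funext j
    have h1 := congrFun h0 j
    simpa using h1
  · rw [one_mul]
    exact h (x j)

/-- the centre at a place not trivial on `L` has coordinates in `k` -/
theorem ctr_not_triv (τ : ℂ →+* k) (ha : Transcendental k a) [FiniteDimensional k⟮a⟯ L]
    (x : Fin (N + 1) → L) (hx0 : x ≠ 0) {P : Place K M.E} (h : ¬ M.IsTriv P) :
    ∃ z : Fin (N + 1) → K, IsCtr (fun j => M.j (x j)) P z ∧
      ∀ j, z j ∈ Set.range (algebraMap k K) := by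
  obtain ⟨P₀, -, hs⟩ := (triv_or M ha P).resolve_left h
  letI : Algebra ℂ k := τ.toAlgebra
  obtain ⟨z, hz0, g, hz⟩ := exists_ctr x hx0 P₀
  refine ⟨fun j => algebraMap k K (z j), ⟨?_, M.j g, fun j => ?_⟩, fun j => ⟨z j, rfl⟩⟩
  · intro h0
    apply hz0
    funext j
    have h1 := congrFun h0 j
    simpa using h1
  · have h1 := (hs _).mp (hz j)
    rw [map_sub, map_mul, M.comm] at h1
    exact h1

end ALAux

/-- PROOF: `exists_model` gives `M`; `exists_place_hom` gives places `P i` for the `σ i`, `J` = the set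
of these, `n P = ∑_{i : P i = P} c i`, `v P` = the value map. `exists_div` gives `φ` with
`ord_P φ = n P` for `P ∈ J` and `0` for the other places trivial on `L`. Let `x' = j ∘ x`,
`z P` a centre for every place (`exists_ctr`), for `P = P i` take `z P = σ i ∘ x` (with `g = 1`;
for `P ∈ J` choose one such `i`: the value maps agree). `div_KRat`: `∑_P ord_P φ [z P] ∈ KRat ξ`.
The sum over `P ∈ J` is `∑ i, c i [σ i ∘ x]`. The other places in the support of `φ` are not trivial
on `L`; by `triv_or` they restrict to places `P₀` of `L / k`, and a centre can be chosen with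
coordinates in `k` (`exists_ctr` for `P₀`, `L / k`: `P₀.IsVal y c → P.IsVal (j y) c`). -/
theorem al {N : ℕ} {k K L : Type} [Field k] [IsAlgClosed k] [CharZero k] [Field K] [IsAlgClosed K]
    [Algebra ℂ K] [Field L] [Algebra k K] [Algebra k L] (D : Derivation k K K)
    (hD : ∀ x : K, D x = 0 → ∃ c : k, x = algebraMap k K c) (a : L) (ha : Transcendental k a)
    [FiniteDimensional k⟮a⟯ L] {ι : Type} [Fintype ι] (c : ι → ℤ) (σ : ι → L →ₐ[k] K)
    (hrel : ∀ u : L, RegL k a u → ∑ i, (c i : K) * (σ i u * D (σ i a)) = 0)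
    (ξ : Fin (N + 1) → K) (x : Fin (N + 1) → L) (hx0 : x ≠ 0)
    (τ : ℂ →+* k) (hτ : ∀ r : ℂ, algebraMap k K (τ r) = algebraMap ℂ K r)
    (hx : ∀ (e : ℕ) (G : MvPolynomial (Fin (N + 1)) ℂ), G.IsHomogeneous e →
      MvPolynomial.aeval ξ G = 0 → MvPolynomial.eval₂ ((algebraMap k L).comp τ) x G = 0) :
    ∑ i, c i • FreeAbelianGroup.of (fun j => σ i (x j)) ∈ KRat ξ ⊔
      AddSubgroup.closure {y : Zv N K | ∃ z : Fin (N + 1) → K, z ≠ 0 ∧ On ξ z ∧
        (∀ j, z j ∈ Set.range (algebraMap k K)) ∧ y = FreeAbelianGroup.of z} := by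
  classical
  haveI : CharZero K := charZero_of_injective_algebraMap (algebraMap ℂ K).injective
  obtain ⟨M⟩ := exists_model a ha D hD
  choose P hP using fun i => exists_place_hom M ha (σ i)
  set J : Finset (Place K M.E) := Finset.univ.image P with hJ
  set n : Place K M.E → ℤ := fun Q => ∑ i ∈ Finset.univ.filter (fun i => P i = Q), c i with hn
  -- the value maps
  set v : Place K M.E → L → K := fun Q => if h : ∃ i, P i = Q then σ h.choose else fun _ => 0
    with hv
  have hvP : ∀ i, v (P i) = σ i := by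
    intro i
    have h : ∃ i', P i' = P i := ⟨i, rfl⟩
    have h1 : v (P i) = σ h.choose := by rw [hv]; simp only [dif_pos h]
    rw [h1]
    funext y
    have h2 := hP h.choose y
    rw [h.choose_spec] at h2
    exact h2.unique (hP i y)
  have hvJ : ∀ Q ∈ J, M.Triv Q (v Q) := by
    intro Q hQ
    obtain ⟨i, -, rfl⟩ := Finset.mem_image.mp hQ
    rw [hvP]
    exact hP i
  have hrel' : ∀ u : L, RegL k a u → ∑ Q ∈ J, (n Q : K) * (v Q u * D (v Q a)) = 0 := by
    intro u hu
    rw [← hrel u hu]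
    have h1 := ALAux.sum_fib P c (fun Q => v Q u * D (v Q a)) (fun i => σ i u * D (σ i a))
      (fun i => by rw [hvP])
    simp only [zsmul_eq_mul] at h1
    exact h1
  obtain ⟨φ, hφ, hφJ, hφ0⟩ := exists_div M ha hD J v hvJ n hrel'
  have hfin := finite_zeros (M.j a) M.trans φ hφ
  -- the centres
  set z : Place K M.E → Fin (N + 1) → K := fun Q => if Q ∈ J then fun j => v Q (x j) else
    if h : ∃ z : Fin (N + 1) → K, IsCtr (fun j => M.j (x j)) Q z ∧
      ∀ j, z j ∈ Set.range (algebraMap k K) then h.choose else 0 with hz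
  have hzJ : ∀ Q ∈ J, z Q = fun j => v Q (x j) := by
    intro Q hQ
    rw [hz]
    simp only [if_pos hQ]
  have hz1 : ∀ Q ∈ J, IsCtr (fun j => M.j (x j)) Q (z Q) := by
    intro Q hQ
    rw [hzJ Q hQ]
    obtain ⟨i, -, rfl⟩ := Finset.mem_image.mp hQ
    rw [hvP]
    exact ALAux.ctr_triv M x hx0 (hP i)
  have hz2 : ∀ Q, Q ∉ J → Q.ord φ ≠ 0 → IsCtr (fun j => M.j (x j)) Q (z Q) ∧
      ∀ j, z Q j ∈ Set.range (algebraMap k K) := by
    intro Q hQ hQφ
    have h1 : ¬ M.IsTriv Q := fun h => hQφ (hφ0 Q h hQ)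
    have h2 := ALAux.ctr_not_triv M τ ha x hx0 h1
    have h3 : z Q = h2.choose := by
      rw [hz]
      simp only [if_neg hQ, dif_pos h2]
    rw [h3]
    exact h2.choose_spec
  have hx' : ∀ (e : ℕ) (G : MvPolynomial (Fin (N + 1)) ℂ), G.IsHomogeneous e →
      MvPolynomial.aeval ξ G = 0 →
      MvPolynomial.eval₂ ((algebraMap K M.E).comp (algebraMap ℂ K)) (fun j => M.j (x j)) G = 0 := by
    intro e G hG h0
    have h1 := congrArg M.j (hx e G hG h0)
    rw [map_zero, MvPolynomial.eval₂_comp_left] at h1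
    rw [← h1]
    congr 1
    ext r
    simp only [RingHom.comp_apply]
    rw [M.comm, hτ]
  have hx0' : (fun j => M.j (x j)) ≠ 0 := by
    intro h0
    apply hx0
    funext j
    have h1 := congrFun h0 j
    simpa using h1
  set S : Finset (Place K M.E) := J ∪ hfin.toFinset with hS
  have hS1 : ∀ Q : Place K M.E, Q.ord φ ≠ 0 → Q ∈ S := by
    intro Q hQ
    rw [hS]
    exact Finset.mem_union_right _ (hfin.mem_toFinset.mpr hQ)
  have hS2 : ∀ Q ∈ S \ J, Q ∉ J ∧ Q.ord φ ≠ 0 := by
    intro Q hQ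
    obtain ⟨h1, h2⟩ := Finset.mem_sdiff.mp hQ
    refine ⟨h2, ?_⟩
    rcases Finset.mem_union.mp h1 with h3 | h3
    · exact absurd h3 h2
    · exact hfin.mem_toFinset.mp h3
  have hzS : ∀ Q ∈ S, IsCtr (fun j => M.j (x j)) Q (z Q) := by
    intro Q hQ
    by_cases h1 : Q ∈ J
    · exact hz1 Q h1
    · obtain ⟨h2, h3⟩ := hS2 Q (Finset.mem_sdiff.mpr ⟨hQ, h1⟩)
      exact (hz2 Q h2 h3).1
  have hmain := div_KRat (M.j a) M.trans (ξ := ξ) (fun j => M.j (x j)) hx0' hx' φ hφ S hS1 z hzS
  have hsplit := Finset.sum_sdiff (s₁ := J) (s₂ := S) (f := fun Q => Q.ord φ •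
    FreeAbelianGroup.of (z Q)) (by rw [hS]; exact Finset.subset_union_left)
  have hJsum : ∑ Q ∈ J, Q.ord φ • FreeAbelianGroup.of (z Q) =
      ∑ i, c i • FreeAbelianGroup.of (fun j => σ i (x j)) := by
    rw [← ALAux.sum_fib P c (fun Q => FreeAbelianGroup.of (fun j => v Q (x j)))
      (fun i => FreeAbelianGroup.of (fun j => σ i (x j))) (fun i => by rw [hvP])]
    refine Finset.sum_congr rfl fun Q hQ => ?_
    rw [hzJ Q hQ, hφJ Q hQ]
  rw [← hJsum]
  have hrest : ∑ Q ∈ S \ J, Q.ord φ • FreeAbelianGroup.of (z Q) ∈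
      AddSubgroup.closure {y : Zv N K | ∃ z : Fin (N + 1) → K, z ≠ 0 ∧ On ξ z ∧
        (∀ j, z j ∈ Set.range (algebraMap k K)) ∧ y = FreeAbelianGroup.of z} := by
    refine AddSubgroup.sum_mem _ fun Q hQ => ?_
    refine AddSubgroup.zsmul_mem _ (AddSubgroup.subset_closure ?_) _
    obtain ⟨h2, h3⟩ := hS2 Q hQ
    obtain ⟨h4, h5⟩ := hz2 Q h2 h3
    exact ⟨z Q, h4.1, ctr_on hx' h4, h5, rfl⟩
  have hfinal : ∑ Q ∈ J, Q.ord φ • FreeAbelianGroup.of (z Q) =
      ∑ Q ∈ S, Q.ord φ • FreeAbelianGroup.of (z Q) -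
        ∑ Q ∈ S \ J, Q.ord φ • FreeAbelianGroup.of (z Q) := by
    rw [← hsplit]
    abel
  rw [hfinal]
  exact AddSubgroup.sub_mem _ (AddSubgroup.mem_sup_left hmain) (AddSubgroup.mem_sup_right hrest)

end Pool.Agent.FibC
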