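import Pool.Agent.LowDeg.TraceVal

/-! Module P3: approximation, and the inverse different. -/

set_option autoImplicit false
set_option linter.unusedVariables false

open Polynomial IntermediateField

namespace Pool.Agent.FibC

open Pool.Agent.LowDeg

namespace ApproxAux

open IsDedekindDomain TraceValAux

section Ord

variable {E B : Type} [Field E] [CommRing B] [IsDedekindDomain B] [Algebra B E]
  [IsFractionRing B E]

/-- membership in a power of a prime through the order -/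
lemma mem_pow_iff (v : HeightOneSpectrum B) (b : B) (hb : b ≠ 0) (k : ℕ) :
    b ∈ v.asIdeal ^ k ↔ (k : ℤ) ≤ ordP v (algebraMap B E b) := by
  have h1 : v.valuation E (algebraMap B E b) = v.intValuation b := v.valuation_of_algebraMap b
  have h2 : v.intValuation b ≠ 0 := v.intValuation_ne_zero b hb
  rw [← v.intValuation_le_pow_iff_mem, ordP, h1, ← WithZero.log_le_log h2 WithZero.exp_ne_zero,
    WithZero.log_exp]
  omega

/-- unique factorisation: `v₀^n ∏ v^m` is not contained in `v₀^(n+1)` -/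
lemma not_le_aux (v₀ : HeightOneSpectrum B) (n : ℕ) (S : Finset (HeightOneSpectrum B))
    (h0 : v₀ ∉ S) (m : ℕ) :
    ¬ (v₀.asIdeal ^ n * ∏ v ∈ S, v.asIdeal ^ m ≤ v₀.asIdeal ^ (n + 1)) := by
  intro hle
  have hprime : Prime v₀.asIdeal := v₀.prime
  have h5 : v₀.asIdeal ^ n * v₀.asIdeal ∣ v₀.asIdeal ^ n * ∏ v ∈ S, v.asIdeal ^ m := by
    rw [← pow_succ]
    exact Ideal.dvd_iff_le.2 hle
  have h1 : v₀.asIdeal ∣ ∏ v ∈ S, v.asIdeal ^ m :=
    (mul_dvd_mul_iff_left (pow_ne_zero n hprime.ne_zero)).1 h5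
  obtain ⟨v, hv, h2⟩ := (hprime.dvd_finsetProd_iff _).1 h1
  have h3 : v.asIdeal ≤ v₀.asIdeal := Ideal.dvd_iff_le.1 (hprime.dvd_of_dvd_pow h2)
  have h4 : v.asIdeal = v₀.asIdeal := v.isMaximal.eq_of_le v₀.isPrime.ne_top h3
  exact h0 (HeightOneSpectrum.ext h4 ▸ hv)

/-- an element of `v₀^n ∏ v^m` which is not in `v₀^(n+1)` -/
lemma exists_mem (v₀ : HeightOneSpectrum B) (n : ℕ) (S : Finset (HeightOneSpectrum B))
    (h0 : v₀ ∉ S) (m : ℕ) :
    ∃ b : B, b ≠ 0 ∧ ordP v₀ (algebraMap B E b) = n ∧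
      ∀ v ∈ S, (m : ℤ) ≤ ordP v (algebraMap B E b) := by
  obtain ⟨b, hb, hb'⟩ := SetLike.not_le_iff_exists.1 (not_le_aux v₀ n S h0 m)
  have hb0 : b ≠ 0 := by
    intro h
    rw [h] at hb'
    exact hb' (Ideal.zero_mem _)
  have h13 : v₀.asIdeal ^ n * ∏ v ∈ S, v.asIdeal ^ m ≤ v₀.asIdeal ^ n :=
    Ideal.dvd_iff_le.1 (dvd_mul_right _ _)
  have h14 : v₀.asIdeal ^ n * ∏ v ∈ S, v.asIdeal ^ m ≤ ∏ v ∈ S, v.asIdeal ^ m :=
    Ideal.dvd_iff_le.1 (dvd_mul_left _ _)
  have h6 : b ∈ v₀.asIdeal ^ n := h13 hb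
  have h7 : b ∈ ∏ v ∈ S, v.asIdeal ^ m := h14 hb
  have h8 := (mem_pow_iff (E := E) v₀ b hb0 n).1 h6
  have h9 := (not_congr (mem_pow_iff (E := E) v₀ b hb0 (n + 1))).1 hb'
  refine ⟨b, hb0, ?_, ?_⟩
  · push_cast at h9
    omega
  · intro v hv
    refine (mem_pow_iff v b hb0 m).1 ?_
    have h10 : ∏ v ∈ S, v.asIdeal ^ m ≤ v.asIdeal ^ m :=
      Ideal.dvd_iff_le.1 (Finset.dvd_prod_of_mem (fun v : HeightOneSpectrum B => v.asIdeal ^ m) hv)
    exact h10 h7

end Ord

end ApproxAux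

variable {K E : Type} [Field K] [IsAlgClosed K] [CharZero K] [Field E] [Algebra K E]

/-- Approximation. PROOF: in the Dedekind domain `B` = integral closure of `K[t]`
(`TraceValAux.package`, `centre`, `ordP_eq_count`) take an element of the ideal
`v₀^n ∏_{P ∈ S} v_P^m` which is not in `v₀^(n+1)`. -/
theorem exists_approx (t : E) (ht : Transcendental K t) [FiniteDimensional K⟮t⟯ E]
    (P₀ : Place K E) (hP₀ : P₀.Int t) (n : ℕ) (S : Finset (Place K E)) (h0 : P₀ ∉ S)
    (hS : ∀ P ∈ S, P.Int t) (m : ℕ) :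
    ∃ x : E, x ≠ 0 ∧ (∀ P : Place K E, P.Int t → P.Int x) ∧ P₀.ord x = n ∧
      ∀ P ∈ S, (m : ℤ) ≤ P.ord x := by
  classical
  obtain ⟨B, i1, i2, i3, i4, i5, i6, i7, i8, i9, i10, hmap, -⟩ := TraceValAux.package t ht
  have hB : ∀ P : Place K E, P.Int t → ∀ b : B, P.Int (algebraMap B E b) := fun P hP b =>
    TraceValAux.int_B t hmap P hP b
  let S' : Finset (IsDedekindDomain.HeightOneSpectrum B) :=
    S.attach.image fun P => TraceValAux.centre P.1 (hB P.1 (hS P.1 P.2))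
  have h0' : TraceValAux.centre P₀ (hB P₀ hP₀) ∉ S' := by
    intro hmem
    rw [Finset.mem_image] at hmem
    obtain ⟨P, -, hP⟩ := hmem
    apply h0
    have h1 : P.1 = P₀ := by
      rw [← TraceValAux.ofPrime_centre P.1 (hB P.1 (hS P.1 P.2)),
        ← TraceValAux.ofPrime_centre P₀ (hB P₀ hP₀), hP]
    rw [← h1]
    exact P.2
  obtain ⟨b, hb0, hb1, hb2⟩ := ApproxAux.exists_mem (E := E) _ n S' h0' m
  have hbE : algebraMap B E b ≠ 0 := (map_ne_zero_iff _ (IsFractionRing.injective B E)).2 hb0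
  refine ⟨algebraMap B E b, hbE, fun P hP => hB P hP b, ?_, ?_⟩
  · rw [TraceValAux.ord_eq_ordP P₀ (hB P₀ hP₀) _ hbE]
    exact hb1
  · intro P hP
    rw [TraceValAux.ord_eq_ordP P (hB P (hS P hP)) _ hbE]
    apply hb2
    rw [Finset.mem_image]
    exact ⟨⟨P, hP⟩, Finset.mem_attach _ _, rfl⟩

/-- If `Tr (y x)` vanishes at `t = 0` for every `x` integral over `K[t]`, then `y` vanishes at all
places over `t = 0` (the inverse different, in the tame case).

PROOF: suppose `P₀.Sm t` and not `P₀.Sm y`, `n = - ord_{P₀} y ≥ 0`. By `exists_approx` there is `x`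
integral over `K[t]`, `ord_{P₀} x = n`, with large order at the other places over `t = 0`. Then
`g = y x` is integral at all places over `t = 0`, has a nonzero value `c` at `P₀` and the value `0` at
the others. By `trace_val` the value of `Tr g` at `t = 0` is `ord_{P₀}(t) c ≠ 0`. -/
theorem sm_of_trace (a : E) (ha : Transcendental K a) [FiniteDimensional K⟮a⟯ E] (t : E)
    (ht : K⟮t⟯ = K⟮a⟯) (y : E)
    (h : ∀ x : E, (∀ P : Place K E, P.Int t → P.Int x) → ∃ p q : K[X], q.eval 0 ≠ 0 ∧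
      p.eval 0 = 0 ∧ (Algebra.trace K⟮a⟯ E (y * x) : E) * aeval t q = aeval t p)
    (P : Place K E) (hP : P.Sm t) : P.Sm y := by
  classical
  by_contra hy
  have htt : Transcendental K t := by
    intro h
    have h1 : Algebra.IsAlgebraic K K⟮t⟯ := by
      have := IntermediateField.adjoin.finiteDimensional h.isIntegral
      infer_instance
    rw [ht] at h1
    have h2 := h1.isAlgebraic (AdjoinSimple.gen K a)
    exact ha (by simpa using h2.algebraMap (A := E))
  have hfd : FiniteDimensional K⟮t⟯ E := (algebraic_of_transcendental a ha t htt).2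
  have ht0 : t ≠ 0 := by
    rintro rfl
    exact htt isAlgebraic_zero
  have hy0 : y ≠ 0 := fun h0 => hy (Or.inl h0)
  rw [Place.sm_iff_ord hy0] at hy
  -- the places over `t = 0`
  have hfin : {Q : Place K E | Q.Sm t}.Finite := by
    refine Set.Finite.subset (finite_zeros a ha t ht0) ?_
    intro Q hQ
    have h1 : 0 < Q.ord t := hQ.resolve_left ht0
    exact h1.ne'
  set S := hfin.toFinset with hSdef
  have hS : ∀ Q, Q ∈ S ↔ Q.Sm t := by
    intro Q; rw [hSdef, Set.Finite.mem_toFinset]; rfl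
  set m : ℕ := 1 + ∑ Q ∈ S, (Q.ord y).natAbs with hm
  obtain ⟨x, hx0, hxint, hxP, hxS⟩ := exists_approx t htt P hP.int (-(P.ord y)).toNat (S.erase P)
    (Finset.notMem_erase _ _) (fun Q hQ => ((hS Q).1 (Finset.mem_of_mem_erase hQ)).int) m
  have hn : ((-(P.ord y)).toNat : ℤ) = -(P.ord y) := Int.toNat_of_nonneg (by omega)
  have hyx : y * x ≠ 0 := mul_ne_zero hy0 hx0
  have hPg : P.ord (y * x) = 0 := by
    rw [P.ord_mul y x hy0 hx0, hxP, hn]; ring
  have hSg : ∀ Q ∈ S.erase P, Q.Sm (y * x) := by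
    intro Q hQ
    rw [Place.sm_iff_ord hyx, Q.ord_mul y x hy0 hx0]
    have h1 := hxS Q hQ
    have h2 : (Q.ord y).natAbs ≤ ∑ Q ∈ S, (Q.ord y).natAbs :=
      Finset.single_le_sum (f := fun Q : Place K E => (Q.ord y).natAbs)
        (fun _ _ => Nat.zero_le _) (Finset.mem_of_mem_erase hQ)
    have h3 : ((m : ℕ) : ℤ) = 1 + ((∑ Q ∈ S, (Q.ord y).natAbs : ℕ) : ℤ) := by
      rw [hm]; push_cast; ring
    omega
  have hg : ∀ Q : Place K E, Q.Sm t → Q.Int (y * x) := by
    intro Q hQ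
    by_cases hQP : Q = P
    · subst hQP
      exact Or.inr (by rw [hPg])
    · exact (hSg Q (Finset.mem_erase.2 ⟨hQP, (hS Q).2 hQ⟩)).int
  obtain ⟨c, hc⟩ := (hg P hP).exists_isVal
  have hc0 : c ≠ 0 := by
    rintro rfl
    rw [Place.isVal_zero_iff, Place.sm_iff_ord hyx, hPg] at hc
    exact lt_irrefl _ hc
  obtain ⟨T, hT, p₁, q₁, hq₁, hpq₁, hval⟩ := trace_val a ha t ht (y * x) hg
  have hTS : T = S := by
    ext Q
    rw [hT, hS]
  obtain ⟨p₂, q₂, hq₂, hp₂, hpq₂⟩ := h x hxint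
  have hinj : Function.Injective (aeval t : K[X] →ₐ[K] E) := transcendental_iff_injective.1 htt
  have hcross : p₁ * q₂ = p₂ * q₁ := by
    apply hinj
    rw [map_mul, map_mul, ← hpq₁, ← hpq₂]
    ring
  have hp₁ : p₁.eval 0 = 0 := by
    have h1 := congrArg (Polynomial.eval 0) hcross
    rw [Polynomial.eval_mul, Polynomial.eval_mul, hp₂, zero_mul] at h1
    exact (mul_eq_zero.1 h1).resolve_right hq₂
  have hsum := hval (fun Q => if Q = P then c else 0) (by
    intro Q hQ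
    by_cases hQP : Q = P
    · subst hQP
      simpa using hc
    · rw [if_neg hQP, Place.isVal_zero_iff]
      exact hSg Q (Finset.mem_erase.2 ⟨hQP, hTS ▸ hQ⟩))
  rw [hp₁, zero_div, Finset.sum_eq_single P] at hsum
  · rw [if_pos rfl] at hsum
    have h4 : 0 < P.ord t := hP.resolve_left ht0
    have h5 : ((P.ord t : ℤ) : K) ≠ 0 := by
      exact_mod_cast h4.ne'
    exact (mul_ne_zero h5 hc0) hsum.symm
  · intro Q _ hQP
    rw [if_neg hQP, mul_zero]
  · intro hPT
    exact absurd ((hT P).2 hP) hPT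

end Pool.Agent.FibC
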