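import Pool.Agent.FibC.Defs

/-! Module D7: automorphisms of `K`. -/

set_option autoImplicit false

open MvPolynomial

namespace Pool.Agent.FibC

variable {N : ℕ} {K : Type} [Field K] [Algebra ℂ K]

namespace Aut2Aux

theorem alg_of_mem (F : IntermediateField ℂ K) {t a : K}
    (hb : IsTranscendenceBasis ℂ ![t, a]) (ht : t ∈ F) (ha : a ∈ F) :
    Algebra.IsAlgebraic F K := by
  have halg : Algebra.IsAlgebraic (IntermediateField.adjoin ℂ (Set.range ![t, a])) K :=
    hb.isAlgebraic_field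
  have hle : IntermediateField.adjoin ℂ (Set.range ![t, a]) ≤ F := by
    rw [IntermediateField.adjoin_le_iff]
    rintro x ⟨i, rfl⟩
    fin_cases i
    · exact ht
    · exact ha
  refine ⟨fun x => ?_⟩
  have hx := halg.isAlgebraic x
  exact IsAlgebraic.tower_top_of_subalgebra_le (R := ℂ) (S := K)
    (A := (IntermediateField.adjoin ℂ (Set.range ![t, a])).toSubalgebra) (B := F.toSubalgebra)
    hle hx

end Aut2Aux

/-- PROOF: `σ : ℂ(ξ) → K`; the image of the transcendence basis `t, a` is algebraically independent,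
so a transcendence basis (`K` has transcendence degree two), so `K` is an algebraic closure of
`σ (ℂ(ξ))` and of `ℂ(ξ)`; extend `σ` to the algebraic closures. -/
theorem exists_aut [IsAlgClosed K] {ξ : Fin (N + 1) → K} {t a : fld ξ}
    (hb : IsTranscendenceBasis ℂ ![(t : K), (a : K)]) (σ : fld ξ →ₐ[ℂ] K) :
    ∃ ρ : K ≃ₐ[ℂ] K, ∀ f : fld ξ, ρ f = σ f := by
  -- the images form a transcendence basis
  have h1 : AlgebraicIndependent ℂ ![t, a] := by
    have hv : ((fld ξ).val ∘ ![t, a] : Fin 2 → K) = ![(t : K), (a : K)] := by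
      ext i
      fin_cases i <;> rfl
    have h0 : AlgebraicIndependent ℂ ((fld ξ).val ∘ ![t, a]) := by
      rw [hv]
      exact hb.1
    exact AlgebraicIndependent.of_comp _ h0
  have h2 : AlgebraicIndependent ℂ ![σ t, σ a] := by
    have hv : ![σ t, σ a] = (σ ∘ ![t, a] : Fin 2 → K) := by
      ext i
      fin_cases i <;> rfl
    rw [hv]
    exact h1.map' (f := σ) σ.injective
  have hb2 : IsTranscendenceBasis ℂ ![σ t, σ a] := by
    apply AlgebraicIndependent.isTranscendenceBasis_of_trdeg_le_of_finite h2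
    rw [← hb.cardinalMk_eq_trdeg]
  have hA1 : Algebra.IsAlgebraic (fld ξ) K := Aut2Aux.alg_of_mem _ hb t.2 a.2
  have hA2 : Algebra.IsAlgebraic σ.fieldRange K :=
    Aut2Aux.alg_of_mem _ hb2 ⟨t, rfl⟩ ⟨a, rfl⟩
  have hC1 : IsAlgClosure (fld ξ) K := ⟨inferInstance, hA1⟩
  have hC2 : IsAlgClosure σ.fieldRange K := ⟨inferInstance, hA2⟩
  let e : fld ξ ≃ₐ[ℂ] σ.fieldRange := AlgEquiv.ofInjectiveField σ
  have he : ∀ f, ((e f : σ.fieldRange) : K) = σ f := fun f => rfl
  let ρ := IsAlgClosure.equivOfEquiv K K e.toRingEquiv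
  have hρ : ∀ f : fld ξ, ρ (f : K) = σ f := by
    intro f
    exact (IsAlgClosure.equivOfEquiv_algebraMap K K e.toRingEquiv f).trans (he f)
  refine ⟨AlgEquiv.ofRingEquiv (f := ρ) ?_, hρ⟩
  intro c
  have := hρ (algebraMap ℂ (fld ξ) c)
  rw [σ.commutes] at this
  exact this

/-- `K` is algebraic over `ℂ(ξ)`. PROOF: it is algebraic over `ℂ(t, a)`. -/
theorem alg_fld {ξ : Fin (N + 1) → K} {t a : fld ξ}
    (hb : IsTranscendenceBasis ℂ ![(t : K), (a : K)]) : Algebra.IsAlgebraic (fld ξ) K :=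
  Aut2Aux.alg_of_mem _ hb t.2 a.2

end Pool.Agent.FibC
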