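import Pool.Agent.FibC.KDefs

/-! Module D6: dominating points and automorphisms of `K`. -/

set_option autoImplicit false

open MvPolynomial
open scoped IntermediateField

namespace Pool.Agent.FibC

variable {N : ℕ} {K : Type} [Field K] [Algebra ℂ K]

namespace AutoAux

/-- homogenisation with respect to the first variable -/
noncomputable def hmg (P : MvPolynomial (Fin (N + 1)) ℂ) : MvPolynomial (Fin (N + 1)) ℂ :=
  ∑ i ∈ Finset.range (P.totalDegree + 1),
    X 0 ^ (P.totalDegree - i) * homogeneousComponent i P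

theorem hmg_hom (P : MvPolynomial (Fin (N + 1)) ℂ) : (hmg P).IsHomogeneous P.totalDegree := by
  unfold hmg
  refine IsHomogeneous.sum _ _ _ fun i hi => ?_
  rw [Finset.mem_range] at hi
  have h1 : (X 0 ^ (P.totalDegree - i) : MvPolynomial (Fin (N + 1)) ℂ).IsHomogeneous
      (P.totalDegree - i) := by
    have := (isHomogeneous_X ℂ (0 : Fin (N + 1))).pow (P.totalDegree - i)
    simpa using this
  have h2 := h1.mul (homogeneousComponent_isHomogeneous i P)
  have h3 : P.totalDegree - i + i = P.totalDegree := by omega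
  rw [h3] at h2
  exact h2

/-- evaluation of a form at a multiple of a point -/
theorem aeval_smul_hom {e : ℕ} {P : MvPolynomial (Fin (N + 1)) ℂ} (hP : P.IsHomogeneous e)
    (c : K) (y : Fin (N + 1) → K) : aeval (fun j => c * y j) P = c ^ e * aeval y P := by
  rw [aeval_def, aeval_def, eval₂_eq, eval₂_eq, Finset.mul_sum]
  refine Finset.sum_congr rfl fun d hd => ?_
  have h1 : ∏ i ∈ d.support, (c * y i) ^ d i
      = c ^ e * ∏ i ∈ d.support, y i ^ d i := by
    have h2 : ∑ i ∈ d.support, d i = e := by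
      have := hP (mem_support_iff.mp hd)
      rw [← this]
      simp [Finsupp.weight_apply, Finsupp.sum]
    rw [← h2, ← Finset.prod_pow_eq_pow_sum, ← Finset.prod_mul_distrib]
    refine Finset.prod_congr rfl fun i _ => ?_
    rw [mul_pow]
  rw [h1]; ring

theorem aeval_hmg (P : MvPolynomial (Fin (N + 1)) ℂ) (c : K) (y : Fin (N + 1) → K)
    (hy : y 0 = 1) : aeval (fun j => c * y j) (hmg P) = c ^ P.totalDegree * aeval y P := by
  rw [aeval_smul_hom (hmg_hom P)]
  congr 1
  unfold hmg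
  rw [map_sum]
  conv_rhs => rw [← sum_homogeneousComponent P]
  rw [map_sum]
  refine Finset.sum_congr rfl fun i _ => ?_
  rw [map_mul, map_pow, aeval_X, hy, one_pow, one_mul]

open scoped IntermediateField.algebraAdjoinAdjoin in
/-- Points with the same relations: an embedding of the fields. -/
theorem exists_hom {ξ y : Fin (N + 1) → K}
    (h : ∀ P : MvPolynomial (Fin (N + 1)) ℂ, aeval ξ P = 0 ↔ aeval y P = 0) :
    ∃ σ : fld ξ →ₐ[ℂ] K, ∀ j, σ (crd ξ j) = y j := by
  classical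
  -- the surjection onto the subalgebra generated by the coordinates
  have hmem : ∀ P : MvPolynomial (Fin (N + 1)) ℂ,
      (aeval ξ : MvPolynomial (Fin (N + 1)) ℂ →ₐ[ℂ] K) P ∈ Algebra.adjoin ℂ (Set.range ξ) := by
    intro P
    rw [Algebra.adjoin_range_eq_range_aeval]
    exact ⟨P, rfl⟩
  let f : MvPolynomial (Fin (N + 1)) ℂ →ₐ[ℂ] Algebra.adjoin ℂ (Set.range ξ) :=
    (aeval ξ : MvPolynomial (Fin (N + 1)) ℂ →ₐ[ℂ] K).codRestrict _ hmem
  have hf : Function.Surjective f := by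
    rintro ⟨x, hx⟩
    have hx' := hx
    rw [Algebra.adjoin_range_eq_range_aeval] at hx'
    obtain ⟨P, hP⟩ := hx'
    exact ⟨P, Subtype.ext hP⟩
  have hfval : ∀ P, ((f P : Algebra.adjoin ℂ (Set.range ξ)) : K) = aeval ξ P := fun P => rfl
  let g : MvPolynomial (Fin (N + 1)) ℂ →ₐ[ℂ] K := aeval y
  have hker : RingHom.ker f.toRingHom ≤ RingHom.ker g.toRingHom := by
    intro P hP
    rw [RingHom.mem_ker] at hP ⊢
    have h1 : f P = 0 := hP
    have h2 : aeval ξ P = 0 := by rw [← hfval, h1]; rfl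
    exact (h P).1 h2
  let τ := AlgHom.liftOfSurjective f hf g hker
  have hτ : ∀ P, τ (f P) = aeval y P := fun P =>
    AlgHom.liftOfSurjective_apply f hf g hker P
  have hinj : Function.Injective τ := by
    rw [injective_iff_map_eq_zero]
    intro x hx
    obtain ⟨P, rfl⟩ := hf x
    rw [hτ] at hx
    exact Subtype.ext ((h P).2 hx)
  refine ⟨IsFractionRing.liftAlgHom (K := fld ξ) hinj, fun j => ?_⟩
  have h1 : crd ξ j = algebraMap (Algebra.adjoin ℂ (Set.range ξ)) (fld ξ) (f (X j)) := by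
    apply Subtype.ext
    show ξ j = _
    have : (((algebraMap (Algebra.adjoin ℂ (Set.range ξ)) (fld ξ) (f (X j))) : fld ξ) : K)
      = aeval ξ (X j : MvPolynomial (Fin (N + 1)) ℂ) := rfl
    rw [this, aeval_X]
  rw [h1, IsFractionRing.liftAlgHom_apply]
  have h2 := IsFractionRing.lift_algebraMap (K := fld ξ) (g := τ.toRingHom) hinj (f (X j))
  refine h2.trans ?_
  show τ (f (X j)) = _
  rw [hτ, aeval_X]

/-- transcendence degree bound -/
theorem trdeg_alg_le (t : K) :
    Algebra.trdeg ℂ (algebraicClosure ℂ⟮t⟯ K) ≤ 1 := by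
  have hfs : FaithfulSMul ℂ⟮t⟯ (algebraicClosure ℂ⟮t⟯ K) :=
    (faithfulSMul_iff_algebraMap_injective _ _).mpr
      (algebraMap ℂ⟮t⟯ (algebraicClosure ℂ⟮t⟯ K)).injective
  have h1 := trdeg_add_eq ℂ ℂ⟮t⟯ (A := algebraicClosure ℂ⟮t⟯ K)
  have h2 : Algebra.trdeg ℂ⟮t⟯ (algebraicClosure ℂ⟮t⟯ K) = 0 := trdeg_eq_zero
  rw [h2, add_zero] at h1
  rw [← h1]
  let g : ℂ⟮t⟯ := IntermediateField.AdjoinSimple.gen ℂ t
  have : Algebra.IsAlgebraic (Algebra.adjoin ℂ ({g} : Set ℂ⟮t⟯)) ℂ⟮t⟯ := by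
    refine ⟨fun x => ?_⟩
    obtain ⟨p, hp, q, hq, hx⟩ := IntermediateField.mem_adjoin_iff_div.mp x.2
    have hmem : ∀ u : K, u ∈ Algebra.adjoin ℂ ({t} : Set K) →
        ∃ v ∈ Algebra.adjoin ℂ ({g} : Set ℂ⟮t⟯), (v : K) = u := by
      intro u hu
      have h3 : Algebra.adjoin ℂ ({t} : Set K)
          = (Algebra.adjoin ℂ ({g} : Set ℂ⟮t⟯)).map (IntermediateField.val _) := by
        rw [AlgHom.map_adjoin, Set.image_singleton]
        rfl
      rw [h3] at hu
      obtain ⟨v, hv, hvu⟩ := hu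
      exact ⟨v, hv, hvu⟩
    obtain ⟨p', hp', hpe⟩ := hmem p hp
    obtain ⟨q', hq', hqe⟩ := hmem q hq
    have hx' : x = p' / q' := by
      apply Subtype.ext
      rw [hx, ← hpe, ← hqe]
      rfl
    rw [hx', div_eq_mul_inv]
    exact (isAlgebraic_algebraMap (⟨p', hp'⟩ : Algebra.adjoin ℂ ({g} : Set ℂ⟮t⟯))).mul
      (isAlgebraic_algebraMap (⟨q', hq'⟩ : Algebra.adjoin ℂ ({g} : Set ℂ⟮t⟯))).inv
  refine (Algebra.IsAlgebraic.trdeg_le_cardinalMk ℂ ({g} : Set ℂ⟮t⟯)).trans ?_
  simp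

end AutoAux

open AutoAux

/-- PROOF: if every form vanishing at `z` vanishes at `ξ`, then `z 0 ≠ 0` (`G = X 0`), and
`ℂ[ξ] → K`, `ξ_j ↦ z_j / z_0` is well defined (`On ξ z` and homogenisation) and injective, so it
extends to the field of fractions `ℂ(ξ)`. -/
theorem dom_or {ξ z : Fin (N + 1) → K} (h1 : ξ 0 = 1) (hz : z ≠ 0) (hon : On ξ z) :
    Dom ξ z ∨ IsNdPt ξ z := by
  by_cases hnd : ∃ (e : ℕ) (G : MvPolynomial (Fin (N + 1)) ℂ),
      G.IsHomogeneous e ∧ aeval z G = 0 ∧ aeval ξ G ≠ 0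
  · exact Or.inr ⟨hz, hon, hnd⟩
  push Not at hnd
  left
  have hz0 : z 0 ≠ 0 := by
    intro h0
    have h2 := hnd 1 (X 0) (isHomogeneous_X ℂ 0) (by rw [aeval_X, h0])
    rw [aeval_X, h1] at h2
    exact one_ne_zero h2
  let y : Fin (N + 1) → K := fun j => z j / z 0
  have hy0 : y 0 = 1 := div_self hz0
  have hzy : z = fun j => z 0 * y j := by
    funext j
    show z j = z 0 * (z j / z 0)
    field_simp
  have hξ : ξ = fun j => (1 : K) * ξ j := by funext j; rw [one_mul]
  have key : ∀ P : MvPolynomial (Fin (N + 1)) ℂ, aeval ξ P = 0 ↔ aeval y P = 0 := by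
    intro P
    have e1 : aeval ξ (hmg P) = aeval ξ P := by
      have := aeval_hmg P (1 : K) ξ h1
      rw [← hξ, one_pow, one_mul] at this
      exact this
    have e2 : aeval z (hmg P) = z 0 ^ P.totalDegree * aeval y P := by
      have := aeval_hmg P (z 0) y hy0
      rw [← hzy] at this
      exact this
    constructor
    · intro h
      have h3 := hon _ (hmg P) (hmg_hom P) (by rw [e1, h])
      rw [e2] at h3
      exact (mul_eq_zero.mp h3).resolve_left (pow_ne_zero _ hz0)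
    · intro h
      have h3 := hnd _ (hmg P) (hmg_hom P) (by rw [e2, h, mul_zero])
      rw [e1] at h3
      exact h3
  obtain ⟨σ, hσ⟩ := exists_hom key
  refine ⟨hz0, σ, fun j => ?_⟩
  rw [hσ]
  show z 0 * (z j / z 0) = z j
  field_simp

/-- PROOF: `val` is given by a homomorphism `σ` with `z_0 σ(ξ_j) = z_j`; homomorphisms on `ℂ(ξ)` are
determined by their values at the `ξ_j`. -/
theorem val_eq {ξ z : Fin (N + 1) → K} (h : Dom ξ z) (ρ : fld ξ →ₐ[ℂ] K)
    (hρ : ∀ j, z 0 * ρ (crd ξ j) = z j) (f : fld ξ) : val ξ z f = ρ f := by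
  unfold val
  rw [dif_pos h]
  have h1 := h.2.choose_spec
  have h2 : h.2.choose = ρ := by
    refine IntermediateField.algHom_ext_of_eq_adjoin ℂ (s := Set.range ξ) rfl ?_
    rintro _ ⟨j, rfl⟩
    have h3 := h1 j
    rw [← hρ j] at h3
    exact mul_left_cancel₀ h.1 h3
  rw [h2]

/-- PROOF: otherwise (`dom_or`) `ℂ(ξ)` embeds in the field of elements algebraic over `ℂ(t)` (divide
by `z 0`), of transcendence degree one, but `ℂ(ξ)` contains `t, a`. -/
theorem nd_of_alg {ξ z : Fin (N + 1) → K} {t a : fld ξ} (h1 : ξ 0 = 1)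
    (hb : IsTranscendenceBasis ℂ ![(t : K), (a : K)]) (hz : z ≠ 0) (hon : On ξ z)
    (halg : ∀ j, Alg (t : K) (z j)) : IsNdPt ξ z := by
  rcases dom_or h1 hz hon with h | h
  swap
  · exact h
  exfalso
  obtain ⟨hz0, σ, hσ⟩ := h
  have halg' : ∀ j, IsAlgebraic ℂ⟮(t : K)⟯ (σ (crd ξ j)) := by
    intro j
    have h2 : σ (crd ξ j) = z j * (z 0)⁻¹ := by
      rw [← hσ j]; field_simp
    rw [h2]
    exact (halg j).mul (halg 0).inv
  have hrange : ∀ f : fld ξ,
      σ f ∈ ((algebraicClosure ℂ⟮(t : K)⟯ K).restrictScalars ℂ).toSubalgebra := by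
    intro f
    have h3 : fld ξ ≤ (((algebraicClosure ℂ⟮(t : K)⟯ K).restrictScalars ℂ).comap σ).map
        (fld ξ).val := by
      rw [IntermediateField.adjoin_le_iff]
      rintro _ ⟨j, rfl⟩
      exact ⟨crd ξ j, mem_algebraicClosure_iff.mpr (halg' j), rfl⟩
    obtain ⟨f', hf', hff'⟩ := h3 f.2
    have h4 : f' = f := Subtype.ext hff'
    rw [← h4]
    exact hf'
  let τ : fld ξ →ₐ[ℂ] ((algebraicClosure ℂ⟮(t : K)⟯ K).restrictScalars ℂ).toSubalgebra :=
    σ.codRestrict _ hrange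
  have hind : AlgebraicIndependent ℂ ![t, a] := by
    refine AlgebraicIndependent.of_comp (fld ξ).val ?_
    have h5 : (fld ξ).val ∘ ![t, a] = ![(t : K), (a : K)] := by
      funext i; fin_cases i <;> rfl
    rw [h5]
    exact hb.1
  have h6 := hind.map' (f := τ) τ.toRingHom.injective
  have h7 := h6.cardinalMk_le_trdeg
  have h8 := h7.trans (trdeg_alg_le (t : K))
  simp at h8

end Pool.Agent.FibC
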