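import Pool.Agent.FibC.KAct

/-! Module F7: averaging over the Galois group. -/

set_option autoImplicit false
set_option linter.unusedSectionVars false

open MvPolynomial

namespace Pool.Agent.FibC

namespace AvgAux

variable {N : ℕ} {K : Type} [Field K] [Algebra ℂ K]

/-- the group of automorphisms fixing `ξ` -/
def GG (ξ : Fin (N + 1) → K) : Subgroup (K ≃ₐ[ℂ] K) where
  carrier := {ρ | ∀ i, ρ (ξ i) = ξ i}
  mul_mem' := by
    intro a b ha hb i
    rw [AlgEquiv.mul_apply, hb i, ha i]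
  one_mem' := by
    intro i
    rfl
  inv_mem' := by
    intro a ha i
    have h := ha i
    calc a⁻¹ (ξ i) = a⁻¹ (a (ξ i)) := by rw [h]
      _ = ξ i := by
        rw [← AlgEquiv.mul_apply, inv_mul_cancel, AlgEquiv.one_apply]

theorem GG_smul_apply {ξ : Fin (N + 1) → K} (g : GG ξ) (z : Fin (N + 1) → K) (i : Fin (N + 1)) :
    (g • z) i = (g : K ≃ₐ[ℂ] K) (z i) := rfl

theorem GG_smul_eq {ξ : Fin (N + 1) → K} (g : GG ξ) (z : Fin (N + 1) → K) :
    g • z = fun i => (g : K ≃ₐ[ℂ] K) (z i) := rfl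

theorem fix_fld {ξ : Fin (N + 1) → K} (g : GG ξ) {y : K} (hy : y ∈ fld ξ) :
    (g : K ≃ₐ[ℂ] K) y = y := by
  induction hy using IntermediateField.adjoin_induction with
  | mem x hx =>
    obtain ⟨i, rfl⟩ := hx
    exact g.2 i
  | algebraMap x => exact (g : K ≃ₐ[ℂ] K).commutes x
  | add x y _ _ hx hy => rw [map_add, hx, hy]
  | inv x _ hx => rw [map_inv₀, hx]
  | mul x y _ _ hx hy => rw [map_mul, hx, hy]

/-- an automorphism fixing `ξ`, over the function field -/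
noncomputable def gf {ξ : Fin (N + 1) → K} (g : GG ξ) : K →ₐ[fld ξ] K :=
  { ((g : K ≃ₐ[ℂ] K) : K →+* K) with
    commutes' := fun r => fix_fld g r.2 }

theorem gf_apply {ξ : Fin (N + 1) → K} (g : GG ξ) (x : K) : gf g x = (g : K ≃ₐ[ℂ] K) x := rfl

theorem orbit_finite {ξ : Fin (N + 1) → K} (halg : Algebra.IsAlgebraic (fld ξ) K)
    (z : Fin (N + 1) → K) : (MulAction.orbit (GG ξ) z).Finite := by
  have h1 : (Set.pi Set.univ
      (fun i => ((minpoly (fld ξ) (z i)).rootSet K))).Finite :=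
    Set.Finite.pi' (fun i => Polynomial.rootSet_finite _ _) |>.subset
      (fun x hx i => hx i (Set.mem_univ i))
  refine h1.subset ?_
  rintro _ ⟨g, rfl⟩ i _
  have hint : IsIntegral (fld ξ) (z i) := (halg.isAlgebraic (z i)).isIntegral
  rw [Polynomial.mem_rootSet_of_ne (minpoly.ne_zero hint)]
  have h2 : Polynomial.aeval (gf g (z i)) (minpoly (fld ξ) (z i)) = 0 := by
    rw [Polynomial.aeval_algHom_apply, minpoly.aeval, map_zero]
  exact h2

/-- the value of the linear form -/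
noncomputable def lf (ℓ : Fin (N + 1) → ℂ) (z : Fin (N + 1) → K) : K :=
  ∑ i, algebraMap ℂ K (ℓ i) * z i

theorem lf_act (ℓ : Fin (N + 1) → ℂ) (ρ : K ≃ₐ[ℂ] K) (z : Fin (N + 1) → K) :
    lf ℓ (fun i => ρ (z i)) = ρ (lf ℓ z) := by
  unfold lf
  rw [map_sum]
  refine Finset.sum_congr rfl fun i _ => ?_
  rw [map_mul, ρ.commutes]

theorem lf_smul (ℓ : Fin (N + 1) → ℂ) (r : K) (z : Fin (N + 1) → K) :
    lf ℓ (r • z) = r * lf ℓ z := by
  unfold lf
  rw [Finset.mul_sum]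
  refine Finset.sum_congr rfl fun i _ => ?_
  rw [Pi.smul_apply, smul_eq_mul]
  ring

/-- the normalisation -/
noncomputable def nz (ℓ : Fin (N + 1) → ℂ) (z : Fin (N + 1) → K) : Fin (N + 1) → K :=
  (lf ℓ z)⁻¹ • z

theorem lf_nz {ℓ : Fin (N + 1) → ℂ} {z : Fin (N + 1) → K} (h : lf ℓ z ≠ 0) : lf ℓ (nz ℓ z) = 1 := by
  rw [nz, lf_smul, inv_mul_cancel₀ h]

theorem nz_act {ξ : Fin (N + 1) → K} (ℓ : Fin (N + 1) → ℂ) (g : GG ξ) (z : Fin (N + 1) → K) :
    g • nz ℓ z = nz ℓ (g • z) := by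
  funext i
  rw [GG_smul_apply, nz, nz, Pi.smul_apply, Pi.smul_apply, GG_smul_eq, lf_act, smul_eq_mul,
    smul_eq_mul, map_mul, map_inv₀]

theorem aeval_act (ρ : K ≃ₐ[ℂ] K) (z : Fin (N + 1) → K) (G : MvPolynomial (Fin (N + 1)) ℂ) :
    aeval (fun i => ρ (z i)) G = ρ (aeval z G) := by
  have h := MvPolynomial.map_aeval z (ρ : K →+* K) G
  have h2 := MvPolynomial.comp_aeval_apply (φ := (ρ : K →ₐ[ℂ] K)) z G
  exact h2.symm

theorem nd_act {ξ z : Fin (N + 1) → K} (ρ : K ≃ₐ[ℂ] K) (h : IsNdPt ξ z) :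
    IsNdPt ξ (fun i => ρ (z i)) := by
  obtain ⟨h1, h2, e, G, h3, h4, h5⟩ := h
  refine ⟨?_, ?_, e, G, h3, ?_, h5⟩
  · intro h6
    apply h1
    funext i
    have h7 := congrFun h6 i
    exact (map_eq_zero ρ).mp h7
  · intro e' G' h6 h7
    rw [aeval_act, h2 e' G' h6 h7, map_zero]
  · rw [aeval_act, h4, map_zero]

theorem aeval_smul {e : ℕ} {G : MvPolynomial (Fin (N + 1)) ℂ} (hG : G.IsHomogeneous e) (r : K)
    (z : Fin (N + 1) → K) : aeval (r • z) G = r ^ e * aeval z G := by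
  rw [aeval_def, aeval_def, eval₂_eq', eval₂_eq', Finset.mul_sum]
  refine Finset.sum_congr rfl fun m hm => ?_
  have hn : e = ∑ i, m i := by
    rw [hG.degree_eq_sum_deg_support hm]
    refine Finset.sum_subset (Finset.subset_univ _) fun i _ hi => ?_
    simpa using hi
  simp only [Pi.smul_apply, smul_eq_mul, mul_pow, Finset.prod_mul_distrib]
  rw [Finset.prod_pow_eq_pow_sum, ← hn]
  ring

theorem nd_smul {ξ z : Fin (N + 1) → K} {r : K} (hr : r ≠ 0) (h : IsNdPt ξ z) :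
    IsNdPt ξ (r • z) := by
  obtain ⟨h1, h2, e, G, h3, h4, h5⟩ := h
  refine ⟨smul_ne_zero hr h1, ?_, e, G, h3, ?_, h5⟩
  · intro e' G' h6 h7
    rw [aeval_smul h6, h2 e' G' h6 h7, mul_zero]
  · rw [aeval_smul h3, h4, mul_zero]

/-- the cycle of an integral multiplicity function -/
noncomputable def cyZ : ((Fin (N + 1) → K) →₀ ℤ) →+ Zv N K :=
  Finsupp.liftAddHom (fun z => zmultiplesHom (Zv N K) (FreeAbelianGroup.of z))

theorem cyZ_single (z : Fin (N + 1) → K) (n : ℤ) :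
    cyZ (Finsupp.single z n) = n • (FreeAbelianGroup.of z : Zv N K) := by
  simp [cyZ]

theorem cyZ_apply (f : (Fin (N + 1) → K) →₀ ℤ) :
    cyZ f = f.sum fun z n => n • (FreeAbelianGroup.of z : Zv N K) := by
  rw [cyZ, Finsupp.liftAddHom_apply]
  rfl

theorem exists_rep {ξ : Fin (N + 1) → K} {ν : Zv N K} (hν : ν ∈ ND ξ) :
    ∃ f : (Fin (N + 1) → K) →₀ ℤ, (∀ z, f z ≠ 0 → IsNdPt ξ z) ∧ cyZ f = ν := by
  classical
  induction hν using AddSubgroup.closure_induction with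
  | mem x hx =>
    obtain ⟨z, hz, rfl⟩ := hx
    refine ⟨Finsupp.single z 1, ?_, ?_⟩
    · intro w hw
      rw [Finsupp.single_apply] at hw
      by_cases h : z = w
      · rw [← h]; exact hz
      · rw [if_neg h] at hw
        exact absurd rfl hw
    · rw [cyZ_single, one_smul]
  | zero => exact ⟨0, fun z hz => absurd rfl hz, map_zero _⟩
  | add x y _ _ hx hy =>
    obtain ⟨f, hf, rfl⟩ := hx
    obtain ⟨g, hg, rfl⟩ := hy
    refine ⟨f + g, ?_, map_add _ _ _⟩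
    intro z hz
    by_cases h : f z = 0
    · by_cases h' : g z = 0
      · exact absurd (by rw [Finsupp.add_apply, h, h', add_zero]) hz
      · exact hg z h'
    · exact hf z h
  | neg x _ hx =>
    obtain ⟨f, hf, rfl⟩ := hx
    refine ⟨-f, ?_, map_neg _ _⟩
    intro z hz
    exact hf z (fun h => hz (by rw [Finsupp.neg_apply, h, neg_zero]))

/-- the action on multiplicity functions -/
noncomputable def md (ρ : K ≃ₐ[ℂ] K) :
    ((Fin (N + 1) → K) →₀ ℤ) →+ ((Fin (N + 1) → K) →₀ ℤ) :=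
  Finsupp.mapDomain.addMonoidHom (fun z i => ρ (z i))

theorem act_cyZ (ρ : K ≃ₐ[ℂ] K) (f : (Fin (N + 1) → K) →₀ ℤ) : act ρ (cyZ f) = cyZ (md ρ f) := by
  have h : (act ρ).comp cyZ = (cyZ : ((Fin (N + 1) → K) →₀ ℤ) →+ Zv N K).comp (md ρ) := by
    ext z
    simp only [AddMonoidHom.comp_apply, Finsupp.singleAddHom_apply]
    rw [cyZ_single, one_smul]
    have e : md ρ (Finsupp.single z (1 : ℤ)) = Finsupp.single (fun i => ρ (z i)) 1 :=
      Finsupp.mapDomain_single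
    rw [e, cyZ_single, one_smul]
    exact FreeAbelianGroup.map_of_apply z
  exact DFunLike.congr_fun h f

/-- the permutation of the vectors defined by an automorphism -/
def pe (ρ : K ≃ₐ[ℂ] K) : (Fin (N + 1) → K) ≃ (Fin (N + 1) → K) where
  toFun z i := ρ (z i)
  invFun z i := ρ.symm (z i)
  left_inv z := by funext i; simp
  right_inv z := by funext i; simp

theorem md_apply (ρ : K ≃ₐ[ℂ] K) (f : (Fin (N + 1) → K) →₀ ℤ) (z : Fin (N + 1) → K) :
    md ρ f z = f (fun i => ρ.symm (z i)) := by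
  have h : md ρ f = Finsupp.mapDomain (pe ρ) f := rfl
  rw [h, Finsupp.mapDomain_equiv_apply]
  rfl

theorem cyF_sub (c : (Fin (N + 1) → K) →₀ ℤ) :
    cyF (c.mapRange Int.toNat rfl) - cyF ((-c).mapRange Int.toNat rfl) = cyZ c := by
  have h1 : cyF (c.mapRange Int.toNat rfl) =
      ∑ z ∈ c.support, (c z).toNat • (FreeAbelianGroup.of z : Zv N K) := by
    unfold cyF
    rw [Finsupp.sum_mapRange_index (by intro z; exact zero_smul _ _)]
    rfl
  have h2 : cyF ((-c).mapRange Int.toNat rfl) =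
      ∑ z ∈ c.support, (-(c z)).toNat • (FreeAbelianGroup.of z : Zv N K) := by
    unfold cyF
    rw [Finsupp.sum_mapRange_index (by intro z; exact zero_smul _ _)]
    rw [Finsupp.sum, Finsupp.support_neg]
    rfl
  rw [h1, h2, ← Finset.sum_sub_distrib, cyZ_apply, Finsupp.sum]
  refine Finset.sum_congr rfl fun z _ => ?_
  rw [← natCast_zsmul, ← natCast_zsmul, ← sub_smul, Int.toNat_sub_toNat_neg]

/-- the normalised multiplicity function -/
theorem exists_norm {ξ : Fin (N + 1) → K} (ℓ : Fin (N + 1) → ℂ) (f : (Fin (N + 1) → K) →₀ ℤ)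
    (hf : ∀ z, f z ≠ 0 → IsNdPt ξ z) (hℓ : ∀ z, f z ≠ 0 → lf ℓ z ≠ 0) :
    cyZ f - cyZ (Finsupp.mapDomain (nz ℓ) f) ∈ KRat ξ := by
  rw [cyZ_apply, Finsupp.mapDomain, Finsupp.sum, Finsupp.sum, map_sum, ← Finset.sum_sub_distrib]
  refine AddSubgroup.sum_mem _ fun z hz => ?_
  rw [cyZ_single, ← smul_sub]
  refine AddSubgroup.zsmul_mem _ ?_ _
  have hz' : f z ≠ 0 := Finsupp.mem_support_iff.mp hz
  have h := rescale (hf z hz').1 (hf z hz').2.1 (lf ℓ z)⁻¹ (inv_ne_zero (hℓ z hz'))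
  have h2 := AddSubgroup.neg_mem _ h
  rwa [neg_sub] at h2

/-- the finite stable set of normalised vectors and the averaged multiplicity function -/
theorem exists_inv {ξ : Fin (N + 1) → K} (T : Set (Fin (N + 1) → K)) (hT : T.Finite)
    (hst : ∀ (g : GG ξ), ∀ z ∈ T, g • z ∈ T) (c0 : (Fin (N + 1) → K) →₀ ℤ)
    (hc0 : ∀ z, c0 z ≠ 0 → z ∈ T) :
    ∃ (H : Type) (_ : Fintype H) (r : H → GG ξ), 0 < Fintype.card H ∧
      (∀ z, (∑ h, md (r h : K ≃ₐ[ℂ] K) c0) z ≠ 0 → z ∈ T) ∧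
      (∀ (ρ : GG ξ) (z), (∑ h, md (r h : K ≃ₐ[ℂ] K) c0) (ρ • z) =
        (∑ h, md (r h : K ≃ₐ[ℂ] K) c0) z) := by
  classical
  have hinv : ∀ (g : GG ξ) (z : Fin (N + 1) → K),
      g⁻¹ • z = fun i => (g : K ≃ₐ[ℂ] K).symm (z i) := fun g z => rfl
  have happ : ∀ (g : GG ξ) (z), md (g : K ≃ₐ[ℂ] K) c0 z = c0 (g⁻¹ • z) := by
    intro g z
    rw [md_apply, hinv]
  -- the action on `T`
  let S : SubMulAction (GG ξ) (Fin (N + 1) → K) := ⟨T, fun g {z} hz => hst g z hz⟩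
  have hfin : Finite S := hT.to_subtype
  let π : GG ξ →* Equiv.Perm S := MulAction.toPermHom (GG ξ) S
  have hfin2 : Finite π.range := inferInstance
  let ft : Fintype π.range := Fintype.ofFinite _
  have hchoose : ∀ h : π.range, ∃ g : GG ξ, π g = h := fun h => h.2
  choose r hr using hchoose
  refine ⟨π.range, ft, r, Fintype.card_pos, ?_, ?_⟩
  · intro z hz
    rw [Finsupp.finsetSum_apply] at hz
    obtain ⟨h, _, hh⟩ := Finset.exists_ne_zero_of_sum_ne_zero hz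
    rw [happ] at hh
    have h1 := hst (r h) _ (hc0 _ hh)
    rwa [smul_inv_smul] at h1
  · intro ρ z
    rw [Finsupp.finsetSum_apply, Finsupp.finsetSum_apply]
    simp_rw [happ]
    by_cases hz : z ∈ T
    · -- use the permutations
      have key : ∀ g : GG ξ, c0 (g • z) = c0 ((π g ⟨z, hz⟩ : S) : Fin (N + 1) → K) := fun g => rfl
      have e1 : ∀ h : π.range, c0 ((r h)⁻¹ • ρ • z) =
          c0 ((((h : Equiv.Perm S)⁻¹ * π ρ) ⟨z, hz⟩ : S) : Fin (N + 1) → K) := by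
        intro h
        rw [← mul_smul, key, map_mul, map_inv, hr]
      have e2 : ∀ h : π.range, c0 ((r h)⁻¹ • z) =
          c0 ((((h : Equiv.Perm S)⁻¹) ⟨z, hz⟩ : S) : Fin (N + 1) → K) := by
        intro h
        rw [key, map_inv, hr]
      simp_rw [e1, e2]
      let ρ' : π.range := ⟨π ρ, ⟨ρ, rfl⟩⟩
      refine Fintype.sum_equiv (Equiv.mulLeft ρ'⁻¹) _ _ fun h => ?_
      simp only [Equiv.coe_mulLeft]
      congr 3
    · refine Finset.sum_congr rfl fun h _ => ?_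
      have h1 : c0 ((r h)⁻¹ • z) = 0 := by
        by_contra h2
        apply hz
        have h3 := hst (r h) _ (hc0 _ h2)
        rwa [smul_inv_smul] at h3
      have h2 : c0 ((r h)⁻¹ • ρ • z) = 0 := by
        by_contra h3
        apply hz
        have h4 := hst (ρ⁻¹ * r h) _ (hc0 _ h3)
        rwa [mul_smul, smul_inv_smul, inv_smul_smul] at h4
      rw [h1, h2]

end AvgAux

variable {N : ℕ} {K : Type} [Field K] [Algebra ℂ K] [IsAlgClosed K]

open AvgAux

/-- Averaging over the Galois group: a cycle which is invariant modulo `KRat` and a sum of an element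
of `KRat` and a cycle of non-dominating points becomes, after multiplication by `M`, a difference of
Galois invariant effective cycles of normalised non-dominating points, modulo `KRat`. -/
theorem exists_avg {ξ : Fin (N + 1) → K} (h1 : ξ 0 = 1) (halg : Algebra.IsAlgebraic (fld ξ) K)
    (Z : Zv N K) (hZ : ∀ ρ : K ≃ₐ[ℂ] K, (∀ i, ρ (ξ i) = ξ i) → act ρ Z - Z ∈ KRat ξ)
    (h : Z ∈ KRat ξ ⊔ ND ξ) :
    ∃ (M : ℕ) (ℓ : Fin (N + 1) → ℂ) (a b : (Fin (N + 1) → K) →₀ ℕ), 0 < M ∧ IsNd ξ ℓ a ∧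
      IsNd ξ ℓ b ∧ M • Z - (cyF a - cyF b) ∈ KRat ξ := by
  classical
  obtain ⟨κ, hκ, ν, hν, rfl⟩ := AddSubgroup.mem_sup.mp h
  obtain ⟨f, hf, rfl⟩ := exists_rep hν
  -- the orbits
  have hOfin : (⋃ z ∈ f.support, MulAction.orbit (GG ξ) z).Finite :=
    Set.Finite.biUnion f.support.finite_toSet fun z _ => orbit_finite halg z
  have hOnd : ∀ w ∈ (⋃ z ∈ f.support, MulAction.orbit (GG ξ) z), IsNdPt ξ w := by
    intro w hw
    simp only [Set.mem_iUnion] at hw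
    obtain ⟨z, hz, g, rfl⟩ := hw
    exact nd_act (g : K ≃ₐ[ℂ] K) (hf z (Finsupp.mem_support_iff.mp hz))
  obtain ⟨ℓ, hℓ⟩ := exists_form hOfin.toFinset (fun z hz => (hOnd z (hOfin.mem_toFinset.mp hz)).1)
  have hℓ' : ∀ w ∈ (⋃ z ∈ f.support, MulAction.orbit (GG ξ) z), lf ℓ w ≠ 0 :=
    fun w hw => hℓ w (hOfin.mem_toFinset.mpr hw)
  have hself : ∀ z, f z ≠ 0 → z ∈ (⋃ z ∈ f.support, MulAction.orbit (GG ξ) z) := by
    intro z hz
    simp only [Set.mem_iUnion]
    exact ⟨z, Finsupp.mem_support_iff.mpr hz, MulAction.mem_orbit_self z⟩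
  set O : Set (Fin (N + 1) → K) := ⋃ z ∈ f.support, MulAction.orbit (GG ξ) z with hO
  have hOst : ∀ (g : GG ξ), ∀ z ∈ O, g • z ∈ O := by
    intro g z hz
    simp only [hO, Set.mem_iUnion] at hz ⊢
    obtain ⟨w, hw, g', rfl⟩ := hz
    exact ⟨w, hw, g * g', mul_smul g g' w⟩
  set c0 : (Fin (N + 1) → K) →₀ ℤ := Finsupp.mapDomain (nz ℓ) f with hc0
  obtain ⟨H, _, r, hH, hsupp, hinv⟩ := exists_inv (nz ℓ '' O) (hOfin.image _)
    (by
      rintro g _ ⟨z, hz, rfl⟩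
      rw [nz_act]
      exact ⟨g • z, hOst g z hz, rfl⟩) c0
    (by
      intro z hz
      have h2 := Finsupp.mapDomain_support (f := nz ℓ) (s := f) (Finsupp.mem_support_iff.mpr hz)
      rw [Finset.mem_image] at h2
      obtain ⟨w, hw, rfl⟩ := h2
      exact ⟨w, hself w (Finsupp.mem_support_iff.mp hw), rfl⟩)
  set c : (Fin (N + 1) → K) →₀ ℤ := ∑ h, md (r h : K ≃ₐ[ℂ] K) c0 with hc
  have hT : ∀ z ∈ nz ℓ '' O, IsNdPt ξ z ∧ lf ℓ z = 1 := by
    rintro _ ⟨z, hz, rfl⟩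
    exact ⟨nd_smul (inv_ne_zero (hℓ' z hz)) (hOnd z hz), lf_nz (hℓ' z hz)⟩
  have hIs : ∀ d : (Fin (N + 1) → K) →₀ ℤ, (∀ z, d z ≠ 0 → c z ≠ 0) →
      (∀ (ρ : GG ξ) (z), d (ρ • z) = d z) → IsNd ξ ℓ (d.mapRange Int.toNat rfl) := by
    intro d hd1 hd2
    refine ⟨?_, ?_, ?_⟩
    · intro z hz
      rw [Finsupp.mapRange_apply] at hz
      refine (hT z (hsupp z (hd1 z ?_))).1
      intro h3
      rw [h3] at hz
      exact hz rfl
    · intro z hz
      rw [Finsupp.mapRange_apply] at hz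
      refine (hT z (hsupp z (hd1 z ?_))).2
      intro h3
      rw [h3] at hz
      exact hz rfl
    · intro ρ hρ z
      rw [Finsupp.mapRange_apply, Finsupp.mapRange_apply]
      exact congrArg Int.toNat (hd2 ⟨ρ, hρ⟩ z)
  refine ⟨Fintype.card H, ℓ, c.mapRange Int.toNat rfl, (-c).mapRange Int.toNat rfl, hH,
    hIs c (fun _ h => h) hinv, hIs (-c) ?_ ?_, ?_⟩
  · intro z hz h3
    exact hz (by rw [Finsupp.neg_apply, h3, neg_zero])
  · intro ρ z
    rw [Finsupp.neg_apply, Finsupp.neg_apply, hinv]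
  · rw [cyF_sub]
    -- the average
    have e1 : ∀ g : GG ξ, (κ + cyZ f) - act (g : K ≃ₐ[ℂ] K) (cyZ c0) ∈ KRat ξ := by
      intro g
      have h2 := hZ (g : K ≃ₐ[ℂ] K) g.2
      have h3 : act (g : K ≃ₐ[ℂ] K) κ ∈ KRat ξ := act_KRat _ hκ
      have h4 : act (g : K ≃ₐ[ℂ] K) (cyZ f - cyZ c0) ∈ KRat ξ :=
        act_KRat _ (exists_norm ℓ f hf fun z hz => hℓ' z (hself z hz))
      have h5 := AddSubgroup.sub_mem _ (AddSubgroup.add_mem _ h3 h4) h2
      rw [map_sub, map_add] at h5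
      convert h5 using 1
      abel
    have e2 : cyZ c = ∑ h, act (r h : K ≃ₐ[ℂ] K) (cyZ c0) := by
      rw [hc, map_sum]
      exact Finset.sum_congr rfl fun h _ => (act_cyZ _ _).symm
    rw [e2]
    have e3 : Fintype.card H • (κ + cyZ f) = ∑ _h : H, (κ + cyZ f) := by
      rw [Finset.sum_const, Finset.card_univ]
    rw [e3, ← Finset.sum_sub_distrib]
    exact AddSubgroup.sum_mem _ fun h _ => e1 (r h)

end Pool.Agent.FibC
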