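import Pool.Agent.LowDeg.TraceVal

/-! Module P2: counting zeros and poles. -/

set_option autoImplicit false
set_option linter.unusedVariables false
set_option linter.unusedSectionVars false

open Polynomial IntermediateField

namespace Pool.Agent.FibC

open Pool.Agent.LowDeg

variable {K E : Type} [Field K] [IsAlgClosed K] [CharZero K] [Field E] [Algebra K E]

/-- The degree formula. PROOF: `trace_val` with `a := t`, `t := t`, `g = 1`: `trace 1 = finrank`. -/
theorem sum_ord (t : E) (ht : Transcendental K t) [FiniteDimensional K⟮t⟯ E]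
    (S : Finset (Place K E)) (hS : ∀ P, P ∈ S ↔ P.Sm t) :
    ∑ P ∈ S, P.ord t = Module.finrank K⟮t⟯ E := by
  obtain ⟨S', hS', p, q, hq, hpq, hv⟩ := trace_val t ht t rfl (1 : E) (fun P _ => P.int_one)
  have hSS : S = S' := by
    ext P
    rw [hS, hS']
  have h1 := hv (fun _ => 1) (fun P _ => P.isVal_one)
  have h2 : (Algebra.trace K⟮t⟯ E (1 : E) : K⟮t⟯) = (Module.finrank K⟮t⟯ E : K⟮t⟯) := by
    have := Algebra.trace_algebraMap (S := E) (1 : K⟮t⟯)
    rw [map_one, nsmul_eq_mul, mul_one] at this
    exact this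
  rw [h2] at hpq
  have h3 : aeval t (Polynomial.C (Module.finrank K⟮t⟯ E : K) * q - p) = 0 := by
    rw [map_sub, map_mul, ← hpq, Polynomial.aeval_C, map_natCast]
    have : ((Module.finrank K⟮t⟯ E : K⟮t⟯) : E) = (Module.finrank K⟮t⟯ E : E) := by
      push_cast; rfl
    rw [this, sub_self]
  have h4 : Polynomial.C (Module.finrank K⟮t⟯ E : K) * q - p = 0 := by
    by_contra hne
    exact ht ⟨_, hne, h3⟩
  have h5 : p.eval 0 = (Module.finrank K⟮t⟯ E : K) * q.eval 0 := by
    rw [← sub_eq_zero.mp h4, Polynomial.eval_mul, Polynomial.eval_C]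
  rw [h5, mul_div_cancel_right₀ _ hq] at h1
  simp only [mul_one] at h1
  rw [hSS]
  have h6 : ((∑ P ∈ S', P.ord t : ℤ) : K) = ((Module.finrank K⟮t⟯ E : ℤ) : K) := by
    push_cast
    exact h1.symm
  exact_mod_cast h6

namespace PlaceSumAux

lemma finrank_congr {F F' : IntermediateField K E} (h : F = F') :
    Module.finrank F E = Module.finrank F' E := by
  subst h; rfl

lemma finite_sm_trans (a : E) (ha : Transcendental K a) [FiniteDimensional K⟮a⟯ E]
    (x : E) (hx : Transcendental K x) : {P : Place K E | P.Sm x}.Finite := by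
  have hx0 : x ≠ 0 := by
    rintro rfl
    exact hx isAlgebraic_zero
  refine Set.Finite.subset (finite_zeros a ha x hx0) ?_
  intro P hP
  have h1 : 0 < P.ord x := hP.resolve_left hx0
  exact h1.ne'

lemma exists_sm (a : E) (ha : Transcendental K a) [FiniteDimensional K⟮a⟯ E]
    (x : E) (hx : Transcendental K x) : ∃ P : Place K E, P.Sm x := by
  have hfd := (algebraic_of_transcendental a ha x hx).2
  have hfin := finite_sm_trans a ha x hx
  have hS : ∀ P, P ∈ hfin.toFinset ↔ P.Sm x := by
    intro P; rw [Set.Finite.mem_toFinset]; rfl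
  have h1 := sum_ord x hx hfin.toFinset hS
  have h2 : 0 < Module.finrank K⟮x⟯ E := Module.finrank_pos
  by_contra hcon
  push Not at hcon
  have h3 : hfin.toFinset = ∅ := by
    rw [Finset.eq_empty_iff_forall_notMem]
    intro P hP
    exact hcon P ((hS P).mp hP)
  rw [h3, Finset.sum_empty] at h1
  omega

lemma trans_inv {x : E} (hx : Transcendental K x) : Transcendental K x⁻¹ := by
  intro h
  have := h.inv
  rw [inv_inv] at this
  exact hx this

lemma adjoin_inv (x : E) : K⟮x⁻¹⟯ = K⟮x⟯ := by
  apply le_antisymm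
  · rw [IntermediateField.adjoin_simple_le_iff]
    exact inv_mem (IntermediateField.mem_adjoin_simple_self K x)
  · rw [IntermediateField.adjoin_simple_le_iff]
    have := inv_mem (IntermediateField.mem_adjoin_simple_self K x⁻¹)
    rwa [inv_inv] at this

lemma const_of_alg {x : E} (hx : ¬ Transcendental K x) : ∃ c : K, x = algebraMap K E c := by
  have h : IsAlgebraic K x := by
    by_contra h
    exact hx h
  obtain ⟨c, hc⟩ := TraceValAux.mem_range_of_isIntegral x h.isIntegral
  exact ⟨c, hc.symm⟩

end PlaceSumAux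

open PlaceSumAux

/-- PROOF: `sum_ord` (the sum is not zero, so the set is not empty), for `t = x - c` and for
`t = 1 / x`; `K⟮x - c⟯ = K⟮x⟯ = K⟮1 / x⟯` and `algebraic_of_transcendental`. -/
theorem exists_place_val (a : E) (ha : Transcendental K a) [FiniteDimensional K⟮a⟯ E]
    (x : E) (hx : Transcendental K x) :
    (∀ c : K, ∃ P : Place K E, P.Sm (x - algebraMap K E c)) ∧ ∃ P : Place K E, ¬ P.Int x := by
  constructor
  · intro c
    refine exists_sm a ha _ ?_
    intro h
    have h1 := h.add (isAlgebraic_algebraMap (R := K) (A := E) c)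
    rw [sub_add_cancel] at h1
    exact hx h1
  · obtain ⟨P, hP⟩ := exists_sm a ha x⁻¹ (trans_inv hx)
    have hx0 : x ≠ 0 := by
      rintro rfl
      exact hx isAlgebraic_zero
    have h1 := hP.resolve_left (inv_ne_zero hx0)
    rw [P.ord_inv] at h1
    refine ⟨P, ?_⟩
    rw [Place.int_iff_ord hx0]
    omega

/-- The sum of the orders of a function is zero. PROOF: if `x` is constant (algebraic over `K`) all
orders are zero. Otherwise `sum_ord` for `x` and for `x⁻¹` (`K⟮x⟯ = K⟮x⁻¹⟯`; finite dimensionality by
`algebraic_of_transcendental`). -/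
theorem sum_ord_zero (a : E) (ha : Transcendental K a) [FiniteDimensional K⟮a⟯ E]
    (x : E) (S : Finset (Place K E)) (hS : ∀ P : Place K E, P.ord x ≠ 0 → P ∈ S) :
    ∑ P ∈ S, P.ord x = 0 := by
  classical
  by_cases hx : Transcendental K x
  · have hx0 : x ≠ 0 := by
      rintro rfl
      exact hx isAlgebraic_zero
    have hfd := (algebraic_of_transcendental a ha x hx).2
    have hfd' := (algebraic_of_transcendental a ha x⁻¹ (trans_inv hx)).2
    have h1 := sum_ord x hx (S.filter (fun P => 0 < P.ord x)) (by
      intro P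
      rw [Finset.mem_filter, Place.sm_iff_ord hx0]
      exact ⟨fun h => h.2, fun h => ⟨hS P h.ne', h⟩⟩)
    have h2 := sum_ord x⁻¹ (trans_inv hx) (S.filter (fun P => P.ord x < 0)) (by
      intro P
      rw [Finset.mem_filter, Place.sm_iff_ord (inv_ne_zero hx0), P.ord_inv]
      exact ⟨fun h => by omega, fun h => ⟨hS P (by omega), by omega⟩⟩)
    rw [finrank_congr (adjoin_inv x)] at h2
    have h3 : ∑ P ∈ S.filter (fun P => P.ord x < 0), P.ord x⁻¹ =
        -∑ P ∈ S.filter (fun P => P.ord x < 0), P.ord x := by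
      rw [← Finset.sum_neg_distrib]
      exact Finset.sum_congr rfl (fun P _ => P.ord_inv x)
    rw [h3] at h2
    have h4 : ∑ P ∈ S, P.ord x = ∑ P ∈ S.filter (fun P => 0 < P.ord x), P.ord x +
        ∑ P ∈ S.filter (fun P => P.ord x < 0), P.ord x := by
      rw [Finset.sum_filter, Finset.sum_filter, ← Finset.sum_add_distrib]
      refine Finset.sum_congr rfl (fun P _ => ?_)
      split_ifs <;> omega
    rw [h4]; omega
  · obtain ⟨c, rfl⟩ := const_of_alg hx
    refine Finset.sum_eq_zero (fun P _ => ?_)
    rcases eq_or_ne c 0 with rfl | hc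
    · rw [map_zero, P.ord_zero]
    · exact P.ord_const c hc

/-- An element of `E` which is integral at all places is in `K`. PROOF: if `x` is transcendental over
`K`, use `exists_place_val`. -/
theorem const_of_int (a : E) (ha : Transcendental K a) [FiniteDimensional K⟮a⟯ E]
    (x : E) (hx : ∀ P : Place K E, P.Int x) : ∃ c : K, x = algebraMap K E c := by
  by_cases hxt : Transcendental K x
  · obtain ⟨P, hP⟩ := (exists_place_val a ha x hxt).2
    exact absurd (hx P) hP
  · exact const_of_alg hxt

end Pool.Agent.FibC
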