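import Pool.Agent.FibC.Newton
import Pool.Agent.FibC.PlaceSum
import Pool.Agent.LowDeg.Residue

/-! Module P15: the Chow forms of the fibres of a function. -/

set_option autoImplicit false
set_option linter.unusedVariables false

open Polynomial IntermediateField

namespace Pool.Agent.FibC

open Pool.Agent.LowDeg

variable {N : ℕ} {K E : Type} [Field K] [IsAlgClosed K] [CharZero K] [Field E] [Algebra K E]

namespace ChowFamAux

omit [CharZero K] in
lemma dvd_pow (B c : K[X]) (hB : B ≠ 0) (h : ∀ s, B.eval s = 0 → c.eval s = 0) :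
    ∃ m : ℕ, B ∣ c ^ m := by
  refine ⟨Multiset.card B.roots, ?_⟩
  have h1 := (IsAlgClosed.splits B).eq_prod_roots
  have h2 : (B.roots.map fun a => X - C a).prod ∣ (B.roots.map fun _ => c).prod := by
    refine Multiset.prod_dvd_prod_of_dvd _ _ fun a ha => ?_
    rw [dvd_iff_isRoot]
    exact h a ((mem_roots hB).1 ha)
  rw [Multiset.map_const', Multiset.prod_replicate] at h2
  have h3 : IsUnit (C B.leadingCoeff) :=
    (isUnit_C).2 (isUnit_iff_ne_zero.2 (leadingCoeff_ne_zero.2 hB))
  have h4 : C B.leadingCoeff * (B.roots.map fun a => X - C a).prod ∣ c ^ Multiset.card B.roots :=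
    (h3.mul_left_dvd).2 h2
  exact (dvd_of_eq h1).trans h4

omit [IsAlgClosed K] [CharZero K] in
lemma trans_sub (ψ : E) (hψ : Transcendental K ψ) (s : K) :
    Transcendental K (ψ - algebraMap K E s) := by
  intro h
  apply hψ
  have := h.add (isAlgebraic_algebraMap (A := E) s)
  rwa [sub_add_cancel] at this

omit [IsAlgClosed K] [CharZero K] in
lemma sub_ne (ψ : E) (hψ : Transcendental K ψ) (s : K) : ψ - algebraMap K E s ≠ 0 := by
  intro h
  exact trans_sub ψ hψ s (h ▸ isAlgebraic_zero)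

lemma sum_map {α β : Type*} [AddCommMonoid β] {ι : Type*} (S : Finset ι) (n : ι → ℕ)
    (z : ι → α) (f : α → β) :
    ((∑ P ∈ S, n P • ({z P} : Multiset α)).map f).sum = ∑ P ∈ S, n P • f (z P) := by
  classical
  induction S using Finset.induction_on with
  | empty => simp
  | insert a S ha ih =>
    rw [Finset.sum_insert ha, Finset.sum_insert ha, Multiset.map_add, Multiset.sum_add, ih,
      Multiset.map_nsmul, Multiset.sum_nsmul, Multiset.map_singleton, Multiset.sum_singleton]

lemma card_sum {α : Type*} {ι : Type*} (S : Finset ι) (n : ι → ℕ) (z : ι → α) :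
    Multiset.card (∑ P ∈ S, n P • ({z P} : Multiset α)) = ∑ P ∈ S, n P := by
  classical
  induction S using Finset.induction_on with
  | empty => simp
  | insert a S ha ih =>
    rw [Finset.sum_insert ha, Finset.sum_insert ha, Multiset.card_add, ih, Multiset.card_nsmul,
      Multiset.card_singleton, mul_one]

end ChowFamAux

open ChowFamAux

/-- The zeros of a rational function bound its denominator: an element of `K(ψ)` which is regular at
all `s` with `c(s) ≠ 0` has a power of `c` as denominator, and its values are given by the traces. -/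
theorem trace_pow (ψ : E) (hψ : Transcendental K ψ) [FiniteDimensional K⟮ψ⟯ E] (c : K[X])
    (hc : c ≠ 0) (x : E)
    (hx : ∀ s, c.eval s ≠ 0 → ∀ P : Place K E, P.Sm (ψ - algebraMap K E s) → P.Int x)
    (S : K → Finset (Place K E)) (hS : ∀ s P, P ∈ S s ↔ P.Sm (ψ - algebraMap K E s)) :
    ∃ (m : ℕ) (q : K[X]), ∀ s, c.eval s ≠ 0 → ∀ v : Place K E → K,
      (∀ P ∈ S s, P.IsVal x (v P)) →
      (c.eval s) ^ m * ∑ P ∈ S s, (P.ord (ψ - algebraMap K E s) : K) * v P = q.eval s := by
  obtain ⟨A, B, hB, hAB, hR⟩ := ResidueAux.rat_rep ψ hψ (Algebra.trace K⟮ψ⟯ E x)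
  have key : ∀ s, c.eval s ≠ 0 → B.eval s ≠ 0 ∧ ∀ v : Place K E → K,
      (∀ P ∈ S s, P.IsVal x (v P)) →
      B.eval s * ∑ P ∈ S s, (P.ord (ψ - algebraMap K E s) : K) * v P = A.eval s := by
    intro s hs
    obtain ⟨S', hS', p, q, hq, hpq, hv⟩ := trace_val ψ hψ (ψ - algebraMap K E s)
      (ResidueAux.adjoin_sub ψ s) x (hx s hs)
    have hSS : S s = S' := by
      ext P
      rw [hS, hS']
    have h3 : aeval (ψ - algebraMap K E s) p = aeval ψ (p.comp (X - C s)) := by
      rw [aeval_comp]; simp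
    have h4 : aeval (ψ - algebraMap K E s) q = aeval ψ (q.comp (X - C s)) := by
      rw [aeval_comp]; simp
    have h5 : A * q.comp (X - C s) = B * p.comp (X - C s) := by
      apply ResidueAux.aeval_inj ψ hψ
      rw [map_mul, map_mul, ← h3, ← h4, ← hpq, ← hR]
      ring
    have h6 := congrArg (eval s) h5
    rw [eval_mul, eval_mul, ResidueAux.comp_eval, ResidueAux.comp_eval] at h6
    have hBs : B.eval s ≠ 0 := by
      intro h0
      rw [h0, zero_mul] at h6
      have h7 : A.eval s = 0 := (mul_eq_zero.mp h6).resolve_right hq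
      obtain ⟨u, w, huw⟩ := hAB
      have h8 := congrArg (eval s) huw
      rw [eval_add, eval_mul, eval_mul, h7, h0, mul_zero, mul_zero, add_zero, eval_one] at h8
      exact zero_ne_one h8
    refine ⟨hBs, fun v hv' => ?_⟩
    rw [hSS] at hv' ⊢
    rw [← hv v hv', mul_div_assoc', div_eq_iff hq, h6]
  obtain ⟨m, B2, hm⟩ := dvd_pow B c hB (fun s h0 => by
    by_contra h1
    exact (key s h1).1 h0)
  refine ⟨m, A * B2, fun s hs v hv => ?_⟩
  have h1 := (key s hs).2 v hv
  have h2 := congrArg (eval s) hm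
  rw [eval_pow, eval_mul] at h2
  rw [h2, eval_mul, ← h1]
  ring

theorem exists_family (ψ : E) (hψ : Transcendental K ψ) [FiniteDimensional K⟮ψ⟯ E] (c : K[X])
    (hc : c ≠ 0) (x : Fin (N + 1) → E)
    (hx : ∀ s, c.eval s ≠ 0 → ∀ P : Place K E, P.Sm (ψ - algebraMap K E s) → ∀ j, P.Int (x j))
    (S : K → Finset (Place K E)) (hS : ∀ s P, P ∈ S s ↔ P.Sm (ψ - algebraMap K E s))
    (z : Place K E → Fin (N + 1) → K)
    (hz : ∀ s, c.eval s ≠ 0 → ∀ P ∈ S s, ∀ j, P.IsVal (x j) (z P j)) :
    ∃ (n : ℕ) (FF : MvPolynomial (Fin (N + 1)) K[X]), ∀ s, c.eval s ≠ 0 →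
      MvPolynomial.map (evalRingHom s) FF = MvPolynomial.C ((c.eval s) ^ n) *
        ((∑ P ∈ S s, (P.ord (ψ - algebraMap K E s)).toNat •
          ({z P} : Multiset (Fin (N + 1) → K))).map linF).prod := by
  have hpos : ∀ s, ∀ P ∈ S s, 0 < P.ord (ψ - algebraMap K E s) := by
    intro s P hP
    exact (Place.sm_iff_ord (sub_ne ψ hψ s)).1 ((hS s P).1 hP)
  have hfd : ∀ s, FiniteDimensional K⟮ψ - algebraMap K E s⟯ E := by
    intro s
    rw [ResidueAux.adjoin_sub ψ s]
    infer_instance
  have hfr : ∀ s, Module.finrank K⟮ψ - algebraMap K E s⟯ E = Module.finrank K⟮ψ⟯ E := by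
    intro s
    rw [ResidueAux.adjoin_sub ψ s]
  refine chow_of_power_sums c (Module.finrank K⟮ψ⟯ E)
    (fun s => ∑ P ∈ S s, (P.ord (ψ - algebraMap K E s)).toNat •
          ({z P} : Multiset (Fin (N + 1) → K))) ?_ ?_
  · intro s _
    rw [card_sum]
    have := hfd s
    have h1 := sum_ord (ψ - algebraMap K E s) (trans_sub ψ hψ s) (S s) (hS s)
    rw [hfr s] at h1
    zify
    rw [← h1]
    refine Finset.sum_congr rfl fun P hP => ?_
    rw [Int.toNat_of_nonneg (hpos s P hP).le]
  · intro α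
    obtain ⟨m, q, hmq⟩ := trace_pow ψ hψ c hc (∏ i, x i ^ α i)
      (fun s hs P hP => Place.Int.prod _ fun i _ => (hx s hs P hP i).pow _) S hS
    refine ⟨m, q, fun s hs => ?_⟩
    rw [sum_map]
    have h1 := hmq s hs (fun P => ∏ i, z P i ^ α i) (fun P hP =>
      Place.IsVal.prod _ fun i _ => (hz s hs P hP i).pow _)
    rw [← h1]
    congr 1
    refine Finset.sum_congr rfl fun P hP => ?_
    rw [nsmul_eq_mul]
    congr 1
    have h2 : ((P.ord (ψ - algebraMap K E s)).toNat : ℤ) = P.ord (ψ - algebraMap K E s) :=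
      Int.toNat_of_nonneg (hpos s P hP).le
    conv_rhs => rw [← h2]
    rw [Int.cast_natCast]

end Pool.Agent.FibC
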