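import Mathlib
import Pool.Agent.Chow0.Defs

/-!
# Correspondences of a fibred surface supported on few fibres: definitions
-/

set_option autoImplicit false

open scoped LinearAlgebra.Projectivization IntermediateField
open MvPolynomial

namespace Pool.Agent.FibC

open Pool.Agent.Chow0 (IsChowForm cyc CH0 Z0)

/-- The linear form `∑ z_j λ_j`. -/
noncomputable def linF {N : ℕ} {K : Type*} [CommRing K] (z : Fin (N + 1) → K) :
    MvPolynomial (Fin (N + 1)) K :=
  ∑ j, C (z j) * X j

section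

variable {N : ℕ} {K : Type} [Field K] [Algebra ℂ K]

/-- The function field `ℂ(ξ)` of the surface with generic point `ξ`. -/
noncomputable abbrev fld (ξ : Fin (N + 1) → K) : IntermediateField ℂ K :=
  IntermediateField.adjoin ℂ (Set.range ξ)

/-- The coordinate `ξ_j`, as an element of `ℂ(ξ)`. -/
noncomputable def crd (ξ : Fin (N + 1) → K) (j : Fin (N + 1)) : fld ξ :=
  ⟨ξ j, IntermediateField.subset_adjoin ℂ _ ⟨j, rfl⟩⟩

/-- All forms over `ℂ` which vanish at `ξ` vanish at `z`: the point `z` lies on the variety with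
generic point `ξ`. -/
def On {F F' : Type*} [CommRing F] [Algebra ℂ F] [CommRing F'] [Algebra ℂ F']
    (ξ : Fin (N + 1) → F) (z : Fin (N + 1) → F') : Prop :=
  ∀ (e : ℕ) (G : MvPolynomial (Fin (N + 1)) ℂ), G.IsHomogeneous e → aeval ξ G = 0 → aeval z G = 0

/-- The surface with generic point `ξ`. -/
def surf (ξ : Fin (N + 1) → K) : Set (ℙ ℂ (Fin (N + 1) → ℂ)) := {p | On ξ p.rep}

/-- The zero set of the form `G` in projective space. -/
def zer (G : MvPolynomial (Fin (N + 1)) ℂ) : Set (ℙ ℂ (Fin (N + 1) → ℂ)) :=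
  {p | aeval p.rep G = 0}

/-- `z` is a dominating point of the surface: `f ↦ f(z)` is a field embedding of `ℂ(ξ)`. -/
def Dom (ξ z : Fin (N + 1) → K) : Prop :=
  z 0 ≠ 0 ∧ ∃ σ : fld ξ →ₐ[ℂ] K, ∀ j, z 0 * σ (crd ξ j) = z j

open scoped Classical in
/-- The value `f(z)` of the rational function `f` at the dominating point `z` (zero if `z` is not
dominating). -/
noncomputable def val (ξ z : Fin (N + 1) → K) (f : fld ξ) : K :=
  if h : Dom ξ z then h.2.choose f else 0

/-- The value at the dominating point `z` of the rational 2-form `f dt ∧ da` on the pair of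
derivations `D₁, D₂` (zero if `z` is not dominating). -/
noncomputable def form (ξ : Fin (N + 1) → K) (t a : fld ξ) (D₁ D₂ : Derivation ℂ K K)
    (f : fld ξ) (z : Fin (N + 1) → K) : K :=
  val ξ z f * (D₁ (val ξ z t) * D₂ (val ξ z a) - D₁ (val ξ z a) * D₂ (val ξ z t))

/-- `c` is algebraic over `ℂ(t)`. -/
def Alg (t : K) (c : K) : Prop := IsAlgebraic ℂ⟮t⟯ c

/-- The rational functions on the surface which are constant on the fibres of `t`. -/
def base (ξ : Fin (N + 1) → K) (t : fld ξ) : Set (fld ξ) := {f | Alg (t : K) (f : K)}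

/-- The restriction of `u da` to the geometric generic fibre of `t` is a regular differential:
for every valuation ring of `K` containing the field `k` of elements algebraic over `ℂ(t)`,
`(a - c) u` vanishes if `a` has the value `c ∈ k`, and `a u` vanishes if `a` has a pole. -/
def IsReg (t a u : K) : Prop :=
  ∀ O : ValuationSubring K, (∀ c, Alg t c → c ∈ O) →
    (∀ c, Alg t c → O.valuation (a - c) < 1 → O.valuation ((a - c) * u) < 1) ∧
    (1 < O.valuation a → O.valuation (a * u) < 1)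

/-- The field `k(ξ)`, `k` the field of elements algebraic over `ℂ(t)`. -/
noncomputable def big (ξ : Fin (N + 1) → K) (t : K) : IntermediateField ℂ K :=
  IntermediateField.adjoin ℂ (Set.range ξ ∪ {c | Alg t c})

/-- The smallest `k`-vector space which contains `W` and all derivatives `δₐ h`, and is stable under
the derivation `δₜ`. -/
inductive GM (t : K) (δt δa : Derivation ℂ K K) (W : Set K) : K → Prop
  | mem (f : K) : f ∈ W → GM t δt δa W f
  | exact (h : K) : GM t δt δa W (δa h)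
  | der (f : K) : GM t δt δa W f → GM t δt δa W (δt f)
  | add (f g : K) : GM t δt δa W f → GM t δt δa W g → GM t δt δa W (f + g)
  | smul (c f : K) : Alg t c → GM t δt δa W f → GM t δt δa W (c * f)

/-- An effective correspondence of degree `w` from the surface to itself: an effective zero-cycle of
degree `w` of the generic fibre of the first projection, given by its Chow form. -/
structure EffCorr (ξ : Fin (N + 1) → K) (w : ℕ) where
  /-- the Chow form; the coefficients are forms in `x`, the variables are the `λ_j` -/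
  Φ : MvPolynomial (Fin (N + 1)) (MvPolynomial (Fin (N + 1)) ℂ)
  /-- the degree in `x` -/
  e : ℕ
  hom : ∀ m, (coeff m Φ).IsHomogeneous e
  /-- the points of the cycle over the generic point -/
  pts : Fin w → Fin (N + 1) → K
  pts_ne : ∀ i, pts i ≠ 0
  pts_on : ∀ i, On ξ (pts i)
  /-- the constant factor -/
  c : K
  c_ne : c ≠ 0
  fac : map (aeval ξ : MvPolynomial (Fin (N + 1)) ℂ →ₐ[ℂ] K).toRingHom Φ = C c * ∏ i, linF (pts i)

/-- The Chow form of the cycle of the correspondence over the point `x`. -/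
noncomputable def EffCorr.at {ξ : Fin (N + 1) → K} {w : ℕ} (Γ : EffCorr ξ w)
    (x : Fin (N + 1) → ℂ) : MvPolynomial (Fin (N + 1)) ℂ :=
  map (eval x) Γ.Φ

/-- The fibres of `t` met by the dominating points of `Γ` and `Γ'`; a fibre is given by the values
of the functions in `base`. -/
def fibres {ξ : Fin (N + 1) → K} (t : fld ξ) {w w' : ℕ} (Γ : EffCorr ξ w) (Γ' : EffCorr ξ w') :
    Set (base ξ t → K) :=
  {g | ∃ z, ((∃ i, Γ.pts i = z) ∨ ∃ i, Γ'.pts i = z) ∧ Dom ξ z ∧ g = fun f => val ξ z f.1}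

/-- The zero-cycle `∑ m_i [p_i]` has degree zero and is killed by all correspondences from the
surface to curves `G₀ = 0` on it whose fibres at the `p_i` are defined. -/
def AlbTrivial (ξ : Fin (N + 1) → K) {ι : Type} [Fintype ι] (p : ι → surf ξ) (m : ι → ℤ) : Prop :=
  ∑ i, m i = 0 ∧
    ∀ (e : ℕ) (G₀ : MvPolynomial (Fin (N + 1)) ℂ), G₀.IsHomogeneous e → aeval ξ G₀ ≠ 0 →
      ∀ (w : ℕ) (W : EffCorr ξ w), (∀ i, aeval (W.pts i) G₀ = 0) →
        ∀ s : ι → Multiset (surf ξ ∩ zer G₀ : Set (ℙ ℂ (Fin (N + 1) → ℂ))),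
          (∀ i, IsChowForm (surf ξ ∩ zer G₀) (W.at (p i).1.rep) (s i)) →
          (QuotientAddGroup.mk (∑ i, m i • cyc (s i)) :
            CH0 (surf ξ ∩ zer G₀ : Set (ℙ ℂ (Fin (N + 1) → ℂ)))) = 0

/-- The conclusion: the correspondence `Γ - Γ'` kills, up to torsion, the Albanese kernel. -/
def Kills (ξ : Fin (N + 1) → K) {w w' : ℕ} (Γ : EffCorr ξ w) (Γ' : EffCorr ξ w') : Prop :=
  ∃ (M : ℕ) (e : ℕ) (D : MvPolynomial (Fin (N + 1)) ℂ), 0 < M ∧ D.IsHomogeneous e ∧
    aeval ξ D ≠ 0 ∧
    (∀ p : surf ξ, aeval p.1.rep D ≠ 0 →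
      (∃ s, IsChowForm (surf ξ) (Γ.at p.1.rep) s) ∧ ∃ s', IsChowForm (surf ξ) (Γ'.at p.1.rep) s') ∧
    ∀ (ι : Type) [Fintype ι] (p : ι → surf ξ) (k : ι → ℤ),
      (∀ i, aeval (p i).1.rep D ≠ 0) → AlbTrivial ξ p k →
      ∀ s s' : ι → Multiset (surf ξ),
        (∀ i, IsChowForm (surf ξ) (Γ.at (p i).1.rep) (s i)) →
        (∀ i, IsChowForm (surf ξ) (Γ'.at (p i).1.rep) (s' i)) →
        (QuotientAddGroup.mk (M • ∑ i, k i • (cyc (s i) - cyc (s' i))) : CH0 (surf ξ)) = 0

end

/-- **The main theorem** (statement). -/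
def MainStatement : Prop :=
  ∀ (N : ℕ) (K : Type) [Field K] [Algebra ℂ K] [IsAlgClosed K] (ξ : Fin (N + 1) → K)
    (t a : fld ξ), ξ 0 = 1 → IsTranscendenceBasis ℂ ![(t : K), (a : K)] →
    ∃ δt δa : Derivation ℂ K K, (δt t = 1 ∧ δt a = 0 ∧ δa t = 0 ∧ δa a = 1) ∧
    ∀ (U : Set (base ξ t)) (W : Set (fld ξ)),
      (∀ u ∈ big ξ (t : K), IsReg (t : K) (a : K) u → GM (t : K) δt δa (Subtype.val '' W) u) →
      ∀ (w w' : ℕ) (Γ : EffCorr ξ w) (Γ' : EffCorr ξ w'),
        LinearIndependent K (fun (g : fibres t Γ Γ') (u : U) => g.1 u.1) →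
        (∀ (D₁ D₂ : Derivation ℂ K K), ∀ u ∈ U, ∀ f ∈ W,
          ∑ i, form ξ t a D₁ D₂ (u.1 * f) (Γ.pts i) =
            ∑ i, form ξ t a D₁ D₂ (u.1 * f) (Γ'.pts i)) →
        Kills ξ Γ Γ'

end Pool.Agent.FibC
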