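import Pool.Agent.FibC.Defs
import Pool.Agent.LowDeg.DerExt

/-! Module D1: derivations of `K`. -/

set_option autoImplicit false

open scoped IntermediateField

namespace Pool.Agent.FibC

variable {K : Type} [Field K] [Algebra ℂ K] {t a : K}

namespace DersAux

open scoped IntermediateField.algebraAdjoinAdjoin
open MvPolynomial

/-- derivations with given values on a transcendence basis -/
theorem exists_der (hb : IsTranscendenceBasis ℂ ![t, a]) (f : Fin 2 → K) :
    ∃ D : Derivation ℂ K K, D t = f 0 ∧ D a = f 1 := by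
  have hinj : Function.Injective (aeval ![t, a] : MvPolynomial (Fin 2) ℂ →ₐ[ℂ] K) := hb.1
  let : Algebra (MvPolynomial (Fin 2) ℂ) K :=
    (aeval ![t, a] : MvPolynomial (Fin 2) ℂ →ₐ[ℂ] K).toRingHom.toAlgebra
  have : IsScalarTower ℂ (MvPolynomial (Fin 2) ℂ) K := IsScalarTower.of_algebraMap_eq (fun c => by
    change _ = aeval ![t, a] (algebraMap ℂ (MvPolynomial (Fin 2) ℂ) c)
    simp)
  have hAlg : ∀ p : MvPolynomial (Fin 2) ℂ, algebraMap (MvPolynomial (Fin 2) ℂ) K p =
    aeval ![t, a] p := fun _ => rfl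
  set S : Set K := Set.range ![t, a] with hS
  have hA0 : ∀ x : K, x ∈ (Algebra.adjoin ℂ S) ↔ ∃ p : MvPolynomial (Fin 2) ℂ, aeval ![t, a] p = x :=
    fun x => by
    rw [hS, Algebra.adjoin_range_eq_range_aeval]
    rfl
  let e : MvPolynomial (Fin 2) ℂ →ₐ[ℂ] (Algebra.adjoin ℂ S) :=
    (aeval ![t, a] : MvPolynomial (Fin 2) ℂ →ₐ[ℂ] K).codRestrict (Algebra.adjoin ℂ S) (fun p =>
    (hA0 _).2 ⟨p, rfl⟩)
  have he : Function.Bijective e := by
    constructor
    · intro p q h
      apply hinj
      exact congrArg Subtype.val h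
    · rintro ⟨x, hx⟩
      obtain ⟨p, hp⟩ := (hA0 x).1 hx
      exact ⟨p, Subtype.ext hp⟩
  let : Algebra (MvPolynomial (Fin 2) ℂ) (Algebra.adjoin ℂ S) := e.toRingHom.toAlgebra
  have : IsScalarTower (MvPolynomial (Fin 2) ℂ) (Algebra.adjoin ℂ S) K :=
    IsScalarTower.of_algebraMap_eq (fun _ => rfl)
  have : CharZero (IntermediateField.adjoin ℂ S) :=
    charZero_of_injective_algebraMap (algebraMap ℂ (IntermediateField.adjoin ℂ S)).injective
  have : Algebra.IsAlgebraic (IntermediateField.adjoin ℂ S) K := hb.isAlgebraic_field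
  have h1 : Algebra.FormallyEtale (MvPolynomial (Fin 2) ℂ) (Algebra.adjoin ℂ S) :=
    Algebra.FormallyEtale.of_equiv
      (AlgEquiv.ofBijective (Algebra.ofId (MvPolynomial (Fin 2) ℂ) (Algebra.adjoin ℂ S)) he)
  have h2 : Algebra.FormallyEtale (Algebra.adjoin ℂ S) (IntermediateField.adjoin ℂ S) :=
    Algebra.FormallyEtale.of_isLocalization (nonZeroDivisors (Algebra.adjoin ℂ S))
  have h3 : Algebra.FormallyEtale (IntermediateField.adjoin ℂ S) K :=
    Algebra.FormallyEtale.of_isSeparable _ _
  have h4 : Algebra.FormallyEtale (Algebra.adjoin ℂ S) K :=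
    Algebra.FormallyEtale.comp (Algebra.adjoin ℂ S) (IntermediateField.adjoin ℂ S) K
  have h5 : Algebra.FormallyEtale (MvPolynomial (Fin 2) ℂ) K :=
    Algebra.FormallyEtale.comp (MvPolynomial (Fin 2) ℂ) (Algebra.adjoin ℂ S) K
  obtain ⟨D, hD⟩ := LowDeg.DerExtAux.exists_of_formallyEtale (k := ℂ)
    (A := MvPolynomial (Fin 2) ℂ) (E := K) (mkDerivation ℂ f)
  refine ⟨D, ?_, ?_⟩
  · have := hD (X 0)
    rw [hAlg, mkDerivation_X] at this
    simpa using this
  · have := hD (X 1)
    rw [hAlg, mkDerivation_X] at this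
    simpa using this

/-- a derivation which vanishes on a subfield vanishes on the elements algebraic over it -/
theorem zero_of_alg (F : IntermediateField ℂ K) (D : Derivation ℂ K K)
    (h : ∀ c : F, D (c : K) = 0) (x : K) (hx : IsAlgebraic F x) : D x = 0 := by
  have : CharZero F := charZero_of_injective_algebraMap (algebraMap ℂ F).injective
  let d' : Derivation F K K :=
    Derivation.mk'
      { toFun := D
        map_add' := map_add D
        map_smul' := fun r x => by
          have hr : D (algebraMap F K r) = 0 := h r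
          rw [Algebra.smul_def, Derivation.leibniz, hr, smul_zero, add_zero, RingHom.id_apply,
            smul_eq_mul]
          exact (Algebra.smul_def r (D x)).symm }
      (fun x y => D.leibniz x y)
  have hi : IsIntegral F x := hx.isIntegral
  have h1 := d'.map_aeval (minpoly F x) x
  rw [minpoly.aeval, map_zero, smul_eq_mul] at h1
  have h2 : Polynomial.aeval x (Polynomial.derivative (minpoly F x)) ≠ 0 :=
    (minpoly.irreducible hi).separable.aeval_derivative_ne_zero (minpoly.aeval F x)
  rcases mul_eq_zero.1 h1.symm with h3 | h3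
  · exact absurd h3 h2
  · exact h3

/-- the constants of a derivation -/
def cst (D : Derivation ℂ K K) : IntermediateField ℂ K :=
  { carrier := {x | D x = 0}
    mul_mem' := fun {x y} hx hy => by
      rw [Set.mem_ofPred_eq] at *
      rw [Derivation.leibniz, hx, hy, smul_zero, smul_zero, add_zero]
    add_mem' := fun {x y} hx hy => by
      rw [Set.mem_ofPred_eq] at *
      rw [map_add, hx, hy, add_zero]
    algebraMap_mem' := fun c => D.map_algebraMap c
    inv_mem' := fun x hx => by
      rw [Set.mem_ofPred_eq] at *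
      rw [Derivation.leibniz_inv, hx, smul_zero] }

theorem mem_cst (D : Derivation ℂ K K) (x : K) : x ∈ cst D ↔ D x = 0 := Iff.rfl

end DersAux

open DersAux

/-- PROOF: `K` is algebraic over the rational function field `ℂ(t, a)`, in characteristic zero, so
derivations extend uniquely. E.g. `Differential`/Kähler: `K` is formally étale over
`MvPolynomial (Fin 2) ℂ` (localisation + algebraic separable), see
`LowDeg.exists_of_formallyEtale` in `Pool/Agent/LowDeg/DerExt.lean` with
`A = MvPolynomial (Fin 2) ℂ`, `MvPolynomial.mkDerivation`. -/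
theorem exists_ders (hb : IsTranscendenceBasis ℂ ![t, a]) :
    ∃ δt δa : Derivation ℂ K K, δt t = 1 ∧ δt a = 0 ∧ δa t = 0 ∧ δa a = 1 := by
  obtain ⟨δt, h1, h2⟩ := exists_der hb ![1, 0]
  obtain ⟨δa, h3, h4⟩ := exists_der hb ![0, 1]
  exact ⟨δt, δa, by simpa using h1, by simpa using h2, by simpa using h3, by simpa using h4⟩

/-- PROOF: `{x | D x = D' x}` is a subfield containing `ℂ, t, a`; for `x ∈ K` with minimal polynomial
`f` over it, `f'(x) (D x - D' x) = 0`. -/
theorem der_ext (hb : IsTranscendenceBasis ℂ ![t, a]) (D D' : Derivation ℂ K K)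
    (h : D t = D' t) (h' : D a = D' a) : D = D' := by
  have hle : IntermediateField.adjoin ℂ (Set.range ![t, a]) ≤ cst (D - D') := by
    rw [IntermediateField.adjoin_le_iff]
    rintro _ ⟨i, rfl⟩
    refine (mem_cst _ _).2 ?_
    fin_cases i
    · simp [h]
    · simp [h']
  have halg : Algebra.IsAlgebraic (IntermediateField.adjoin ℂ (Set.range ![t, a])) K :=
    hb.isAlgebraic_field
  ext x
  have h1 : (D - D') x = 0 :=
    zero_of_alg (IntermediateField.adjoin ℂ (Set.range ![t, a])) (D - D') (fun c => hle c.2) x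
      (halg.isAlgebraic x)
  rw [Derivation.sub_apply] at h1
  exact sub_eq_zero.1 h1

section

variable {δt δa : Derivation ℂ K K}

/-- PROOF: `der_ext` for `D` and `D t • δt + D a • δa`. -/
theorem der_eq (hb : IsTranscendenceBasis ℂ ![t, a])
    (hδ : δt t = 1 ∧ δt a = 0 ∧ δa t = 0 ∧ δa a = 1) (D : Derivation ℂ K K) (x : K) :
    D x = D t * δt x + D a * δa x := by
  obtain ⟨h1, h2, h3, h4⟩ := hδ
  have h : D = D t • δt + D a • δa := by
    refine der_ext hb _ _ ?_ ?_
    · simp [h1, h3]
    · simp [h2, h4]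
  have h5 := congrArg (fun E : Derivation ℂ K K => E x) h
  simpa using h5

/-- PROOF: the commutator of `δt` and `δa` is a derivation which vanishes at `t` and `a`. -/
theorem der_comm (hb : IsTranscendenceBasis ℂ ![t, a])
    (hδ : δt t = 1 ∧ δt a = 0 ∧ δa t = 0 ∧ δa a = 1) (x : K) : δt (δa x) = δa (δt x) := by
  obtain ⟨h1, h2, h3, h4⟩ := hδ
  have h : ⁅δt, δa⁆ = 0 := by
    refine der_ext hb _ _ ?_ ?_
    · simp [Derivation.commutator_apply, h1, h3]
    · simp [Derivation.commutator_apply, h2, h4]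
  have h5 := congrArg (fun E : Derivation ℂ K K => E x) h
  simp only [Derivation.commutator_apply, Derivation.coe_zero, Pi.zero_apply] at h5
  exact sub_eq_zero.1 h5

/-- PROOF: if `x` is algebraic over `ℂ(t)` then `δa x = 0`. If `x` is not algebraic over `ℂ(t)` then
`a` is algebraic over `ℂ(t, x)` (exchange), so `δa x = 0` would give `δa a = 0`. -/
theorem ker_iff (hb : IsTranscendenceBasis ℂ ![t, a])
    (hδ : δt t = 1 ∧ δt a = 0 ∧ δa t = 0 ∧ δa a = 1) (x : K) : δa x = 0 ↔ Alg t x := by
  obtain ⟨h1, h2, h3, h4⟩ := hδ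
  constructor
  · intro hx
    by_contra hx'
    have ht0 : Transcendental ℂ t := by
      have := hb.1.transcendental 0
      simpa using this
    have ht1 : Transcendental ℂ (⟨t, IntermediateField.mem_adjoin_simple_self ℂ t⟩ : ℂ⟮t⟯) := by
      intro hh
      exact ht0 (hh.algebraMap (A := K))
    have hI1 : AlgebraicIndependent ℂ
        (fun _ : Unit => (⟨t, IntermediateField.mem_adjoin_simple_self ℂ t⟩ : ℂ⟮t⟯)) :=
      (algebraicIndependent_unique_type_iff).2 ht1
    have hI2 : AlgebraicIndependent ℂ⟮t⟯ (fun _ : Unit => x) :=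
      (algebraicIndependent_unique_type_iff).2 hx'
    have hI3 := AlgebraicIndependent.sumElim_comp hI1 hI2
    have hI4 : AlgebraicIndependent ℂ ![t, x] := by
      let e : Fin 2 ≃ Unit ⊕ Unit :=
        { toFun := fun i => if i = 0 then Sum.inr () else Sum.inl ()
          invFun := Sum.elim (fun _ => 1) (fun _ => 0)
          left_inv := fun i => by fin_cases i <;> rfl
          right_inv := fun i => by rcases i with i | i <;> rfl }
      refine (algebraicIndependent_equiv' e ?_).2 hI3
      funext i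
      fin_cases i <;> rfl
    have htr : Algebra.trdeg ℂ K ≤ Cardinal.mk (Fin 2) := by
      rw [← hb.cardinalMk_eq_trdeg]
    have hb' : IsTranscendenceBasis ℂ ![t, x] := hI4.isTranscendenceBasis_of_trdeg_le_of_finite htr
    have h0 : δa = 0 := der_ext hb' _ _ (by simpa using h3) (by simpa using hx)
    rw [h0] at h4
    simp at h4
  · intro hx
    have hle : ℂ⟮t⟯ ≤ cst δa := by
      rw [IntermediateField.adjoin_simple_le_iff]
      exact h3
    exact zero_of_alg ℂ⟮t⟯ δa (fun c => hle c.2) x hx

/-- chain rule for automorphisms: the derivation `θ⁻¹ D θ` is `(D θ t) δt + (D θ a) δa` (conjugated). -/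
theorem chain (hb : IsTranscendenceBasis ℂ ![t, a])
    (hδ : δt t = 1 ∧ δt a = 0 ∧ δa t = 0 ∧ δa a = 1) (D : Derivation ℂ K K) (θ : K ≃ₐ[ℂ] K) (x : K) :
    D (θ x) = D (θ t) * θ (δt x) + D (θ a) * θ (δa x) := by
  let L : K →ₗ[ℂ] K := θ.symm.toLinearMap ∘ₗ (D : K →ₗ[ℂ] K) ∘ₗ θ.toLinearMap
  have hL : ∀ x, L x = θ.symm (D (θ x)) := fun _ => rfl
  let D' : Derivation ℂ K K := Derivation.mk' L (fun x y => by
    rw [hL, hL, hL, map_mul, Derivation.leibniz, map_add, smul_eq_mul, smul_eq_mul, map_mul, map_mul,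
      AlgEquiv.symm_apply_apply, AlgEquiv.symm_apply_apply, smul_eq_mul, smul_eq_mul])
  have h := der_eq hb hδ D' x
  have hD' : ∀ x, D' x = θ.symm (D (θ x)) := fun _ => rfl
  rw [hD', hD', hD'] at h
  have h' := congrArg θ h
  rw [AlgEquiv.apply_symm_apply, map_add, map_mul, map_mul, AlgEquiv.apply_symm_apply,
    AlgEquiv.apply_symm_apply] at h'
  exact h'

end

end Pool.Agent.FibC
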