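import Pool.Agent.FibC.KDefs

/-! Module F1: Galois descent of effective cycles. -/

set_option autoImplicit false

open MvPolynomial

namespace Pool.Agent.FibC

variable {N : ℕ} {K : Type} [Field K] [Algebra ℂ K] [IsAlgClosed K]

namespace DescentAux

lemma isGalois (L : IntermediateField ℂ K) (h : Algebra.IsAlgebraic L K) : IsGalois L K := by
  have : CharZero K := charZero_of_injective_algebraMap (algebraMap ℂ K).injective
  have hc : CharZero L := charZero_of_injective_algebraMap (algebraMap ℂ L).injective
  have : IsAlgClosure L K := ⟨inferInstance, h⟩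
  have hn : Normal L K := IsAlgClosure.normal L K
  have hs : Algebra.IsSeparable L K := inferInstance
  exact ⟨⟩

omit [IsAlgClosed K] in
lemma map_linF (σ : K ≃ₐ[ℂ] K) (z : Fin (N + 1) → K) :
    map (σ : K →+* K) (linF z) = linF (fun i => σ (z i)) := by
  unfold linF
  rw [map_sum]
  refine Finset.sum_congr rfl fun j _ => ?_
  rw [map_mul, map_C, map_X]
  rfl

omit [IsAlgClosed K] in
/-- homogenisation with respect to the first variable -/
lemma exists_homog (g : MvPolynomial (Fin (N + 1)) ℂ) (e : ℕ) (he : g.totalDegree ≤ e)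
    (ξ : Fin (N + 1) → K) (h1 : ξ 0 = 1) :
    ∃ G : MvPolynomial (Fin (N + 1)) ℂ, G.IsHomogeneous e ∧ aeval ξ G = aeval ξ g := by
  refine ⟨∑ m ∈ g.support, C (coeff m g) * (X 0 ^ (e - m.degree) * monomial m 1), ?_, ?_⟩
  · refine IsHomogeneous.sum _ _ _ fun m hm => ?_
    have hd : m.degree ≤ e := (le_totalDegree hm).trans he
    have h2 : (X 0 ^ (e - m.degree) * monomial m 1 : MvPolynomial (Fin (N + 1)) ℂ).IsHomogeneous e := by
      have h3 := ((isHomogeneous_X ℂ (0 : Fin (N + 1))).pow (e - m.degree)).mul
        (isHomogeneous_monomial (1:ℂ) (d := m) rfl)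
      have e1 : 1 * (e - m.degree) + m.degree = e := by omega
      rw [e1] at h3
      exact h3
    have h4 := (isHomogeneous_C (Fin (N + 1)) (coeff m g)).mul h2
    rw [zero_add] at h4
    exact h4
  · conv_rhs => rw [g.as_sum]
    rw [map_sum, map_sum]
    refine Finset.sum_congr rfl fun m _ => ?_
    rw [map_mul, map_mul, map_pow, aeval_X, h1, one_pow, one_mul]
    rw [aeval_C, aeval_monomial, aeval_monomial, map_one, one_mul]

end DescentAux

open DescentAux

/-- a Galois invariant effective cycle, with points normalised by a linear form over `ℂ`, is an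
effective correspondence. -/
theorem exists_effCorr {ξ : Fin (N + 1) → K} (h1 : ξ 0 = 1)
    (halg : Algebra.IsAlgebraic (fld ξ) K)
    (ℓ : Fin (N + 1) → ℂ) (ν : (Fin (N + 1) → K) →₀ ℕ)
    (hν : ∀ z, ν z ≠ 0 → On ξ z ∧ ∑ i, algebraMap ℂ K (ℓ i) * z i = 1)
    (hinv : ∀ (σ : K ≃ₐ[ℂ] K), (∀ i, σ (ξ i) = ξ i) → ∀ z, ν (fun i => σ (z i)) = ν z) :
    ∃ (w : ℕ) (W : EffCorr ξ w),
      Multiset.map W.pts Finset.univ.val = Finsupp.toMultiset ν := by
  have h1' := h1
  clear h1
  classical
  set L := IntermediateField.adjoin ℂ (Set.range ξ) with hL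
  have hgal : IsGalois L K := isGalois L halg
  set ms := Finsupp.toMultiset ν with hms
  set l := ms.toList with hl
  set P : MvPolynomial (Fin (N + 1)) K := ∏ i : Fin l.length, linF (l.get i) with hP
  have hPm : P = (ms.map linF).prod := by
    have h1 : (Multiset.map (fun i : Fin l.length => linF (l.get i)) Finset.univ.val).prod =
        (ms.map linF).prod := by
      have h2 : Multiset.map (fun i : Fin l.length => linF (l.get i)) Finset.univ.val =
          Multiset.map linF (Multiset.map l.get Finset.univ.val) := by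
        rw [Multiset.map_map]
        rfl
      rw [h2, Fin.univ_val_map, List.ofFn_get, hl, Multiset.coe_toList]
    rw [← h1]
    rfl
  -- the coefficients are invariant
  have hcoef : ∀ m, coeff m P ∈ L := by
    intro m
    have h1 : coeff m P ∈ (⊥ : IntermediateField L K) := by
      rw [InfiniteGalois.mem_bot_iff_fixed]
      intro f
      set σ : K ≃ₐ[ℂ] K := AlgEquiv.restrictScalars ℂ f with hσ
      have hσξ : ∀ i, σ (ξ i) = ξ i := by
        intro i
        have hi : ξ i ∈ L := IntermediateField.subset_adjoin ℂ _ ⟨i, rfl⟩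
        exact f.commutes ⟨ξ i, hi⟩
      have hmap : map (σ : K →+* K) P = P := by
        rw [hPm]
        have h2 : map (σ : K →+* K) ((ms.map linF).prod) =
            ((ms.map (fun z : Fin (N + 1) → K => fun i => σ (z i))).map linF).prod := by
          rw [map_multiset_prod, Multiset.map_map, Multiset.map_map]
          refine congrArg Multiset.prod (Multiset.map_congr rfl fun z _ => ?_)
          exact map_linF σ z
        rw [h2]
        have hinj : Function.Injective (fun z : Fin (N + 1) → K => fun i => σ (z i)) := by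
          intro z z' hzz
          funext i
          exact σ.injective (congrFun hzz i)
        have h3 : ms.map (fun z : Fin (N + 1) → K => fun i => σ (z i)) = ms := by
          rw [hms, Finsupp.toMultiset_map]
          refine congrArg (fun f : (Fin (N + 1) → K) →₀ ℕ => Finsupp.toMultiset f) ?_
          ext z'
          obtain ⟨z, rfl⟩ : ∃ z : Fin (N + 1) → K, (fun i => σ (z i)) = z' :=
            ⟨fun i => σ.symm (z' i), by funext i; exact σ.apply_symm_apply _⟩
          have h4 := Finsupp.mapDomain_apply hinj ν z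
          rw [h4, hinv σ hσξ z]
        rw [h3]
      have h4 := congrArg (coeff m) hmap
      rw [coeff_map] at h4
      exact h4
    rw [IntermediateField.mem_bot] at h1
    obtain ⟨x, hx⟩ := h1
    rw [← hx]
    exact x.2
  -- common denominator
  have hfrac : ∀ m, ∃ r s : MvPolynomial (Fin (N + 1)) ℂ, aeval ξ s ≠ 0 ∧
      coeff m P * aeval ξ s = aeval ξ r := by
    intro m
    obtain ⟨r, s, hrs⟩ := (IntermediateField.mem_adjoin_range_iff ℂ ξ _).mp (hcoef m)
    by_cases hs : aeval ξ s = 0
    · refine ⟨0, 1, by simp, ?_⟩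
      rw [hrs, hs, div_zero, zero_mul, map_zero]
    · exact ⟨r, s, hs, by rw [hrs, div_mul_cancel₀ _ hs]⟩
  choose r s hs hrs using hfrac
  set q : MvPolynomial (Fin (N + 1)) ℂ := ∏ m ∈ P.support, s m with hq
  have hq0 : aeval ξ q ≠ 0 := by
    rw [hq, map_prod]
    exact Finset.prod_ne_zero_iff.mpr fun m _ => hs m
  have hnum : ∀ m, ∃ g : MvPolynomial (Fin (N + 1)) ℂ, aeval ξ g = aeval ξ q * coeff m P := by
    intro m
    by_cases hm : m ∈ P.support
    · refine ⟨r m * ∏ m' ∈ P.support.erase m, s m', ?_⟩
      rw [map_mul, ← hrs m, hq, ← Finset.mul_prod_erase P.support s hm, map_mul]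
      ring
    · refine ⟨0, ?_⟩
      rw [MvPolynomial.notMem_support_iff.mp hm, mul_zero, map_zero]
  choose g hg using hnum
  set e : ℕ := P.support.sup (fun m => (g m).totalDegree) with he
  have hhom : ∀ m, ∃ G : MvPolynomial (Fin (N + 1)) ℂ, G.IsHomogeneous e ∧
      (m ∈ P.support → aeval ξ G = aeval ξ (g m)) := by
    intro m
    by_cases hm : m ∈ P.support
    · obtain ⟨G, h1, h2⟩ := exists_homog (g m) e
        (Finset.le_sup (f := fun m => (g m).totalDegree) hm) ξ h1'
      exact ⟨G, h1, fun _ => h2⟩
    · exact ⟨0, isHomogeneous_zero _ _ _, fun h => absurd h hm⟩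
  choose G hG1 hG2 using hhom
  set Φ : MvPolynomial (Fin (N + 1)) (MvPolynomial (Fin (N + 1)) ℂ) :=
    ∑ m ∈ P.support, monomial m (G m) with hΦ
  have hΦc : ∀ m, coeff m Φ = if m ∈ P.support then G m else 0 := by
    intro m
    rw [hΦ, coeff_sum]
    simp only [coeff_monomial]
    rw [Finset.sum_ite_eq']
  have hmem : ∀ i : Fin l.length, ν (l.get i) ≠ 0 := by
    intro i
    have h1 : l.get i ∈ ms := by
      rw [← Multiset.mem_toList, ← hl]
      exact List.get_mem l i
    rw [hms, Finsupp.mem_toMultiset, Finsupp.mem_support_iff] at h1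
    exact h1
  refine ⟨l.length, ⟨Φ, e, ?_, l.get, ?_, ?_, aeval ξ q, hq0, ?_⟩, ?_⟩
  · intro m
    rw [hΦc]
    split_ifs
    · exact hG1 m
    · exact isHomogeneous_zero _ _ _
  · intro i h0
    have h1 := (hν _ (hmem i)).2
    rw [h0] at h1
    simp at h1
  · intro i
    exact (hν _ (hmem i)).1
  · ext m
    rw [coeff_map, hΦc, coeff_C_mul, ← hP]
    split_ifs with hm
    · show (aeval ξ) (G m) = _
      rw [hG2 m hm, hg m]
    · rw [MvPolynomial.notMem_support_iff.mp hm, mul_zero, map_zero]
  · show Multiset.map l.get Finset.univ.val = ms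
    rw [Fin.univ_val_map, List.ofFn_get, hl, Multiset.coe_toList]

end Pool.Agent.FibC
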