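import Pool.Agent.FibC.Unram

/-! Module P11: functions with given simple poles. -/

set_option autoImplicit false
set_option linter.unusedVariables false
set_option linter.unusedSectionVars false

open Polynomial IntermediateField

namespace Pool.Agent.FibC

open Pool.Agent.LowDeg

namespace DualAux

section Inf

variable {K E : Type} [Field K] [Field E] [Algebra K E] {Q : Place K E} {A : E}

lemma sub_const_ne_zero (hQ : ¬ Q.Int A) (c : K) : A - algebraMap K E c ≠ 0 := by
  intro h
  apply hQ
  have : A = algebraMap K E c := sub_eq_zero.1 h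
  rw [this]; exact Q.int_const c

lemma not_int_sub_const (hQ : ¬ Q.Int A) (c : K) : ¬ Q.Int (A - algebraMap K E c) := by
  intro h
  apply hQ
  have h1 := h.add (Q.int_const c)
  simpa using h1

/-- `∑ ρ_P c_P^n / (A - c_P)`. -/
noncomputable def gS {ι : Type*} (J : Finset ι) (A : E) (ρ c : ι → K) (n : ℕ) : E :=
  ∑ P ∈ J, algebraMap K E (ρ P * c P ^ n) * (A - algebraMap K E (c P))⁻¹

lemma gS_sm {ι : Type*} (J : Finset ι) (hQ : ¬ Q.Int A) (ρ c : ι → K) (n : ℕ) :
    Q.Sm (gS J A ρ c n) :=
  Place.Sm.sum J fun P _ =>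
    (Q.int_const _).mul_sm (Place.sm_inv_of_not_int (not_int_sub_const hQ (c P)))

lemma gS_step {ι : Type*} (J : Finset ι) (hQ : ¬ Q.Int A) (ρ c : ι → K) (n : ℕ) :
    A * gS J A ρ c n = algebraMap K E (∑ P ∈ J, ρ P * c P ^ n) + gS J A ρ c (n + 1) := by
  unfold gS
  rw [Finset.mul_sum, map_sum, ← Finset.sum_add_distrib]
  refine Finset.sum_congr rfl fun P _ => ?_
  have h := sub_const_ne_zero hQ (c P)
  have h1 : A * (A - algebraMap K E (c P))⁻¹ =
      1 + algebraMap K E (c P) * (A - algebraMap K E (c P))⁻¹ := by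
    field_simp
    ring
  calc A * (algebraMap K E (ρ P * c P ^ n) * (A - algebraMap K E (c P))⁻¹)
      = algebraMap K E (ρ P * c P ^ n) * (A * (A - algebraMap K E (c P))⁻¹) := by ring
    _ = _ := by
      rw [h1, pow_succ, ← mul_assoc, map_mul (algebraMap K E) (ρ P * c P ^ n) (c P)]
      ring

lemma gS_pow {ι : Type*} (J : Finset ι) (hQ : ¬ Q.Int A) (ρ c : ι → K) (n : ℕ)
    (h0 : ∀ l, l < n → ∑ P ∈ J, ρ P * c P ^ l = 0) :
    A ^ n * gS J A ρ c 0 = gS J A ρ c n := by
  induction n with
  | zero => simp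
  | succ n ih =>
    rw [pow_succ', mul_assoc, ih fun l hl => h0 l (by omega), gS_step J hQ,
      h0 n (by omega), map_zero, zero_add]

lemma gS_int {ι : Type*} (J : Finset ι) (hQ : ¬ Q.Int A) (ρ c : ι → K) (d : ℕ)
    (h0 : ∀ l, l + 2 ≤ d → ∑ P ∈ J, ρ P * c P ^ l = 0) :
    Q.Int (A ^ d * gS J A ρ c 0) := by
  rcases d with _ | n
  · simpa using (gS_sm J hQ ρ c 0).int
  · rw [pow_succ', mul_assoc, gS_pow J hQ ρ c n fun l hl => h0 l (by omega), gS_step J hQ]
    exact (Q.int_const _).add (gS_sm J hQ ρ c (n + 1)).int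

end Inf

end DualAux

variable {k K L : Type} [Field k] [IsAlgClosed k] [CharZero k] [Field K] [IsAlgClosed K] [CharZero K]
  [Field L] [Algebra k K] [Algebra k L] {a : L} {D : Derivation k K K} (M : Model k K L a D)

namespace DualAux

variable {M}

lemma triv_mul {P : Place K M.E} {v : L → K} (h : M.Triv P v) (x y : L) :
    v (x * y) = v x * v y := by
  have h1 := h (x * y)
  rw [map_mul] at h1
  exact h1.unique ((h x).mul (h y))

lemma triv_pow {P : Place K M.E} {v : L → K} (h : M.Triv P v) (x : L) (n : ℕ) :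
    v (x ^ n) = v x ^ n := by
  have h1 := h (x ^ n)
  rw [map_pow] at h1
  exact h1.unique ((h x).pow n)

lemma triv_congr {P : Place K M.E} {v w : L → K} (h : M.Triv P v) (h' : M.Triv P w) (x : L) :
    v x = w x := (h x).unique (h' x)

/-- `∑ v(b'_i) b_i` has the value `∑ v(b'_i) w(b_i)` at `Q`. -/
lemma eP_val {m : ℕ} (b b' : Fin m → L) (v : L → K) {Q : Place K M.E} {w : L → K}
    (hw : M.Triv Q w) :
    Q.IsVal (∑ i, algebraMap K M.E (v (b' i)) * M.j (b i)) (∑ i, v (b' i) * w (b i)) :=
  Place.IsVal.sum _ fun i _ => (Q.isVal_const _).mul (hw (b i))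

end DualAux

open DualAux in
/-- If the residues `r P` at the places `P ∈ J`, trivial on `L` with value maps `v P`, are orthogonal
to all regular differentials then there is a function with these simple poles.

PROOF: take a normal basis `b, d` (`exists_normal`) with dual `b'` (`exists_dual`), `c_P = v P a`,
`h = ∑_i ∑_{P ∈ J} r_P v_P(b'_i) / (a - c_P) · b_i ∈ E` (`a`, `b_i` stand for `j a`, `j (b i)`).
FINITE PLACES `Q` with `a(Q) = α`: the `b_i` are integral at `Q` (`int_of_int`). The terms with
`c_P ≠ α` are integral. If `c_P = α` for some `P ∈ J` then `α ∉ k`, `Q` is trivial on `L`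
(`triv_iff`) with a value map `w`, `ord_Q (a - α) = 1` (`unram`), and for every such `P` the element
`∑_i v_P(b'_i) b_i` has the value `∑_i v_P(b'_i) w(b_i)` at `Q`, which is `0` if `Q ≠ P` and `1` if
`Q = P`. So `h` is integral at `Q ∉ J`, and `(a - c_Q) h` has the value `r_Q` at `Q ∈ J`.
INFINITE PLACES `Q`: `b_i / a^(d i)` is integral (`int_of_int`). For `d = d i ≥ 1`
`a^d / (a - c) = ∑_{l < d} c^l a^(d-1-l) + c^d / (a - c)`, so
`a^d ∑_P r_P v_P(b'_i) / (a - c_P) = ∑_{l < d} (∑_P r_P v_P(a^l b'_i)) a^(d-1-l) + (vanishing)`; the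
coefficients for `l ≤ d - 2` are zero by `reg_dual` and `h0`, the one for `l = d - 1` is a constant.
For `d = 0` the sum vanishes at `Q`. So `h` is integral at `Q`. -/
theorem exists_poles (ha : Transcendental k a) [FiniteDimensional k⟮a⟯ L]
    (J : Finset (Place K M.E)) (v : Place K M.E → L → K) (hv : ∀ P ∈ J, M.Triv P (v P))
    (r : Place K M.E → K) (h0 : ∀ u : L, RegL k a u → ∑ P ∈ J, r P * v P u = 0) :
    ∃ h : M.E, (∀ Q, Q ∉ J → Q.Int h) ∧
      ∀ P ∈ J, P.IsVal ((M.j a - algebraMap K M.E (v P a)) * h) (r P) := by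
  classical
  obtain ⟨m, b, d, hb⟩ := exists_normal (k := k) a ha
  obtain ⟨b', hb1, hb2⟩ := exists_dual b
  set A : M.E := M.j a with hA
  set e : Place K M.E → M.E := fun P => ∑ i, algebraMap K M.E (v P (b' i)) * M.j (b i) with he
  set T : Place K M.E → M.E := fun P =>
    algebraMap K M.E (r P) * ((A - algebraMap K M.E (v P a))⁻¹ * e P) with hT
  -- integrality of the `b i` at finite places
  have hbint : ∀ (Q : Place K M.E), Q.Int A → ∀ i, Q.Int (M.j (b i)) := fun Q hQ i =>
    (int_of_int M ha Q (b i)).1 (hb.int i) hQ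
  have heint : ∀ (Q : Place K M.E), Q.Int A → ∀ P, Q.Int (e P) := fun Q hQ P =>
    Place.Int.sum _ fun i _ => (Q.int_const _).mul (hbint Q hQ i)
  -- the term of `P` at `Q ≠ P`
  have hfin : ∀ (Q : Place K M.E), Q.Int A → ∀ P ∈ J, Q ≠ P → Q.Int (T P) := by
    intro Q hQ P hP hne
    obtain ⟨α, hα⟩ := hQ.exists_isVal
    have hd : Q.IsVal (A - algebraMap K M.E (v P a)) (α - v P a) := hα.sub (Q.isVal_const _)
    refine (Q.int_const _).mul ?_
    by_cases hc : v P a = α
    · -- `Q` is trivial on `L`
      have hPv : P.IsVal (M.j a) (v P a) := hv P hP a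
      have hnk : v P a ∉ Set.range (algebraMap k K) := (triv_iff M ha hPv).1 ⟨v P, hv P hP⟩
      have hQt : M.IsTriv Q := by
        have hQv : Q.IsVal (M.j a) (v P a) := by rw [hc]; exact hα
        exact (triv_iff M ha hQv).2 hnk
      obtain ⟨w, hw⟩ := hQt
      have hwa : w a = v P a := by
        have h1 : Q.IsVal (M.j a) (v P a) := by rw [hc]; exact hα
        exact (hw a).unique h1
      have hun := unram M ha b b' hb1 (hv P hP)
      have hunQ := (unram M ha b b' hb1 hw).1
      have hev : Q.Sm (e P) := by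
        have h1 := eP_val (M := M) (fun i => b i) b' (v P) hw
        rw [hun.2.2 Q w hw hwa hne] at h1
        exact Place.isVal_zero_iff.1 h1
      rw [hwa] at hunQ
      by_cases he0 : e P = 0
      · exact Or.inl (by rw [he0, mul_zero])
      have ht0 : A - algebraMap K M.E (v P a) ≠ 0 := by
        intro h
        rw [← hA, h, Q.ord_zero] at hunQ
        exact absurd hunQ (by norm_num)
      have ho : 0 < Q.ord (e P) := hev.resolve_left he0
      refine Or.inr ?_
      rw [Q.ord_mul _ _ (inv_ne_zero ht0) he0, Q.ord_inv, hA, hunQ]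
      omega
    · have h1 := hd.inv (sub_ne_zero.2 (Ne.symm hc))
      exact h1.int.mul (heint Q hQ P)
  refine ⟨∑ P ∈ J, T P, ?_, ?_⟩
  · intro Q hQJ
    by_cases hQ : Q.Int A
    · exact Place.Int.sum _ fun P hP => hfin Q hQ P hP (fun h => hQJ (h ▸ hP))
    · -- an infinite place
      have hA0 : A ≠ 0 := fun h => hQ (Or.inl h)
      have hsum : ∑ P ∈ J, T P = ∑ i, (A ^ d i *
          gS J A (fun P => r P * v P (b' i)) (fun P => v P a) 0) * M.j (b i / a ^ d i) := by
        have h1 : ∀ i, (A ^ d i *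
            gS J A (fun P => r P * v P (b' i)) (fun P => v P a) 0) * M.j (b i / a ^ d i) =
            ∑ P ∈ J, algebraMap K M.E (r P) * ((A - algebraMap K M.E (v P a))⁻¹ *
              (algebraMap K M.E (v P (b' i)) * M.j (b i))) := by
          intro i
          have hp : A ^ d i ≠ 0 := pow_ne_zero _ hA0
          rw [map_div₀, map_pow, ← hA]
          have h2 : (A ^ d i * gS J A (fun P => r P * v P (b' i)) (fun P => v P a) 0) *
              (M.j (b i) / A ^ d i) =
              gS J A (fun P => r P * v P (b' i)) (fun P => v P a) 0 * M.j (b i) := by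
            field_simp
          rw [h2, gS, Finset.sum_mul]
          refine Finset.sum_congr rfl fun P _ => ?_
          simp only [pow_zero, mul_one, map_mul]
          ring
        rw [Finset.sum_congr rfl fun i _ => h1 i, Finset.sum_comm]
        refine Finset.sum_congr rfl fun P _ => ?_
        simp only [hT, he, Finset.mul_sum]
      rw [hsum]
      refine Place.Int.sum _ fun i _ => Place.Int.mul ?_ ?_
      · refine gS_int J hQ _ _ _ fun l hl => ?_
        have h1 := h0 (a ^ l * b' i) (reg_dual ha hb hb2 i l hl)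
        rw [← h1]
        refine Finset.sum_congr rfl fun P hP => ?_
        rw [triv_mul (hv P hP), triv_pow (hv P hP)]
        ring
      · exact (int_of_int M ha Q _).2 (hb.inf i) hQ
  · intro Q hQJ
    have hQv : Q.IsVal A (v Q a) := hv Q hQJ a
    have hQ : Q.Int A := hQv.int
    have hsm : Q.Sm (A - algebraMap K M.E (v Q a)) := hQv
    have hrest : Q.Int (∑ P ∈ J.erase Q, T P) :=
      Place.Int.sum _ fun P hP => hfin Q hQ P (Finset.mem_of_mem_erase hP)
        (fun h => (Finset.ne_of_mem_erase hP) h.symm)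
    have hun := unram M ha b b' hb1 (hv Q hQJ)
    have ht0 : A - algebraMap K M.E (v Q a) ≠ 0 := by
      intro h
      have h1 := hun.1
      rw [← hA, h, Q.ord_zero] at h1
      exact absurd h1 (by norm_num)
    have hmain : Q.IsVal ((A - algebraMap K M.E (v Q a)) * T Q) (r Q) := by
      have h1 : (A - algebraMap K M.E (v Q a)) * T Q = algebraMap K M.E (r Q) * e Q := by
        simp only [hT]
        field_simp
      rw [h1]
      have h2 := eP_val (M := M) (fun i => b i) b' (v Q) (hv Q hQJ)
      rw [hun.2.1] at h2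
      have h3 := (Q.isVal_const (r Q)).mul h2
      rwa [mul_one] at h3
    rw [← Finset.add_sum_erase J T hQJ, mul_add]
    have h4 := hmain.add (Place.isVal_zero_iff.2 (hsm.mul_int hrest))
    rwa [add_zero] at h4

end Pool.Agent.FibC
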