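import Pool.Agent.LowDeg.TraceVal

/-! Module P1: valuation rings of function fields are places. -/

set_option autoImplicit false
set_option linter.unusedVariables false

open Polynomial IntermediateField

namespace Pool.Agent.FibC

open Pool.Agent.LowDeg

/-- `x` vanishes at `P` iff `x = 0` or `x⁻¹` is not integral. -/
theorem sm_iff_inv {K E : Type} [Field K] [Field E] [Algebra K E] (P : Place K E) (x : E) :
    P.Sm x ↔ x = 0 ∨ ¬ P.Int x⁻¹ := by
  by_cases hx : x = 0
  · simp [hx, Place.Sm]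
  · have hx' : x⁻¹ ≠ 0 := inv_ne_zero hx
    rw [Place.sm_iff_ord hx, Place.int_iff_ord hx', P.ord_inv]
    constructor
    · intro h
      right
      omega
    · rintro (h | h)
      · exact absurd h hx
      · omega

namespace PlaceValAux

variable {K E : Type} [Field K] [IsAlgClosed K] [CharZero K] [Field E] [Algebra K E]

/-- the case where the valuation ring contains the variable -/
theorem of_mem (t : E) (ht : Transcendental K t) [FiniteDimensional K⟮t⟯ E]
    (O : ValuationSubring E) (hK : ∀ c : K, algebraMap K E c ∈ O) (hO : O ≠ ⊤) (htO : t ∈ O) :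
    ∃ P : Place K E, ∀ x, P.Int x ↔ x ∈ O := by
  obtain ⟨B, i1, i2, i3, i4, i5, i6, i7, i8, i9, i10, hmap, -⟩ := TraceValAux.package t ht
  -- polynomials in `t`
  have hpoly : ∀ f : K[X], algebraMap B E (algebraMap K[X] B f) ∈ O := by
    intro f
    rw [hmap, aeval_eq_sum_range]
    refine sum_mem fun i _ => ?_
    rw [Algebra.smul_def]
    exact mul_mem (hK _) (pow_mem htO _)
  -- integral elements
  have hB : ∀ b : B, algebraMap B E b ∈ O := by
    intro b
    have hb : IsIntegral K[X] b := Algebra.IsIntegral.isIntegral b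
    let φ : K[X] →+* O :=
      ((algebraMap B E).comp (algebraMap K[X] B)).codRestrict O.toSubring hpoly
    have h1 : IsIntegral O (algebraMap B E b) :=
      IsIntegral.map_of_comp_eq (R := K[X]) (S := B) (T := O) (U := E) φ
        (algebraMap B E) (by ext r <;> rfl) hb
    obtain ⟨y, hy⟩ := IsIntegrallyClosed.isIntegral_iff.1 h1
    rw [← hy]
    exact y.2
  let ψ : B →+* O := (algebraMap B E).codRestrict O.toSubring hB
  have hψ : ∀ b : B, ((ψ b : O) : E) = algebraMap B E b := fun _ => rfl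
  let I : Ideal B := (IsLocalRing.maximalIdeal O).comap ψ
  have hIp : I.IsPrime := Ideal.IsPrime.comap ψ
  have hunit : ∀ b : B, b ∉ I → (algebraMap B E b)⁻¹ ∈ O := by
    intro b hb
    have h1 : IsUnit (ψ b) := by
      by_contra h2
      exact hb ((IsLocalRing.mem_maximalIdeal _).2 h2)
    obtain ⟨u, hu⟩ := h1
    have h3 : ((ψ b : O) : E) * (((u⁻¹ : Oˣ) : O) : E) = 1 := by
      rw [← hu]
      exact_mod_cast congrArg (Subtype.val) (Units.mul_inv u)
    have h4 : (algebraMap B E b)⁻¹ = (((u⁻¹ : Oˣ) : O) : E) :=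
      inv_eq_of_mul_eq_one_right (by rw [← hψ]; exact h3)
    rw [h4]
    exact ((u⁻¹ : Oˣ) : O).2
  have hI0 : I ≠ ⊥ := by
    intro h
    apply hO
    rw [eq_top_iff]
    intro x _
    obtain ⟨n, d, hd, rfl⟩ := IsFractionRing.div_surjective (A := B) x
    have hd0 : d ≠ 0 := nonZeroDivisors.ne_zero hd
    rw [div_eq_mul_inv]
    refine mul_mem (hB n) (hunit d ?_)
    rw [h]
    simpa using hd0
  let v : IsDedekindDomain.HeightOneSpectrum B := ⟨I, hIp, hI0⟩
  have hvI : v.asIdeal = I := rfl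
  refine ⟨TraceValAux.ofPrime v, fun x => ?_⟩
  rcases eq_or_ne x 0 with rfl | hx
  · exact ⟨fun _ => zero_mem O, fun _ => Place.int_zero _⟩
  constructor
  · intro h
    have h1 : 0 ≤ TraceValAux.ordP v x := h.resolve_left hx
    obtain ⟨n, d, hd, hd0, rfl⟩ := TraceValAux.exists_frac v x hx h1
    rw [div_eq_mul_inv]
    exact mul_mem (hB n) (hunit d hd)
  · intro hxO
    by_contra h
    have h1 : 0 < TraceValAux.ordP v x⁻¹ :=
      (Place.sm_inv_of_not_int h).resolve_left (inv_ne_zero hx)
    obtain ⟨n, d, hd, hd0, hnd⟩ := TraceValAux.exists_frac v x⁻¹ (inv_ne_zero hx) h1.le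
    have hdE : algebraMap B E d ≠ 0 :=
      (map_ne_zero_iff _ (IsFractionRing.injective B E)).2 hd0
    have h2 : algebraMap B E n = x⁻¹ * algebraMap B E d := by
      rw [hnd, div_mul_cancel₀ _ hdE]
    have hn0 : n ≠ 0 := by
      rintro rfl
      rw [map_zero] at h2
      exact (mul_ne_zero (inv_ne_zero hx) hdE) h2.symm
    have h3 : 0 < TraceValAux.ordP v (algebraMap B E n) := by
      rw [h2, TraceValAux.ordP_mul v _ _ (inv_ne_zero hx) hdE,
        TraceValAux.ordP_algebraMap_of_notMem v d hd]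
      omega
    have h4 : n ∈ v.asIdeal := (TraceValAux.ordP_algebraMap_pos_iff (E := E) v n hn0).1 h3
    apply hd
    have h5 : ψ d = ⟨x, hxO⟩ * ψ n := by
      apply Subtype.ext
      show algebraMap B E d = x * algebraMap B E n
      rw [h2, ← mul_assoc, mul_inv_cancel₀ hx, one_mul]
    show ψ d ∈ IsLocalRing.maximalIdeal O
    rw [h5]
    exact Ideal.mul_mem_left _ _ h4

end PlaceValAux

variable {K E : Type} [Field K] [IsAlgClosed K] [CharZero K] [Field E] [Algebra K E]

/-- PROOF: `t = a` if `a ∈ O`, `t = a⁻¹` otherwise, so `t ∈ O` and `K⟮t⟯ = K⟮a⟯`. Let `B` be the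
integral closure of `K[t]` in `E` (`TraceValAux.package`); `B ⊆ O` since `O` is integrally closed.
The ideal `v = {b ∈ B | b = 0 ∨ b⁻¹ ∉ O}` is prime and nonzero (otherwise `O = E`); `P = ofPrime v`.
If `P.Int x` then `x = b / s` with `s ∉ v` (`exists_frac`), so `x ∈ O`. If `x ∈ O` is not integral at
`P` then `x⁻¹` vanishes at `P`, so `x⁻¹ = b / s` with `b ∈ v`, `s ∉ v`, hence `x ∉ O`. -/
theorem exists_place_of_val (a : E) (ha : Transcendental K a) [FiniteDimensional K⟮a⟯ E]
    (O : ValuationSubring E) (hK : ∀ c : K, algebraMap K E c ∈ O) (hO : O ≠ ⊤) :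
    ∃ P : Place K E, ∀ x, P.Int x ↔ x ∈ O := by
  rcases O.mem_or_inv_mem a with h | h
  · exact PlaceValAux.of_mem a ha O hK hO h
  · have hai : Transcendental K a⁻¹ := by
      intro h'
      exact ha (by simpa using h'.inv)
    have := TraceValAux.findim_of_trans a a⁻¹ hai
    exact PlaceValAux.of_mem a⁻¹ hai O hK hO h

/-- restriction of places.

PROOF: `O = {x ∈ L | Q.Int (σ x)}` is a valuation ring (use `TraceValAux.valRing Q` and
`ValuationSubring.comap`), it contains `k`, and it is not `⊤` since `x₀⁻¹ ∉ O`. Apply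
`exists_place_of_val`; the statement on `Sm` follows from `sm_iff_inv`. -/
theorem exists_place_comap {k L : Type} [Field k] [IsAlgClosed k] [CharZero k] [Field L]
    [Algebra k L] (a : L) (ha : Transcendental k a) [FiniteDimensional k⟮a⟯ L]
    {K' E' : Type} [Field K'] [Field E'] [Algebra K' E'] (Q : Place K' E') (σ : L →+* E')
    (hσ : ∀ c : k, ∃ c' : K', σ (algebraMap k L c) = algebraMap K' E' c')
    (x₀ : L) (h0 : x₀ ≠ 0) (hx₀ : Q.Sm (σ x₀)) :
    ∃ P : Place k L, (∀ x, P.Int x ↔ Q.Int (σ x)) ∧ ∀ x, P.Sm x ↔ Q.Sm (σ x) := by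
  have hmem : ∀ x : L, x ∈ (TraceValAux.valRing Q).comap σ ↔ Q.Int (σ x) := fun _ => Iff.rfl
  obtain ⟨P, hP⟩ := exists_place_of_val a ha ((TraceValAux.valRing Q).comap σ)
    (fun c => by
      rw [hmem]
      obtain ⟨c', hc'⟩ := hσ c
      rw [hc']
      exact Q.int_const c')
    (fun htop => by
      have h1 : x₀⁻¹ ∈ (TraceValAux.valRing Q).comap σ := by
        rw [htop]
        trivial
      rw [hmem, map_inv₀] at h1
      have h2 : σ x₀ ≠ 0 := (map_ne_zero σ).2 h0
      rcases (sm_iff_inv Q (σ x₀)).1 hx₀ with h3 | h3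
      · exact h2 h3
      · exact h3 h1)
  have hI : ∀ x, P.Int x ↔ Q.Int (σ x) := fun x => (hP x).trans (hmem x)
  refine ⟨P, hI, fun x => ?_⟩
  rw [sm_iff_inv, sm_iff_inv, hI, map_inv₀, map_eq_zero]

end Pool.Agent.FibC
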