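import Pool.Agent.FibC.RegDual
import Pool.Agent.FibC.PlaceVal
import Pool.Agent.LowDeg.LocalDer
import Pool.Agent.LowDeg.DerExt

/-! Module D3: a sum of pullbacks of regular differentials which is exact is zero. -/

set_option autoImplicit false
set_option linter.unusedVariables false

open Polynomial IntermediateField

namespace Pool.Agent.FibC

open Pool.Agent.LowDeg

namespace ExactAux

open scoped IntermediateField.algebraAdjoinAdjoin

variable {k K : Type} [Field k] [Field K] [Algebra k K]

/-- subfields are algebraic over `k(x)` -/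
lemma alg_sub (hK : ∀ x : K, Transcendental k x → Algebra.IsAlgebraic k⟮x⟯ K)
    (E : IntermediateField k K) (x : E) (hx : Transcendental k x) :
    Algebra.IsAlgebraic k⟮x⟯ E := by
  have hx2 : Transcendental k (x : K) := by
    intro h
    exact hx ((isAlgebraic_algebraMap_iff (algebraMap E K).injective).1 h)
  have hA := hK x hx2
  have h1 : Algebra.IsAlgebraic (Algebra.adjoin k {(x : K)}) K :=
    (IsFractionRing.comap_isAlgebraic_iff (A := Algebra.adjoin k {(x : K)})
      (K := k⟮(x : K)⟯)).2 inferInstance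
  have h2 : Algebra.trdeg k K ≤ 1 := by
    simpa using Algebra.IsAlgebraic.trdeg_le_cardinalMk k ({(x : K)} : Set K)
  have h3 : Algebra.trdeg k E ≤ Algebra.trdeg k K :=
    trdeg_le_of_injective E.val E.val.injective
  have hx' : AlgebraicIndependent k (fun _ : Unit => x) :=
    algebraicIndependent_unique_type_iff.2 hx
  have hb := hx'.isTranscendenceBasis_of_trdeg_le_of_finite (by simpa using h3.trans h2)
  have h4 := hb.isAlgebraic_field
  rw [Set.range_const] at h4
  exact h4

/-- finitely generated subfields are finite over `k(x)` -/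
lemma fin_sub (hK : ∀ x : K, Transcendental k x → Algebra.IsAlgebraic k⟮x⟯ K)
    (E : IntermediateField k K) (hE : E.FG) (x : E) (hx : Transcendental k x) :
    FiniteDimensional k⟮x⟯ E := by
  have h0 := alg_sub hK E x hx
  have h1 : Algebra.EssFiniteType k E := IntermediateField.essFiniteType_iff.2 hE
  have h2 : Algebra.EssFiniteType k⟮x⟯ E := .of_comp k k⟮x⟯ E
  exact Algebra.finite_of_essFiniteType_of_isAlgebraic

/-- the image of a function field is finitely generated -/
lemma fg_range {L : Type} [Field L] [Algebra k L] (a : L) [FiniteDimensional k⟮a⟯ L]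
    (σ : L →ₐ[k] K) : σ.fieldRange.FG := by
  have h1 : Algebra.EssFiniteType k k⟮a⟯ := by
    rw [IntermediateField.essFiniteType_iff]
    exact IntermediateField.fg_adjoin_of_finite (Set.finite_singleton a)
  have h2 : Algebra.EssFiniteType k L := .comp k k⟮a⟯ L
  obtain ⟨s, hs⟩ := IntermediateField.fg_top k L
  classical
  refine ⟨s.image σ, ?_⟩
  rw [Finset.coe_image, ← IntermediateField.adjoin_map, hs, ← AlgHom.fieldRange_eq_map]

/-- uniqueness of derivations with values in an extension -/
lemma der_zero [CharZero k] (E : IntermediateField k K) (x : E) [FiniteDimensional k⟮x⟯ E]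
    (d : Derivation k E K) (hx : d x = 0) (y : E) : d y = 0 := by
  have : CharZero k⟮x⟯ := charZero_of_injective_algebraMap (algebraMap k k⟮x⟯).injective
  have hdk : ∀ c : k, d (algebraMap k E c) = 0 := fun c => d.map_algebraMap c
  let F : IntermediateField k E :=
    { carrier := {z | d z = 0}
      mul_mem' := fun {z w} hz hw => by
        rw [Set.mem_ofPred_eq] at *
        rw [Derivation.leibniz, hz, hw, smul_zero, smul_zero, add_zero]
      add_mem' := fun {z w} hz hw => by
        rw [Set.mem_ofPred_eq] at *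
        rw [map_add, hz, hw, add_zero]
      algebraMap_mem' := hdk
      inv_mem' := fun z hz => by
        rw [Set.mem_ofPred_eq] at *
        rw [Derivation.leibniz_inv, hz, smul_zero] }
  have hF : k⟮x⟯ ≤ F := by
    rw [IntermediateField.adjoin_simple_le_iff]
    exact hx
  let d' : Derivation k⟮x⟯ E K :=
    Derivation.mk'
      { toFun := d
        map_add' := map_add d
        map_smul' := fun r z => by
          have hr : d (algebraMap k⟮x⟯ E r) = 0 := hF r.2
          rw [Algebra.smul_def, Derivation.leibniz, hr, smul_zero, add_zero, RingHom.id_apply]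
          rfl }
      (fun z w => d.leibniz z w)
  have : Algebra.FormallyEtale k⟮x⟯ E := Algebra.FormallyEtale.of_isSeparable _ _
  have : Subsingleton (Ω[E⁄k⟮x⟯]) := inferInstance
  have h1 : d' y = 0 := by
    rw [← d'.liftKaehlerDifferential_comp_D y,
      Subsingleton.elim (KaehlerDifferential.D k⟮x⟯ E y) 0, map_zero]
  exact h1

/-- some element of the subfield vanishes at the place -/
lemma exists_sm {L E : Type} [Field L] [Algebra k L] [Field E] [Algebra k E] (Q : Place k E)
    (σ : L →ₐ[k] E) (g : E) (hg0 : g ≠ 0) (hg : Q.Sm g)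
    (halg : ∀ y : E, ∃ p : L[X], p ≠ 0 ∧ p.eval₂ σ.toRingHom y = 0) :
    ∃ x₀ : L, x₀ ≠ 0 ∧ Q.Sm (σ x₀) := by
  by_contra hcon
  push Not at hcon
  have hinj : Function.Injective σ := (σ : L →+* E).injective
  have hord : ∀ x : L, x ≠ 0 → Q.ord (σ x) = 0 := by
    intro x hx
    have hσx : σ x ≠ 0 := by
      intro h; exact hx (hinj (by rw [h, map_zero]))
    have h1 := hcon x hx
    have h2 := hcon x⁻¹ (inv_ne_zero hx)
    rw [map_inv₀] at h2
    rw [Place.sm_iff_ord hσx] at h1
    rw [Place.sm_iff_ord (inv_ne_zero hσx), Q.ord_inv] at h2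
    omega
  have hint : ∀ x : L, Q.Int (σ x) := by
    intro x
    by_cases hx : x = 0
    · rw [hx, map_zero]; exact Q.int_zero
    · exact Or.inr (hord x hx).ge
  obtain ⟨p, hp0, hp⟩ := halg g
  -- remove the factor X^n
  obtain ⟨n, q, hq0, hpq⟩ : ∃ (n : ℕ) (q : L[X]), q.coeff 0 ≠ 0 ∧ p = X ^ n * q := by
    obtain ⟨q, hq, hnd⟩ := Polynomial.exists_eq_pow_rootMultiplicity_mul_and_not_dvd p hp0 0
    refine ⟨_, q, ?_, by simpa using hq⟩
    intro h
    apply hnd
    rw [C_0, sub_zero, Polynomial.X_dvd_iff]
    exact h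
  have hq : q.eval₂ σ.toRingHom g = 0 := by
    rw [hpq, Polynomial.eval₂_mul, Polynomial.eval₂_X_pow] at hp
    exact (mul_eq_zero.1 hp).resolve_left (pow_ne_zero _ hg0)
  have h3 : q = C (q.coeff 0) + X * q.divX := by
    conv_lhs => rw [← Polynomial.divX_mul_X_add q]
    ring
  rw [h3, Polynomial.eval₂_add, Polynomial.eval₂_C, Polynomial.eval₂_mul, Polynomial.eval₂_X] at hq
  have h4 : Q.Int (q.divX.eval₂ σ.toRingHom g) := by
    rw [Polynomial.eval₂_eq_sum, Polynomial.sum_def]
    exact Place.Int.sum _ fun i _ => (hint _).mul (hg.int.pow i)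
  have h5 : Q.Sm (σ (q.coeff 0)) := by
    have h6 : σ (q.coeff 0) = -(g * q.divX.eval₂ σ.toRingHom g) := by
      have : σ.toRingHom (q.coeff 0) = σ (q.coeff 0) := rfl
      rw [this] at hq
      linear_combination hq
    rw [h6]
    exact (hg.mul_int h4).neg
  exact hcon _ hq0 h5

/-- the field is algebraic over the image of the function field -/
lemma alg_image {L E : Type} [Field L] [Algebra k L] [Field E] [Algebra k E]
    (a : L) (ha : Transcendental k a) (σ : L →ₐ[k] E)
    (hE : ∀ x : E, Transcendental k x → Algebra.IsAlgebraic k⟮x⟯ E) (y : E) :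
    ∃ p : L[X], p ≠ 0 ∧ p.eval₂ σ.toRingHom y = 0 := by
  have hinj : Function.Injective σ := (σ : L →+* E).injective
  have hσa : Transcendental k (σ a) := by
    intro h
    exact ha ((isAlgebraic_algHom_iff σ hinj).1 h)
  have h1 := hE (σ a) hσa
  let : Algebra L E := σ.toRingHom.toAlgebra
  have : IsScalarTower k L E := IsScalarTower.of_algebraMap_eq fun c => (σ.commutes c).symm
  have h2 : IsAlgebraic k⟮σ a⟯ y := h1.isAlgebraic y
  have h3 : IsAlgebraic (Algebra.adjoin k {σ a}) y :=
    (IsFractionRing.isAlgebraic_iff (Algebra.adjoin k {σ a}) k⟮σ a⟯ E).2 h2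
  have h4 : IsAlgebraic L y := by
    obtain ⟨p, hp0, hp⟩ := h3
    have hmem : ∀ c : Algebra.adjoin k {σ a}, ∃ l : L, σ l = (c : E) := by
      intro c
      have hc : ∀ e ∈ Algebra.adjoin k {σ a}, ∃ q : k[X], aeval (σ a) q = e := by
        intro e he
        rw [Algebra.adjoin_singleton_eq_range_aeval] at he
        exact he
      obtain ⟨q, hq⟩ := hc c c.2
      refine ⟨aeval a q, ?_⟩
      rw [← Polynomial.aeval_algHom_apply]
      exact hq
    choose l hl using hmem
    let f : Algebra.adjoin k {σ a} →+* L :=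
      { toFun := l
        map_one' := hinj (by rw [hl]; simp)
        map_mul' := fun x y => hinj (by rw [hl, map_mul, hl, hl]; rfl)
        map_zero' := hinj (by rw [hl]; simp)
        map_add' := fun x y => hinj (by rw [hl, map_add, hl, hl]; rfl) }
    have hf : Function.Injective f := by
      intro x y hxy
      apply Subtype.ext
      rw [← hl x, ← hl y]
      exact congrArg σ hxy
    refine ⟨p.map f, (Polynomial.map_ne_zero_iff hf).2 hp0, ?_⟩
    rw [Polynomial.aeval_def, Polynomial.eval₂_map]
    have h5 : (algebraMap L E).comp f = algebraMap (Algebra.adjoin k {σ a}) E := by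
      ext x
      exact hl x
    rw [h5]
    exact hp
  obtain ⟨p, hp0, hp⟩ := h4
  exact ⟨p, hp0, hp⟩

end ExactAux

open ExactAux

/-- PROOF: suppose `D G ≠ 0`; then `G` is transcendental over `k` (`hD'`: elements of `k` are killed,
`k` is algebraically closed). Let `E ⊆ K` be the field generated over `k` by `G` and the `σ i (L)`: `L`
is finitely generated and `K` is algebraic over `k(G)`, so `E` is finite over `k(G)`. Let `D₂` be the
derivation of `E / k` with `D₂ G = 1` (`LowDeg.exists_derivation`); then `D x = D G · D₂ x` for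
`x ∈ E` (both sides are derivations `E → K` over `k` which agree at `G`; proof as in
`LowDeg.derivation_ext`). So `∑ c i σ_i(u) D₂(σ_i a) = 1` in `E`. Let `Q` be a place of `E` at which
`G` has a pole (`exists_place_val`), `g = 1 / G`, `D' = - G D₂`, so `D' g = g`, `Q.Sm g`. By
`exists_place_comap` (`σ i : L → E`; `x₀`: the constant coefficient of the minimal polynomial of `g`
over `σ i (L)`, over which `E` is algebraic, is `σ i x₀` with `x₀ ≠ 0` and vanishes at `Q`) there is a
place `P i` of `L`. If `a` has the value `c₀ ∈ k` at `P i` let `z_i = σ_i(a) - c₀`, otherwise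
`z_i = σ_i(a)`: `σ_i(u) z_i` vanishes at `Q` by `hu`, and `D' z_i / z_i` is integral at `Q`
(`LowDeg.der_log_val` with `t = g`), `D' z_i = D' (σ_i a)`. So `∑ c i σ_i(u) D'(σ_i a) = - G` vanishes
at `Q`, contradiction. -/
theorem exact_zero {k K L : Type} [Field k] [IsAlgClosed k] [CharZero k] [Field K] [Field L]
    [Algebra k K] [Algebra k L] (D : Derivation k K K)
    (hK : ∀ x : K, Transcendental k x → Algebra.IsAlgebraic k⟮x⟯ K)
    (a : L) (ha : Transcendental k a) [FiniteDimensional k⟮a⟯ L] {ι : Type} [Fintype ι] (c : ι → ℤ)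
    (σ : ι → L →ₐ[k] K) (u : L) (hu : RegL k a u) (G : K)
    (h : ∑ i, (c i : K) * (σ i u * D (σ i a)) = D G) : D G = 0 := by
  classical
  by_contra hDG
  have hGt : Transcendental k G := by
    intro hG
    obtain ⟨c, hc⟩ := TraceValAux.mem_range_of_isIntegral G hG.isIntegral
    apply hDG
    rw [← hc, Derivation.map_algebraMap]
  -- the field
  obtain ⟨E, hE⟩ : ∃ E : IntermediateField k K, E = k⟮G⟯ ⊔ ⨆ i, (σ i).fieldRange := ⟨_, rfl⟩
  have hFG : E.FG := by
    rw [hE]
    exact IntermediateField.fg_sup
      (IntermediateField.fg_adjoin_of_finite (Set.finite_singleton G))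
      (IntermediateField.fg_iSup fun i => fg_range a (σ i))
  have hGE : G ∈ E := by
    rw [hE]
    exact (le_sup_left : k⟮G⟯ ≤ _) (IntermediateField.mem_adjoin_simple_self k G)
  have hσE : ∀ i x, σ i x ∈ E := by
    intro i x
    rw [hE]
    exact (le_sup_right : _ ≤ k⟮G⟯ ⊔ ⨆ i, (σ i).fieldRange)
      ((le_iSup (fun i => (σ i).fieldRange) i) ⟨x, rfl⟩)
  obtain ⟨G', hG'⟩ : ∃ G' : E, (G' : K) = G := ⟨⟨G, hGE⟩, rfl⟩
  let τ : ι → L →ₐ[k] E := fun i => (σ i).codRestrict E.toSubalgebra (hσE i)
  have hinj : ∀ i, Function.Injective (τ i) := fun i => (τ i : L →+* E).injective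
  have hτ : ∀ i x, ((τ i x : E) : K) = σ i x := fun i x => rfl
  have hG't : Transcendental k G' := by
    intro h1
    apply hGt
    rw [← hG']
    exact (isAlgebraic_algebraMap_iff (algebraMap E K).injective).2 h1
  have halgE : ∀ x : E, Transcendental k x → Algebra.IsAlgebraic k⟮x⟯ E := alg_sub hK E
  have hfd : FiniteDimensional k⟮G'⟯ E := fin_sub hK E hFG G' hG't
  have hG0 : G' ≠ 0 := by
    rintro rfl
    exact hG't isAlgebraic_zero
  -- the derivation
  obtain ⟨D₂, hD₂k, hD₂G⟩ := exists_derivation (k := k) (K := k) G' hG't 0 1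
  have hrel : ∀ x : E, D (x : K) = D G * (D₂ x : K) := by
    intro x
    let d : Derivation k E K :=
      Derivation.mk'
        { toFun := fun x => D (x : K) - D G * (D₂ x : K)
          map_add' := fun x y => by
            simp only [IntermediateField.coe_add, map_add]
            ring
          map_smul' := fun r x => by
            have e1 : ((r • x : E) : K) = r • (x : K) := rfl
            have e2 : ((r • (D₂ x) : E) : K) = r • ((D₂ x : E) : K) := rfl
            rw [e1, Derivation.map_smul, Derivation.map_smul, e2, RingHom.id_apply, smul_sub,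
              mul_smul_comm] }
        (fun x y => by
          change D ((x * y : E) : K) - D G * ((D₂ (x * y) : E) : K) =
            x • (D (y : K) - D G * (D₂ y : K)) + y • (D (x : K) - D G * (D₂ x : K))
          have e1 : ∀ (z : E) (w : K), z • w = (z : K) * w := fun z w => rfl
          rw [e1, e1, Derivation.leibniz]
          simp only [IntermediateField.coe_mul, IntermediateField.coe_add, Derivation.leibniz,
            smul_eq_mul]
          ring)
    have h1 := der_zero E G' d (by
      change D (G' : K) - D G * ((D₂ G' : E) : K) = 0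
      rw [hD₂G, hG']
      simp) x
    have h2 : D (x : K) - D G * (D₂ x : K) = 0 := h1
    exact sub_eq_zero.1 h2
  have hsum : ∑ i, (c i : E) * (τ i u * D₂ (τ i a)) = 1 := by
    apply Subtype.ext
    apply mul_left_cancel₀ hDG
    push_cast
    rw [mul_one, Finset.mul_sum]
    conv_rhs => rw [← h]
    refine Finset.sum_congr rfl fun i _ => ?_
    have h1 := hrel (τ i a)
    rw [hτ] at h1
    rw [h1, hτ]
    ring
  -- the place
  obtain ⟨-, Q, hQ⟩ := exists_place_val G' hG't G' hG't
  have hgS : Q.Sm G'⁻¹ := Q.sm_inv_of_not_int hQ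
  have hg0 : G'⁻¹ ≠ 0 := inv_ne_zero hG0
  let D' : Derivation k E E := (-G') • D₂
  have hD' : ∀ x, D' x = -G' * D₂ x := fun x => rfl
  have hD'k : ∀ c : k, D' (algebraMap k E c) = 0 := fun c => D'.map_algebraMap c
  have hD'g : D' G'⁻¹ = G'⁻¹ := by
    rw [hD', Derivation.leibniz_inv, hD₂G]
    simp only [smul_eq_mul]
    field_simp
  obtain ⟨hval, -⟩ := der_log_val Q halgE D' hD'k G'⁻¹ hg0 hgS hD'g
  have hlog : ∀ x, x ≠ 0 → Q.Int (D' x / x) := fun x hx => (hval x hx).int
  have hterm : ∀ i, Q.Sm (τ i u * D' (τ i a)) := by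
    intro i
    obtain ⟨x₀, hx₀, hx₀'⟩ := exists_sm Q (τ i) G'⁻¹ hg0 hgS (alg_image a ha (τ i) halgE)
    obtain ⟨P, -, hPS⟩ := exists_place_comap a ha Q (τ i).toRingHom
      (fun c => ⟨c, (τ i).commutes c⟩) x₀ hx₀ hx₀'
    have key : ∀ z : E, z ≠ 0 → D' z = D' (τ i a) → Q.Sm (z * τ i u) →
        Q.Sm (τ i u * D' (τ i a)) := by
      intro z hz0 hz hzs
      have h1 : τ i u * D' (τ i a) = (z * τ i u) * (D' z / z) := by
        rw [← hz]
        field_simp
      rw [h1]
      exact hzs.mul_int (hlog z hz0)
    by_cases hPa : P.Int a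
    · obtain ⟨c₀, hc₀⟩ := hPa.exists_isVal
      have h1 := (hu P).1 c₀ hc₀
      rw [hPS] at h1
      refine key (τ i (a - algebraMap k L c₀)) ?_ ?_ ?_
      · intro h0
        have h2 : a - algebraMap k L c₀ = 0 := hinj i (by rw [h0, map_zero])
        apply ha
        rw [sub_eq_zero.1 h2]
        exact isAlgebraic_algebraMap c₀
      · rw [map_sub, map_sub, (τ i).commutes, hD'k, sub_zero]
      · rw [← map_mul]
        exact h1
    · have h1 := (hu P).2 hPa
      rw [hPS] at h1
      refine key (τ i a) ?_ rfl ?_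
      · intro h0
        apply ha
        rw [hinj i (h0.trans (map_zero (τ i)).symm)]
        exact isAlgebraic_zero
      · rw [← map_mul]
        exact h1
  have hfin : Q.Sm (∑ i, (c i : E) * (τ i u * D' (τ i a))) := by
    refine Place.Sm.sum _ fun i _ => ?_
    have h1 : ((c i : ℤ) : E) = algebraMap k E ((c i : ℤ) : k) := by simp
    rw [h1]
    exact (Q.int_const _).mul_sm (hterm i)
  have hfin2 : ∑ i, (c i : E) * (τ i u * D' (τ i a)) = -G' := by
    calc ∑ i, (c i : E) * (τ i u * D' (τ i a))
        = -G' * ∑ i, (c i : E) * (τ i u * D₂ (τ i a)) := by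
          rw [Finset.mul_sum]
          refine Finset.sum_congr rfl fun i _ => ?_
          rw [hD']
          ring
      _ = -G' := by rw [hsum, mul_one]
  rw [hfin2] at hfin
  have := hfin.neg.int
  rw [neg_neg] at this
  exact hQ this

end Pool.Agent.FibC
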