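import Pool.Agent.FibC.Aut2

/-! Module D8: embeddings of `ℂ(ξ)` over the base extend to embeddings over `k`. -/

set_option autoImplicit false

open scoped IntermediateField

namespace Pool.Agent.FibC.ExtFibAux

variable {K : Type} [Field K] [Algebra ℂ K]

/-- The elements algebraic over `ℂ(t)`. -/
noncomputable def kk (t : K) : IntermediateField ℂ⟮t⟯ K := algebraicClosure ℂ⟮t⟯ K

lemma mem_kk {t c : K} : c ∈ kk t ↔ Alg t c := mem_algebraicClosure_iff

lemma alg_coeff [IsAlgClosed K] (M : IntermediateField ℂ K) {t : K} (ht : t ∈ M) {c : K}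
    (hc : Alg t c) (n : ℕ) : Alg t (((minpoly M c).coeff n : M) : K) := by
  classical
  have hle : ℂ⟮t⟯ ≤ M := by
    rw [IntermediateField.adjoin_simple_le_iff]
    exact ht
  have hcM : IsIntegral M c := by
    have h1 : IsIntegral ℂ⟮t⟯ c := hc.isIntegral
    obtain ⟨p, hp, hpc⟩ := h1
    refine ⟨p.map (IntermediateField.inclusion hle).toRingHom, hp.map _, ?_⟩
    rw [Polynomial.eval₂_map]
    exact hpc
  -- the roots are algebraic over `ℂ(t)`
  have hroots : ∀ r ∈ ((minpoly M c).map (algebraMap M K)).roots, Alg t r := by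
    intro r hr
    have hr0 : Polynomial.aeval r (minpoly M c) = 0 := by
      have h1 := Polynomial.isRoot_of_mem_roots hr
      rwa [Polynomial.IsRoot.def, Polynomial.eval_map, ← Polynomial.aeval_def] at h1
    obtain ⟨p, hp, hpc⟩ := hc.isIntegral
    have hdvd : minpoly M c ∣ p.map (IntermediateField.inclusion hle).toRingHom := by
      apply minpoly.dvd
      rw [Polynomial.aeval_def, Polynomial.eval₂_map]
      exact hpc
    have h2 : Polynomial.aeval r (p.map (IntermediateField.inclusion hle).toRingHom) = 0 := by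
      obtain ⟨q, hq⟩ := hdvd
      rw [hq, map_mul, hr0, zero_mul]
    rw [Polynomial.aeval_def, Polynomial.eval₂_map] at h2
    exact IsIntegral.isAlgebraic ⟨p, hp, h2⟩
  have hsp : ((minpoly M c).map (algebraMap M K)).Splits := IsAlgClosed.splits _
  have hmon : ((minpoly M c).map (algebraMap M K)).Monic := (minpoly.monic hcM).map _
  have hprod := hsp.eq_prod_roots_of_monic hmon
  have hlift : (minpoly M c).map (algebraMap M K) ∈ Polynomial.lifts (algebraMap (kk t) K) := by
    rw [hprod]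
    apply Subsemiring.multiset_prod_mem
    intro q hq
    rw [Multiset.mem_map] at hq
    obtain ⟨r, hr, rfl⟩ := hq
    rw [Polynomial.mem_lifts]
    refine ⟨Polynomial.X - Polynomial.C ⟨r, mem_kk.mpr (hroots r hr)⟩, ?_⟩
    rw [Polynomial.map_sub, Polynomial.map_X, Polynomial.map_C]
    rfl
  obtain ⟨⟨y, hy⟩, hy'⟩ := (Polynomial.lifts_iff_coeff_lifts _).mp hlift n
  rw [Polynomial.coeff_map] at hy'
  have h3 : (((minpoly M c).coeff n : M) : K) = y := hy'.symm
  rw [h3]
  exact mem_kk.mp hy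

lemma exists_conj [IsAlgClosed K] (M : IntermediateField ℂ K) [Algebra.IsAlgebraic M K] {t : K}
    (ht : t ∈ M) (ρ₁ : K ≃ₐ[ℂ] K) (hρ : ∀ m ∈ M, Alg t m → ρ₁ m = m) {c : K} (hc : Alg t c) :
    ∃ η : K ≃ₐ[M] K, η c = ρ₁.symm c := by
  have hroot : Polynomial.aeval (ρ₁.symm c) (minpoly M c) = 0 := by
    apply ρ₁.injective
    rw [map_zero, Polynomial.aeval_eq_sum_range, map_sum]
    have h1 := minpoly.aeval M c
    rw [Polynomial.aeval_eq_sum_range] at h1
    rw [← h1]
    refine Finset.sum_congr rfl (fun n _ => ?_)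
    rw [Algebra.smul_def, Algebra.smul_def, map_mul, map_pow, AlgEquiv.apply_symm_apply]
    congr 1
    exact hρ _ ((minpoly M c).coeff n).2 (alg_coeff M ht hc n)
  have hN : Normal M K := by
    rw [normal_iff]
    intro x
    exact ⟨(Algebra.IsAlgebraic.isAlgebraic x).isIntegral, IsAlgClosed.splits _⟩
  obtain ⟨η, hη⟩ := minpoly.exists_algEquiv_of_root (K := M) (L := K)
    (Algebra.IsAlgebraic.isAlgebraic c) hroot
  have h1 := congrArg η.symm hη
  rw [AlgEquiv.symm_apply_apply] at h1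
  exact ⟨η.symm, h1.symm⟩

lemma exists_conj_finset [IsAlgClosed K] (M : IntermediateField ℂ K) [Algebra.IsAlgebraic M K]
    {t : K} (ht : t ∈ M) (ρ₁ : K ≃ₐ[ℂ] K) (hρ : ∀ m ∈ M, Alg t m → ρ₁ m = m) (F : Finset K) :
    ∃ η : K ≃ₐ[M] K, ∀ c ∈ F, Alg t c → η c = ρ₁.symm c := by
  classical
  set k0 : IntermediateField ℂ K := (kk t).restrictScalars ℂ ⊓ M with hk0
  have hmem : ∀ x, x ∈ k0 ↔ Alg t x ∧ x ∈ M := by
    intro x
    rw [hk0, IntermediateField.mem_inf, IntermediateField.mem_restrictScalars, mem_kk]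
  have htk : ℂ⟮t⟯ ≤ k0 := by
    rw [IntermediateField.adjoin_simple_le_iff, hmem]
    refine ⟨?_, ht⟩
    have h1 : (t : K) = algebraMap ℂ⟮t⟯ K ⟨t, IntermediateField.mem_adjoin_simple_self ℂ t⟩ := rfl
    rw [h1]
    exact isAlgebraic_algebraMap _
  set S : Set K := {c | c ∈ F ∧ Alg t c} with hS
  have hSfin : S.Finite := F.finite_toSet.subset (fun c hc => hc.1)
  have hint : ∀ c, Alg t c → IsIntegral k0 c := by
    intro c hc
    obtain ⟨p, hp, hpc⟩ := hc.isIntegral
    refine ⟨p.map (IntermediateField.inclusion htk).toRingHom, hp.map _, ?_⟩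
    rw [Polynomial.eval₂_map]
    exact hpc
  have hfd : FiniteDimensional k0 (IntermediateField.adjoin k0 S) := by
    have := hSfin.to_subtype
    exact IntermediateField.finiteDimensional_adjoin (fun c hc => hint c hc.2)
  have hch : CharZero k0 := charZero_of_injective_algebraMap (algebraMap ℂ k0).injective
  have halgS : Algebra.IsAlgebraic k0 (IntermediateField.adjoin k0 S) :=
    Algebra.IsAlgebraic.of_finite _ _
  have hsep : Algebra.IsSeparable k0 (IntermediateField.adjoin k0 S) :=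
    Algebra.IsAlgebraic.isSeparable_of_perfectField
  obtain ⟨α, hα⟩ := Field.exists_primitive_element k0 (IntermediateField.adjoin k0 S)
  have hαint : IsIntegral k0 α := IsIntegral.of_finite k0 α
  -- the primitive element is algebraic over `ℂ(t)`
  have hαalg : Alg t (α : K) := by
    have h1 : IntermediateField.adjoin k0 S ≤
        IntermediateField.extendScalars (show k0 ≤ (kk t).restrictScalars ℂ from inf_le_left) := by
      rw [IntermediateField.adjoin_le_iff]
      intro c hc
      exact mem_kk.mpr hc.2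
    have h2 := h1 α.2
    rw [IntermediateField.mem_extendScalars] at h2
    exact mem_kk.mp h2
  obtain ⟨η, hη⟩ := exists_conj M ht ρ₁ hρ hαalg
  refine ⟨η, fun c hcF hc => ?_⟩
  have hcE : c ∈ IntermediateField.adjoin k0 S := IntermediateField.subset_adjoin _ _ ⟨hcF, hc⟩
  have h1 : (⟨c, hcE⟩ : IntermediateField.adjoin k0 S) ∈ k0⟮α⟯ := by
    rw [hα]
    exact IntermediateField.mem_top
  have h2 : (⟨c, hcE⟩ : IntermediateField.adjoin k0 S) ∈ (k0⟮α⟯).toSubalgebra := h1
  rw [IntermediateField.adjoin_simple_toSubalgebra_of_isAlgebraic hαint.isAlgebraic,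
    Algebra.adjoin_singleton_eq_range_aeval] at h2
  obtain ⟨P, hP⟩ := h2
  have h3 : c = Polynomial.aeval (α : K) P := by
    have h4 := congrArg (fun x : IntermediateField.adjoin k0 S => (x : K)) hP
    simp only at h4
    rw [← h4]
    exact (Polynomial.aeval_algHom_apply (IntermediateField.adjoin k0 S).val α P).symm
  -- both sides are `P` evaluated at the image of `α`
  rw [h3, Polynomial.aeval_eq_sum_range, map_sum, map_sum]
  refine Finset.sum_congr rfl (fun n _ => ?_)
  have h4 := (hmem _).mp (P.coeff n).2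
  rw [Algebra.smul_def, map_mul, map_mul, map_pow, map_pow, hη]
  congr 1
  have h5 : η (algebraMap k0 K (P.coeff n)) = algebraMap k0 K (P.coeff n) :=
    η.commutes ⟨((P.coeff n : k0) : K), h4.2⟩
  have h6 : ρ₁.symm (algebraMap k0 K (P.coeff n)) = algebraMap k0 K (P.coeff n) := by
    apply ρ₁.injective
    rw [AlgEquiv.apply_symm_apply]
    exact (hρ _ h4.2 h4.1).symm
  rw [h5, h6]

/-- The limit along an ultrafilter. -/
lemma exists_conj_all [IsAlgClosed K] (M : IntermediateField ℂ K) [Algebra.IsAlgebraic M K]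
    {t : K} (ht : t ∈ M) (ρ₁ : K ≃ₐ[ℂ] K) (hρ : ∀ m ∈ M, Alg t m → ρ₁ m = m) :
    ∃ η : K →ₐ[M] K, ∀ c, Alg t c → η c = ρ₁.symm c := by
  classical
  choose η hη using fun F : Finset K => exists_conj_finset M ht ρ₁ hρ F
  set U : Ultrafilter (Finset K) := Ultrafilter.of Filter.atTop with hU
  have hUle : (U : Filter (Finset K)) ≤ Filter.atTop := Ultrafilter.of_le _
  have hlim : ∀ x : K, ∃ y, ∀ᶠ F in (U : Filter (Finset K)), η F x = y := by
    intro x
    have hfin : ((minpoly M x).rootSet K).Finite := Polynomial.rootSet_finite _ _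
    have h1 : ∀ᶠ F in (U : Filter (Finset K)), ∃ y ∈ (minpoly M x).rootSet K, η F x = y := by
      refine Filter.Eventually.of_forall (fun F => ⟨η F x, ?_, rfl⟩)
      rw [Polynomial.mem_rootSet]
      refine ⟨minpoly.ne_zero (Algebra.IsAlgebraic.isAlgebraic x).isIntegral, ?_⟩
      have h2 := Polynomial.aeval_algHom_apply (η F : K →ₐ[M] K) x (minpoly M x)
      rw [minpoly.aeval, map_zero] at h2
      exact h2
    obtain ⟨y, -, hy⟩ := (Ultrafilter.eventually_exists_mem_iff hfin).mp h1
    exact ⟨y, hy⟩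
  choose e he using hlim
  have key : ∀ {P : Finset K → Prop}, (∀ᶠ F in (U : Filter (Finset K)), P F) → ∃ F, P F :=
    fun h => h.exists
  refine ⟨{ toFun := e
            map_one' := ?_
            map_mul' := ?_
            map_zero' := ?_
            map_add' := ?_
            commutes' := ?_ }, ?_⟩
  · obtain ⟨F, hF⟩ := key (he 1)
    rw [← hF, map_one]
  · intro x y
    obtain ⟨F, ⟨h1, h2⟩, h3⟩ := key (((he x).and (he y)).and (he (x * y)))
    rw [← h1, ← h2, ← h3, map_mul]
  · obtain ⟨F, hF⟩ := key (he 0)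
    rw [← hF, map_zero]
  · intro x y
    obtain ⟨F, ⟨h1, h2⟩, h3⟩ := key (((he x).and (he y)).and (he (x + y)))
    rw [← h1, ← h2, ← h3, map_add]
  · intro m
    obtain ⟨F, hF⟩ := key (he (algebraMap M K m))
    show e (algebraMap M K m) = algebraMap M K m
    rw [← hF]
    exact (η F).commutes m
  · intro c hc
    obtain ⟨F, h1, h2⟩ := key ((he c).and (hUle (Filter.eventually_ge_atTop {c})))
    show e c = _
    rw [← h1]
    exact hη F c (h2 (Finset.mem_singleton_self c)) hc

end Pool.Agent.FibC.ExtFibAux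

namespace Pool.Agent.FibC

open ExtFibAux

variable {N : ℕ} {K : Type} [Field K] [Algebra ℂ K] [IsAlgClosed K]

/-- PROOF: `M = ℂ(ξ)`, `k` = elements algebraic over `ℂ(t)`, `k₀ = M ∩ k`; `t ∈ k₀`, so `k` is an
algebraic closure of `k₀`. Extend `σ` to `ρ₁ ∈ Aut(K / ℂ)` (`exists_aut`). It fixes `k₀`, so
`ρ₁ k = k`, and `ρ₁|k ∈ Gal(k / k₀)`. The restriction `Gal(K / M) → Gal(k / k₀)` is surjective: its
image is closed (compactness of `Gal(K / M)`, continuity) with fixed field `M ∩ k = k₀`
(`InfiniteGalois`); alternatively `M` and `k` are linearly disjoint over `k₀`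
(`IntermediateField.LinearDisjoint.of_inf_eq_bot` for finite Galois extensions). So there is
`η ∈ Gal(K / M)` with `η|k = (ρ₁|k)⁻¹`, and `ρ = ρ₁ ∘ η`. -/
theorem exists_ext {ξ : Fin (N + 1) → K} {t a : fld ξ}
    (hb : IsTranscendenceBasis ℂ ![(t : K), (a : K)]) (σ : fld ξ →ₐ[ℂ] K)
    (hσ : ∀ f : fld ξ, Alg (t : K) (f : K) → σ f = f) :
    ∃ ρ : K ≃ₐ[ℂ] K, (∀ f : fld ξ, ρ f = σ f) ∧ ∀ c : K, Alg (t : K) c → ρ c = c := by
  obtain ⟨ρ₁, hρ₁⟩ := exists_aut hb σ
  have halg : Algebra.IsAlgebraic (fld ξ) K := alg_fld hb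
  obtain ⟨η, hη⟩ := exists_conj_all (fld ξ) t.2 ρ₁ (fun m hm hmt => by
    have h1 := hρ₁ ⟨m, hm⟩
    rw [hσ ⟨m, hm⟩ hmt] at h1
    exact h1)
  have hbij : Function.Bijective η := Algebra.IsAlgebraic.algHom_bijective η
  refine ⟨(AlgEquiv.ofBijective (η.restrictScalars ℂ) hbij).trans ρ₁, fun f => ?_, fun c hc => ?_⟩
  · rw [AlgEquiv.trans_apply, ← hρ₁]
    congr 1
    exact η.commutes f
  · rw [AlgEquiv.trans_apply]
    show ρ₁ (η c) = c
    rw [hη c hc, AlgEquiv.apply_symm_apply]

end Pool.Agent.FibC
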