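import Pool.Agent.FibC.Ders

/-! Module D4: the fields `k` and `L = k(ξ)`. -/

set_option autoImplicit false
set_option linter.unusedVariables false

open IntermediateField

namespace Pool.Agent.FibC

variable {N : ℕ} {K : Type} [Field K] [Algebra ℂ K]

/-- the field of the elements of `K` which are algebraic over `ℂ(t)` -/
noncomputable def kk (t : K) : IntermediateField ℂ K :=
  (algebraicClosure ℂ⟮t⟯ K).restrictScalars ℂ

theorem mem_kk {t c : K} : c ∈ kk t ↔ Alg t c := by
  unfold kk Alg
  rw [IntermediateField.mem_restrictScalars, mem_algebraicClosure_iff]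

/-- the field `k(ξ)` as an extension of `k` -/
noncomputable def LL (ξ : Fin (N + 1) → K) (t : K) : IntermediateField (kk t) K :=
  IntermediateField.adjoin (kk t) (Set.range ξ)

namespace FieldsAux

theorem coe_kk (t : K) : ((kk t : IntermediateField ℂ K) : Set K) = {c | Alg t c} := by
  ext c
  exact mem_kk

/-- elements algebraic over a smaller field are algebraic over a larger one -/
theorem alg_mono {E₁ E₂ : IntermediateField ℂ K} (h : E₁ ≤ E₂) {z : K} (hz : IsAlgebraic E₁ z) :
    IsAlgebraic E₂ z := by
  let _ : Algebra E₁ E₂ := (IntermediateField.inclusion h).toRingHom.toAlgebra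
  have : IsScalarTower E₁ E₂ K := .of_algebraMap_eq fun _ => rfl
  exact hz.extendScalars (algebraMap E₁ E₂).injective

theorem self_mem_kk (t : K) : t ∈ kk t :=
  mem_kk.mpr (isAlgebraic_algebraMap (⟨t, mem_adjoin_simple_self ℂ t⟩ : ℂ⟮t⟯))

/-- transitivity -/
theorem alg_of_kk {t z : K} (hz : IsAlgebraic (kk t) z) : Alg t z := by
  have h1 : IsAlgebraic (algebraicClosure ℂ⟮t⟯ K) z := hz
  exact h1.restrictScalars ℂ⟮t⟯

end FieldsAux

open FieldsAux

theorem mem_LL {ξ : Fin (N + 1) → K} {t x : K} : x ∈ LL ξ t ↔ x ∈ big ξ t := by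
  have h1 : (LL ξ t).restrictScalars ℂ = big ξ t := by
    unfold LL big
    rw [IntermediateField.restrictScalars_adjoin, coe_kk, Set.union_comm]
  rw [← h1, IntermediateField.mem_restrictScalars]

theorem isAlgClosed_kk [IsAlgClosed K] (t : K) : IsAlgClosed (kk t) := by
  have h1 : IsAlgClosed (algebraicClosure ℂ⟮t⟯ K) :=
    (algebraicClosure.isAlgClosure ℂ⟮t⟯ K).isAlgClosed
  exact h1

/-- PROOF: `a` is transcendental over `ℂ(t)`, so over its algebraic closure in `K`. -/
theorem trans_kk {t a : K} (hb : IsTranscendenceBasis ℂ ![t, a]) : Transcendental (kk t) a := by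
  intro h
  have h1 : IsAlgebraic ℂ⟮t⟯ a := alg_of_kk h
  have h2 := hb.1.transcendental_adjoin (s := {0}) (i := 1) (by simp)
  have e1 : (![t, a] '' {0} : Set K) = {t} := by simp
  rw [e1] at h2
  apply h2
  open IntermediateField.algebraAdjoinAdjoin in
  exact (IsFractionRing.isAlgebraic_iff (Algebra.adjoin ℂ {t}) ℂ⟮t⟯ K).mpr h1

/-- PROOF: transcendence degree: if `x` is transcendental over `k` then `(t, x)` is algebraically
independent over `ℂ`, so a transcendence basis of `K` (exchange). -/
theorem alg_kk {t a : K} (hb : IsTranscendenceBasis ℂ ![t, a]) (x : K)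
    (hx : Transcendental (kk t) x) : Algebra.IsAlgebraic (kk t)⟮x⟯ K := by
  have ht : AlgebraicIndependent ℂ (fun _ : Unit => t) :=
    (algebraicIndependent_singleton_iff ()).mpr (hb.1.transcendental 0)
  have hx' : AlgebraicIndependent (kk t) (fun _ : Unit => x) :=
    (algebraicIndependent_singleton_iff ()).mpr hx
  have h1 : AlgebraicIndependent ℂ (Sum.elim (fun _ : Unit => x) (fun _ : Unit => t)) := by
    refine ht.sumElim_of_tower (S := kk t) ?_ hx'
    rintro _ ⟨_, rfl⟩
    exact ⟨⟨t, self_mem_kk t⟩, rfl⟩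
  have h2 : IsTranscendenceBasis ℂ (Sum.elim (fun _ : Unit => x) (fun _ : Unit => t)) := by
    refine h1.isTranscendenceBasis_of_trdeg_le_of_finite ?_
    rw [← hb.cardinalMk_eq_trdeg]
    simp
  have h3 := h2.isAlgebraic_field
  have hle : IntermediateField.adjoin ℂ (Set.range (Sum.elim (fun _ : Unit => x) (fun _ : Unit => t))) ≤
      ((kk t)⟮x⟯).restrictScalars ℂ := by
    rw [IntermediateField.adjoin_le_iff]
    rintro _ ⟨i | i, rfl⟩
    · exact mem_adjoin_simple_self (kk t) x
    · exact (IntermediateField.algebraMap_mem (kk t)⟮x⟯ (⟨t, self_mem_kk t⟩ : kk t))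
  refine ⟨fun z => ?_⟩
  exact alg_mono hle (h3.isAlgebraic z)

/-- PROOF: the finitely many `ξ_j` are algebraic over `ℂ(t, a)`. -/
theorem findim_LL {t a : K} (hb : IsTranscendenceBasis ℂ ![t, a]) (ξ : Fin (N + 1) → K)
    (ha : a ∈ LL ξ t) : FiniteDimensional (kk t)⟮(⟨a, ha⟩ : LL ξ t)⟯ (LL ξ t) := by
  set F := (kk t)⟮(⟨a, ha⟩ : LL ξ t)⟯ with hF
  have hlift : lift F = (kk t)⟮a⟯ := by
    rw [hF, IntermediateField.lift_adjoin_simple]
  have hK : ∀ z : K, IsAlgebraic F z := by
    intro z
    have h1 : IsAlgebraic (kk t)⟮a⟯ z := (alg_kk hb a (trans_kk hb)).isAlgebraic z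
    rw [← hlift] at h1
    let _ : Algebra (lift F) F := (IntermediateField.liftAlgEquiv F).symm.toRingHom.toAlgebra
    have : IsScalarTower (lift F) F K := .of_algebraMap_eq fun y => by
      obtain ⟨y', rfl⟩ := (IntermediateField.liftAlgEquiv F).surjective y
      have e1 : algebraMap (lift F) F (IntermediateField.liftAlgEquiv F y') = y' :=
        (IntermediateField.liftAlgEquiv F).symm_apply_apply y'
      rw [e1]
      rfl
    exact h1.extendScalars (algebraMap (lift F) F).injective
  have hmem : ∀ j, ξ j ∈ LL ξ t := fun j => IntermediateField.subset_adjoin _ _ ⟨j, rfl⟩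
  set S : Set (LL ξ t) := Set.range fun j => (⟨ξ j, hmem j⟩ : LL ξ t) with hS
  have hint : ∀ x ∈ S, IsIntegral F x := by
    intro x _
    rw [← isAlgebraic_iff_isIntegral]
    have h1 := hK (algebraMap (LL ξ t) K x)
    exact (isAlgebraic_algebraMap_iff (algebraMap (LL ξ t) K).injective).mp h1
  have hfin : FiniteDimensional F (IntermediateField.adjoin F S) := by
    have : Finite S := Set.finite_range _
    exact IntermediateField.finiteDimensional_adjoin hint
  have htop : IntermediateField.adjoin (kk t) S = ⊤ := by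
    apply IntermediateField.lift_injective
    rw [IntermediateField.lift_adjoin, IntermediateField.lift_top]
    have e1 : ((fun x : LL ξ t => (x : K)) '' S) = Set.range ξ := by
      rw [hS, ← Set.range_comp]
      rfl
    have e2 : (Subtype.val '' S : Set K) = Set.range ξ := e1
    rw [e2]
    rfl
  have htop2 : IntermediateField.adjoin F S = ⊤ := by
    rw [eq_top_iff]
    intro x _
    have h1 : IntermediateField.adjoin (kk t) S ≤
        (IntermediateField.adjoin F S).restrictScalars (kk t) := by
      rw [IntermediateField.adjoin_le_iff]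
      exact IntermediateField.subset_adjoin F S
    have h2 : x ∈ IntermediateField.adjoin (kk t) S := by
      rw [htop]
      trivial
    exact h1 h2
  rw [htop2] at hfin
  exact Module.Finite.equiv (IntermediateField.topEquiv (F := F) (E := LL ξ t)).toLinearEquiv

/-- the derivation `δa` is linear over `k` -/
theorem exists_derK {t a : K} (hb : IsTranscendenceBasis ℂ ![t, a]) {δt δa : Derivation ℂ K K}
    (hδ : δt t = 1 ∧ δt a = 0 ∧ δa t = 0 ∧ δa a = 1) :
    ∃ D : Derivation (kk t) K K, ∀ x, D x = δa x := by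
  refine ⟨Derivation.mk' { toFun := δa, map_add' := fun x y => map_add δa x y, map_smul' := ?_ } ?_,
    fun x => rfl⟩
  · intro c x
    have h1 : δa (c : K) = 0 := (ker_iff hb hδ _).mpr (mem_kk.mp c.2)
    have h2 : c • x = (c : K) * x := rfl
    rw [RingHom.id_apply, h2, Derivation.leibniz, h1, smul_zero, add_zero]
    rfl
  · intro x y
    exact δa.leibniz x y

end Pool.Agent.FibC
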