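import Pool.Agent.FibC.KAct

/-! Module F6: the cycle of an effective correspondence is Galois invariant. -/

set_option autoImplicit false

open MvPolynomial

namespace Pool.Agent.FibC

variable {N : ℕ} {K : Type} [Field K] [Algebra ℂ K]

namespace KCyAux

omit [Algebra ℂ K] in
lemma eval_single_linF (v : Fin (N + 1) → K) (i : Fin (N + 1)) :
    eval (Pi.single i (1 : K)) (linF v) = v i := by
  classical
  simp [linF, Pi.single_apply]

omit [Algebra ℂ K] in
lemma linF_ne_zero {v : Fin (N + 1) → K} (hv : v ≠ 0) : linF v ≠ 0 := by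
  intro h
  apply hv
  funext i
  rw [← eval_single_linF v i, h, map_zero]
  rfl

omit [Algebra ℂ K] in
lemma linF_isHomogeneous (v : Fin (N + 1) → K) : (linF v).IsHomogeneous 1 := by
  refine IsHomogeneous.sum _ _ _ fun j _ => ?_
  have h1 := (isHomogeneous_C (Fin (N + 1)) (v j)).mul (isHomogeneous_X K j)
  rwa [zero_add] at h1

omit [Algebra ℂ K] in
lemma irreducible_linF {v : Fin (N + 1) → K} (hv : v ≠ 0) : Irreducible (linF v) := by
  have h1 : (linF v).totalDegree = 1 := (linF_isHomogeneous v).totalDegree (linF_ne_zero hv)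
  refine irreducible_of_totalDegree_eq_one h1 fun x hx => ?_
  have h2 : ∃ m, coeff m (linF v) ≠ 0 := by
    by_contra hc
    push Not at hc
    exact linF_ne_zero hv (MvPolynomial.ext _ _ fun m => by rw [hc m, coeff_zero])
  obtain ⟨m, hm⟩ := h2
  refine isUnit_iff_ne_zero.2 fun h0 => hm ?_
  have := hx m
  rw [h0, zero_dvd_iff] at this
  exact this

omit [Algebra ℂ K] in
lemma smul_of_associated {v w : Fin (N + 1) → K} (h : Associated (linF v) (linF w)) :
    ∃ r : K, r ≠ 0 ∧ w = r • v := by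
  obtain ⟨u, hu⟩ := h
  obtain ⟨r, hr, hr'⟩ := MvPolynomial.isUnit_iff_eq_C_of_isReduced.1 u.isUnit
  rw [hr'] at hu
  refine ⟨r, hr.ne_zero, ?_⟩
  funext i
  have := congrArg (eval (Pi.single i (1 : K))) hu
  rw [map_mul, eval_single_linF, eval_single_linF, eval_C] at this
  rw [Pi.smul_apply, smul_eq_mul, ← this, mul_comm]

lemma rel_KRat {ξ : Fin (N + 1) → K} {S T : Multiset (Fin (N + 1) → K)}
    (h : Multiset.Rel (fun a b => Associated (linF a) (linF b)) S T)
    (hS : ∀ z ∈ S, z ≠ 0 ∧ On ξ z) : cyv T - cyv S ∈ KRat ξ := by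
  induction h with
  | zero =>
    rw [sub_self]
    exact zero_mem _
  | @cons a b S T hab hST ih =>
    have h1 := ih fun z hz => hS z (Multiset.mem_cons_of_mem hz)
    obtain ⟨ha0, haon⟩ := hS a (Multiset.mem_cons_self a S)
    obtain ⟨r, hr, rfl⟩ := smul_of_associated hab
    have h2 := rescale ha0 haon r hr
    have e : cyv ((r • a) ::ₘ T) - cyv (a ::ₘ S) =
        (FreeAbelianGroup.of (r • a) - FreeAbelianGroup.of a) + (cyv T - cyv S) := by
      simp only [cyv, Multiset.map_cons, Multiset.sum_cons]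
      abel
    rw [e]
    exact add_mem h2 h1

omit [Algebra ℂ K] in
lemma map_linF (ρ : K →+* K) (z : Fin (N + 1) → K) :
    MvPolynomial.map ρ (linF z) = linF (fun i => ρ (z i)) := by
  simp [linF]

end KCyAux

/-- The cycle of an effective correspondence is Galois invariant.

PROOF: `ρ` fixes the coefficients of `map (aeval ξ) Φ`, so the multisets of the linear forms of
`Γ.pts i` and of `ρ (Γ.pts i)` have products which differ by a constant; unique factorisation
(`UniqueFactorizationMonoid.factors_unique`, see `isChowForm_unique` in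
`Pool/Agent/LowDeg/SpecEff.lean`) gives a bijection up to constants; then `rescale`. -/
theorem act_cy {ξ : Fin (N + 1) → K} {w : ℕ} (Γ : EffCorr ξ w) (ρ : K ≃ₐ[ℂ] K)
    (hρ : ∀ i, ρ (ξ i) = ξ i) : act ρ Γ.cy - Γ.cy ∈ KRat ξ := by
  classical
  -- `ρ` fixes the coefficients
  have h1 : ∀ G : MvPolynomial (Fin (N + 1)) ℂ, ρ (aeval ξ G) = aeval ξ G := by
    intro G
    have e : ρ (aeval ξ G) = aeval (fun i => ρ (ξ i)) G := by
      rw [← AlgEquiv.toAlgHom_apply, ← AlgHom.comp_apply, comp_aeval]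
      rfl
    rw [e]
    congr 2
    funext i
    exact hρ i
  have h2 : map (ρ : K ≃+* K).toRingHom
      (map (aeval ξ : MvPolynomial (Fin (N + 1)) ℂ →ₐ[ℂ] K).toRingHom Γ.Φ) =
      map (aeval ξ : MvPolynomial (Fin (N + 1)) ℂ →ₐ[ℂ] K).toRingHom Γ.Φ := by
    have h0 : (ρ : K ≃+* K).toRingHom.comp
        (aeval ξ : MvPolynomial (Fin (N + 1)) ℂ →ₐ[ℂ] K).toRingHom =
        (aeval ξ : MvPolynomial (Fin (N + 1)) ℂ →ₐ[ℂ] K).toRingHom := RingHom.ext fun G => h1 G
    rw [map_map, h0]
  have hfac := Γ.fac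
  have h3 : (C Γ.c : MvPolynomial (Fin (N + 1)) K) * ∏ i, linF (Γ.pts i) =
      C (ρ Γ.c) * ∏ i, linF (fun j => ρ (Γ.pts i j)) := by
    rw [hfac] at h2
    rw [← h2, map_mul, map_C, map_prod]
    congr 1
    exact Finset.prod_congr rfl fun i _ => KCyAux.map_linF _ _
  have hρc : ρ Γ.c ≠ 0 := by
    intro h
    exact Γ.c_ne ((map_eq_zero ρ).1 h)
  have hρp : ∀ i, (fun j => ρ (Γ.pts i j)) ≠ 0 := by
    intro i h
    apply Γ.pts_ne i
    funext j
    exact (map_eq_zero ρ).1 (congrFun h j)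
  set S : Multiset (Fin (N + 1) → K) := Finset.univ.val.map Γ.pts with hS
  set T : Multiset (Fin (N + 1) → K) := Finset.univ.val.map (fun i j => ρ (Γ.pts i j)) with hT
  have hass : Associated (S.map linF).prod (T.map linF).prod := by
    have hu : IsUnit (C Γ.c : MvPolynomial (Fin (N + 1)) K) := (isUnit_iff_ne_zero.2 Γ.c_ne).map C
    have hu' : IsUnit (C (ρ Γ.c) : MvPolynomial (Fin (N + 1)) K) :=
      (isUnit_iff_ne_zero.2 hρc).map C
    have e1 : (S.map linF).prod = ∏ i, linF (Γ.pts i) := by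
      rw [hS, Multiset.map_map]; rfl
    have e2 : (T.map linF).prod = ∏ i, linF (fun j => ρ (Γ.pts i j)) := by
      rw [hT, Multiset.map_map]; rfl
    rw [e1, e2]
    refine (associated_unit_mul_right _ _ hu).trans ?_
    rw [h3]
    exact (associated_unit_mul_right _ _ hu').symm
  have hrel := UniqueFactorizationMonoid.factors_unique (f := S.map linF) (g := T.map linF)
    (by
      intro x hx
      obtain ⟨z, hz, rfl⟩ := Multiset.mem_map.1 hx
      obtain ⟨i, _, rfl⟩ := Multiset.mem_map.1 hz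
      exact KCyAux.irreducible_linF (Γ.pts_ne i))
    (by
      intro x hx
      obtain ⟨z, hz, rfl⟩ := Multiset.mem_map.1 hx
      obtain ⟨i, _, rfl⟩ := Multiset.mem_map.1 hz
      exact KCyAux.irreducible_linF (hρp i)) hass
  rw [Multiset.rel_map] at hrel
  have h4 := KCyAux.rel_KRat (ξ := ξ) hrel (by
    intro z hz
    obtain ⟨i, _, rfl⟩ := Multiset.mem_map.1 hz
    exact ⟨Γ.pts_ne i, Γ.pts_on i⟩)
  have e1 : act ρ Γ.cy = cyv T := by
    rw [EffCorr.cy, map_sum, hT, cyv, Multiset.map_map]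
    simp only [act, FreeAbelianGroup.map_of_apply]
    rfl
  have e2 : Γ.cy = cyv S := by
    rw [EffCorr.cy, hS, cyv, Multiset.map_map]
    rfl
  rw [e1, e2]
  exact h4

end Pool.Agent.FibC
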