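import Pool.Agent.FibC.KDefs
import Pool.Agent.LowDeg.Spec

/-! Module F2: almost all points of the surface are specialisations of the generic point. -/

set_option autoImplicit false

open MvPolynomial

namespace Pool.Agent.FibC

variable {N : ℕ} {K : Type} [Field K] [Algebra ℂ K] [IsAlgClosed K]

namespace SpecAux

/-- homogenisation with respect to the variable `0` -/
noncomputable def homog (g : MvPolynomial (Fin (N + 1)) ℂ) : MvPolynomial (Fin (N + 1)) ℂ :=
  ∑ k ∈ Finset.range (g.totalDegree + 1), X 0 ^ (g.totalDegree - k) * homogeneousComponent k g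

theorem homog_isHomogeneous (g : MvPolynomial (Fin (N + 1)) ℂ) :
    (homog g).IsHomogeneous g.totalDegree := by
  refine IsHomogeneous.sum _ _ _ fun k hk => ?_
  have h := ((isHomogeneous_X ℂ (0 : Fin (N + 1))).pow (g.totalDegree - k)).mul
    (homogeneousComponent_isHomogeneous k g)
  have e : 1 * (g.totalDegree - k) + k = g.totalDegree := by
    have := Finset.mem_range.1 hk
    omega
  rw [e] at h
  exact h

theorem aeval_homog {B : Type*} [CommRing B] [Algebra ℂ B] (g : MvPolynomial (Fin (N + 1)) ℂ)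
    (u : Fin (N + 1) → B) (hu : u 0 = 1) : aeval u (homog g) = aeval u g := by
  conv_rhs => rw [← sum_homogeneousComponent g]
  rw [homog, map_sum, map_sum]
  refine Finset.sum_congr rfl fun k _ => ?_
  rw [map_mul, map_pow, aeval_X, hu, one_pow, one_mul]

theorem aeval_scale {B : Type*} [CommRing B] [Algebra ℂ B] {m : ℕ}
    {p : MvPolynomial (Fin (N + 1)) ℂ}
    (hp : p.IsHomogeneous m) (a : B) (u : Fin (N + 1) → B) :
    aeval (fun i => a * u i) p = a ^ m * aeval u p := by
  rw [aeval_def, aeval_def, eval₂_eq', eval₂_eq', Finset.mul_sum]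
  refine Finset.sum_congr rfl fun d hd => ?_
  have h1 : d.degree = m := by
    by_contra hc
    exact (mem_support_iff.1 hd) (IsHomogeneous.coeff_eq_zero hp hc)
  have h2 : ∏ i : Fin (N + 1), (a * u i) ^ d i = a ^ m * ∏ i : Fin (N + 1), u i ^ d i := by
    simp only [mul_pow]
    rw [Finset.prod_mul_distrib, Finset.prod_pow_eq_pow_sum, ← h1, Finsupp.degree_eq_sum]
  rw [h2]
  ring

omit [IsAlgClosed K] in
/-- points of the surface are specialisations of the coordinates of the generic point -/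
theorem exists_hom {ξ : Fin (N + 1) → K} (h1 : ξ 0 = 1)
    (x : Fin (N + 1) → ℂ) (hx : On ξ x) (hx0 : x 0 ≠ 0) :
    ∃ φ : (aeval ξ : MvPolynomial (Fin (N + 1)) ℂ →ₐ[ℂ] K).range →ₐ[ℂ] ℂ,
      ∀ g : MvPolynomial (Fin (N + 1)) ℂ,
        φ ⟨aeval ξ g, g, rfl⟩ = aeval (fun i => x i / x 0) g := by
  have hu0 : x 0 / x 0 = 1 := div_self hx0
  have hker : ∀ g : MvPolynomial (Fin (N + 1)) ℂ, aeval ξ g = 0 →
      aeval (fun i => x i / x 0) g = 0 := by
    intro g hg
    have h2 : aeval ξ (homog g) = 0 := by rw [aeval_homog g ξ h1, hg]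
    have h2' : aeval x (homog g) = 0 := hx _ _ (homog_isHomogeneous g) h2
    have h3 := aeval_scale (homog_isHomogeneous g) (x 0) (fun i => x i / x 0)
    have h4 : (fun i => x 0 * (x i / x 0)) = x := by
      funext i
      field_simp
    rw [h4, h2', aeval_homog g _ hu0] at h3
    rcases mul_eq_zero.1 h3.symm with h5 | h5
    · exact absurd h5 (pow_ne_zero _ hx0)
    · exact h5
  set f : MvPolynomial (Fin (N + 1)) ℂ →ₐ[ℂ] K := aeval ξ with hf
  have hker' : ∀ g ∈ RingHom.ker f,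
      (aeval (fun i => x i / x 0) : MvPolynomial (Fin (N + 1)) ℂ →ₐ[ℂ] ℂ) g = 0 :=
    fun g hg => hker g hg
  refine ⟨(Ideal.Quotient.liftₐ (RingHom.ker f)
    (aeval (fun i => x i / x 0) : MvPolynomial (Fin (N + 1)) ℂ →ₐ[ℂ] ℂ) hker').comp
    (Ideal.quotientKerEquivRange f).symm.toAlgHom, fun g => ?_⟩
  have h : (Ideal.quotientKerEquivRange f).symm ⟨f g, g, rfl⟩ =
      Ideal.Quotient.mk (RingHom.ker f) g := by
    rw [AlgEquiv.symm_apply_eq]
    rfl
  change (Ideal.Quotient.liftₐ (RingHom.ker f)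
    (aeval (fun i => x i / x 0) : MvPolynomial (Fin (N + 1)) ℂ →ₐ[ℂ] ℂ) hker')
      ((Ideal.quotientKerEquivRange f).symm ⟨f g, g, rfl⟩) = _
  rw [h]
  rfl

end SpecAux

open SpecAux

/-- Almost all points of the surface are specialisations of the generic point.

PROOF: this is `exists_spec` of `Pool/Agent/LowDeg/Spec.lean` with `Fin 4` replaced by
`Fin (N + 1)`, `aeval x F = 0` by `On ξ x` and `¬ F ∣ D` by `aeval ξ D ≠ 0`
(`exists_hom` there: if `g(ξ) = 0` then the homogenisation vanishes at `ξ`, hence at `x` by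
`On ξ x`). The lemma `LowDeg.exists_ext` can be used as it is; the lemmas on `homog` have to be
copied for `Fin (N + 1)`. -/
theorem exists_spec {ξ : Fin (N + 1) → K} (h1 : ξ 0 = 1)
    (halg : Algebra.IsAlgebraic (fld ξ) K) (R : Subalgebra ℂ K) (hR : R.FG)
    (hξR : ∀ i, ξ i ∈ R) :
    ∃ (e : ℕ) (D : MvPolynomial (Fin (N + 1)) ℂ), D.IsHomogeneous e ∧ aeval ξ D ≠ 0 ∧
      ∀ x : Fin (N + 1) → ℂ, On ξ x → aeval x D ≠ 0 →
        x 0 ≠ 0 ∧ ∃ φ : R →ₐ[ℂ] ℂ, ∀ i, φ ⟨ξ i, hξR i⟩ = x i / x 0 := by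
  classical
  set A : Subalgebra ℂ K := (aeval ξ : MvPolynomial (Fin (N + 1)) ℂ →ₐ[ℂ] K).range with hA
  have hAadj : Algebra.adjoin ℂ (Set.range ξ) = A := Algebra.adjoin_range_eq_range_aeval ℂ ξ
  -- `K` is algebraic over `A`
  have halg : ∀ y : K, IsAlgebraic A y := by
    have h2 : Algebra.IsAlgebraic (Algebra.adjoin ℂ (Set.range ξ)) K := by
      open scoped IntermediateField.algebraAdjoinAdjoin in
      exact (IsFractionRing.comap_isAlgebraic_iff (A := Algebra.adjoin ℂ (Set.range ξ))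
        (K := IntermediateField.adjoin ℂ (Set.range ξ)) (C := K)).2 halg
    rw [hAadj] at h2
    exact fun y => h2.isAlgebraic y
  choose p hp0 hp using halg
  obtain ⟨s, hs⟩ := hR
  set r : A := ∏ y ∈ s, (p y).leadingCoeff with hr
  have hr0 : r ≠ 0 := Finset.prod_ne_zero_iff.2 fun y _ => Polynomial.leadingCoeff_ne_zero.2 (hp0 y)
  obtain ⟨g, hg⟩ : ∃ g : MvPolynomial (Fin (N + 1)) ℂ, aeval ξ g = (r : K) := r.2
  have hlead : ∀ y ∈ s, ∃ q : Polynomial A, ∃ N : ℕ, q.leadingCoeff = r ^ N ∧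
      Polynomial.aeval y q = 0 := by
    intro y hy
    refine ⟨Polynomial.C (∏ z ∈ s.erase y, (p z).leadingCoeff) * p y, 1, ?_, ?_⟩
    · rw [Polynomial.leadingCoeff_mul, Polynomial.leadingCoeff_C, pow_one, hr,
        Finset.prod_erase_mul _ _ hy]
    · rw [map_mul, hp y, mul_zero]
  refine ⟨1 + g.totalDegree, X 0 * homog g, (isHomogeneous_X ℂ (0 : Fin (N + 1))).mul
    (homog_isHomogeneous g), ?_, fun x hx hDx => ?_⟩
  · intro h2
    rw [map_mul, aeval_X, h1, one_mul, aeval_homog g ξ h1, hg] at h2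
    exact hr0 (Subtype.ext h2)
  · rw [map_mul, aeval_X] at hDx
    have hx0 : x 0 ≠ 0 := left_ne_zero_of_mul hDx
    refine ⟨hx0, ?_⟩
    obtain ⟨φ, hφ⟩ := exists_hom h1 x hx hx0
    have hφr : φ r ≠ 0 := by
      have e : r = ⟨aeval ξ g, g, rfl⟩ := Subtype.ext hg.symm
      rw [e, hφ g]
      intro h0
      have h3 := aeval_scale (homog_isHomogeneous g) (x 0) (fun i => x i / x 0)
      have h4 : (fun i => x 0 * (x i / x 0)) = x := by
        funext i
        field_simp
      rw [h4, aeval_homog g (fun i => x i / x 0) (div_self hx0), h0, mul_zero] at h3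
      rw [h3, mul_zero] at hDx
      exact hDx rfl
    obtain ⟨R', hR', φ', hSR', hφ'⟩ := LowDeg.exists_ext A φ s r hφr hlead
    have hle : R ≤ R' := by
      rw [← hs]
      exact Algebra.adjoin_le fun y hy => hSR' y hy
    refine ⟨φ'.comp (Subalgebra.inclusion hle), fun i => ?_⟩
    have h5 := hφ' ⟨aeval ξ (X i : MvPolynomial (Fin (N + 1)) ℂ), X i, rfl⟩
    have h6 : aeval (fun i => x i / x 0) (X i : MvPolynomial (Fin (N + 1)) ℂ) = x i / x 0 :=
      aeval_X _ _
    rw [hφ (X i), h6] at h5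
    rw [← h5]
    change φ' (Subalgebra.inclusion hle ⟨ξ i, hξR i⟩) = _
    congr 1
    exact Subtype.ext (aeval_X ξ i).symm

end Pool.Agent.FibC
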