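import Pool.Agent.FibC.KDefs

/-! Module F3: specialisation of effective correspondences. -/

set_option autoImplicit false

open MvPolynomial
open scoped LinearAlgebra.Projectivization

namespace Pool.Agent.FibC

open Pool.Agent.Chow0 (IsChowForm cyc CH0 Z0 ratTriv)

variable {N : ℕ}

namespace SpecEffAux

open Pool.Agent.Chow0 (linForm chowForm)

lemma eval_single_linForm (v : Fin (N + 1) → ℂ) (i : Fin (N + 1)) :
    eval (Pi.single i (1 : ℂ)) (linForm v) = v i := by
  classical
  simp [linForm, Pi.single_apply]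

lemma linForm_ne_zero {v : Fin (N + 1) → ℂ} (hv : v ≠ 0) : linForm v ≠ 0 := by
  intro h
  apply hv
  funext i
  rw [← eval_single_linForm v i, h, map_zero]
  rfl

lemma linForm_isHomogeneous (v : Fin (N + 1) → ℂ) : (linForm v).IsHomogeneous 1 :=
  MvPolynomial.IsHomogeneous.sum _ _ _ fun _ _ => MvPolynomial.isHomogeneous_C_mul_X _ _

lemma linForm_smul (c : ℂ) (v : Fin (N + 1) → ℂ) :
    linForm (c • v) = MvPolynomial.C c * linForm v := by
  simp [linForm, Finset.mul_sum, mul_assoc]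

lemma irreducible_linForm {v : Fin (N + 1) → ℂ} (hv : v ≠ 0) : Irreducible (linForm v) := by
  have h1 : (linForm v).totalDegree = 1 :=
    (linForm_isHomogeneous v).totalDegree (linForm_ne_zero hv)
  refine irreducible_of_totalDegree_eq_one h1 fun x hx => ?_
  have h2 : ∃ m, coeff m (linForm v) ≠ 0 := by
    by_contra hc
    push Not at hc
    exact linForm_ne_zero hv (MvPolynomial.ext _ _ fun m => by rw [hc m, coeff_zero])
  obtain ⟨m, hm⟩ := h2
  refine isUnit_iff_ne_zero.2 fun h0 => hm ?_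
  have := hx m
  rw [h0, zero_dvd_iff] at this
  exact this

lemma eq_of_associated {p q : ℙ ℂ (Fin (N + 1) → ℂ)}
    (h : Associated (linForm p.rep) (linForm q.rep)) : p = q := by
  obtain ⟨u, hu⟩ := h
  obtain ⟨r, hr, hr'⟩ := MvPolynomial.isUnit_iff_eq_C_of_isReduced.1 u.isUnit
  rw [hr'] at hu
  have h1 : ∀ i, r * p.rep i = q.rep i := by
    intro i
    have := congrArg (eval (Pi.single i (1 : ℂ))) hu
    rw [map_mul, eval_single_linForm, eval_single_linForm, eval_C] at this
    rw [mul_comm]; exact this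
  rw [← p.mk_rep, ← q.mk_rep, Projectivization.mk_eq_mk_iff']
  refine ⟨r⁻¹, ?_⟩
  funext i
  have hr0 : r ≠ 0 := hr.ne_zero
  rw [Pi.smul_apply, smul_eq_mul, ← h1 i, inv_mul_cancel_left₀ hr0]

end SpecEffAux

/-- the effective cycle with a given Chow form is unique. -/
theorem isChowForm_unique {S : Set (ℙ ℂ (Fin (N + 1) → ℂ))} {G : MvPolynomial (Fin (N + 1)) ℂ}
    {s s' : Multiset S} (h : IsChowForm S G s) (h' : IsChowForm S G s') : s = s' := by
  obtain ⟨c, hc, h⟩ := h
  obtain ⟨c', hc', h'⟩ := h'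
  have hirr : ∀ s : Multiset S, ∀ x ∈ (s.map Subtype.val).map fun p => Chow0.linForm p.rep,
      Irreducible x := by
    intro s x hx
    obtain ⟨p, _, rfl⟩ := Multiset.mem_map.1 hx
    exact SpecEffAux.irreducible_linForm p.rep_nonzero
  have hass : Associated ((s.map Subtype.val).map fun p => Chow0.linForm p.rep).prod
      ((s'.map Subtype.val).map fun p => Chow0.linForm p.rep).prod := by
    have hu : IsUnit (C c : MvPolynomial (Fin (N + 1)) ℂ) := (isUnit_iff_ne_zero.2 hc).map C
    have hu' : IsUnit (C c' : MvPolynomial (Fin (N + 1)) ℂ) := (isUnit_iff_ne_zero.2 hc').map C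
    have e1 : Associated (Chow0.chowForm (s.map Subtype.val)) G := by
      rw [h]; exact associated_unit_mul_right _ _ hu
    have e2 : Associated (Chow0.chowForm (s'.map Subtype.val)) G := by
      rw [h']; exact associated_unit_mul_right _ _ hu'
    exact e1.trans e2.symm
  have hrel := UniqueFactorizationMonoid.factors_unique (hirr s) (hirr s') hass
  rw [Multiset.map_map, Multiset.map_map, Multiset.rel_map] at hrel
  rw [← Multiset.rel_eq]
  exact hrel.mono fun a _ b _ hab => Subtype.ext (SpecEffAux.eq_of_associated hab)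

/-- a product of linear forms is a Chow form. -/
theorem isChowForm_prod {S : Set (ℙ ℂ (Fin (N + 1) → ℂ))} {w : ℕ} (q : Fin w → S)
    (v : Fin w → Fin (N + 1) → ℂ) (hv : ∀ i, ∃ r : ℂ, r ≠ 0 ∧ v i = r • (q i).1.rep) (c : ℂ)
    (hc : c ≠ 0) : IsChowForm S (C c * ∏ i, linF (v i)) (Multiset.map q Finset.univ.val) := by
  choose r hr hvr using hv
  refine ⟨c * ∏ i, r i, mul_ne_zero hc (Finset.prod_ne_zero_iff.2 fun i _ => hr i), ?_⟩
  have h1 : Chow0.chowForm ((Multiset.map q Finset.univ.val).map Subtype.val) =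
      ∏ i, Chow0.linForm (q i).1.rep := by
    simp only [Chow0.chowForm, Multiset.map_map]
    rfl
  rw [h1, C_mul, mul_assoc, map_prod, ← Finset.prod_mul_distrib]
  congr 1
  refine Finset.prod_congr rfl fun i _ => ?_
  rw [hvr i]
  exact SpecEffAux.linForm_smul (r i) _

variable {K : Type} [Field K] [IsAlgClosed K] [Algebra ℂ K]

namespace SpecEffAux

lemma aeval_smul_hom {L : Type} [Field L] [Algebra ℂ L] {d : ℕ}
    {F : MvPolynomial (Fin (N + 1)) ℂ}
    (hF : F.IsHomogeneous d) (a : L) (v : Fin (N + 1) → L) :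
    aeval (a • v) F = a ^ d * aeval v F := by
  rw [aeval_def, aeval_def, eval₂_eq', eval₂_eq', Finset.mul_sum]
  refine Finset.sum_congr rfl fun m hm => ?_
  have h1 : m.degree = d := by
    by_contra hc
    exact (mem_support_iff.1 hm) (hF.coeff_eq_zero hc)
  have h2 : ∏ i : Fin (N + 1), (a • v) i ^ m i = a ^ d * ∏ i : Fin (N + 1), v i ^ m i := by
    rw [← h1, Finsupp.degree_eq_sum, ← Finset.prod_pow_eq_pow_sum, ← Finset.prod_mul_distrib]
    exact Finset.prod_congr rfl fun i _ => by rw [Pi.smul_apply, smul_eq_mul, mul_pow]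
  rw [h2]; ring

lemma pp_rep {v : Fin (N + 1) → ℂ} (hv : v ≠ 0) : ∃ r : ℂ, r ≠ 0 ∧ (pp v).rep = r • v := by
  have h1 : pp v = Projectivization.mk ℂ v hv := dif_pos hv
  obtain ⟨a, ha⟩ := Projectivization.exists_smul_eq_mk_rep ℂ v hv
  exact ⟨a, a.ne_zero, by rw [h1, ← ha]; rfl⟩

omit [IsAlgClosed K] [Algebra ℂ K] in
lemma piv_ne {z : Fin (N + 1) → K} (hz : z ≠ 0) : z (piv z) ≠ 0 := by
  classical
  have h : (Finset.univ.filter fun i => z i ≠ 0).Nonempty := by
    by_contra hc
    rw [Finset.not_nonempty_iff_eq_empty, Finset.filter_eq_empty_iff] at hc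
    apply hz
    funext i
    have := hc (Finset.mem_univ i)
    push Not at this
    exact this
  unfold piv
  rw [dif_pos h]
  exact (Finset.mem_filter.1 (Finset.min'_mem _ h)).2

omit [IsAlgClosed K] [Algebra ℂ K] in
lemma eq_smul_nrm {z : Fin (N + 1) → K} (hz : z ≠ 0) : z = z (piv z) • nrm z := by
  have hp := piv_ne hz
  funext i
  rw [Pi.smul_apply, smul_eq_mul, nrm, mul_div_cancel₀ _ hp]

omit [IsAlgClosed K] in
lemma spv_eq {ξ : Fin (N + 1) → K} {R : Subalgebra ℂ K} {p : surf ξ} (s : SpecAt ξ R p)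
    (z : Fin (N + 1) → K) (h : ∀ i, nrm z i ∈ R) :
    spv s z = pp fun i => s.φ ⟨nrm z i, h i⟩ := by
  unfold spv
  congr 1
  funext i
  rw [dif_pos (h i)]

end SpecEffAux

open SpecEffAux in
/-- specialisation of an effective correspondence: for `R` large enough the Chow form at a
point `p` is the Chow form of the specialised points, which lie on the forms vanishing at the points
over `K`. -/
theorem eff_spec {ξ : Fin (N + 1) → K} {w : ℕ} (h1 : ξ 0 = 1) (Γ : EffCorr ξ w) :
    ∃ A : Finset K, ∀ R : Subalgebra ℂ K, (∀ i, ξ i ∈ R) → (A : Set K) ⊆ R →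
      ∀ (p : surf ξ) (s : SpecAt ξ R p) (S : Set (ℙ ℂ (Fin (N + 1) → ℂ)))
        (G : MvPolynomial (Fin (N + 1)) ℂ) (e : ℕ), G.IsHomogeneous e →
        (∀ i, aeval (Γ.pts i) G = 0) → S = surf ξ ∩ zer G →
        ∃ t : Multiset S, IsChowForm S (Γ.at p.1.rep) t ∧
          t.map Subtype.val = Multiset.map (fun i => spv s (Γ.pts i)) Finset.univ.val := by
  classical
  have _h1 := h1
  set a : Fin w → K := fun i => Γ.pts i (piv (Γ.pts i)) with haDef
  have ha : ∀ i, a i ≠ 0 := fun i => piv_ne (Γ.pts_ne i)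
  have hpa : ∀ i, Γ.pts i = a i • nrm (Γ.pts i) := fun i => eq_smul_nrm (Γ.pts_ne i)
  set c' : K := Γ.c * ∏ i, a i with hc'
  have hc'0 : c' ≠ 0 := mul_ne_zero Γ.c_ne (Finset.prod_ne_zero_iff.2 fun i _ => ha i)
  let A : Finset K := {c', c'⁻¹} ∪ Finset.univ.image fun e : Fin w × Fin (N + 1) =>
    nrm (Γ.pts e.1) e.2
  refine ⟨A, fun R hξR hAR => ?_⟩
  have hc'R : c' ∈ R := hAR (by simp [A])
  have hc'R' : c'⁻¹ ∈ R := hAR (by simp [A])
  have hnR : ∀ i j, nrm (Γ.pts i) j ∈ R := fun i j => hAR (by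
    simp only [A, Finset.coe_union, Set.mem_union, Finset.coe_image, Set.mem_image]
    exact Or.inr ⟨(i, j), by simp, rfl⟩)
  intro p s S G e hG hGz hS
  subst hS
  let nR : Fin w → Fin (N + 1) → R := fun i j => ⟨nrm (Γ.pts i) j, hnR i j⟩
  let cR : R := ⟨c', hc'R⟩
  let ξR : Fin (N + 1) → R := fun i => ⟨ξ i, hξR i⟩
  have hval : ∀ (H : MvPolynomial (Fin (N + 1)) ℂ) (v : Fin (N + 1) → R),
      ((aeval v H : R) : K) = aeval (fun i => (v i : K)) H := by
    intro H v
    exact MvPolynomial.comp_aeval_apply R.val H (f := v)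
  have hmap : map (aeval ξR : MvPolynomial (Fin (N + 1)) ℂ →ₐ[ℂ] R).toRingHom Γ.Φ =
      C cR * ∏ i, linF (nR i) := by
    apply map_injective R.val.toRingHom Subtype.val_injective
    rw [map_map]
    have e1 : (R.val.toRingHom.comp
        (aeval ξR : MvPolynomial (Fin (N + 1)) ℂ →ₐ[ℂ] R).toRingHom) =
        (aeval ξ : MvPolynomial (Fin (N + 1)) ℂ →ₐ[ℂ] K).toRingHom := by
      exact RingHom.ext fun H => hval H ξR
    rw [e1, Γ.fac, map_mul, map_C, map_prod]
    have e2 : ∀ i, map R.val.toRingHom (linF (nR i)) = linF (nrm (Γ.pts i)) := by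
      intro i
      simp only [linF, map_sum, map_mul, map_C, map_X]
      rfl
    have e3 : ∀ i, linF (Γ.pts i) = C (a i) * linF (nrm (Γ.pts i)) := by
      intro i
      conv_lhs => rw [hpa i]
      simp only [linF, Finset.mul_sum, Pi.smul_apply, smul_eq_mul, C_mul, mul_assoc]
    rw [Finset.prod_congr rfl fun i _ => e2 i, Finset.prod_congr rfl fun i _ => e3 i,
      Finset.prod_mul_distrib, ← map_prod, ← mul_assoc, ← C_mul]
    rfl
  let v : Fin w → Fin (N + 1) → ℂ := fun i j => s.φ (nR i j)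
  have hmapφ : map (eval fun i => p.1.rep i / p.1.rep 0) Γ.Φ =
      C (s.φ cR) * ∏ i, linF (v i) := by
    have h1 := congrArg (map s.φ.toRingHom) hmap
    rw [map_map] at h1
    have e1 : (s.φ.toRingHom.comp
        (aeval ξR : MvPolynomial (Fin (N + 1)) ℂ →ₐ[ℂ] R).toRingHom) =
        (eval fun i => p.1.rep i / p.1.rep 0) := by
      refine ringHom_ext (fun r => ?_) fun i => ?_
      · simp only [AlgHom.toRingHom_eq_coe, RingHom.coe_comp, RingHom.coe_coe,
          Function.comp_apply, eval_C]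
        rw [← algebraMap_eq, AlgHom.commutes, AlgHom.commutes]
        rfl
      · simp only [AlgHom.toRingHom_eq_coe, RingHom.coe_comp, RingHom.coe_coe,
          Function.comp_apply, eval_X, aeval_X]
        obtain ⟨h, hh⟩ := s.hξ i
        exact hh
    rw [e1] at h1
    rw [h1, map_mul, map_C, map_prod]
    congr 1
    refine Finset.prod_congr rfl fun i _ => ?_
    simp only [linF, map_sum, map_mul, map_C, map_X]
    rfl
  have hat : Γ.at p.1.rep = C ((p.1.rep 0) ^ Γ.e * s.φ cR) * ∏ i, linF (v i) := by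
    rw [C_mul, mul_assoc, ← hmapφ]
    apply MvPolynomial.ext
    intro m
    rw [EffCorr.at, coeff_map, coeff_C_mul, coeff_map]
    have h1 := aeval_smul_hom (Γ.hom m) (p.1.rep 0) (fun i => p.1.rep i / p.1.rep 0)
    have h2 : (p.1.rep 0 • fun i => p.1.rep i / p.1.rep 0) = p.1.rep := by
      funext i
      rw [Pi.smul_apply, smul_eq_mul, mul_div_cancel₀ _ s.rep0]
    rw [h2] at h1
    exact h1
  have hv0 : ∀ i, v i ≠ 0 := by
    intro i h
    have h1 : nR i (piv (Γ.pts i)) = 1 := by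
      apply Subtype.ext
      exact div_self (piv_ne (Γ.pts_ne i))
    have h2 := congrFun h (piv (Γ.pts i))
    change s.φ (nR i (piv (Γ.pts i))) = 0 at h2
    rw [h1, map_one] at h2
    exact one_ne_zero h2
  have hvan : ∀ (H : MvPolynomial (Fin (N + 1)) ℂ) (k : ℕ), H.IsHomogeneous k → ∀ i,
      aeval (Γ.pts i) H = 0 → aeval (pp (v i)).rep H = 0 := by
    intro H k hH i h0
    obtain ⟨r, hr, hrv⟩ := pp_rep (hv0 i)
    rw [hrv, aeval_smul_hom hH]
    have h1 : aeval (v i) H = s.φ (aeval (nR i) H) := by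
      rw [← MvPolynomial.comp_aeval_apply]
    have h2 : aeval (nR i) H = 0 := by
      apply Subtype.ext
      rw [hval]
      rw [hpa i, aeval_smul_hom hH] at h0
      exact (mul_eq_zero.1 h0).resolve_left (pow_ne_zero _ (ha i))
    rw [h1, h2, map_zero, mul_zero]
  let q : Fin w → (surf ξ ∩ zer G : Set (ℙ ℂ (Fin (N + 1) → ℂ))) := fun i =>
    ⟨pp (v i), fun k H hH hHξ => hvan H k hH i (Γ.pts_on i k H hH hHξ), hvan G e hG i (hGz i)⟩
  refine ⟨Multiset.map q Finset.univ.val, ?_, ?_⟩
  · rw [hat]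
    refine isChowForm_prod q v (fun i => ?_) _ ?_
    · obtain ⟨r, hr, hrv⟩ := pp_rep (hv0 i)
      refine ⟨r⁻¹, inv_ne_zero hr, ?_⟩
      change v i = r⁻¹ • (pp (v i)).rep
      rw [hrv, inv_smul_smul₀ hr]
    · refine mul_ne_zero (pow_ne_zero _ s.rep0) ?_
      intro h0
      have h1 : cR * ⟨c'⁻¹, hc'R'⟩ = 1 := by
        apply Subtype.ext
        exact mul_inv_cancel₀ hc'0
      have h2 := congrArg s.φ h1
      rw [map_mul, h0, zero_mul, map_one] at h2
      exact zero_ne_one h2
  · rw [Multiset.map_map]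
    refine Multiset.map_congr rfl fun i _ => ?_
    exact (spv_eq s (Γ.pts i) (hnR i)).symm

end Pool.Agent.FibC
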