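import Pool.Agent.FibC.SpecEff
import Pool.Agent.LowDeg.Spec

/-! Module F4: specialisation of rational equivalences. -/

set_option autoImplicit false

open MvPolynomial
open scoped LinearAlgebra.Projectivization

namespace Pool.Agent.FibC

open Pool.Agent.Chow0 (IsChowForm cyc CH0 Z0 ratTriv IsLink)

namespace SpecLinkAux

variable {N : ℕ} {K : Type} [Field K] [Algebra ℂ K]

theorem aeval_scale {B : Type*} [CommRing B] [Algebra ℂ B] {m : ℕ}
    {p : MvPolynomial (Fin (N + 1)) ℂ}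
    (hp : p.IsHomogeneous m) (a : B) (u : Fin (N + 1) → B) :
    aeval (fun i => a * u i) p = a ^ m * aeval u p := by
  rw [aeval_def, aeval_def, eval₂_eq', eval₂_eq', Finset.mul_sum]
  refine Finset.sum_congr rfl fun d hd => ?_
  have h1 : d.degree = m := by
    by_contra hc
    exact (mem_support_iff.1 hd) (IsHomogeneous.coeff_eq_zero hp hc)
  have h2 : ∏ i : Fin (N + 1), (a * u i) ^ d i = a ^ m * ∏ i : Fin (N + 1), u i ^ d i := by
    simp only [mul_pow]
    rw [Finset.prod_mul_distrib, Finset.prod_pow_eq_pow_sum, ← h1, Finsupp.degree_eq_sum]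
  rw [h2]
  ring

theorem on_scale {F F' : Type*} [CommRing F] [Algebra ℂ F] [CommRing F'] [Algebra ℂ F']
    {ξ : Fin (N + 1) → F} {z : Fin (N + 1) → F'} (h : On ξ z) (a : F') :
    On ξ (fun i => a * z i) := by
  intro e G hG hξ
  rw [aeval_scale hG, h e G hG hξ, mul_zero]

theorem map_linF {B B' : Type*} [CommRing B] [CommRing B'] (f : B →+* B')
    (z : Fin (N + 1) → B) :
    map f (linF z) = linF (fun i => f (z i)) := by
  simp [linF]

theorem map_prod_linF {B B' : Type*} [CommRing B] [CommRing B'] (f : B →+* B')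
    (T : Multiset (Fin (N + 1) → B)) :
    map f (T.map linF).prod = ((T.map fun z i => f (z i)).map linF).prod := by
  rw [map_multiset_prod, Multiset.map_map, Multiset.map_map]
  congr 1
  refine Multiset.map_congr rfl fun z _ => ?_
  exact map_linF f z

theorem linF_scale {B : Type*} [CommRing B] (a : B) (z : Fin (N + 1) → B) :
    linF (fun i => a * z i) = C a * linF z := by
  rw [linF, linF, Finset.mul_sum]
  refine Finset.sum_congr rfl fun i _ => ?_
  rw [C_mul, mul_assoc]

/-- the polynomial in `t` -/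
noncomputable def specPoly {R : Subalgebra ℂ K} (φ : R →ₐ[ℂ] ℂ)
    (FF : MvPolynomial (Fin (N + 1)) (Polynomial R)) :
    Polynomial (MvPolynomial (Fin (N + 1)) ℂ) :=
  MvPolynomial.eval₂Hom
    (Polynomial.mapRingHom ((C : ℂ →+* MvPolynomial (Fin (N + 1)) ℂ).comp φ.toRingHom))
    (fun j => Polynomial.C (X j)) FF

theorem eval_specPoly {R : Subalgebra ℂ K} (φ : R →ₐ[ℂ] ℂ)
    (FF : MvPolynomial (Fin (N + 1)) (Polynomial R)) (t : ℂ) :
    (specPoly φ FF).eval (C t) =
      map (φ.toRingHom.comp (Polynomial.evalRingHom (algebraMap ℂ R t))) FF := by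
  have h : (Polynomial.evalRingHom (C t : MvPolynomial (Fin (N + 1)) ℂ)).comp
      (MvPolynomial.eval₂Hom
        (Polynomial.mapRingHom ((C : ℂ →+* MvPolynomial (Fin (N + 1)) ℂ).comp φ.toRingHom))
        (fun j : Fin (N + 1) => Polynomial.C (X j))) =
      MvPolynomial.map (φ.toRingHom.comp (Polynomial.evalRingHom (algebraMap ℂ R t))) := by
    refine MvPolynomial.ringHom_ext (fun p => ?_) (fun j => ?_)
    · have h2 : ((Polynomial.evalRingHom (C t : MvPolynomial (Fin (N + 1)) ℂ)).comp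
          (Polynomial.mapRingHom
            ((C : ℂ →+* MvPolynomial (Fin (N + 1)) ℂ).comp φ.toRingHom))) =
          (C : ℂ →+* MvPolynomial (Fin (N + 1)) ℂ).comp
            (φ.toRingHom.comp (Polynomial.evalRingHom (algebraMap ℂ R t))) := by
        refine Polynomial.ringHom_ext (fun a => ?_) ?_
        · simp
        · simp
      have h3 := RingHom.congr_fun h2 p
      simpa using h3
    · simp
  exact RingHom.congr_fun h FF

theorem mk_mem_surf {ξ : Fin (N + 1) → K} {v : Fin (N + 1) → ℂ} (hv : v ≠ 0) (h : On ξ v) :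
    Projectivization.mk ℂ v hv ∈ surf ξ := by
  obtain ⟨b, hb⟩ := Projectivization.exists_smul_eq_mk_rep ℂ v hv
  change On ξ (Projectivization.mk ℂ v hv).rep
  rw [← hb]
  exact on_scale h (b : ℂ)

theorem linForm_mk {v : Fin (N + 1) → ℂ} (hv : v ≠ 0) :
    ∃ b : ℂ, b ≠ 0 ∧ Chow0.linForm (Projectivization.mk ℂ v hv).rep = C b * linF v := by
  obtain ⟨b, hb⟩ := Projectivization.exists_smul_eq_mk_rep ℂ v hv
  refine ⟨b, b.ne_zero, ?_⟩
  rw [← hb, Chow0.linForm, linF, Finset.mul_sum]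
  refine Finset.sum_congr rfl fun i _ => ?_
  rw [← mul_assoc, ← C_mul]
  rfl

/-- a product of linear forms is a Chow form -/
theorem exists_chow {ξ : Fin (N + 1) → K}
    (T : Multiset (Fin (N + 1) → ℂ)) (hT : ∀ z ∈ T, On ξ z ∧ z ≠ 0) :
    ∃ (s : Multiset (surf ξ)) (a : ℂ), a ≠ 0 ∧
      (T.map linF).prod = C a * Chow0.chowForm (s.map Subtype.val) := by
  induction T using Multiset.induction_on with
  | empty => exact ⟨0, 1, one_ne_zero, by simp [Chow0.chowForm]⟩
  | cons z T ih =>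
    obtain ⟨s, a, ha, hs⟩ := ih fun w hw => hT w (Multiset.mem_cons_of_mem hw)
    obtain ⟨hz, hz0⟩ := hT z (Multiset.mem_cons_self z T)
    obtain ⟨b, hb0, h1⟩ := linForm_mk hz0
    refine ⟨⟨Projectivization.mk ℂ z hz0, mk_mem_surf hz0 hz⟩ ::ₘ s, a * b⁻¹,
      mul_ne_zero ha (inv_ne_zero hb0), ?_⟩
    have h2 : (C b⁻¹ * C b : MvPolynomial (Fin (N + 1)) ℂ) = 1 := by
      rw [← C_mul, inv_mul_cancel₀ hb0, C_1]
    rw [Multiset.map_cons, Multiset.prod_cons, hs]
    unfold Chow0.chowForm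
    rw [Multiset.map_cons, Multiset.map_cons, Multiset.prod_cons, h1, C_mul]
    linear_combination (-(linF z * C a * (Multiset.map (fun p => Chow0.linForm p.rep)
      (Multiset.map Subtype.val s)).prod)) * h2

theorem exists_lift_mset {R' : Subalgebra ℂ K} (T : Multiset (Fin (N + 1) → K))
    (h : ∀ z ∈ T, ∀ i, z i ∈ R') :
    ∃ T' : Multiset (Fin (N + 1) → R'), T'.map (fun z i => ((z i : R') : K)) = T := by
  induction T using Multiset.induction_on with
  | empty => exact ⟨0, rfl⟩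
  | cons z T ih =>
    obtain ⟨T', hT'⟩ := ih fun w hw => h w (Multiset.mem_cons_of_mem hw)
    refine ⟨(fun i => ⟨z i, h z (Multiset.mem_cons_self z T) i⟩) ::ₘ T', ?_⟩
    rw [Multiset.map_cons, hT']

/-- a point over a subalgebra specialises -/
theorem on_hom {ξ : Fin (N + 1) → K} {R' : Subalgebra ℂ K} (φ' : R' →ₐ[ℂ] ℂ)
    (w : Fin (N + 1) → R') (h : On ξ (fun i => ((w i : R') : K))) :
    On ξ (fun i => φ' (w i)) := by
  intro e G hG hξ
  have h1 := h e G hG hξ
  have h3 : aeval w G = 0 := by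
    have h4 : R'.val (aeval w G) = 0 := by
      rw [← h1, comp_aeval_apply]
      rfl
    exact Subtype.ext h4
  have h4 := congrArg φ' h3
  rw [map_zero, comp_aeval_apply] at h4
  exact h4

/-- the specialisation of a product of linear forms -/
theorem spec_eval [IsAlgClosed K] {ξ : Fin (N + 1) → K}
    (R : Subalgebra ℂ K) (φ : R →ₐ[ℂ] ℂ) (ℓ : Fin (N + 1) → ℂ) (r : R) (hr : φ r ≠ 0) (n : ℕ)
    (G : MvPolynomial (Fin (N + 1)) R) (T : Multiset (Fin (N + 1) → K))
    (hT : ∀ z ∈ T, On ξ z ∧ ∑ i, algebraMap ℂ K (ℓ i) * z i = 1)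
    (hG : map R.val.toRingHom G = C (r : K) ^ n * (T.map linF).prod) :
    ∃ (s : Multiset (surf ξ)) (a : ℂ), a ≠ 0 ∧
      map φ.toRingHom G = C a * Chow0.chowForm (s.map Subtype.val) := by
  classical
  -- integrality of the coordinates
  set S : Finset K := T.toFinset.biUnion fun z => Finset.univ.image z with hS
  have hSint : ∀ y ∈ S, ∃ p : Polynomial R, ∃ N : ℕ, p.leadingCoeff = r ^ N ∧
      Polynomial.aeval y p = 0 := by
    intro y hy
    rw [hS, Finset.mem_biUnion] at hy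
    obtain ⟨z, hz, hzy⟩ := hy
    obtain ⟨i, -, rfl⟩ := Finset.mem_image.1 hzy
    rw [Multiset.mem_toFinset] at hz
    -- substitute `λ_j = T ℓ_j - δ_ij`
    set sub : MvPolynomial (Fin (N + 1)) R →+* Polynomial R :=
      eval₂Hom Polynomial.C (fun j => Polynomial.C (algebraMap ℂ R (ℓ j)) * Polynomial.X -
        Polynomial.C (if j = i then 1 else 0)) with hsub
    set sub' : MvPolynomial (Fin (N + 1)) K →+* Polynomial K :=
      eval₂Hom Polynomial.C (fun j => Polynomial.C (algebraMap ℂ K (ℓ j)) * Polynomial.X -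
        Polynomial.C (if j = i then 1 else 0)) with hsub'
    have hcomm : (Polynomial.mapRingHom R.val.toRingHom).comp sub =
        sub'.comp (map R.val.toRingHom) := by
      refine MvPolynomial.ringHom_ext (fun c => ?_) (fun j => ?_)
      · simp [hsub, hsub']
      · simp only [hsub, hsub', RingHom.coe_comp, Function.comp_apply, coe_eval₂Hom, eval₂_X,
          map_X, map_sub, map_mul, Polynomial.coe_mapRingHom, Polynomial.map_C, Polynomial.map_X]
        congr 2
        split_ifs <;> simp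
    have hlin : ∀ w ∈ T, sub' (linF w) = Polynomial.X - Polynomial.C (w i) := by
      intro w hw
      have h1 := (hT w hw).2
      rw [linF, map_sum]
      simp only [hsub', map_mul, coe_eval₂Hom, eval₂_C, eval₂_X, mul_sub]
      rw [Finset.sum_sub_distrib]
      congr 1
      · calc ∑ j, Polynomial.C (w j) * (Polynomial.C (algebraMap ℂ K (ℓ j)) * Polynomial.X)
            = Polynomial.C (∑ j, algebraMap ℂ K (ℓ j) * w j) * Polynomial.X := by
              rw [map_sum, Finset.sum_mul]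
              refine Finset.sum_congr rfl fun j _ => ?_
              rw [Polynomial.C_mul]
              ring
          _ = Polynomial.X := by rw [h1, Polynomial.C_1, one_mul]
      · simp [← Polynomial.C_mul]
    have hmap : (sub G).map R.val.toRingHom = Polynomial.C (r : K) ^ n *
        (T.map fun w => (Polynomial.X - Polynomial.C (w i) : Polynomial K)).prod := by
      have h1 := RingHom.congr_fun hcomm G
      simp only [RingHom.coe_comp, Function.comp_apply, Polynomial.coe_mapRingHom] at h1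
      rw [h1, hG, map_mul, map_pow, map_multiset_prod, Multiset.map_map]
      congr 1
      · simp [hsub']
      · congr 1
        exact Multiset.map_congr rfl fun w hw => hlin w hw
    refine ⟨sub G, n, ?_, ?_⟩
    · have hinj : Function.Injective R.val.toRingHom := Subtype.val_injective
      apply hinj
      have h2 := Polynomial.leadingCoeff_map_of_injective hinj (sub G)
      rw [← h2, hmap, Polynomial.leadingCoeff_mul, Polynomial.leadingCoeff_pow,
        Polynomial.leadingCoeff_C, Polynomial.leadingCoeff_multiset_prod, Multiset.map_map]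
      have h3 : (T.map (Polynomial.leadingCoeff ∘
          fun w => (Polynomial.X - Polynomial.C (w i) : Polynomial K))).prod = 1 := by
        rw [Multiset.map_congr rfl (g := fun _ => (1 : K)) fun w _ => by simp]
        simp
      rw [h3, mul_one, map_pow]
      rfl
    · have h2 : Polynomial.aeval (z i) (sub G) =
          ((sub G).map R.val.toRingHom).eval (z i) := by
        rw [Polynomial.eval_map]
        rfl
      rw [h2, hmap, Polynomial.eval_mul, Polynomial.eval_multiset_prod, Multiset.map_map]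
      have h3 : (T.map ((Polynomial.eval (z i)) ∘
          fun w => (Polynomial.X - Polynomial.C (w i) : Polynomial K))).prod = 0 := by
        apply Multiset.prod_eq_zero
        rw [Multiset.mem_map]
        exact ⟨z, hz, by simp⟩
      rw [h3, mul_zero]
  obtain ⟨R', hR', φ', hSR', hφ'⟩ := LowDeg.exists_ext R φ S r hr hSint
  have hcoord : ∀ z ∈ T, ∀ i, z i ∈ R' := by
    intro z hz i
    apply hSR'
    rw [hS, Finset.mem_biUnion]
    exact ⟨z, Multiset.mem_toFinset.2 hz, Finset.mem_image_of_mem _ (Finset.mem_univ i)⟩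
  obtain ⟨T', hT'⟩ := exists_lift_mset T hcoord
  -- the equation over `R'`
  have heq : map (Subalgebra.inclusion hR').toRingHom G =
      C (Subalgebra.inclusion hR' r) ^ n * (T'.map linF).prod := by
    apply map_injective R'.val.toRingHom Subtype.val_injective
    rw [map_map, map_mul, map_pow, map_C, map_prod_linF]
    have e1 : R'.val.toRingHom.comp (Subalgebra.inclusion hR').toRingHom = R.val.toRingHom := rfl
    have e2 : (T'.map fun z i => R'.val.toRingHom (z i)) = T := hT'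
    rw [e1, e2, hG]
    rfl
  have heq2 : map φ.toRingHom G = C (φ r) ^ n *
      ((T'.map fun z i => φ' (z i)).map linF).prod := by
    have e1 : φ'.toRingHom.comp (Subalgebra.inclusion hR').toRingHom = φ.toRingHom := by
      refine RingHom.ext fun y => ?_
      exact hφ' y
    have h1 := congrArg (map φ'.toRingHom) heq
    rw [map_map, e1, map_mul, map_pow, map_C, map_prod_linF] at h1
    rw [h1]
    have e2 : φ'.toRingHom (Subalgebra.inclusion hR' r) = φ r := hφ' r
    rw [e2]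
    rfl
  have hpts : ∀ z ∈ (T'.map fun z i => φ' (z i)), On ξ z ∧ z ≠ 0 := by
    intro z hz
    obtain ⟨w, hw, rfl⟩ := Multiset.mem_map.1 hz
    have hwT : (fun i => ((w i : R') : K)) ∈ T := by
      rw [← hT']
      exact Multiset.mem_map_of_mem _ hw
    obtain ⟨h1, h2⟩ := hT _ hwT
    refine ⟨on_hom φ' w h1, ?_⟩
    intro h0
    have h4 : ∑ i, algebraMap ℂ R' (ℓ i) * w i = 1 := by
      have h4 : R'.val (∑ i, algebraMap ℂ R' (ℓ i) * w i) = R'.val 1 := by
        rw [map_sum, map_one, ← h2]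
        rfl
      exact Subtype.ext h4
    have h5 := congrArg φ' h4
    rw [map_sum, map_one] at h5
    have h6 : ∀ i, φ' (w i) = 0 := fun i => congrFun h0 i
    simp [h6] at h5
  obtain ⟨s, a, ha, hs⟩ := exists_chow _ hpts
  refine ⟨s, φ r ^ n * a, mul_ne_zero (pow_ne_zero _ hr) ha, ?_⟩
  rw [heq2, hs, C_mul, C_pow]
  ring

open Polynomial in
theorem lift_poly (R : Subalgebra ℂ K) (p : K[X]) (hp : ∀ x ∈ p.coeffs, x ∈ R) :
    ∃ p' : Polynomial R, p'.map R.val.toRingHom = p := by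
  have h : p ∈ (mapRingHom R.val.toRingHom).range := by
    rw [Polynomial.mem_map_range]
    intro n
    by_cases hn : p.coeff n = 0
    · rw [hn]; exact zero_mem _
    · exact ⟨⟨p.coeff n,
        hp _ (Polynomial.mem_coeffs_iff.2 ⟨n, Polynomial.mem_support_iff.2 hn, rfl⟩)⟩, rfl⟩
  obtain ⟨p', hp'⟩ := h
  exact ⟨p', hp'⟩

open Polynomial in
theorem lift_mv (R : Subalgebra ℂ K) (P : MvPolynomial (Fin (N + 1)) K[X])
    (hP : ∀ p ∈ P.coeffs, ∀ x ∈ p.coeffs, x ∈ R) :
    ∃ P' : MvPolynomial (Fin (N + 1)) (Polynomial R),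
      map (mapRingHom R.val.toRingHom) P' = P := by
  have h : P ∈ Set.range (MvPolynomial.map (σ := Fin (N + 1)) (mapRingHom R.val.toRingHom)) := by
    rw [mem_range_map_iff_coeffs_subset]
    intro p hp
    obtain ⟨p', hp'⟩ := lift_poly R p (hP p hp)
    exact ⟨p', hp'⟩
  obtain ⟨P', hP'⟩ := h
  exact ⟨P', hP'⟩

open Polynomial in
theorem eval_lift (R : Subalgebra ℂ K) (s : R) (P : MvPolynomial (Fin (N + 1)) (Polynomial R)) :
    map R.val.toRingHom (map (evalRingHom s) P) =
      map (evalRingHom (s : K)) (map (mapRingHom R.val.toRingHom) P) := by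
  have h : R.val.toRingHom.comp (evalRingHom s) =
      (evalRingHom (s : K)).comp (mapRingHom R.val.toRingHom) := by
    apply RingHom.ext
    intro p
    change R.val.toRingHom (Polynomial.eval s p) =
      Polynomial.eval (s : K) (Polynomial.map R.val.toRingHom p)
    rw [Polynomial.eval_map]
    exact (Polynomial.eval₂_at_apply R.val.toRingHom s).symm
  rw [MvPolynomial.map_map, MvPolynomial.map_map, h]

omit [Algebra ℂ K] in
theorem piv_ne {z : Fin (N + 1) → K} (hz : z ≠ 0) : z (piv z) ≠ 0 := by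
  classical
  have h : (Finset.univ.filter fun i => z i ≠ 0).Nonempty := by
    obtain ⟨i, hi⟩ := Function.ne_iff.1 hz
    exact ⟨i, Finset.mem_filter.2 ⟨Finset.mem_univ _, hi⟩⟩
  have e : piv z = (Finset.univ.filter fun i => z i ≠ 0).min' h := by
    unfold piv
    rw [dif_pos]
  rw [e]
  exact (Finset.mem_filter.1 (Finset.min'_mem _ h)).2

omit [Algebra ℂ K] in
theorem nrm_mul {z : Fin (N + 1) → K} (hz : z ≠ 0) : (fun i => z (piv z) * nrm z i) = z := by
  funext i
  unfold nrm
  field_simp [piv_ne hz]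

open scoped Classical in
/-- the specialised vector -/
theorem spv_eq {ξ : Fin (N + 1) → K} {R : Subalgebra ℂ K} {p : surf ξ}
    (s : SpecAt ξ R p) {z : Fin (N + 1) → K} (hz : z ≠ 0) (hn : ∀ i, nrm z i ∈ R) :
    ∃ hv : (fun i => s.φ ⟨nrm z i, hn i⟩) ≠ 0,
      spv s z = Projectivization.mk ℂ (fun i => s.φ ⟨nrm z i, hn i⟩) hv := by
  have hv : (fun i => s.φ ⟨nrm z i, hn i⟩) ≠ 0 := by
    intro h0
    have h1 := congrFun h0 (piv z)
    have h2 : (⟨nrm z (piv z), hn (piv z)⟩ : R) = 1 := by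
      apply Subtype.ext
      change z (piv z) / z (piv z) = 1
      exact div_self (piv_ne hz)
    simp only [Pi.zero_apply] at h1
    rw [h2, map_one] at h1
    exact one_ne_zero h1
  refine ⟨hv, ?_⟩
  have e : (fun i => if h : nrm z i ∈ R then s.φ ⟨nrm z i, h⟩ else 0) =
      fun i => s.φ ⟨nrm z i, hn i⟩ := by
    funext i
    rw [dif_pos (hn i)]
  unfold spv
  rw [e]
  unfold pp
  rw [dif_pos hv]

/-- the specialised vector lies on the surface -/
theorem spv_mem {ξ : Fin (N + 1) → K} {R : Subalgebra ℂ K} {p : surf ξ}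
    (s : SpecAt ξ R p) {z : Fin (N + 1) → K} (hz : z ≠ 0) (hn : ∀ i, nrm z i ∈ R)
    (hon : On ξ z) : spv s z ∈ surf ξ := by
  obtain ⟨hv, he⟩ := spv_eq s hz hn
  rw [he]
  apply mk_mem_surf
  apply on_hom s.φ (fun i => ⟨nrm z i, hn i⟩)
  have h1 : (fun i => nrm z i) = fun i => (z (piv z))⁻¹ * z i := by
    funext i
    unfold nrm
    rw [div_eq_mul_inv, mul_comm]
  change On ξ (fun i => nrm z i)
  rw [h1]
  exact on_scale hon _

/-- specialisation of a product of linear forms with coordinates in `R` -/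
theorem prod_spec {ξ : Fin (N + 1) → K} {R : Subalgebra ℂ K} {p : surf ξ}
    (s : SpecAt ξ R p) (T : Multiset (Fin (N + 1) → K))
    (hT : ∀ z ∈ T, z ≠ 0 ∧ (∀ i, nrm z i ∈ R) ∧ z (piv z) ∈ R ∧ (z (piv z))⁻¹ ∈ R) :
    ∃ (G : MvPolynomial (Fin (N + 1)) R) (a : ℂ), a ≠ 0 ∧
      map R.val.toRingHom G = (T.map linF).prod ∧
      map s.φ.toRingHom G = C a * Chow0.chowForm (T.map (spv s)) := by
  induction T using Multiset.induction_on with
  | empty => exact ⟨1, 1, one_ne_zero, by simp, by simp [Chow0.chowForm]⟩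
  | cons z T ih =>
    obtain ⟨G, a, ha, hG, hs⟩ := ih fun w hw => hT w (Multiset.mem_cons_of_mem hw)
    obtain ⟨hz0, hn, hp1, hp2⟩ := hT z (Multiset.mem_cons_self z T)
    obtain ⟨hv, he⟩ := spv_eq s hz0 hn
    obtain ⟨b, hb0, h1⟩ := linForm_mk hv
    have hu : s.φ ⟨z (piv z), hp1⟩ ≠ 0 := by
      intro h0
      have h2 : (⟨z (piv z), hp1⟩ : R) * ⟨(z (piv z))⁻¹, hp2⟩ = 1 := by
        apply Subtype.ext
        change z (piv z) * (z (piv z))⁻¹ = 1
        exact mul_inv_cancel₀ (piv_ne hz0)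
      have h3 := congrArg s.φ h2
      rw [map_mul, h0, zero_mul, map_one] at h3
      exact zero_ne_one h3
    refine ⟨C ⟨z (piv z), hp1⟩ * linF (fun i => ⟨nrm z i, hn i⟩) * G,
      s.φ ⟨z (piv z), hp1⟩ * b⁻¹ * a, mul_ne_zero (mul_ne_zero hu (inv_ne_zero hb0)) ha, ?_, ?_⟩
    · rw [map_mul, map_mul, hG, map_C, map_linF, Multiset.map_cons, Multiset.prod_cons]
      congr 1
      conv_rhs => rw [← nrm_mul hz0]
      rw [linF_scale]
      rfl
    · have h2 : (C b⁻¹ * C b : MvPolynomial (Fin (N + 1)) ℂ) = 1 := by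
        rw [← C_mul, inv_mul_cancel₀ hb0, C_1]
      rw [map_mul, map_mul, hs, map_C, map_linF]
      unfold Chow0.chowForm
      rw [Multiset.map_cons, Multiset.map_cons, Multiset.prod_cons, he, h1, C_mul, C_mul]
      change C (s.φ ⟨z (piv z), hp1⟩) * linF (fun i => s.φ ⟨nrm z i, hn i⟩) *
        (C a * (Multiset.map (fun p => Chow0.linForm p.rep) (Multiset.map (spv s) T)).prod) = _
      linear_combination (-(C (s.φ ⟨z (piv z), hp1⟩) * linF (fun i => s.φ ⟨nrm z i, hn i⟩) *
        C a * (Multiset.map (fun p => Chow0.linForm p.rep) (Multiset.map (spv s) T)).prod)) * h2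

theorem exists_lift_surf {ξ : Fin (N + 1) → K} {R : Subalgebra ℂ K} {p : surf ξ}
    (s : SpecAt ξ R p) (T : Multiset (Fin (N + 1) → K)) (h : ∀ z ∈ T, spv s z ∈ surf ξ) :
    ∃ S : Multiset (surf ξ), S.map Subtype.val = T.map (spv s) := by
  induction T using Multiset.induction_on with
  | empty => exact ⟨0, rfl⟩
  | cons z T ih =>
    obtain ⟨S, hS⟩ := ih fun w hw => h w (Multiset.mem_cons_of_mem hw)
    refine ⟨⟨spv s z, h z (Multiset.mem_cons_self z T)⟩ ::ₘ S, ?_⟩
    rw [Multiset.map_cons, Multiset.map_cons, hS]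

end SpecLinkAux

open SpecLinkAux

variable {N : ℕ} {K : Type} [Field K] [IsAlgClosed K] [Algebra ℂ K]

/-- specialisation of one link. -/
theorem spec_link {ξ : Fin (N + 1) → K} (T₀ T₁ : Multiset (Fin (N + 1) → K))
    (h : KLink ξ T₀ T₁) :
    ∃ A : Finset K, ∀ R : Subalgebra ℂ K, (∀ i, ξ i ∈ R) → (A : Set K) ⊆ R →
      ∀ (p : surf ξ) (s : SpecAt ξ R p), ∃ S₀ S₁ : Multiset (surf ξ),
        S₀.map Subtype.val = T₀.map (spv s) ∧ S₁.map Subtype.val = T₁.map (spv s) ∧
        IsLink (surf ξ) S₀ S₁ := by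
  classical
  obtain ⟨hT₀, hT₁, ℓ, c, n, FF, c₀, c₁, hc, hc₀, hc₁, hfam, h0, h1⟩ := h
  set A : Finset K := FF.coeffs.biUnion (fun q => q.coeffs) ∪ (c.coeffs ∪
    (({c.leadingCoeff⁻¹, c₀, c₀⁻¹, c₁, c₁⁻¹} : Finset K) ∪
    ((T₀ + T₁).toFinset.biUnion (fun z => Finset.univ.image (nrm z)) ∪
      (T₀ + T₁).toFinset.biUnion (fun z => {z (piv z), (z (piv z))⁻¹})))) with hA
  refine ⟨A, fun R hξR hAR p s => ?_⟩
  have hA1 : ∀ q ∈ FF.coeffs, ∀ x ∈ q.coeffs, x ∈ R := by
    intro q hq x hx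
    apply hAR
    rw [hA, Finset.mem_coe, Finset.mem_union]
    left
    exact Finset.mem_biUnion.2 ⟨q, hq, hx⟩
  have hA2 : ∀ x ∈ c.coeffs, x ∈ R := by
    intro x hx
    apply hAR
    rw [hA, Finset.mem_coe, Finset.mem_union, Finset.mem_union]
    right; left
    exact hx
  have hA3 : ∀ x ∈ ({c.leadingCoeff⁻¹, c₀, c₀⁻¹, c₁, c₁⁻¹} : Finset K), x ∈ R := by
    intro x hx
    apply hAR
    rw [hA, Finset.mem_coe, Finset.mem_union, Finset.mem_union, Finset.mem_union]
    right; right; left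
    exact hx
  have hA4 : ∀ z ∈ T₀ + T₁, ∀ i, nrm z i ∈ R := by
    intro z hz i
    apply hAR
    rw [hA, Finset.mem_coe, Finset.mem_union, Finset.mem_union, Finset.mem_union,
      Finset.mem_union]
    right; right; right; left
    exact Finset.mem_biUnion.2 ⟨z, Multiset.mem_toFinset.2 hz,
      Finset.mem_image.2 ⟨i, Finset.mem_univ _, rfl⟩⟩
  have hA5 : ∀ z ∈ T₀ + T₁, ∀ x ∈ ({z (piv z), (z (piv z))⁻¹} : Finset K), x ∈ R := by
    intro z hz x hx
    apply hAR
    rw [hA, Finset.mem_coe, Finset.mem_union, Finset.mem_union, Finset.mem_union,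
      Finset.mem_union]
    right; right; right; right
    exact Finset.mem_biUnion.2 ⟨z, Multiset.mem_toFinset.2 hz, hx⟩
  have hc0R : c₀ ∈ R := hA3 _ (by simp)
  have hc0R' : c₀⁻¹ ∈ R := hA3 _ (by simp)
  have hc1R : c₁ ∈ R := hA3 _ (by simp)
  have hc1R' : c₁⁻¹ ∈ R := hA3 _ (by simp)
  have hclR : c.leadingCoeff⁻¹ ∈ R := hA3 _ (by simp)
  have hunit : ∀ x : R, (x : K) ≠ 0 → (x : K)⁻¹ ∈ R → s.φ x ≠ 0 := by
    intro x hx hxR h0
    have h2 : x * ⟨(x : K)⁻¹, hxR⟩ = 1 := by
      apply Subtype.ext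
      change (x : K) * (x : K)⁻¹ = 1
      exact mul_inv_cancel₀ hx
    have h3 := congrArg s.φ h2
    rw [map_mul, h0, zero_mul, map_one] at h3
    exact zero_ne_one h3
  obtain ⟨cR, hcR⟩ := lift_poly R c hA2
  obtain ⟨FFR, hFFR⟩ := lift_mv R FF hA1
  have hcev : ∀ x : R, ((cR.eval x : R) : K) = c.eval (x : K) := by
    intro x
    rw [← hcR, Polynomial.eval_map]
    exact (Polynomial.eval₂_at_apply R.val.toRingHom x).symm
  have hinjR : Function.Injective (map (σ := Fin (N + 1)) R.val.toRingHom) :=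
    MvPolynomial.map_injective _ Subtype.val_injective
  have hcase : ∀ z ∈ T₀ + T₁, (∀ i, nrm z i ∈ R) ∧ z (piv z) ∈ R ∧ (z (piv z))⁻¹ ∈ R :=
    fun z hz => ⟨hA4 z hz, hA5 z hz _ (by simp), hA5 z hz _ (by simp)⟩
  have hP₀ : ∀ z ∈ T₀, z ≠ 0 ∧ (∀ i, nrm z i ∈ R) ∧ z (piv z) ∈ R ∧ (z (piv z))⁻¹ ∈ R :=
    fun z hz => ⟨(hT₀ z hz).1, hcase z (Multiset.mem_add.2 (Or.inl hz))⟩
  have hP₁ : ∀ z ∈ T₁, z ≠ 0 ∧ (∀ i, nrm z i ∈ R) ∧ z (piv z) ∈ R ∧ (z (piv z))⁻¹ ∈ R :=
    fun z hz => ⟨(hT₁ z hz).1, hcase z (Multiset.mem_add.2 (Or.inr hz))⟩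
  obtain ⟨S₀, hS₀⟩ := exists_lift_surf s T₀ fun z hz =>
    spv_mem s (hP₀ z hz).1 (hP₀ z hz).2.1 (hT₀ z hz).2
  obtain ⟨S₁, hS₁⟩ := exists_lift_surf s T₁ fun z hz =>
    spv_mem s (hP₁ z hz).1 (hP₁ z hz).2.1 (hT₁ z hz).2
  refine ⟨S₀, S₁, hS₀, hS₁, specPoly s.φ FFR, ?_, ?_, ?_⟩
  · -- almost all `t`
    have hfin : {t : ℂ | s.φ (cR.eval (algebraMap ℂ R t)) = 0}.Finite := by
      have hne : cR.map s.φ.toRingHom ≠ 0 := by
        intro h
        have h2 : s.φ (cR.coeff c.natDegree) = 0 := by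
          have h3 := congrArg (fun q => Polynomial.coeff q c.natDegree) h
          simp only [Polynomial.coeff_map, Polynomial.coeff_zero] at h3
          exact h3
        have h4 : ((cR.coeff c.natDegree : R) : K) = c.leadingCoeff := by
          rw [Polynomial.leadingCoeff]
          conv_rhs => rw [← hcR, Polynomial.coeff_map]
          rw [hcR]
          rfl
        refine hunit _ ?_ ?_ h2
        · rw [h4]
          exact Polynomial.leadingCoeff_ne_zero.2 hc
        · rw [h4]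
          exact hclR
      refine (Polynomial.rootSet_finite (cR.map s.φ.toRingHom) ℂ).subset fun t ht => ?_
      rw [Polynomial.mem_rootSet]
      refine ⟨hne, ?_⟩
      have h3 := Polynomial.eval_map_apply s.φ.toRingHom (p := cR) (algebraMap ℂ R t)
      have h4 : s.φ.toRingHom (algebraMap ℂ R t) = t := s.φ.commutes t
      rw [h4] at h3
      rw [Polynomial.coe_aeval_eq_eval, h3]
      exact ht
    rw [Filter.eventually_cofinite]
    refine hfin.subset fun t ht => ?_
    by_contra hne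
    apply ht
    have h2 : (((algebraMap ℂ R t : R)) : K) = algebraMap ℂ K t := rfl
    have h3 : c.eval (algebraMap ℂ K t) ≠ 0 := by
      intro h4
      apply hne
      have h5 : cR.eval (algebraMap ℂ R t) = 0 := by
        apply Subtype.ext
        rw [hcev, h2, h4]
        rfl
      change s.φ (cR.eval (algebraMap ℂ R t)) = 0
      rw [h5, map_zero]
    obtain ⟨T, hT, hTe⟩ := hfam t h3
    obtain ⟨s', a, ha, hs⟩ := spec_eval R s.φ ℓ (cR.eval (algebraMap ℂ R t)) hne n
      (map (Polynomial.evalRingHom (algebraMap ℂ R t)) FFR) T hT (by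
        rw [eval_lift, hFFR, h2, hTe, hcev, h2, C_pow])
    refine ⟨s', a, ha, ?_⟩
    rw [eval_specPoly, ← map_map, hs]
  · obtain ⟨G, a, ha, hG, hs⟩ := prod_spec s T₀ hP₀
    have h2 : map (Polynomial.evalRingHom 0) FFR = C ⟨c₀, hc0R⟩ * G := by
      apply hinjR
      rw [eval_lift, hFFR, map_mul, map_C, hG]
      have h3 : ((0 : R) : K) = 0 := rfl
      rw [h3, h0]
      rfl
    refine ⟨s.φ ⟨c₀, hc0R⟩ * a, mul_ne_zero (hunit _ hc₀ hc0R') ha, ?_⟩
    rw [eval_specPoly, ← map_map, map_zero, h2, map_mul, hs, map_C, C_mul, hS₀, mul_assoc]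
    rfl
  · obtain ⟨G, a, ha, hG, hs⟩ := prod_spec s T₁ hP₁
    have h2 : map (Polynomial.evalRingHom 1) FFR = C ⟨c₁, hc1R⟩ * G := by
      apply hinjR
      rw [eval_lift, hFFR, map_mul, map_C, hG]
      have h3 : ((1 : R) : K) = 1 := rfl
      rw [h3, h1]
      rfl
    refine ⟨s.φ ⟨c₁, hc1R⟩ * a, mul_ne_zero (hunit _ hc₁ hc1R') ha, ?_⟩
    rw [eval_specPoly, ← map_map, map_one, h2, map_mul, hs, map_C, C_mul, hS₁, mul_assoc]
    rfl

/-- specialisation of rational equivalences. -/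
theorem spec_KRat {ξ : Fin (N + 1) → K} {κ : Zv N K} (hκ : κ ∈ KRat ξ) :
    ∃ A : Finset K, ∀ R : Subalgebra ℂ K, (∀ i, ξ i ∈ R) → (A : Set K) ⊆ R →
      ∀ (p : surf ξ) (s : SpecAt ξ R p), ∃ x ∈ ratTriv (surf ξ),
        FreeAbelianGroup.map Subtype.val x = FreeAbelianGroup.map (spv s) κ := by
  classical
  refine AddSubgroup.closure_induction (p := fun κ _ => ∃ A : Finset K, ∀ R : Subalgebra ℂ K,
    (∀ i, ξ i ∈ R) → (A : Set K) ⊆ R →
      ∀ (p : surf ξ) (s : SpecAt ξ R p), ∃ x ∈ ratTriv (surf ξ),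
        FreeAbelianGroup.map Subtype.val x = FreeAbelianGroup.map (spv s) κ) ?_ ?_ ?_ ?_ hκ
  · rintro κ ⟨T₀, T₁, hlink, rfl⟩
    obtain ⟨A, hA⟩ := spec_link T₀ T₁ hlink
    refine ⟨A, fun R hξR hAR p s => ?_⟩
    obtain ⟨S₀, S₁, h0, h1, hl⟩ := hA R hξR hAR p s
    refine ⟨cyc S₀ - cyc S₁, AddSubgroup.subset_closure ⟨S₀, S₁, hl, rfl⟩, ?_⟩
    have hcyc : ∀ (S : Multiset (surf ξ)) (T : Multiset (Fin (N + 1) → K)),
        S.map Subtype.val = T.map (spv s) →
        FreeAbelianGroup.map Subtype.val (cyc S) = FreeAbelianGroup.map (spv s) (cyv T) := by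
      intro S T hST
      unfold cyc cyv
      rw [map_multiset_sum, map_multiset_sum, Multiset.map_map, Multiset.map_map]
      have e1 : (⇑(FreeAbelianGroup.map (Subtype.val : surf ξ → _)) ∘ FreeAbelianGroup.of) =
          (FreeAbelianGroup.of ∘ Subtype.val) := by
        funext x
        simp
      have e2 : (⇑(FreeAbelianGroup.map (spv s)) ∘ FreeAbelianGroup.of) =
          (FreeAbelianGroup.of ∘ spv s) := by
        funext x
        simp
      rw [e1, e2, ← Multiset.map_map, ← Multiset.map_map, hST]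
    rw [map_sub, map_sub, hcyc S₀ T₀ h0, hcyc S₁ T₁ h1]
  · exact ⟨∅, fun R _ _ p s => ⟨0, zero_mem _, by simp⟩⟩
  · rintro x y _ _ ⟨A, hA⟩ ⟨B, hB⟩
    refine ⟨A ∪ B, fun R hξR hAR p s => ?_⟩
    rw [Finset.coe_union, Set.union_subset_iff] at hAR
    obtain ⟨u, hu, hu'⟩ := hA R hξR hAR.1 p s
    obtain ⟨v, hv, hv'⟩ := hB R hξR hAR.2 p s
    exact ⟨u + v, add_mem hu hv, by rw [map_add, map_add, hu', hv']⟩
  · rintro x _ ⟨A, hA⟩
    refine ⟨A, fun R hξR hAR p s => ?_⟩
    obtain ⟨u, hu, hu'⟩ := hA R hξR hAR p s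
    exact ⟨-u, neg_mem hu, by rw [map_neg, map_neg, hu']⟩

end Pool.Agent.FibC
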