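import Pool.Agent.FibC.Descent
import Pool.Agent.FibC.Spec
import Pool.Agent.FibC.SpecEff
import Pool.Agent.FibC.SpecLink
import Pool.Agent.FibC.Avg
import Pool.Agent.FibC.KCy

/-! Module F8: from cycles over `K` to cycles over `ℂ`. -/

set_option autoImplicit false

open MvPolynomial
open scoped LinearAlgebra.Projectivization

namespace Pool.Agent.FibC

namespace FrameAux

open Pool.Agent.Chow0 (IsChowForm IsLink cyc CH0 Z0 ratTriv)

section incl

variable {N : ℕ} {S S' : Set (ℙ ℂ (Fin (N + 1) → ℂ))}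

lemma isChowForm_incl (h : S ⊆ S') {G : MvPolynomial (Fin (N + 1)) ℂ} {s : Multiset S}
    (hs : IsChowForm S G s) : IsChowForm S' G (s.map (Set.inclusion h)) := by
  obtain ⟨c, hc, hG⟩ := hs
  refine ⟨c, hc, ?_⟩
  rw [hG, Multiset.map_map]
  rfl

lemma isLink_incl (h : S ⊆ S') {s₀ s₁ : Multiset S} (hs : IsLink S s₀ s₁) :
    IsLink S' (s₀.map (Set.inclusion h)) (s₁.map (Set.inclusion h)) := by
  obtain ⟨F, h1, h2, h3⟩ := hs
  refine ⟨F, ?_, isChowForm_incl h h2, isChowForm_incl h h3⟩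
  filter_upwards [h1] with t ht
  obtain ⟨s, hs⟩ := ht
  exact ⟨_, isChowForm_incl h hs⟩

/-- the inclusion of cycles -/
noncomputable def inc (h : S ⊆ S') : Z0 S →+ Z0 S' := FreeAbelianGroup.map (Set.inclusion h)

lemma inc_cyc (h : S ⊆ S') (s : Multiset S) : inc h (cyc s) = cyc (s.map (Set.inclusion h)) := by
  induction s using Multiset.induction_on with
  | empty => simp [cyc, inc]
  | cons a s ih =>
    simp only [cyc, Multiset.map_cons, Multiset.sum_cons, map_add] at ih ⊢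
    rw [ih]
    congr 1

lemma inc_ratTriv (h : S ⊆ S') {z : Z0 S} (hz : z ∈ ratTriv S) : inc h z ∈ ratTriv S' := by
  have : ratTriv S ≤ (ratTriv S').comap (inc h) := by
    unfold ratTriv
    rw [AddSubgroup.closure_le]
    rintro _ ⟨s₀, s₁, hl, rfl⟩
    rw [SetLike.mem_coe, AddSubgroup.mem_comap, map_sub, inc_cyc, inc_cyc]
    exact AddSubgroup.subset_closure ⟨_, _, isLink_incl h hl, rfl⟩
  exact this hz

/-- the inclusion of cycles in cycles of projective space -/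
noncomputable def tot (S : Set (ℙ ℂ (Fin (N + 1) → ℂ))) :
    Z0 S →+ FreeAbelianGroup (ℙ ℂ (Fin (N + 1) → ℂ)) :=
  FreeAbelianGroup.map Subtype.val

lemma tot_injective (S : Set (ℙ ℂ (Fin (N + 1) → ℂ))) : Function.Injective (tot S) := by
  classical
  intro x y hxy
  have h2 : (Finsupp.mapDomain.addMonoidHom (Subtype.val : S → _) : (S →₀ ℤ) →+ _).comp
      (FreeAbelianGroup.toFinsupp (X := S)) = (FreeAbelianGroup.toFinsupp).comp (tot S) := by
    ext a
    simp [tot]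
  have h3 := DFunLike.congr_fun h2 x
  have h4 := DFunLike.congr_fun h2 y
  simp only [AddMonoidHom.comp_apply] at h3 h4
  rw [hxy, ← h4] at h3
  have h5 : FreeAbelianGroup.toFinsupp x = FreeAbelianGroup.toFinsupp y :=
    Finsupp.mapDomain_injective Subtype.val_injective h3
  exact (FreeAbelianGroup.equivFinsupp S).injective h5

lemma tot_cyc (s : Multiset S) :
    tot S (cyc s) = ((s.map Subtype.val).map FreeAbelianGroup.of).sum := by
  induction s using Multiset.induction_on with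
  | empty => simp [cyc, tot]
  | cons a s ih =>
    simp only [cyc, Multiset.map_cons, Multiset.sum_cons, map_add] at ih ⊢
    rw [ih]
    congr 1

end incl

variable {N : ℕ} {K : Type} [Field K] [Algebra ℂ K] {ξ : Fin (N + 1) → K}

lemma map_cy {α : Type} (f : (Fin (N + 1) → K) → α) {w : ℕ} (Γ : EffCorr ξ w) :
    FreeAbelianGroup.map f Γ.cy = ((Multiset.map (fun i => f (Γ.pts i)) Finset.univ.val).map
      FreeAbelianGroup.of).sum := by
  rw [EffCorr.cy, map_sum, Multiset.map_map]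
  rfl

/-- the cycle of a multiset -/
noncomputable def ms {β γ : Type} (g : β → γ) : Multiset β →+ FreeAbelianGroup γ where
  toFun s := ((s.map g).map FreeAbelianGroup.of).sum
  map_zero' := by simp
  map_add' s t := by simp

lemma ms_finsupp {β γ : Type} (g : β → γ) (μ : β →₀ ℕ) :
    ms g (Finsupp.toMultiset μ) = μ.sum fun z k => k • FreeAbelianGroup.of (g z) := by
  rw [Finsupp.toMultiset_apply, Finsupp.sum, Finsupp.sum, map_sum]
  refine Finset.sum_congr rfl fun z _ => ?_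
  rw [map_nsmul]
  simp [ms]

lemma map_cyF {α : Type} (f : (Fin (N + 1) → K) → α) (μ : (Fin (N + 1) → K) →₀ ℕ) {w : ℕ}
    (W : EffCorr ξ w) (hW : Multiset.map W.pts Finset.univ.val = Finsupp.toMultiset μ) :
    FreeAbelianGroup.map f (cyF μ) =
      ((Multiset.map (fun i => f (W.pts i)) Finset.univ.val).map
        FreeAbelianGroup.of).sum := by
  have h := ms_finsupp f μ
  have h2 : Multiset.map (fun i => f (W.pts i)) Finset.univ.val =
      Multiset.map f (Finsupp.toMultiset μ) := by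
    rw [← hW, Multiset.map_map]; rfl
  rw [h2]
  change _ = ms f (Finsupp.toMultiset μ)
  rw [h, cyF, Finsupp.sum, Finsupp.sum, map_sum]
  refine Finset.sum_congr rfl fun z _ => ?_
  rw [map_nsmul]
  rfl

/-- product of the forms of finitely many points -/
lemma exists_prod (T : Finset (Fin (N + 1) → K))
    (hT : ∀ z ∈ T, ∃ (e : ℕ) (G : MvPolynomial (Fin (N + 1)) ℂ), G.IsHomogeneous e ∧
      aeval z G = 0 ∧ aeval ξ G ≠ 0) :
    ∃ (e : ℕ) (G : MvPolynomial (Fin (N + 1)) ℂ), G.IsHomogeneous e ∧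
      (∀ z ∈ T, aeval z G = 0) ∧ aeval ξ G ≠ 0 := by
  classical
  choose! e G h1 h2 h3 using hT
  refine ⟨∑ z ∈ T, e z, ∏ z ∈ T, G z, IsHomogeneous.prod _ _ _ fun z hz => h1 z hz, ?_, ?_⟩
  · intro z hz
    rw [map_prod]
    exact Finset.prod_eq_zero hz (h2 z hz)
  · rw [map_prod, Finset.prod_ne_zero_iff]
    exact h3

lemma surf_eq (ξ : Fin (N + 1) → K) : surf ξ = surf ξ ∩ zer 0 := by
  ext q
  simp [zer]

end FrameAux

open FrameAux

variable {N : ℕ} {K : Type} [Field K] [Algebra ℂ K] [IsAlgClosed K]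

open Pool.Agent.Chow0 (IsChowForm IsLink cyc CH0 Z0 ratTriv) in
/-- PROOF: as `Pool/Agent/LowDeg/Main.lean`. `act_cy` and `exists_avg` for `Z = Γ.cy - Γ'.cy` give
`M, ℓ, a, b`; `exists_effCorr` gives correspondences `Wa, Wb` with cycles `a, b`; a form `G₀` with
`G₀(ξ) ≠ 0` vanishing at all points of `a, b` (product); `eff_spec` for `Γ, Γ'` (with `G = 0`,
`e = 0`) and `Wa, Wb` (with `G₀`), `spec_KRat` for the element of `KRat`; `R` generated by all the
sets `A` and the `ξ i`; `exists_spec` gives `D`. Over `p` with `D(p) ≠ 0` there is a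
specialisation `s`; apply `FreeAbelianGroup.map (spv s)` to the identity over `K`. The cycles of
`Wa, Wb` are killed by `AlbTrivial`. -/
theorem kills_of_mem {ξ : Fin (N + 1) → K} (h1 : ξ 0 = 1)
    (halg : Algebra.IsAlgebraic (fld ξ) K) {w w' : ℕ} (Γ : EffCorr ξ w) (Γ' : EffCorr ξ w')
    (h : Γ.cy - Γ'.cy ∈ KRat ξ ⊔ ND ξ) : Kills ξ Γ Γ' := by
  classical
  have hZ : ∀ ρ : K ≃ₐ[ℂ] K, (∀ i, ρ (ξ i) = ξ i) →
      act ρ (Γ.cy - Γ'.cy) - (Γ.cy - Γ'.cy) ∈ KRat ξ := by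
    intro ρ hρ
    have h2 := (KRat ξ).sub_mem (act_cy Γ ρ hρ) (act_cy Γ' ρ hρ)
    have h3 : act ρ (Γ.cy - Γ'.cy) - (Γ.cy - Γ'.cy) =
        act ρ Γ.cy - Γ.cy - (act ρ Γ'.cy - Γ'.cy) := by
      rw [map_sub]; abel
    rw [h3]
    exact h2
  obtain ⟨M, ℓ, a, b, hM, ha, hb, hMZ⟩ := exists_avg h1 halg _ hZ h
  -- the correspondences to curves
  obtain ⟨wa, Wa, hWa⟩ := exists_effCorr h1 halg ℓ a
    (fun z hz => ⟨(ha.nd z hz).2.1, ha.norm z hz⟩) ha.inv
  obtain ⟨wb, Wb, hWb⟩ := exists_effCorr h1 halg ℓ b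
    (fun z hz => ⟨(hb.nd z hz).2.1, hb.norm z hz⟩) hb.inv
  obtain ⟨e₀, G₀, hG₀, hG₀z, hξG₀⟩ := exists_prod (ξ := ξ) (a.support ∪ b.support) (by
    intro z hz
    rcases Finset.mem_union.1 hz with h | h
    · exact (ha.nd z (Finsupp.mem_support_iff.1 h)).2.2
    · exact (hb.nd z (Finsupp.mem_support_iff.1 h)).2.2)
  have hWa0 : ∀ i, aeval (Wa.pts i) G₀ = 0 := by
    intro i
    refine hG₀z _ (Finset.mem_union_left _ ?_)
    have h1 : Wa.pts i ∈ Finsupp.toMultiset a := by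
      rw [← hWa]; exact Multiset.mem_map_of_mem _ (Finset.mem_univ i)
    rwa [Finsupp.mem_toMultiset] at h1
  have hWb0 : ∀ i, aeval (Wb.pts i) G₀ = 0 := by
    intro i
    refine hG₀z _ (Finset.mem_union_right _ ?_)
    have h1 : Wb.pts i ∈ Finsupp.toMultiset b := by
      rw [← hWb]; exact Multiset.mem_map_of_mem _ (Finset.mem_univ i)
    rwa [Finsupp.mem_toMultiset] at h1
  -- specialisation data
  obtain ⟨A₁, hA₁⟩ := eff_spec h1 Γ
  obtain ⟨A₂, hA₂⟩ := eff_spec h1 Γ'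
  obtain ⟨A₃, hA₃⟩ := eff_spec h1 Wa
  obtain ⟨A₄, hA₄⟩ := eff_spec h1 Wb
  obtain ⟨A₅, hA₅⟩ := spec_KRat hMZ
  let B : Finset K := Finset.univ.image ξ ∪ A₁ ∪ A₂ ∪ A₃ ∪ A₄ ∪ A₅
  let R : Subalgebra ℂ K := Algebra.adjoin ℂ (B : Set K)
  have hRFG : R.FG := ⟨B, rfl⟩
  have hBR : (B : Set K) ⊆ R := Algebra.subset_adjoin
  have hξR : ∀ i, ξ i ∈ R := fun i => hBR (by simp [B])
  have hR₁ : (A₁ : Set K) ⊆ R := fun x hx => hBR (by
    simp only [B, Finset.coe_union, Set.mem_union]; tauto)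
  have hR₂ : (A₂ : Set K) ⊆ R := fun x hx => hBR (by
    simp only [B, Finset.coe_union, Set.mem_union]; tauto)
  have hR₃ : (A₃ : Set K) ⊆ R := fun x hx => hBR (by
    simp only [B, Finset.coe_union, Set.mem_union]; tauto)
  have hR₄ : (A₄ : Set K) ⊆ R := fun x hx => hBR (by
    simp only [B, Finset.coe_union, Set.mem_union]; tauto)
  have hR₅ : (A₅ : Set K) ⊆ R := fun x hx => hBR (by
    simp only [B, Finset.coe_union, Set.mem_union]; tauto)
  obtain ⟨e, D, hD, hξD, hDs⟩ := exists_spec h1 halg R hRFG hξR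
  have hsp : ∀ p : surf ξ, aeval p.1.rep D ≠ 0 → Nonempty (SpecAt ξ R p) := by
    intro p hp
    obtain ⟨h0, φ, hφ⟩ := hDs p.1.rep p.2 hp
    exact ⟨⟨φ, h0, fun i => ⟨hξR i, hφ i⟩⟩⟩
  have hS0 := surf_eq ξ
  refine ⟨M, e, D, hM, hD, hξD, ?_, ?_⟩
  · intro p hp
    obtain ⟨s⟩ := hsp p hp
    obtain ⟨t, ht, _⟩ := hA₁ R hξR hR₁ p s (surf ξ) 0 0 (isHomogeneous_zero _ _ _)
      (fun i => by simp) hS0
    obtain ⟨t', ht', _⟩ := hA₂ R hξR hR₂ p s (surf ξ) 0 0 (isHomogeneous_zero _ _ _)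
      (fun i => by simp) hS0
    exact ⟨⟨t, ht⟩, ⟨t', ht'⟩⟩
  intro ι _ p k hpD hAlb s s' hs hs'
  have sp : ∀ i, SpecAt ξ R (p i) := fun i => Classical.choice (hsp (p i) (hpD i))
  choose t ht htv using fun i => hA₁ R hξR hR₁ (p i) (sp i) (surf ξ) 0 0
    (isHomogeneous_zero _ _ _) (fun i => by simp) hS0
  choose t' ht' htv' using fun i => hA₂ R hξR hR₂ (p i) (sp i) (surf ξ) 0 0
    (isHomogeneous_zero _ _ _) (fun i => by simp) hS0
  choose ta hta htav using fun i => hA₃ R hξR hR₃ (p i) (sp i) (surf ξ ∩ zer G₀) G₀ e₀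
    hG₀ hWa0 rfl
  choose tb htb htbv using fun i => hA₄ R hξR hR₄ (p i) (sp i) (surf ξ ∩ zer G₀) G₀ e₀
    hG₀ hWb0 rfl
  choose x hx hxv using fun i => hA₅ R hξR hR₅ (p i) (sp i)
  have hst : ∀ i, s i = t i := fun i => isChowForm_unique (hs i) (ht i)
  have hst' : ∀ i, s' i = t' i := fun i => isChowForm_unique (hs' i) (ht' i)
  have hincl : surf ξ ∩ zer G₀ ⊆ surf ξ := Set.inter_subset_left
  -- the identity of cycles
  have key : ∀ i, M • (cyc (s i) - cyc (s' i)) =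
      x i + inc hincl (cyc (ta i)) - inc hincl (cyc (tb i)) := by
    intro i
    apply tot_injective
    have h1 := hxv i
    simp only [map_sub, map_nsmul] at h1
    rw [map_cy, map_cy, map_cyF _ _ Wa hWa, map_cyF _ _ Wb hWb] at h1
    have h5 : tot (surf ξ) (x i) = FreeAbelianGroup.map Subtype.val (x i) := rfl
    rw [map_sub, map_add, map_nsmul, map_sub, h5, h1, hst, hst', tot_cyc, tot_cyc, htv, htv',
      inc_cyc, inc_cyc, tot_cyc, tot_cyc,
      Multiset.map_map _ _ (ta i), Multiset.map_map _ _ (tb i)]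
    have h2 : Multiset.map (Subtype.val ∘ Set.inclusion hincl) (ta i) =
        Multiset.map Subtype.val (ta i) := rfl
    have h3 : Multiset.map (Subtype.val ∘ Set.inclusion hincl) (tb i) =
        Multiset.map Subtype.val (tb i) := rfl
    rw [h2, h3, htav, htbv]
    abel
  -- the correspondences to curves kill the cycle
  have hka : inc hincl (∑ i, k i • cyc (ta i)) ∈ ratTriv (surf ξ) :=
    inc_ratTriv hincl ((QuotientAddGroup.eq_zero_iff _).1
      (hAlb.2 e₀ G₀ hG₀ hξG₀ wa Wa hWa0 ta hta))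
  have hkb : inc hincl (∑ i, k i • cyc (tb i)) ∈ ratTriv (surf ξ) :=
    inc_ratTriv hincl ((QuotientAddGroup.eq_zero_iff _).1
      (hAlb.2 e₀ G₀ hG₀ hξG₀ wb Wb hWb0 tb htb))
  have hkx : ∑ i, k i • x i ∈ ratTriv (surf ξ) :=
    AddSubgroup.sum_mem _ fun i _ => AddSubgroup.zsmul_mem _ (hx i) _
  rw [QuotientAddGroup.eq_zero_iff]
  have h6 : M • ∑ i, k i • (cyc (s i) - cyc (s' i)) =
      ∑ i, k i • x i + inc hincl (∑ i, k i • cyc (ta i)) -
        inc hincl (∑ i, k i • cyc (tb i)) := by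
    rw [map_sum, map_sum, ← Finset.sum_add_distrib, ← Finset.sum_sub_distrib, Finset.smul_sum]
    refine Finset.sum_congr rfl fun i _ => ?_
    rw [smul_comm, key i, map_zsmul, map_zsmul, smul_sub, smul_add]
  rw [h6]
  exact AddSubgroup.sub_mem _ (AddSubgroup.add_mem _ hkx hka) hkb

end Pool.Agent.FibC
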