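import Pool.Agent.FibC.Ders

/-! Module D2: the Gauss-Manin identity. -/

set_option autoImplicit false

open scoped IntermediateField

namespace Pool.Agent.FibC

namespace GMLemAux

variable {K : Type} [Field K] [Algebra ℂ K] {t a : K} {δt δa : Derivation ℂ K K}

theorem alg_t : Alg t t :=
  isAlgebraic_algebraMap (⟨t, IntermediateField.mem_adjoin_simple_self ℂ t⟩ : ℂ⟮t⟯)

theorem dint (D : Derivation ℂ K K) (n : ℤ) : D (n : K) = 0 := by
  have h : (n : K) = n • (1 : K) := by simp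
  rw [h, map_zsmul, D.map_one_eq_zero, smul_zero]

theorem dmul (D : Derivation ℂ K K) (n : ℤ) (x : K) : D ((n : K) * x) = n * D x := by
  rw [D.leibniz, dint]
  simp

theorem dsum {ι : Type} [Fintype ι] (D : Derivation ℂ K K) (c : ι → ℤ) (g : ι → K) :
    D (∑ i, (c i : K) * g i) = ∑ i, (c i : K) * D (g i) := by
  rw [map_sum]
  exact Finset.sum_congr rfl fun i _ => dmul D _ _

theorem da (hb : IsTranscendenceBasis ℂ ![t, a])
    (hδ : δt t = 1 ∧ δt a = 0 ∧ δa t = 0 ∧ δa a = 1) (θ : K ≃ₐ[ℂ] K) (hθ : θ t = t) (x : K) :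
    δa (θ x) = δa (θ a) * θ (δa x) := by
  rw [chain hb hδ δa θ x, hθ, hδ.2.2.1, zero_mul, zero_add]

theorem dt (hb : IsTranscendenceBasis ℂ ![t, a])
    (hδ : δt t = 1 ∧ δt a = 0 ∧ δa t = 0 ∧ δa a = 1) (θ : K ≃ₐ[ℂ] K) (hθ : θ t = t) (x : K) :
    δt (θ x) = θ (δt x) + δt (θ a) * θ (δa x) := by
  rw [chain hb hδ δt θ x, hθ, hδ.1, one_mul]

end GMLemAux

variable {K : Type} [Field K] [Algebra ℂ K] {t a : K} {δt δa : Derivation ℂ K K}

/-- PROOF: induction. Let `S u D = ∑ c i θ_i(u) D(θ_i a)`.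
`mem`: `G = 0`. `exact h`: `chain` with `D = δa`, `θ_i t = t` (`t` is algebraic over `ℂ(t)`) gives
`δa (θ_i h) = δa (θ_i a) θ_i (δa h)`, so `S (δa h) δa = δa (∑ c i θ_i h)`.
`der f`: the identity `S (δt f) δa = δt (S f δa) - δa (S f δt)`: expand the right side with the
Leibniz rule, `der_comm`, and `chain`: `δt (θ f) = θ (δt f) + δt (θ a) θ (δa f)`,
`δa (θ f) = δa (θ a) θ (δa f)`. So with `S f δa = δa G` we get
`S (δt f) δa = δt (δa G) - δa (S f δt) = δa (δt G - S f δt)` (`der_comm`).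
`add`: clear. `smul c f`: `θ_i c = c` and `δa c = 0` (`ker_iff`): `S (c f) δa = c δa G = δa (c G)`. -/
theorem gm (hb : IsTranscendenceBasis ℂ ![t, a])
    (hδ : δt t = 1 ∧ δt a = 0 ∧ δa t = 0 ∧ δa a = 1) {ι : Type} [Fintype ι] (c : ι → ℤ)
    (θ : ι → K ≃ₐ[ℂ] K) (hθ : ∀ i x, Alg t x → θ i x = x) (W : Set K)
    (hW : ∀ f ∈ W, ∑ i, (c i : K) * (θ i f * δa (θ i a)) = 0) (u : K) (hu : GM t δt δa W u) :
    ∃ G : K, ∑ i, (c i : K) * (θ i u * δa (θ i a)) = δa G := by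
  have ht : ∀ i, θ i t = t := fun i => hθ i t GMLemAux.alg_t
  induction hu with
  | mem f hf => exact ⟨0, by rw [hW f hf, map_zero]⟩
  | exact h =>
    refine ⟨∑ i, (c i : K) * θ i h, ?_⟩
    rw [GMLemAux.dsum]
    refine Finset.sum_congr rfl fun i _ => ?_
    rw [GMLemAux.da hb hδ (θ i) (ht i) h, mul_comm (δa (θ i a))]
  | der f hf ih =>
    obtain ⟨G, hG⟩ := ih
    refine ⟨δt G - ∑ i, (c i : K) * (θ i f * δt (θ i a)), ?_⟩
    rw [map_sub, ← der_comm hb hδ, ← hG, GMLemAux.dsum, GMLemAux.dsum, ← Finset.sum_sub_distrib]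
    refine Finset.sum_congr rfl fun i _ => ?_
    rw [Derivation.leibniz, Derivation.leibniz, der_comm hb hδ (θ i a)]
    simp only [smul_eq_mul]
    rw [GMLemAux.da hb hδ (θ i) (ht i) f, GMLemAux.dt hb hδ (θ i) (ht i) f]
    ring
  | add f g hf hg ihf ihg =>
    obtain ⟨G, hG⟩ := ihf
    obtain ⟨H, hH⟩ := ihg
    refine ⟨G + H, ?_⟩
    rw [map_add, ← hG, ← hH, ← Finset.sum_add_distrib]
    refine Finset.sum_congr rfl fun i _ => ?_
    rw [map_add]
    ring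
  | smul b f hb' hf ih =>
    obtain ⟨G, hG⟩ := ih
    refine ⟨b * G, ?_⟩
    rw [Derivation.leibniz, (ker_iff hb hδ b).2 hb', smul_zero, add_zero, smul_eq_mul, ← hG,
      Finset.mul_sum]
    refine Finset.sum_congr rfl fun i _ => ?_
    rw [map_mul, hθ i b hb']
    ring

end Pool.Agent.FibC
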