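import Pool.Agent.FibC.Defs

/-!
# Cycles of points over `K` (vectors) and their rational equivalence: definitions
-/

set_option autoImplicit false

open MvPolynomial

namespace Pool.Agent.FibC

variable {N : ℕ} {K : Type} [Field K] [Algebra ℂ K]

/-- cycles of vectors -/
abbrev Zv (N : ℕ) (K : Type) : Type := FreeAbelianGroup (Fin (N + 1) → K)

omit [Field K] [Algebra ℂ K] in
/-- the cycle of a multiset of vectors -/
noncomputable def cyv (T : Multiset (Fin (N + 1) → K)) : Zv N K :=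
  (T.map FreeAbelianGroup.of).sum

/-- `T₀` and `T₁` are members (for `s = 0, 1`) of a family of effective cycles of the surface over
`K`; for the other `s ∈ ℂ` with `c(s) ≠ 0` the points are normalised by a linear form over `ℂ`. -/
def KLink (ξ : Fin (N + 1) → K) (T₀ T₁ : Multiset (Fin (N + 1) → K)) : Prop :=
  (∀ z ∈ T₀, z ≠ 0 ∧ On ξ z) ∧ (∀ z ∈ T₁, z ≠ 0 ∧ On ξ z) ∧
    ∃ (ℓ : Fin (N + 1) → ℂ) (c : Polynomial K) (n : ℕ)
      (FF : MvPolynomial (Fin (N + 1)) (Polynomial K)) (c₀ c₁ : K),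
      c ≠ 0 ∧ c₀ ≠ 0 ∧ c₁ ≠ 0 ∧
      (∀ s : ℂ, c.eval (algebraMap ℂ K s) ≠ 0 → ∃ T : Multiset (Fin (N + 1) → K),
        (∀ z ∈ T, On ξ z ∧ ∑ i, algebraMap ℂ K (ℓ i) * z i = 1) ∧
        map (Polynomial.evalRingHom (algebraMap ℂ K s)) FF =
          C (c.eval (algebraMap ℂ K s) ^ n) * (T.map linF).prod) ∧
      map (Polynomial.evalRingHom 0) FF = C c₀ * (T₀.map linF).prod ∧
      map (Polynomial.evalRingHom 1) FF = C c₁ * (T₁.map linF).prod

/-- cycles over `K` which are rationally equivalent to zero -/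
def KRat (ξ : Fin (N + 1) → K) : AddSubgroup (Zv N K) :=
  AddSubgroup.closure {x | ∃ T₀ T₁, KLink ξ T₀ T₁ ∧ x = cyv T₀ - cyv T₁}

/-- `z` is a point of the surface over `K` which lies on a curve over `ℂ` -/
def IsNdPt (ξ z : Fin (N + 1) → K) : Prop :=
  z ≠ 0 ∧ On ξ z ∧
    ∃ (e : ℕ) (G : MvPolynomial (Fin (N + 1)) ℂ), G.IsHomogeneous e ∧ aeval z G = 0 ∧ aeval ξ G ≠ 0

/-- cycles of non-dominating points -/
def ND (ξ : Fin (N + 1) → K) : AddSubgroup (Zv N K) :=
  AddSubgroup.closure {x | ∃ z, IsNdPt ξ z ∧ x = FreeAbelianGroup.of z}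

/-- the cycle of an effective correspondence over the generic point -/
noncomputable def EffCorr.cy {ξ : Fin (N + 1) → K} {w : ℕ} (Γ : EffCorr ξ w) : Zv N K :=
  ∑ i, FreeAbelianGroup.of (Γ.pts i)

/-- the action of an automorphism of `K` on cycles -/
noncomputable def act (ρ : K ≃ₐ[ℂ] K) : Zv N K →+ Zv N K :=
  FreeAbelianGroup.map fun z i => ρ (z i)

/-- the cycle of a finitely supported multiplicity function -/
noncomputable def cyF (μ : (Fin (N + 1) → K) →₀ ℕ) : Zv N K :=
  μ.sum fun z k => k • FreeAbelianGroup.of z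

/-- The multiplicity function `a` is a Galois invariant cycle of non-dominating points, normalised
by `∑ ℓ i z i = 1`. -/
structure IsNd (ξ : Fin (N + 1) → K) (ℓ : Fin (N + 1) → ℂ) (a : (Fin (N + 1) → K) →₀ ℕ) :
    Prop where
  nd : ∀ z, a z ≠ 0 → IsNdPt ξ z
  norm : ∀ z, a z ≠ 0 → ∑ i, algebraMap ℂ K (ℓ i) * z i = 1
  inv : ∀ (ρ : K ≃ₐ[ℂ] K), (∀ i, ρ (ξ i) = ξ i) → ∀ z, a (fun i => ρ (z i)) = a z

open scoped LinearAlgebra.Projectivization

/-- A specialisation: a homomorphism from a subalgebra `R` of `K`, over the point `p`. -/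
structure SpecAt (ξ : Fin (N + 1) → K) (R : Subalgebra ℂ K) (p : surf ξ) where
  φ : R →ₐ[ℂ] ℂ
  rep0 : p.1.rep 0 ≠ 0
  hξ : ∀ i, ∃ h : ξ i ∈ R, φ ⟨ξ i, h⟩ = p.1.rep i / p.1.rep 0

open scoped Classical in
/-- the index of the first nonzero coordinate -/
noncomputable def piv (z : Fin (N + 1) → K) : Fin (N + 1) :=
  if h : (Finset.univ.filter fun i => z i ≠ 0).Nonempty then
    (Finset.univ.filter fun i => z i ≠ 0).min' h else 0

/-- the normalised coordinates -/
noncomputable def nrm (z : Fin (N + 1) → K) : Fin (N + 1) → K := fun i => z i / z (piv z)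

open scoped Classical in
/-- the projective point of a vector (a fixed point if the vector is zero) -/
noncomputable def pp (v : Fin (N + 1) → ℂ) : ℙ ℂ (Fin (N + 1) → ℂ) :=
  if h : v ≠ 0 then Projectivization.mk ℂ v h
  else Projectivization.mk ℂ (fun _ => (1 : ℂ)) (fun h => one_ne_zero (congrFun h 0))

open scoped Classical in
/-- the specialisation of a point over `K`; meaningful if the normalised coordinates are in `R` -/
noncomputable def spv {ξ : Fin (N + 1) → K} {R : Subalgebra ℂ K} {p : surf ξ}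
    (s : SpecAt ξ R p) (z : Fin (N + 1) → K) : ℙ ℂ (Fin (N + 1) → ℂ) :=
  pp fun i => if h : nrm z i ∈ R then s.φ ⟨nrm z i, h⟩ else 0

end Pool.Agent.FibC
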