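import Pool.Agent.FibC.Auto

/-! Module D9: separation of the fibres. -/

set_option autoImplicit false

namespace Pool.Agent.FibC

variable {N : ℕ} {K : Type} [Field K] [Algebra ℂ K]

namespace SepAux

theorem form_of_not {ξ : Fin (N + 1) → K} (t a : fld ξ) (D₁ D₂ : Derivation ℂ K K) (f : fld ξ)
    (z : Fin (N + 1) → K) (h : ¬ Dom ξ z) : form ξ t a D₁ D₂ f z = 0 := by
  unfold form val
  rw [dif_neg h, zero_mul]

theorem form_mul {ξ : Fin (N + 1) → K} (t a : fld ξ) (D₁ D₂ : Derivation ℂ K K) (u f : fld ξ)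
    (z : Fin (N + 1) → K) (h : Dom ξ z) :
    form ξ t a D₁ D₂ (u * f) z = val ξ z u * form ξ t a D₁ D₂ f z := by
  have e : val ξ z (u * f) = val ξ z u * val ξ z f := by
    unfold val
    rw [dif_pos h, dif_pos h, dif_pos h, map_mul]
  unfold form
  rw [e, mul_assoc]

end SepAux

open scoped Classical in
/-- PROOF: at a dominating point `val` is multiplicative, so `form (u f) = val u · form f`, and
`form = 0` at the other points. Grouping the `i` by their fibre, `hnull` says
`∑_{g ∈ T'} g(u) R_g = 0` for all `u ∈ U`, where `T' ⊆ T` is the finite set of the fibres of the `z i`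
and `R_g` is the sum in the statement. By `hlin` all `R_g = 0` (for `g` not in `T'` the sum is
empty). -/
theorem sep {ξ : Fin (N + 1) → K} (t a : fld ξ) {ι : Type} [Fintype ι] (z : ι → Fin (N + 1) → K)
    (c : ι → ℤ) (T : Set (base ξ t → K))
    (hT : ∀ i, Dom ξ (z i) → (fun f : base ξ t => val ξ (z i) f.1) ∈ T)
    (U : Set (base ξ t)) (W : Set (fld ξ))
    (hlin : LinearIndependent K (fun (g : T) (u : U) => g.1 u.1))
    (hnull : ∀ (D₁ D₂ : Derivation ℂ K K), ∀ u ∈ U, ∀ f ∈ W,
      ∑ i, (c i : K) * form ξ t a D₁ D₂ (u.1 * f) (z i) = 0)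
    (g : base ξ t → K) (D₁ D₂ : Derivation ℂ K K) (f : fld ξ) (hf : f ∈ W) :
    ∑ i, (if Dom ξ (z i) ∧ (fun h : base ξ t => val ξ (z i) h.1) = g then
      (c i : K) * form ξ t a D₁ D₂ f (z i) else 0) = 0 := by
  by_cases hg : g ∈ T
  · obtain ⟨l, hl⟩ : ∃ l : T →₀ K, l = ∑ i, if h : Dom ξ (z i) then
      Finsupp.single (⟨fun f : base ξ t => val ξ (z i) f.1, hT i h⟩ : T)
        ((c i : K) * form ξ t a D₁ D₂ f (z i)) else 0 := ⟨_, rfl⟩
    have h0 : Finsupp.linearCombination K (fun (g : T) (u : U) => g.1 u.1) l = 0 := by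
      rw [hl, map_sum]
      funext u
      rw [Finset.sum_apply, Pi.zero_apply]
      refine Eq.trans ?_ (hnull D₁ D₂ u.1 u.2 f hf)
      refine Finset.sum_congr rfl fun i _ => ?_
      by_cases h : Dom ξ (z i)
      · rw [dif_pos h, Finsupp.linearCombination_single, Pi.smul_apply, smul_eq_mul,
          SepAux.form_mul t a D₁ D₂ _ _ _ h]
        ring
      · rw [dif_neg h, map_zero, Pi.zero_apply, SepAux.form_of_not t a D₁ D₂ _ _ h, mul_zero]
    have h1 : l = 0 := (linearIndependent_iff.1 hlin) l h0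
    have h2 : l ⟨g, hg⟩ = 0 := by rw [h1]; rfl
    rw [hl, Finsupp.finsetSum_apply] at h2
    refine Eq.trans ?_ h2
    refine Finset.sum_congr rfl fun i _ => ?_
    by_cases h : Dom ξ (z i)
    · rw [dif_pos h]
      by_cases h' : (fun h : base ξ t => val ξ (z i) h.1) = g
      · rw [if_pos ⟨h, h'⟩]
        have e : (⟨fun f : base ξ t => val ξ (z i) f.1, hT i h⟩ : T) = ⟨g, hg⟩ :=
          Subtype.ext h'
        rw [e, Finsupp.single_eq_same]
      · rw [if_neg (fun hh => h' hh.2)]
        have e : (⟨g, hg⟩ : T) ≠ ⟨fun f : base ξ t => val ξ (z i) f.1, hT i h⟩ := by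
          intro e
          exact h' (congrArg Subtype.val e).symm
        exact (Finsupp.single_eq_of_ne e).symm
    · rw [dif_neg h, if_neg (fun hh => h hh.1)]
      rfl
  · refine Finset.sum_eq_zero fun i _ => ?_
    rw [if_neg]
    rintro ⟨h, h'⟩
    exact hg (h' ▸ hT i h)

end Pool.Agent.FibC
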