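import Pool.Agent.FibC.OneFib
import Pool.Agent.FibC.Sep
import Pool.Agent.FibC.Aut2
import Pool.Agent.FibC.KAct

/-! Module D11: the decomposition over `K`. -/

set_option autoImplicit false

namespace Pool.Agent.FibC

namespace KMainAux

section gen

variable {N : ℕ} {K : Type} [Field K] [Algebra ℂ K]

/-- the conjugate derivation -/
noncomputable def cj (ρ : K ≃ₐ[ℂ] K) (D : Derivation ℂ K K) : Derivation ℂ K K :=
  Derivation.mk' (ρ.toLinearMap ∘ₗ (D : K →ₗ[ℂ] K) ∘ₗ ρ.symm.toLinearMap) (fun x y => by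
    simp only [LinearMap.comp_apply, AlgEquiv.toLinearMap_apply, Derivation.coeFn_coe, map_mul,
      Derivation.leibniz, smul_eq_mul, map_add, AlgEquiv.apply_symm_apply])

theorem cj_apply (ρ : K ≃ₐ[ℂ] K) (D : Derivation ℂ K K) (x : K) :
    cj ρ D (ρ x) = ρ (D x) := by
  change ρ (D (ρ.symm (ρ x))) = ρ (D x)
  rw [AlgEquiv.symm_apply_apply]

theorem act_of (ρ : K ≃ₐ[ℂ] K) (z : Fin (N + 1) → K) :
    act ρ (FreeAbelianGroup.of z) = FreeAbelianGroup.of (fun i => ρ (z i)) := by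
  unfold act
  rw [FreeAbelianGroup.map_of_apply]

theorem act_sup {ξ : Fin (N + 1) → K} (ρ : K ≃ₐ[ℂ] K) {κ : Zv N K}
    (hκ : κ ∈ KRat ξ ⊔ ND ξ) : act ρ κ ∈ KRat ξ ⊔ ND ξ := by
  rw [AddSubgroup.mem_sup] at hκ
  obtain ⟨x, hx, y, hy, rfl⟩ := hκ
  rw [map_add]
  exact AddSubgroup.add_mem_sup (act_KRat ρ hx) (act_ND ρ hy)

theorem on_aut {ξ : Fin (N + 1) → K} (ρ : K ≃ₐ[ℂ] K) : On ξ (fun j => ρ (ξ j)) := by
  intro e G _ h0
  have h : MvPolynomial.aeval (fun j => ρ (ξ j)) G = ρ (MvPolynomial.aeval ξ G) := by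
    have h1 := MvPolynomial.comp_aeval_apply (f := ξ) (ρ : K →ₐ[ℂ] K) G
    exact h1.symm
  rw [h, h0, map_zero]

theorem alg_self (t : K) : Alg t t := by
  unfold Alg
  have h : t = algebraMap (IntermediateField.adjoin ℂ {t}) K
      ⟨t, IntermediateField.mem_adjoin_simple_self ℂ t⟩ := rfl
  rw [h]
  exact isAlgebraic_algebraMap _

end gen

end KMainAux

open KMainAux

variable {N : ℕ} {K : Type} [Field K] [Algebra ℂ K] [IsAlgClosed K]

/-- The decomposition over `K`: index the points of `Γ` and `Γ'` by `Fin w ⊕ Fin w'`, with signs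
`1, -1`; a dominating point is, up to a scalar, the image of `ξ` under an automorphism of `K`; for
every fibre `one_fibre` applies. -/
theorem kmain {ξ : Fin (N + 1) → K} {t a : fld ξ} (h1 : ξ 0 = 1)
    (hb : IsTranscendenceBasis ℂ ![(t : K), (a : K)]) {δt δa : Derivation ℂ K K}
    (hδ : δt t = 1 ∧ δt a = 0 ∧ δa t = 0 ∧ δa a = 1) (U : Set (base ξ t)) (W : Set (fld ξ))
    (hgen : ∀ u ∈ big ξ (t : K), IsReg (t : K) (a : K) u → GM (t : K) δt δa (Subtype.val '' W) u)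
    {w w' : ℕ} (Γ : EffCorr ξ w) (Γ' : EffCorr ξ w')
    (hlin : LinearIndependent K (fun (g : fibres t Γ Γ') (u : U) => g.1 u.1))
    (hnull : ∀ (D₁ D₂ : Derivation ℂ K K), ∀ u ∈ U, ∀ f ∈ W,
      ∑ i, form ξ t a D₁ D₂ (u.1 * f) (Γ.pts i) = ∑ i, form ξ t a D₁ D₂ (u.1 * f) (Γ'.pts i)) :
    Γ.cy - Γ'.cy ∈ KRat ξ ⊔ ND ξ := by
  classical
  set z : Fin w ⊕ Fin w' → Fin (N + 1) → K := Sum.elim Γ.pts Γ'.pts with hz
  set c : Fin w ⊕ Fin w' → ℤ := Sum.elim (fun _ => 1) (fun _ => -1) with hc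
  have hzne : ∀ i, z i ≠ 0 := by
    rintro (i | i)
    · exact Γ.pts_ne i
    · exact Γ'.pts_ne i
  have hzon : ∀ i, On ξ (z i) := by
    rintro (i | i)
    · exact Γ.pts_on i
    · exact Γ'.pts_on i
  have hcy : Γ.cy - Γ'.cy = ∑ i, c i • FreeAbelianGroup.of (z i) := by
    rw [Fintype.sum_sum_type]
    simp only [hz, hc, Sum.elim_inl, Sum.elim_inr, one_smul, neg_smul, Finset.sum_neg_distrib,
      EffCorr.cy, sub_eq_add_neg]
  -- the automorphisms
  have hex : ∀ i, ∃ ρ : K ≃ₐ[ℂ] K, Dom ξ (z i) →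
      (∀ f : fld ξ, val ξ (z i) f = ρ f) ∧ ∀ j, z i 0 * ρ (ξ j) = z i j := by
    intro i
    by_cases hd : Dom ξ (z i)
    · obtain ⟨σ, hσ⟩ := hd.2
      obtain ⟨ρ, hρ⟩ := exists_aut hb σ
      refine ⟨ρ, fun _ => ⟨fun f => ?_, fun j => ?_⟩⟩
      · rw [hρ f]
        exact val_eq hd σ hσ f
      · have h2 := hρ (crd ξ j)
        have h3 : ((crd ξ j : fld ξ) : K) = ξ j := rfl
        rw [h3] at h2
        rw [h2]
        exact hσ j
    · exact ⟨AlgEquiv.refl, fun h => absurd h hd⟩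
  choose ρ hρ using hex
  set g : Fin w ⊕ Fin w' → base ξ t → K := fun i h => val ξ (z i) h.1 with hg
  set F : Fin w ⊕ Fin w' → Zv N K := fun i => c i • FreeAbelianGroup.of (fun j => ρ i (ξ j)) with hF
  set Ds : Finset (Fin w ⊕ Fin w') := Finset.univ.filter (fun i => Dom ξ (z i)) with hDs
  -- reduction to the points `ρ i ξ`
  have hstep1 : ∑ i, c i • FreeAbelianGroup.of (z i) - ∑ i ∈ Ds, F i ∈ KRat ξ ⊔ ND ξ := by
    have hsplit : ∑ i ∈ Ds, F i = ∑ i, if Dom ξ (z i) then F i else 0 := by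
      rw [hDs, Finset.sum_filter]
    rw [hsplit, ← Finset.sum_sub_distrib]
    refine AddSubgroup.sum_mem _ fun i _ => ?_
    by_cases hd : Dom ξ (z i)
    · rw [if_pos hd]
      have h2 : c i • FreeAbelianGroup.of (z i) - F i =
          c i • (FreeAbelianGroup.of (z i) - FreeAbelianGroup.of (fun j => ρ i (ξ j))) := by
        rw [smul_sub]
      rw [h2]
      refine AddSubgroup.zsmul_mem _ (AddSubgroup.mem_sup_left ?_) _
      have hr := rescale (ξ := ξ) (z := fun j => ρ i (ξ j)) (fun h0 => by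
          have h4 := congrFun h0 0
          simp only [h1, map_one, Pi.zero_apply] at h4
          exact one_ne_zero h4) (on_aut (ρ i)) (z i 0) hd.1
      have h3 : (z i 0) • (fun j => ρ i (ξ j)) = z i := by
        funext j
        rw [Pi.smul_apply, smul_eq_mul]
        exact (hρ i hd).2 j
      rw [h3] at hr
      exact hr
    · rw [if_neg hd, sub_zero]
      refine AddSubgroup.zsmul_mem _ (AddSubgroup.mem_sup_right ?_) _
      rcases dom_or h1 (hzne i) (hzon i) with h | h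
      · exact absurd h hd
      · exact AddSubgroup.subset_closure ⟨z i, h, rfl⟩
  -- one fibre
  have hstep2 : ∀ i₀ ∈ Ds, ∑ i ∈ Ds.filter (fun i => g i = g i₀), F i ∈ KRat ξ ⊔ ND ξ := by
    intro i₀ hi₀
    have hd₀ : Dom ξ (z i₀) := (Finset.mem_filter.1 hi₀).2
    set C : Finset (Fin w ⊕ Fin w') := Ds.filter (fun i => g i = g i₀) with hC
    have hCd : ∀ i ∈ C, Dom ξ (z i) ∧ g i = g i₀ := fun i hi =>
      ⟨(Finset.mem_filter.1 (Finset.mem_filter.1 hi).1).2, (Finset.mem_filter.1 hi).2⟩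
    have hθex : ∀ i : C, ∃ θ : K ≃ₐ[ℂ] K, (∀ f : fld ξ, θ f = (ρ i₀).symm (ρ i f)) ∧
        ∀ x : K, Alg (t : K) x → θ x = x := by
      intro i
      have hi := hCd i.1 i.2
      obtain ⟨θ, hθ1, hθ2⟩ := exists_ext hb
        (((ρ i₀).symm : K →ₐ[ℂ] K).comp ((ρ i.1 : K →ₐ[ℂ] K).comp (fld ξ).val)) (by
          intro f hf
          have h2 : g i.1 ⟨f, hf⟩ = g i₀ ⟨f, hf⟩ := congrFun hi.2 ⟨f, hf⟩
          have h3 : val ξ (z i.1) f = val ξ (z i₀) f := h2
          rw [(hρ i.1 hi.1).1 f, (hρ i₀ hd₀).1 f] at h3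
          change (ρ i₀).symm (ρ i.1 (f : K)) = f
          rw [h3, AlgEquiv.symm_apply_apply])
      exact ⟨θ, fun f => hθ1 f, hθ2⟩
    choose θ hθ1 hθ2 using hθex
    have hone := one_fibre h1 hb hδ W hgen (fun i : C => c i.1) θ hθ2 (by
      intro f hf
      have hs := sep t a z c (fibres t Γ Γ') (by
          rintro (i | i) hd
          · exact ⟨Γ.pts i, Or.inl ⟨i, rfl⟩, hd, rfl⟩
          · exact ⟨Γ'.pts i, Or.inr ⟨i, rfl⟩, hd, rfl⟩) U W hlin (by
          intro D₁ D₂ u hu f' hf'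
          rw [Fintype.sum_sum_type]
          simp only [hz, hc, Sum.elim_inl, Sum.elim_inr, Int.cast_one, one_mul, Int.cast_neg,
            neg_mul, Finset.sum_neg_distrib]
          rw [hnull D₁ D₂ u hu f' hf', add_neg_cancel])
        (g i₀) (cj (ρ i₀) δt) (cj (ρ i₀) δa) f hf
      have hs2 : ∑ i ∈ C, (c i : K) * form ξ t a (cj (ρ i₀) δt) (cj (ρ i₀) δa) f (z i) = 0 := by
        rw [← hs, ← Finset.sum_filter]
        refine Finset.sum_congr ?_ (fun _ _ => rfl)
        rw [hC, hDs, Finset.filter_filter]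
      have hs3 : ∀ i : C, (c i.1 : K) * form ξ t a (cj (ρ i₀) δt) (cj (ρ i₀) δa) f (z i.1) =
          ρ i₀ ((c i.1 : K) * (θ i (f : K) * δa (θ i (a : K)))) := by
        intro i
        have hi := hCd i.1 i.2
        have hv : ∀ x : fld ξ, val ξ (z i.1) x = ρ i₀ (θ i (x : K)) := by
          intro x
          rw [(hρ i.1 hi.1).1 x, hθ1 i x, AlgEquiv.apply_symm_apply]
        unfold form
        rw [hv f, hv t, hv a, cj_apply, cj_apply, cj_apply, cj_apply,
          hθ2 i (t : K) (alg_self _), hδ.1, hδ.2.2.1, map_zero, mul_zero, sub_zero, map_one,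
          one_mul, map_mul, map_mul, map_intCast]
      have hs4 : ρ i₀ (∑ i : C, (c i.1 : K) * (θ i (f : K) * δa (θ i (a : K)))) = 0 := by
        rw [map_sum, ← hs2, ← Finset.sum_coe_sort C]
        exact Finset.sum_congr rfl fun i _ => (hs3 i).symm
      exact (map_eq_zero_iff (ρ i₀) (ρ i₀).injective).1 hs4)
    have hact := act_sup (ρ i₀) hone
    have heq : act (ρ i₀) (∑ i : C, c i.1 • FreeAbelianGroup.of (fun j => θ i (ξ j))) =
        ∑ i ∈ C, F i := by
      rw [map_sum, ← Finset.sum_coe_sort C]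
      refine Finset.sum_congr rfl fun i _ => ?_
      rw [map_zsmul, act_of, hF]
      have h5 : (fun j => ρ i₀ (θ i (ξ j))) = fun j => ρ i.1 (ξ j) := by
        funext j
        have h6 := hθ1 i (crd ξ j)
        have h7 : ((crd ξ j : fld ξ) : K) = ξ j := rfl
        rw [h7] at h6
        rw [h6, AlgEquiv.apply_symm_apply]
      rw [h5]
    rw [heq] at hact
    exact hact
  have hstep3 : ∑ i ∈ Ds, F i ∈ KRat ξ ⊔ ND ξ := by
    rw [← Finset.sum_fiberwise_of_maps_to (t := Ds.image g) (g := g)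
      (fun i hi => Finset.mem_image_of_mem g hi)]
    refine AddSubgroup.sum_mem _ fun y hy => ?_
    obtain ⟨i₀, hi₀, rfl⟩ := Finset.mem_image.1 hy
    exact hstep2 i₀ hi₀
  rw [hcy]
  have hfin := AddSubgroup.add_mem _ hstep1 hstep3
  rwa [sub_add_cancel] at hfin

end Pool.Agent.FibC
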