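import Pool.Agent.FibC.KMain
import Pool.Agent.FibC.Frame
import Pool.Agent.FibC.Aut2

/-! The main theorem. -/

set_option autoImplicit false

namespace Pool.Agent.FibC

theorem main : MainStatement := by
  intro N K _ _ _ ξ t a h1 hb
  obtain ⟨δt, δa, hδ⟩ := exists_ders hb
  refine ⟨δt, δa, hδ, ?_⟩
  intro U W hgen w w' Γ Γ' hlin hnull
  exact kills_of_mem h1 (alg_fld hb) Γ Γ' (kmain h1 hb hδ U W hgen Γ Γ' hlin hnull)

end Pool.Agent.FibC
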