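import Pool.Agent.FibC.Unram
import Pool.Agent.LowDeg.Residue
import Pool.Agent.LowDeg.LocalDer

/-! Module P12: the residue theorem. -/

set_option autoImplicit false
set_option linter.unusedVariables false

open Polynomial IntermediateField

namespace Pool.Agent.FibC

open Pool.Agent.LowDeg

variable {k K L : Type} [Field k] [IsAlgClosed k] [CharZero k] [Field K] [IsAlgClosed K] [CharZero K]
  [Field L] [Algebra k K] [Algebra k L] {a : L} {D : Derivation k K K} (M : Model k K L a D)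

namespace ResAux

open LocalDerAux

omit [IsAlgClosed k] [CharZero k] [IsAlgClosed K] [CharZero K] in
lemma hD (c : K) : ∃ c' : K, M.DE (algebraMap K M.E c) = algebraMap K M.E c' :=
  ⟨D c, M.DE_K c⟩

omit [IsAlgClosed k] [CharZero k] in
lemma halg : ∀ x : M.E, Transcendental K x → Algebra.IsAlgebraic K⟮x⟯ M.E :=
  fun x hx => (algebraic_of_transcendental (M.j a) M.trans x hx).1

omit [IsAlgClosed k] [CharZero k] [IsAlgClosed K] [CharZero K] in
lemma sub_ne (c : K) : M.j a - algebraMap K M.E c ≠ 0 := by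
  intro h
  exact M.trans (by rw [sub_eq_zero.1 h]; exact isAlgebraic_algebraMap c)

omit [IsAlgClosed k] [CharZero k] in
/-- the logarithmic derivative at a place with the uniformiser `j a - c` -/
lemma val_log {P : Place K M.E} {c : K} (h : P.ord (M.j a - algebraMap K M.E c) = 1)
    (φ : M.E) (hφ : φ ≠ 0) :
    P.IsVal ((M.j a - algebraMap K M.E c) * (M.DE φ / φ)) (-((P.ord φ : K) * D c)) := by
  set t : M.E := M.j a - algebraMap K M.E c with ht
  have ht0 : t ≠ 0 := sub_ne M c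
  have htsm : P.Sm t := Or.inr (by omega)
  have hDt : M.DE t = algebraMap K M.E (-D c) := by
    rw [ht, map_sub, M.DE_L, M.DE_K, map_neg, zero_sub]
  have hDt' : P.Int (M.DE t) := by rw [hDt]; exact P.int_const _
  have hint : ∀ x, P.Int x → P.Int (M.DE x) := fun x hx =>
    ord_der_ge P (halg M) M.DE (hD M) t h ht0 0 le_rfl hDt' x hx
  have hpos : ∀ x, x ≠ 0 → 0 ≤ P.ord x → P.IsVal (t * (M.DE x / x)) (-((P.ord x : K) * D c)) := by
    intro x hx hord
    obtain ⟨e, he⟩ : ∃ e : ℕ, (e : ℤ) = P.ord x := ⟨(P.ord x).toNat, Int.toNat_of_nonneg hord⟩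
    have hp : t ^ e ≠ 0 := pow_ne_zero _ ht0
    have hu0 : x / t ^ e ≠ 0 := div_ne_zero hx hp
    have hordu : P.ord (x / t ^ e) = 0 := by
      rw [P.ord_div hx hp, P.ord_pow ht0, h, ← he]; ring
    have hx' : x = t ^ e * (x / t ^ e) := by field_simp
    have h1 : M.DE x / x = e * (M.DE t / t) + M.DE (x / t ^ e) / (x / t ^ e) := by
      conv_lhs => rw [hx']
      rw [log_mul M.DE hp hu0, log_pow M.DE ht0]
    have h2 : t * (M.DE x / x) =
        algebraMap K M.E (-((P.ord x : K) * D c)) + t * (M.DE (x / t ^ e) / (x / t ^ e)) := by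
      rw [h1, ← he, Int.cast_natCast, mul_add]
      congr 1
      rw [map_neg, map_mul, map_natCast, mul_left_comm, mul_div_cancel₀ _ ht0, hDt, map_neg]
      ring
    have h3 : P.Sm (t * (M.DE (x / t ^ e) / (x / t ^ e))) := by
      refine htsm.mul_int ?_
      rw [div_eq_mul_inv (M.DE (x / t ^ e))]
      exact (hint _ (Or.inr hordu.ge)).mul (Or.inr (by rw [P.ord_inv, hordu]; simp))
    rw [h2]
    have h4 := (P.isVal_const (-((P.ord x : K) * D c))).add (Place.isVal_zero_iff.2 h3)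
    rwa [add_zero] at h4
  rcases le_total 0 (P.ord φ) with h0 | h0
  · exact hpos φ hφ h0
  · have h2 := (hpos φ⁻¹ (inv_ne_zero hφ) (by rw [P.ord_inv]; omega)).neg
    rw [log_inv M.DE hφ, P.ord_inv] at h2
    have e1 : -(t * -(M.DE φ / φ)) = t * (M.DE φ / φ) := by ring
    have e2 : -(-(((-P.ord φ : ℤ) : K) * D c)) = -((P.ord φ : K) * D c) := by push_cast; ring
    rwa [e1, e2] at h2

/-- the places trivial on `L` -/
lemma val_triv (ha : Transcendental k a) [FiniteDimensional k⟮a⟯ L] (φ : M.E) (hφ : φ ≠ 0) (u : L)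
    {P : Place K M.E} {w : L → K} (hP : M.Triv P w) :
    P.IsVal ((M.j a - algebraMap K M.E (w a)) * (M.DE φ / φ * M.j u))
      (-((P.ord φ : K) * D (w a)) * w u) := by
  obtain ⟨b', hb', -⟩ := exists_dual (Module.finBasis k⟮a⟯ L)
  have h1 := (unram M ha (Module.finBasis k⟮a⟯ L) b' hb' hP).1
  rw [← mul_assoc]
  exact (val_log M h1 φ hφ).mul (hP u)

/-- a place over a nonunit `j x`, `x` in `L` -/
lemma int_log {P : Place K M.E} {x : L} (hx : x ≠ 0) (h : P.Sm (M.j x)) (φ : M.E) (hφ : φ ≠ 0) :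
    P.Int (M.DE φ / φ) := by
  refine (der_log_int P (halg M) M.DE (hD M) (M.j x) ?_ h ⟨0, ?_⟩).1 φ hφ
  · exact (map_ne_zero M.j).2 hx
  · rw [M.DE_L, map_zero, zero_mul]

/-- the finite places not trivial on `L` -/
lemma sm_fin (ha : Transcendental k a) [FiniteDimensional k⟮a⟯ L] (φ : M.E) (hφ : φ ≠ 0) (u : L)
    (hu : RegL k a u) {P : Place K M.E} {c : K} (hP : ¬ M.IsTriv P) (hc : P.IsVal (M.j a) c) :
    P.Sm ((M.j a - algebraMap K M.E c) * (M.DE φ / φ * M.j u)) := by
  have h1 : c ∈ Set.range (algebraMap k K) := by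
    by_contra h
    exact hP ((triv_iff M ha hc).2 h)
  obtain ⟨c₁, rfl⟩ := h1
  have h2 : M.j a - algebraMap K M.E (algebraMap k K c₁) = M.j (a - algebraMap k L c₁) := by
    rw [map_sub, M.comm]
  have h3 : a - algebraMap k L c₁ ≠ 0 := by
    intro h
    exact ha (by rw [sub_eq_zero.1 h]; exact isAlgebraic_algebraMap c₁)
  have h4 : P.Sm (M.j (a - algebraMap k L c₁)) := by rw [← h2]; exact hc
  obtain ⟨P₀, -, hP₀⟩ := (triv_or M ha P).resolve_left hP
  have h5 := (hP₀ _).1 ((hu P₀).1 c₁ ((hP₀ _).2 h4))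
  have h6 : (M.j a - algebraMap K M.E (algebraMap k K c₁)) * (M.DE φ / φ * M.j u) =
      M.j ((a - algebraMap k L c₁) * u) * (M.DE φ / φ) := by
    rw [h2, map_mul]; ring
  rw [h6]
  exact h5.mul_int (int_log M h3 h4 φ hφ)

/-- the infinite places -/
lemma sm_inf (ha : Transcendental k a) [FiniteDimensional k⟮a⟯ L] (φ : M.E) (hφ : φ ≠ 0) (u : L)
    (hu : RegL k a u) {P : Place K M.E} (hP : ¬ P.Int (M.j a)) :
    P.Sm (M.j a * (M.DE φ / φ * M.j u)) := by
  have h1 : ¬ M.IsTriv P := by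
    rintro ⟨w, hw⟩
    exact hP (hw a).int
  have ha0 : a ≠ 0 := fun h => ha (by rw [h]; exact isAlgebraic_zero)
  obtain ⟨P₀, hP₁, hP₂⟩ := (triv_or M ha P).resolve_left h1
  have h4 : P.Sm (M.j a⁻¹) := by
    rw [map_inv₀]; exact Place.sm_inv_of_not_int hP
  have h5 := (hP₂ _).1 ((hu P₀).2 (fun h => hP ((hP₁ a).1 h)))
  have h6 : M.j a * (M.DE φ / φ * M.j u) = M.j (a * u) * (M.DE φ / φ) := by
    rw [map_mul]; ring
  rw [h6]
  exact h5.mul_int (int_log M (inv_ne_zero ha0) h4 φ hφ)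

end ResAux

/-- PROOF: `LowDeg.residue_sum` for `θ = (DE φ / φ) j(u)` and the set `S`, `c P = v P a`,
`ρ P = - ord_P(φ) D(v P a) v_P(u)`, and `ord_P (j a - c_P) = 1` (`unram`).
(1) `P` trivial on `L`, `t = j a - c_P`, a uniformiser, `DE t = - D(c_P) ∈ K`: by
`LowDeg.ord_der_ge` (with `ρ = 0`) `DE` preserves integrality at `P`; write `φ = t^n ψ`,
`n = ord_P φ`, `ψ` a unit: `t DE φ / φ = n DE t + t DE ψ / ψ` has the value `- n D(c_P)`. In
particular `(a - c_P) θ` has the value `ρ P`, and vanishes if `n = 0`.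
(2) finite `P` not trivial on `L`: `a` has the value `c₀ ∈ k` (`triv_iff`), `t = j a - c₀`,
`DE t = 0 = 0 · t`, so `DE φ / φ` is integral (`LowDeg.der_log_int`) and `(a - c₀) u` vanishes at `P`
(`triv_or` and `hu`).
(3) infinite `P`: the same with `t = 1 / j a`, and `a u` vanishes at `P`.
(`halg` for `LowDeg.ord_der_ge`: `LowDeg.algebraic_of_transcendental`.) -/
theorem res (ha : Transcendental k a) [FiniteDimensional k⟮a⟯ L] (φ : M.E) (hφ : φ ≠ 0) (u : L)
    (hu : RegL k a u) (S : Finset (Place K M.E))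
    (hS : ∀ P, P ∈ S ↔ M.IsTriv P ∧ P.ord φ ≠ 0) (v : Place K M.E → L → K)
    (hv : ∀ P ∈ S, M.Triv P (v P)) :
    ∑ P ∈ S, (P.ord φ : K) * (v P u * D (v P a)) = 0 := by
  classical
  have h1 := residue_sum (M.j a) M.trans (M.DE φ / φ * M.j u) S (fun P => v P a)
    (fun P => -((P.ord φ : K) * D (v P a)) * v P u)
    (fun P hP => ⟨hv P hP a, ResAux.val_triv M ha φ hφ u (hv P hP)⟩)
    (by
      intro P hPS c₀ hc₀
      by_cases hT : M.IsTriv P
      · obtain ⟨w, hw⟩ := hT
        have h0 : P.ord φ = 0 := by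
          by_contra h
          exact hPS ((hS P).2 ⟨⟨w, hw⟩, h⟩)
        have h2 := ResAux.val_triv M ha φ hφ u hw
        rw [(hw a).unique hc₀, h0, Int.cast_zero, zero_mul, neg_zero, zero_mul,
          Place.isVal_zero_iff] at h2
        exact h2
      · exact ResAux.sm_fin M ha φ hφ u hu hT hc₀)
    (fun P hP => ResAux.sm_inf M ha φ hφ u hu hP)
  have h2 : ∀ P ∈ S, (P.ord (M.j a - algebraMap K M.E (v P a)) : K) *
      (-((P.ord φ : K) * D (v P a)) * v P u) = -((P.ord φ : K) * (v P u * D (v P a))) := by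
    intro P hP
    obtain ⟨b', hb', -⟩ := exists_dual (Module.finBasis k⟮a⟯ L)
    rw [(unram M ha (Module.finBasis k⟮a⟯ L) b' hb' (hv P hP)).1]
    push_cast
    ring
  rw [Finset.sum_congr rfl h2, Finset.sum_neg_distrib, neg_eq_zero] at h1
  exact h1

end Pool.Agent.FibC
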