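import Pool.Agent.FibC.Dual
import Pool.Agent.FibC.Res

/-! Module P13: the minimal degree argument. -/

set_option autoImplicit false
set_option linter.unusedVariables false

open Polynomial IntermediateField

namespace Pool.Agent.FibC

open Pool.Agent.LowDeg

variable {k K L : Type} [Field k] [IsAlgClosed k] [CharZero k] [Field K] [IsAlgClosed K] [CharZero K]
  [Field L] [Algebra k K] [Algebra k L] {a : L} {D : Derivation k K K} (M : Model k K L a D)

namespace MinDegAux

/-- the order of a product -/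
lemma ord_prod {K E : Type} [Field K] [Field E] [Algebra K E] (P : Place K E) {ι : Type*}
    (s : Finset ι) (f : ι → E) (hf : ∀ i ∈ s, f i ≠ 0) :
    P.ord (∏ i ∈ s, f i) = ∑ i ∈ s, P.ord (f i) := by
  classical
  induction s using Finset.induction_on with
  | empty => simpa using P.ord_one
  | insert i s hi ih =>
    rw [Finset.prod_insert hi, Finset.sum_insert hi,
      P.ord_mul _ _ (hf i (Finset.mem_insert_self i s))
        (Finset.prod_ne_zero_iff.2 fun j hj => hf j (Finset.mem_insert_of_mem hj)),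
      ih fun j hj => hf j (Finset.mem_insert_of_mem hj)]

lemma j_ne (c : K) : M.j a - algebraMap K M.E c ≠ 0 := by
  intro h
  have h1 : M.j a = algebraMap K M.E c := sub_eq_zero.1 h
  exact M.trans (h1 ▸ isAlgebraic_algebraMap c)

lemma triv_int {P : Place K M.E} (hP : M.IsTriv P) : P.Int (M.j a) := by
  obtain ⟨v, hv⟩ := hP
  exact (hv a).int

/-- the uniformiser at a place trivial on `L` -/
lemma ord_unif (ha : Transcendental k a) [FiniteDimensional k⟮a⟯ L] {P : Place K M.E} {v : L → K}
    (hP : M.Triv P v) : P.ord (M.j a - algebraMap K M.E (v a)) = 1 := by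
  obtain ⟨b', hb', -⟩ := exists_dual (Module.finBasis k⟮a⟯ L)
  exact (unram M ha (Module.finBasis k⟮a⟯ L) b' hb' hP).1

open scoped Classical in
/-- the defect of `φ` -/
noncomputable def mm (nn : Place K M.E → ℤ) (φ : M.E) (P : Place K M.E) : ℤ :=
  if M.IsTriv P then nn P - P.ord φ else 0

lemma mm_supp (nn : Place K M.E → ℤ) (hnn : (Function.support nn).Finite) {φ : M.E} (hφ : φ ≠ 0) :
    (Function.support (mm M nn φ)).Finite := by
  refine Set.Finite.subset (hnn.union (finite_zeros (M.j a) M.trans φ hφ)) ?_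
  intro P hP
  rw [Function.mem_support] at hP
  unfold mm at hP
  by_contra h
  rw [Set.mem_union, not_or] at h
  have h1 : nn P = 0 := by simpa using h.1
  have h2 : P.ord φ = 0 := by simpa using h.2
  apply hP
  split_ifs <;> simp [h1, h2]

/-- one step of the descent -/
lemma step (ha : Transcendental k a) [FiniteDimensional k⟮a⟯ L]
    (hD : ∀ x : K, D x = 0 → ∃ c : k, x = algebraMap k K c)
    (nn : Place K M.E → ℤ) (J : Finset (Place K M.E)) (hJ : ∀ P ∈ J, M.IsTriv P)
    (hJ0 : ∀ P, P ∉ J → nn P = 0)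
    (v : Place K M.E → L → K) (hv : ∀ P, M.IsTriv P → M.Triv P (v P))
    (hrel : ∀ u : L, RegL k a u → ∑ P ∈ J, (nn P : K) * (v P u * D (v P a)) = 0)
    {φ : M.E} (hφ : φ ≠ 0) (hpos : ∀ P, 0 ≤ mm M nn φ P) {P0 : Place K M.E}
    (hP0 : mm M nn φ P0 ≠ 0) :
    ∃ φ' : M.E, φ' ≠ 0 ∧ (∀ P, 0 ≤ mm M nn φ' P) ∧
      ∑ᶠ P, mm M nn φ' P < ∑ᶠ P, mm M nn φ P := by
  classical
  have hnn : (Function.support nn).Finite := by
    refine Set.Finite.subset J.finite_toSet ?_
    intro P hP
    by_contra h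
    exact hP (hJ0 P h)
  have hfin := mm_supp M nn hnn hφ
  -- the support of the defect
  set J' : Finset (Place K M.E) := hfin.toFinset with hJ'
  have hmem : ∀ P, P ∈ J' ↔ mm M nn φ P ≠ 0 := by
    intro P
    rw [hJ', Set.Finite.mem_toFinset, Function.mem_support]
  have hJ't : ∀ P ∈ J', M.IsTriv P := by
    intro P hP
    by_contra h
    exact (hmem P).1 hP (by unfold mm; rw [if_neg h])
  have hmv : ∀ P ∈ J', mm M nn φ P = nn P - P.ord φ := by
    intro P hP
    unfold mm
    rw [if_pos (hJ't P hP)]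
  -- the relation
  set S1 : Finset (Place K M.E) :=
    (finite_zeros (M.j a) M.trans φ hφ).toFinset.filter (fun P => M.IsTriv P) with hS1
  have hS1m : ∀ P, P ∈ S1 ↔ M.IsTriv P ∧ P.ord φ ≠ 0 := by
    intro P
    rw [hS1, Finset.mem_filter, Set.Finite.mem_toFinset, and_comm]
    rfl
  have hrel' : ∀ u : L, RegL k a u →
      ∑ P ∈ J', ((mm M nn φ P : K) * D (v P a)) * v P u = 0 := by
    intro u hu
    have h1 := hrel u hu
    have h2 := res M ha φ hφ u hu S1 hS1m v (fun P hP => hv P ((hS1m P).1 hP).1)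
    have h3 : ∑ P ∈ J ∪ S1, (nn P : K) * (v P u * D (v P a)) = 0 := by
      rw [← h1]
      symm
      refine Finset.sum_subset Finset.subset_union_left ?_
      intro P _ hP
      rw [hJ0 P hP]
      simp
    have h4 : ∑ P ∈ J ∪ S1, (P.ord φ : K) * (v P u * D (v P a)) = 0 := by
      rw [← h2]
      symm
      refine Finset.sum_subset Finset.subset_union_right ?_
      intro P hP hP1
      have h5 : P ∈ J := (Finset.mem_union.1 hP).resolve_right hP1
      have h6 : P.ord φ = 0 := by
        by_contra h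
        exact hP1 ((hS1m P).2 ⟨hJ P h5, h⟩)
      rw [h6]
      simp
    have h7 : J' ⊆ J ∪ S1 := by
      intro P hP
      by_contra h
      rw [Finset.mem_union, not_or] at h
      have h8 : P.ord φ = 0 := by
        by_contra h9
        exact h.2 ((hS1m P).2 ⟨hJ't P hP, h9⟩)
      exact (hmem P).1 hP (by rw [hmv P hP, hJ0 P h.1, h8]; rfl)
    have h10 : ∑ P ∈ J', ((mm M nn φ P : K) * D (v P a)) * v P u =
        ∑ P ∈ J ∪ S1, ((nn P : K) * (v P u * D (v P a)) -
          (P.ord φ : K) * (v P u * D (v P a))) := by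
      have h11 : ∑ P ∈ J', ((mm M nn φ P : K) * D (v P a)) * v P u =
          ∑ P ∈ J', ((nn P : K) * (v P u * D (v P a)) -
          (P.ord φ : K) * (v P u * D (v P a))) := by
        refine Finset.sum_congr rfl fun P hP => ?_
        rw [hmv P hP]
        push_cast
        ring
      rw [h11]
      refine Finset.sum_subset h7 ?_
      intro P hP hP1
      have h12 : M.IsTriv P := by
        rcases Finset.mem_union.1 hP with h | h
        · exact hJ P h
        · exact ((hS1m P).1 h).1
      have h13 : mm M nn φ P = 0 := by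
        by_contra h
        exact hP1 ((hmem P).2 h)
      unfold mm at h13
      rw [if_pos h12, sub_eq_zero] at h13
      rw [h13, sub_self]
    rw [h10, Finset.sum_sub_distrib, h3, h4, sub_zero]
  -- the function with simple poles
  obtain ⟨h, hint, hval⟩ := exists_poles M ha J' v (fun P hP => hv P (hJ't P hP))
    (fun P => (mm M nn φ P : K) * D (v P a)) hrel'
  have hr : ∀ P ∈ J', ((mm M nn φ P : K) * D (v P a)) ≠ 0 := by
    intro P hP
    refine mul_ne_zero (Int.cast_ne_zero.2 ((hmem P).1 hP)) ?_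
    intro h0
    obtain ⟨c, hc⟩ := hD _ h0
    exact (triv_iff M ha (hv P (hJ't P hP) a)).1 (hJ't P hP) ⟨c, hc.symm⟩
  have hord : ∀ P ∈ J', h ≠ 0 ∧ P.ord h = -1 := by
    intro P hP
    have h1 := hval P hP
    have h2 := h1.ord_eq_zero (hr P hP)
    have h3 := h1.ne_zero (hr P hP)
    have h4 : h ≠ 0 := right_ne_zero_of_mul h3
    rw [P.ord_mul _ _ (j_ne M _) h4, ord_unif M ha (hv P (hJ't P hP))] at h2
    exact ⟨h4, by omega⟩
  obtain ⟨Q, hQ⟩ := (exists_place_val (M.j a) M.trans (M.j a) M.trans).2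
  have hQt : ¬ M.IsTriv Q := fun h => hQ (triv_int M h)
  have hQJ : Q ∉ J' := fun h => hQt (hJ't Q h)
  obtain ⟨η, hη⟩ := (hint Q hQJ).exists_isVal
  set ψ : M.E := h - algebraMap K M.E η with hψ
  have hordψ : ∀ P ∈ J', ψ ≠ 0 ∧ P.ord ψ = -1 := by
    intro P hP
    obtain ⟨h1, h2⟩ := hord P hP
    by_cases hη0 : η = 0
    · rw [hψ, hη0, map_zero, sub_zero]
      exact ⟨h1, h2⟩
    · have h3 : -(algebraMap K M.E η) ≠ 0 := by
        rw [neg_ne_zero]
        exact (_root_.map_ne_zero (algebraMap K M.E)).2 hη0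
      have h4 : P.ord (-(algebraMap K M.E η)) = 0 := by
        rw [P.ord_neg]
        exact P.ord_const η hη0
      have h5 := Place.ord_add_eq_of_lt (P := P) h1 h3 (by rw [h2, h4]; norm_num)
      rw [hψ, sub_eq_add_neg]
      exact ⟨h5.1, h5.2.trans h2⟩
  have hP0J : P0 ∈ J' := (hmem P0).2 hP0
  have hψ0 : ψ ≠ 0 := (hordψ P0 hP0J).1
  have hψint : ∀ P, P ∉ J' → 0 ≤ P.ord ψ := by
    intro P hP
    have h1 : P.Int ψ := (hint P hP).sub (P.int_const η)
    exact (Place.int_iff_ord hψ0).1 h1
  have hψQ : 1 ≤ Q.ord ψ := by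
    have h1 : Q.Sm ψ := hη
    have h2 := (Place.sm_iff_ord hψ0).1 h1
    omega
  have hdiv : φ / ψ ≠ 0 := div_ne_zero hφ hψ0
  have hmm : ∀ P, mm M nn (φ / ψ) P = mm M nn φ P + (if M.IsTriv P then P.ord ψ else 0) := by
    intro P
    unfold mm
    split_ifs with hP
    · rw [P.ord_div hφ hψ0]
      ring
    · ring
  refine ⟨φ / ψ, hdiv, ?_, ?_⟩
  · intro P
    rw [hmm P]
    by_cases hP : P ∈ J'
    · rw [if_pos (hJ't P hP), (hordψ P hP).2]
      have h1 := hpos P
      have h2 := (hmem P).1 hP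
      omega
    · have h1 := hpos P
      have h2 := hψint P hP
      split_ifs <;> omega
  · have hz := finite_zeros (M.j a) M.trans ψ hψ0
    have hsup : (Function.support fun P : Place K M.E =>
        if M.IsTriv P then P.ord ψ else 0).Finite := by
      refine Set.Finite.subset hz ?_
      intro P hP
      rw [Function.mem_support] at hP
      intro h0
      apply hP
      split_ifs
      · exact h0
      · rfl
    have hsum : ∑ᶠ P, mm M nn (φ / ψ) P = ∑ᶠ P, mm M nn φ P +
        ∑ᶠ P : Place K M.E, (if M.IsTriv P then P.ord ψ else 0) := by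
      rw [← finsum_add_distrib hfin hsup]
      exact finsum_congr hmm
    have htot : ∑ P ∈ hz.toFinset, P.ord ψ = 0 :=
      sum_ord_zero (M.j a) M.trans ψ hz.toFinset (fun P hP => hz.mem_toFinset.2 hP)
    have hfs : ∑ᶠ P : Place K M.E, (if M.IsTriv P then P.ord ψ else 0) =
        ∑ P ∈ hz.toFinset, (if M.IsTriv P then P.ord ψ else 0) := by
      refine finsum_eq_sum_of_support_subset _ ?_
      intro P hP
      rw [Function.mem_support] at hP
      rw [Set.Finite.coe_toFinset]
      intro h0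
      apply hP
      split_ifs
      · exact h0
      · rfl
    have hsplit : ∑ P ∈ hz.toFinset, P.ord ψ =
        ∑ P ∈ hz.toFinset, (if M.IsTriv P then P.ord ψ else 0) +
        ∑ P ∈ hz.toFinset, (if M.IsTriv P then 0 else P.ord ψ) := by
      rw [← Finset.sum_add_distrib]
      refine Finset.sum_congr rfl fun P _ => ?_
      split_ifs <;> simp
    have hge : 1 ≤ ∑ P ∈ hz.toFinset, (if M.IsTriv P then 0 else P.ord ψ) := by
      have hnonneg : ∀ P ∈ hz.toFinset, 0 ≤ (if M.IsTriv P then 0 else P.ord ψ) := by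
        intro P _
        split_ifs with hP
        · exact le_rfl
        · exact hψint P (fun h => hP (hJ't P h))
      have hQm : Q ∈ hz.toFinset := hz.mem_toFinset.2 (by
        show Q.ord ψ ≠ 0
        omega)
      have h1 := Finset.single_le_sum hnonneg hQm
      rw [if_neg hQt] at h1
      omega
    rw [hsum, hfs]
    omega

end MinDegAux

open MinDegAux

/-- A divisor `n` of places trivial on `L` which is orthogonal to the regular differentials is, on
these places, the divisor of a function.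

PROOF: for `φ ≠ 0` let `m_φ(P) = n P - ord_P φ` (`P` trivial on `L`), a function with finite support.
CLAIM: if `m_φ ≥ 0` and `m_φ ≠ 0` there is `φ' ≠ 0` with `m_φ' ≥ 0` and `∑ m_φ' < ∑ m_φ`. Then start
with `φ = ∏_{P ∈ J} (j a - v_P(a))^(- |n P|)` (its order at a place trivial on `L` is `≤ 0`, and
`≤ - |n P|` at `P ∈ J` ) and use induction on `∑ m_φ`.
PROOF OF THE CLAIM: `J' = ` support of `m_φ`. By `res` and `hrel`,
`∑_{P ∈ J'} m_φ(P) v_P(u) D(v_P(a)) = 0` for all `u` with `RegL k a u`. Let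
`r P = m_φ(P) D(v_P(a)) ≠ 0` (`v_P(a) ∉ k` by `triv_iff`, `hD`, characteristic zero). By
`exists_poles` there is `h`, integral outside `J'`, with `(a - v_P(a)) h` of value `r P` at
`P ∈ J'`, so `ord_P h = -1` (`unram`). Let `Q` be an infinite place (`exists_place_val`), `η` the
value of `h` at `Q` (`Q ∉ J'` by `not_triv_of`), `ψ = h - η ≠ 0`, `φ' = φ / ψ`. Then
`m_φ' = m_φ + ord ψ ≥ 0`, and `∑ m_φ' - ∑ m_φ = ∑_{P trivial on L} ord_P ψ = - ∑_{other P} ord_P ψ ≤ - 1`
by `sum_ord_zero` (`ord_P ψ ≥ 0` for `P ∉ J'`, and `ord_Q ψ ≥ 1`). -/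
theorem exists_div (ha : Transcendental k a) [FiniteDimensional k⟮a⟯ L]
    (hD : ∀ x : K, D x = 0 → ∃ c : k, x = algebraMap k K c)
    (J : Finset (Place K M.E)) (v : Place K M.E → L → K) (hv : ∀ P ∈ J, M.Triv P (v P))
    (n : Place K M.E → ℤ)
    (hrel : ∀ u : L, RegL k a u → ∑ P ∈ J, (n P : K) * (v P u * D (v P a)) = 0) :
    ∃ φ : M.E, φ ≠ 0 ∧ (∀ P ∈ J, P.ord φ = n P) ∧
      ∀ P, M.IsTriv P → P ∉ J → P.ord φ = 0 := by
  classical
  set nn : Place K M.E → ℤ := fun P => if P ∈ J then n P else 0 with hnn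
  set v' : Place K M.E → L → K := fun P => if h : M.IsTriv P then h.choose else fun _ => 0
    with hv'
  have hv't : ∀ P, M.IsTriv P → M.Triv P (v' P) := by
    intro P hP
    rw [hv']
    simp only
    rw [dif_pos hP]
    exact hP.choose_spec
  have hJt : ∀ P ∈ J, M.IsTriv P := fun P hP => ⟨v P, hv P hP⟩
  have hvv : ∀ P ∈ J, ∀ x, v' P x = v P x := by
    intro P hP x
    exact (hv't P (hJt P hP) x).unique (hv P hP x)
  have hJ0 : ∀ P, P ∉ J → nn P = 0 := by
    intro P hP
    rw [hnn]
    simp only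
    rw [if_neg hP]
  have hrel' : ∀ u : L, RegL k a u → ∑ P ∈ J, (nn P : K) * (v' P u * D (v' P a)) = 0 := by
    intro u hu
    rw [← hrel u hu]
    refine Finset.sum_congr rfl fun P hP => ?_
    rw [hvv P hP u, hvv P hP a, hnn]
    simp only
    rw [if_pos hP]
  have hnf : (Function.support nn).Finite := by
    refine Set.Finite.subset J.finite_toSet ?_
    intro P hP
    by_contra h
    exact hP (hJ0 P h)
  -- the induction
  have ind : ∀ N : ℕ, ∀ φ : M.E, φ ≠ 0 → (∀ P, 0 ≤ mm M nn φ P) → ∑ᶠ P, mm M nn φ P ≤ N →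
      ∃ φ' : M.E, φ' ≠ 0 ∧ ∀ P, mm M nn φ' P = 0 := by
    intro N
    induction N with
    | zero =>
      intro φ hφ hpos hle
      refine ⟨φ, hφ, fun P => ?_⟩
      have h1 : mm M nn φ P ≤ ∑ᶠ P, mm M nn φ P :=
        single_le_finsum P (mm_supp M nn hnf hφ) hpos
      have h2 := hpos P
      push_cast at hle
      omega
    | succ N ih =>
      intro φ hφ hpos hle
      by_cases hall : ∀ P, mm M nn φ P = 0
      · exact ⟨φ, hφ, hall⟩
      · push Not at hall
        obtain ⟨P0, hP0⟩ := hall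
        obtain ⟨φ', h1, h2, h3⟩ := step M ha hD nn J hJt hJ0 v' hv't hrel' hφ hpos hP0
        refine ih φ' h1 h2 ?_
        push_cast at hle
        omega
  -- the start
  set φ0 : M.E := (∏ P ∈ J, (M.j a - algebraMap K M.E (v P a)) ^ (n P).natAbs)⁻¹ with hφ0
  have hne : ∀ P ∈ J, (M.j a - algebraMap K M.E (v P a)) ^ (n P).natAbs ≠ 0 :=
    fun P _ => pow_ne_zero _ (j_ne M _)
  have hφ00 : φ0 ≠ 0 := inv_ne_zero (Finset.prod_ne_zero_iff.2 hne)
  have hord0 : ∀ P0 : Place K M.E, P0.ord φ0 =
      -∑ P ∈ J, ((n P).natAbs : ℤ) * P0.ord (M.j a - algebraMap K M.E (v P a)) := by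
    intro P0
    rw [hφ0, P0.ord_inv, ord_prod P0 J _ hne]
    congr 1
    exact Finset.sum_congr rfl fun P _ => P0.ord_pow (j_ne M _) _
  have hpos0 : ∀ P, 0 ≤ mm M nn φ0 P := by
    intro P0
    unfold mm
    split_ifs with hP0
    · have hnn0 : ∀ P ∈ J, 0 ≤ ((n P).natAbs : ℤ) *
          P0.ord (M.j a - algebraMap K M.E (v P a)) := by
        intro P hP
        refine mul_nonneg (by positivity) ?_
        exact (Place.int_iff_ord (j_ne M _)).1
          ((triv_int M hP0).sub (P0.int_const _))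
      rw [hord0 P0]
      by_cases hP0J : P0 ∈ J
      · have h1 := Finset.single_le_sum hnn0 hP0J
        rw [ord_unif M ha (hv P0 hP0J)] at h1
        have h2 : nn P0 = n P0 := by
          rw [hnn]
          simp only
          rw [if_pos hP0J]
        rw [h2]
        have h3 : -((n P0).natAbs : ℤ) ≤ n P0 := by omega
        linarith
      · rw [hJ0 P0 hP0J]
        have := Finset.sum_nonneg hnn0
        linarith
    · exact le_rfl
  obtain ⟨φ, hφ, hall⟩ := ind (∑ᶠ P, mm M nn φ0 P).toNat φ0 hφ00 hpos0 (Int.self_le_toNat _)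
  refine ⟨φ, hφ, ?_, ?_⟩
  · intro P hP
    have h1 := hall P
    unfold mm at h1
    rw [if_pos (hJt P hP), hnn] at h1
    simp only at h1
    rw [if_pos hP] at h1
    omega
  · intro P hP hPJ
    have h1 := hall P
    unfold mm at h1
    rw [if_pos hP, hJ0 P hPJ] at h1
    omega

end Pool.Agent.FibC
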