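import Pool.Agent.FibC.RegDual
import Pool.Agent.FibC.PlaceVal

/-! The function field `E = K(L)` of the curve over `K`: definitions -/

set_option autoImplicit false
set_option linter.unusedVariables false

open Polynomial IntermediateField

namespace Pool.Agent.FibC

open Pool.Agent.LowDeg

/-- `L / k` is a function field of one variable, `K / k` a field extension with a derivation `D` over
`k`; `E` is the compositum, with the derivation which extends `D` and is zero on `L`. -/
structure Model (k K L : Type) [Field k] [Field K] [Field L] [Algebra k K] [Algebra k L] (a : L)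
    (D : Derivation k K K) where
  E : Type
  [fE : Field E]
  [aE : Algebra K E]
  j : L →+* E
  comm : ∀ c : k, j (algebraMap k L c) = algebraMap K E (algebraMap k K c)
  trans : Transcendental K (j a)
  fin : FiniteDimensional K⟮j a⟯ E
  DE : Derivation ℤ E E
  DE_K : ∀ x : K, DE (algebraMap K E x) = algebraMap K E (D x)
  DE_L : ∀ x : L, DE (j x) = 0
  basis : ∀ {m : ℕ} (b : Module.Basis (Fin m) k⟮a⟯ L),
    ∃ bE : Module.Basis (Fin m) K⟮j a⟯ E, ∀ i, bE i = j (b i)
  trace : ∀ x : L, ((Algebra.trace K⟮j a⟯ E (j x) : K⟮j a⟯) : E) =
    j (Algebra.trace k⟮a⟯ L x : k⟮a⟯)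

attribute [instance] Model.fE Model.aE Model.fin

namespace Model

variable {k K L : Type} [Field k] [Field K] [Field L] [Algebra k K] [Algebra k L] {a : L}
  {D : Derivation k K K} (M : Model k K L a D)

/-- The place `P` restricts to the embedding `v` of `L` in `K`. -/
def Triv (P : Place K M.E) (v : L → K) : Prop := ∀ x : L, P.IsVal (M.j x) (v x)

/-- The place `P` is trivial on `L`. -/
def IsTriv (P : Place K M.E) : Prop := ∃ v, M.Triv P v

end Model

end Pool.Agent.FibC
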