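import Pool.Agent.FibC.PlaceSum

/-! Module P4: normal bases of Dedekind and Weber. -/

set_option autoImplicit false
set_option linter.unusedVariables false

open Polynomial IntermediateField

namespace Pool.Agent.FibC

open Pool.Agent.LowDeg

variable {k L : Type} [Field k] [Field L] [Algebra k L]

/-- A basis of the integral closure of `k[a]` whose leading coefficients at infinity are
independent. -/
structure IsNormal {a : L} {m : ℕ} (b : Module.Basis (Fin m) k⟮a⟯ L) (d : Fin m → ℕ) : Prop where
  int : ∀ i (P : Place k L), P.Int a → P.Int (b i)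
  repr : ∀ x : L, (∀ P : Place k L, P.Int a → P.Int x) → ∀ i, ∃ p : k[X],
    (b.repr x i : L) = aeval a p
  inf : ∀ i (P : Place k L), ¬ P.Int a → P.Int (b i / a ^ d i)
  indep : ∀ c : Fin m → k, (∀ P : Place k L, ¬ P.Int a →
    P.Int (a * ∑ i, algebraMap k L (c i) * (b i / a ^ d i))) → c = 0

variable [IsAlgClosed k] [CharZero k]

namespace NormalAux

lemma exchange {F V : Type} [Field F] [AddCommGroup V] [Module F V] {m : ℕ}
    (b : Module.Basis (Fin m) F V) (j : Fin m) (γ : Fin m → F) (hγ : γ j ≠ 0) :
    ∃ b' : Module.Basis (Fin m) F V, (∀ i, i ≠ j → b' i = b i) ∧ b' j = ∑ i, γ i • b i ∧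
      (∀ x, b'.repr x j = b.repr x j / γ j) ∧
      ∀ x i, i ≠ j → b'.repr x i = b.repr x i - γ i * (b.repr x j / γ j) := by
  classical
  let g : (Fin m → F) ≃ₗ[F] (Fin m → F) :=
    { toFun := fun x => Function.update x j (x j / γ j) - (x j / γ j) • Function.update γ j 0
      invFun := fun y => Function.update y j 0 + y j • γ
      map_add' := by
        intro x y
        ext i
        rcases eq_or_ne i j with rfl | h
        · simp [add_div]
        · simp [Function.update_of_ne h]; ring
      map_smul' := by
        intro r x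
        ext i
        rcases eq_or_ne i j with rfl | h
        · simp [mul_div_assoc]
        · simp [Function.update_of_ne h]; ring
      left_inv := by
        intro x
        ext i
        rcases eq_or_ne i j with rfl | h
        · simp [hγ]
        · simp [Function.update_of_ne h]
      right_inv := by
        intro y
        ext i
        rcases eq_or_ne i j with rfl | h
        · simp [hγ]
        · simp [Function.update_of_ne h, hγ] }
  have hsymm : ∀ y, g.symm y = Function.update y j 0 + y j • γ := fun _ => rfl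
  have hg : ∀ x, g x = Function.update x j (x j / γ j) - (x j / γ j) • Function.update γ j 0 :=
    fun _ => rfl
  let b' : Module.Basis (Fin m) F V := Module.Basis.ofEquivFun (b.equivFun ≪≫ₗ g)
  have hb' : ∀ i, b' i = b.equivFun.symm (g.symm (Pi.single i 1)) := by
    intro i
    rw [Module.Basis.coe_ofEquivFun]
    rfl
  have hr : ∀ x i, b'.repr x i = g (b.equivFun x) i := by
    intro x i
    rw [Module.Basis.ofEquivFun_repr_apply]
    rfl
  refine ⟨b', ?_, ?_, ?_, ?_⟩
  · intro i hi
    rw [hb', hsymm]
    have h1 : Function.update (Pi.single i (1 : F)) j 0 + (Pi.single i (1 : F) : Fin m → F) j • γ =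
        Pi.single i 1 := by
      rw [Pi.single_eq_of_ne (Ne.symm hi), zero_smul, add_zero]
      ext l
      rcases eq_or_ne l j with rfl | h
      · simp [Ne.symm hi]
      · simp [Function.update_of_ne h]
    rw [h1, Module.Basis.equivFun_symm_apply]
    simp [Pi.single_apply]
  · rw [hb', hsymm]
    have h1 : Function.update (Pi.single j (1 : F)) j 0 + (Pi.single j (1 : F) : Fin m → F) j • γ =
        γ := by
      ext l
      rcases eq_or_ne l j with rfl | h
      · simp
      · simp [h]
    rw [h1, Module.Basis.equivFun_symm_apply]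
  · intro x
    rw [hr, hg]
    simp
  · intro x i hi
    rw [hr, hg]
    simp [Function.update_of_ne hi]
    ring

/-- a basis of the integral closure of `k[a]` -/
theorem exists_start (a : L) (ha : Transcendental k a) [FiniteDimensional k⟮a⟯ L] :
    ∃ (m : ℕ) (b : Module.Basis (Fin m) k⟮a⟯ L),
      (∀ i (P : Place k L), P.Int a → P.Int (b i)) ∧
      ∀ x : L, (∀ P : Place k L, P.Int a → P.Int x) → ∀ i, ∃ p : k[X],
        (b.repr x i : L) = aeval a p := by
  let iE : Algebra k[X] L := (aeval a : k[X] →ₐ[k] L).toRingHom.toAlgebra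
  let iL : Algebra k[X] k⟮a⟯ :=
    (aeval (AdjoinSimple.gen k a) : k[X] →ₐ[k] k⟮a⟯).toRingHom.toAlgebra
  have hmapE : ∀ f : k[X], algebraMap k[X] L f = aeval a f := fun _ => rfl
  have hmapL : ∀ f : k[X], algebraMap k[X] k⟮a⟯ f = aeval (AdjoinSimple.gen k a) f := fun _ => rfl
  have hcoe : ∀ f : k[X], ((algebraMap k[X] k⟮a⟯ f : k⟮a⟯) : L) = aeval a f := by
    intro f
    rw [hmapL]
    have := aeval_algHom_apply (IntermediateField.val k⟮a⟯) (AdjoinSimple.gen k a) f
    exact this.symm
  have iKE : IsScalarTower k k[X] L := IsScalarTower.of_algebraMap_eq fun c => by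
    rw [hmapE, algebraMap_eq, aeval_C]
  have iLE : IsScalarTower k[X] k⟮a⟯ L := IsScalarTower.of_algebraMap_eq fun f => (hcoe f).symm
  have hinjE : Function.Injective (algebraMap k[X] L) := transcendental_iff_injective.1 ha
  have hinjL : Function.Injective (algebraMap k[X] k⟮a⟯) := by
    intro f g hfg
    apply hinjE
    rw [hmapE, hmapE, ← hcoe, ← hcoe, hfg]
  have : FaithfulSMul k[X] k⟮a⟯ := (faithfulSMul_iff_algebraMap_injective k[X] k⟮a⟯).2 hinjL
  have iFr : IsFractionRing k[X] k⟮a⟯ := by
    refine IsFractionRing.of_field k[X] k⟮a⟯ fun z => ?_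
    obtain ⟨r, s, hrs⟩ := (IntermediateField.mem_adjoin_simple_iff k (z : L)).1 z.2
    refine ⟨r, s, ?_⟩
    apply Subtype.ext
    rw [IntermediateField.coe_div, hcoe, hcoe, hrs]
  have : CharZero k⟮a⟯ := charZero_of_injective_algebraMap (algebraMap k k⟮a⟯).injective
  have : Algebra.IsSeparable k⟮a⟯ L := inferInstance
  have h1 : IsDedekindDomain (integralClosure k[X] L) :=
    integralClosure.isDedekindDomain k[X] k⟮a⟯ L
  have h2 : IsFractionRing (integralClosure k[X] L) L :=
    integralClosure.isFractionRing_of_finite_extension k⟮a⟯ L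
  have h3 : Module.Finite k[X] (integralClosure k[X] L) :=
    IsIntegralClosure.finite k[X] k⟮a⟯ L (integralClosure k[X] L)
  have : FaithfulSMul k[X] L := (faithfulSMul_iff_algebraMap_injective k[X] L).2 hinjE
  have h4 : Module.IsTorsionFree k[X] (integralClosure k[X] L) := inferInstance
  have h5 : IsLocalization (Algebra.algebraMapSubmonoid (integralClosure k[X] L)
      (nonZeroDivisors k[X])) L :=
    IsIntegralClosure.isLocalization k[X] k⟮a⟯ L (integralClosure k[X] L)
  have h6 : Module.Free k[X] (integralClosure k[X] L) := inferInstance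
  let b₀ : Module.Basis (Fin (Module.finrank k[X] (integralClosure k[X] L))) k[X]
    (integralClosure k[X] L) := Module.finBasis k[X] (integralClosure k[X] L)
  refine ⟨_, b₀.localizationLocalization k⟮a⟯ (nonZeroDivisors k[X]) L, ?_, ?_⟩
  · intro i P hP
    rw [Module.Basis.localizationLocalization_apply]
    refine TraceValAux.int_of_integral (R := k[X]) P ?_ _ (integralClosure.isIntegral _)
    intro r
    obtain ⟨c, hc⟩ := hP.exists_isVal
    exact (hc.polyAeval r).int
  · intro x hx i
    obtain ⟨p, hp, hp0⟩ := isIntegral_of_places a ha x hx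
    have hx' : IsIntegral k[X] x := ⟨p, hp, hp0⟩
    refine ⟨b₀.repr ⟨x, hx'⟩ i, ?_⟩
    have h7 := b₀.localizationLocalization_repr_algebraMap k⟮a⟯ (nonZeroDivisors k[X]) L
      ⟨x, hx'⟩ i
    have h8 : algebraMap (integralClosure k[X] L) L ⟨x, hx'⟩ = x := rfl
    rw [h8] at h7
    rw [h7, hcoe]

/-- the infinite places are finitely many, so large powers of `a` kill the poles -/
theorem exists_exp (a : L) (ha : Transcendental k a) [FiniteDimensional k⟮a⟯ L] (x : L) :
    ∃ d : ℕ, ∀ P : Place k L, ¬ P.Int a → P.Int (x / a ^ d) := by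
  classical
  have ha0 : a ≠ 0 := by
    rintro rfl
    exact ha isAlgebraic_zero
  have hfin := finite_zeros a ha a ha0
  rcases eq_or_ne x 0 with rfl | hx
  · exact ⟨0, fun P hP => by simpa using P.int_zero⟩
  refine ⟨∑ P ∈ hfin.toFinset, (P.ord x).natAbs, fun P hP => ?_⟩
  have h1 : P.ord a < 0 := by
    rw [Place.int_iff_ord ha0] at hP
    omega
  have h2 : (P.ord x).natAbs ≤ ∑ Q ∈ hfin.toFinset, (Q.ord x).natAbs := by
    refine Finset.single_le_sum (f := fun Q : Place k L => (Q.ord x).natAbs)
      (fun Q _ => Nat.zero_le _) ?_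
    rw [Set.Finite.mem_toFinset]
    exact h1.ne
  rw [Place.int_iff_ord (div_ne_zero hx (pow_ne_zero _ ha0)), P.ord_div hx (pow_ne_zero _ ha0),
    P.ord_pow ha0]
  set d := ∑ Q ∈ hfin.toFinset, (Q.ord x).natAbs with hd
  have h3 : (d : ℤ) * P.ord a ≤ -(d : ℤ) := by
    have : (0 : ℤ) ≤ d := Int.natCast_nonneg d
    nlinarith
  have h4 : -((P.ord x).natAbs : ℤ) ≤ P.ord x := by omega
  have h5 : ((P.ord x).natAbs : ℤ) ≤ d := by exact_mod_cast h2
  linarith

end NormalAux

/-- PROOF: the integral closure `B` of `k[a]` in `L` (`TraceValAux.package`) consists of the `x` with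
`P.Int a → P.Int x` (`isIntegral_of_places`); it is finite and torsion free over the principal ideal
domain `k[X]`, hence free, of rank `m = [L : k(a)]`; a basis of `B` is a basis of `L / k(a)` for which
`int` and `repr` hold; `inf` holds for large `d i` (there are finitely many infinite places).
Among all pairs `(b, d)` satisfying `int, repr, inf` choose one with `∑ d i` minimal. Suppose that
`indep` fails for some `c ≠ 0`; take `j` with `c j ≠ 0` and `d j` maximal among the `i` with
`c i ≠ 0`; let `b' = ∑_{c i ≠ 0} c i a^(d j - d i) b i`, so `a * b' / a^(d j)` is integral at all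
infinite places. If `d j = 0` then `b'` is integral at all places and vanishes at the infinite ones
(`a b'` is integral there), so `b' = 0` (`const_of_int`, `exists_place_val`), contradicting the
independence of the `b i`. If `d j ≥ 1` replace `b j` by `b'` and `d j` by `d j - 1`: again a basis
with `int`, `repr` (`c j` is a nonzero constant, the other coefficients are polynomials in `a`) and
`inf`, contradiction. -/
theorem exists_normal (a : L) (ha : Transcendental k a) [FiniteDimensional k⟮a⟯ L] :
    ∃ (m : ℕ) (b : Module.Basis (Fin m) k⟮a⟯ L) (d : Fin m → ℕ), IsNormal b d := by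
  classical
  have ha0 : a ≠ 0 := by
    rintro rfl
    exact ha isAlgebraic_zero
  obtain ⟨m, b₀, hint₀, hrepr₀⟩ := NormalAux.exists_start a ha
  choose d₀ hd₀ using fun i => NormalAux.exists_exp a ha (b₀ i)
  have hex : ∃ n : ℕ, ∃ (b : Module.Basis (Fin m) k⟮a⟯ L) (d : Fin m → ℕ),
      (∀ i (P : Place k L), P.Int a → P.Int (b i)) ∧
      (∀ x : L, (∀ P : Place k L, P.Int a → P.Int x) → ∀ i, ∃ p : k[X],
        (b.repr x i : L) = aeval a p) ∧
      (∀ i (P : Place k L), ¬ P.Int a → P.Int (b i / a ^ d i)) ∧ ∑ i, d i = n :=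
    ⟨_, b₀, d₀, hint₀, hrepr₀, hd₀, rfl⟩
  obtain ⟨b, d, hint, hrepr, hinf, hsum⟩ := Nat.find_spec hex
  refine ⟨m, b, d, hint, hrepr, hinf, ?_⟩
  intro c hc
  by_contra hc0
  -- an index `j` with `c j ≠ 0` and `d j` maximal
  obtain ⟨i₀, hi₀⟩ : ∃ i, c i ≠ 0 := by
    by_contra hcon
    push Not at hcon
    exact hc0 (funext hcon)
  obtain ⟨j, hj, hmax⟩ := Finset.exists_max_image (Finset.univ.filter fun i => c i ≠ 0) d
    ⟨i₀, by simpa using hi₀⟩
  have hj0 : c j ≠ 0 := by simpa using hj
  have hmax' : ∀ i, c i ≠ 0 → d i ≤ d j := fun i hi => hmax i (by simpa using hi)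
  -- the new element
  set γ : Fin m → k⟮a⟯ := fun i =>
    algebraMap k k⟮a⟯ (c i) * AdjoinSimple.gen k a ^ (d j - d i) with hγ
  have hγL : ∀ i, (γ i : L) = algebraMap k L (c i) * a ^ (d j - d i) := by
    intro i
    simp [hγ]
  have hγj : γ j ≠ 0 := by
    intro h
    have h1 := hγL j
    rw [h] at h1
    rw [Nat.sub_self, pow_zero, mul_one] at h1
    exact hj0 (by simpa using h1.symm)
  obtain ⟨b', hb'1, hb'2, hr1, hr2⟩ := NormalAux.exchange b j γ hγj
  have hbj : b' j = ∑ i, algebraMap k L (c i) * a ^ (d j - d i) * b i := by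
    rw [hb'2]
    refine Finset.sum_congr rfl fun i _ => ?_
    rw [← hγL]
    rfl
  have hkey : ∀ P : Place k L, ¬ P.Int a → P.Int (a * (b' j / a ^ d j)) := by
    intro P hP
    have h1 : a * (b' j / a ^ d j) = a * ∑ i, algebraMap k L (c i) * (b i / a ^ d i) := by
      rw [hbj, Finset.sum_div]
      congr 1
      refine Finset.sum_congr rfl fun i _ => ?_
      by_cases hi : c i = 0
      · simp [hi]
      · have h2 := hmax' i hi
        have h3 : a ^ d j = a ^ (d j - d i) * a ^ d i := by
          rw [← pow_add, Nat.sub_add_cancel h2]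
        rw [h3]
        field_simp
    rw [h1]
    exact hc P hP
  have hintj : ∀ P : Place k L, P.Int a → P.Int (b' j) := by
    intro P hP
    rw [hbj]
    exact Place.Int.sum _ fun i _ => ((P.int_const _).mul (hP.pow _)).mul (hint i P hP)
  by_cases hdj : d j = 0
  · -- `b' j` is integral everywhere and vanishes at infinity
    have hsm : ∀ P : Place k L, ¬ P.Int a → P.Sm (b' j) := by
      intro P hP
      have h1 := (Place.sm_inv_of_not_int hP).mul_int (hkey P hP)
      rw [hdj, pow_zero, div_one, ← mul_assoc, inv_mul_cancel₀ ha0, one_mul] at h1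
      exact h1
    obtain ⟨e, he⟩ := const_of_int a ha (b' j) fun P => by
      by_cases hP : P.Int a
      · exact hintj P hP
      · exact (hsm P hP).int
    obtain ⟨P, hP⟩ := (exists_place_val a ha a ha).2
    have h2 := hsm P hP
    have h3 : b' j ≠ 0 := b'.ne_zero j
    rw [he] at h2 h3
    refine P.not_sm_const ?_ h2
    rintro rfl
    exact h3 (map_zero _)
  · -- lower `d j`
    have hlt : ∑ i, Function.update d j (d j - 1) i < Nat.find hex := by
      rw [← hsum]
      refine Finset.sum_lt_sum (fun i _ => ?_) ⟨j, Finset.mem_univ _, ?_⟩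
      · rcases eq_or_ne i j with rfl | h
        · rw [Function.update_self]; omega
        · rw [Function.update_of_ne h]
      · rw [Function.update_self]; omega
    refine Nat.find_min hex hlt ⟨b', Function.update d j (d j - 1), ?_, ?_, ?_, rfl⟩
    · intro i P hP
      rcases eq_or_ne i j with rfl | h
      · exact hintj P hP
      · rw [hb'1 i h]; exact hint i P hP
    · intro x hx i
      obtain ⟨q, hq⟩ := hrepr x hx j
      have hγj' : (γ j : L) = algebraMap k L (c j) := by
        rw [hγL, Nat.sub_self, pow_zero, mul_one]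
      have hcj : algebraMap k L (c j) ≠ 0 := by simpa using hj0
      have h1 : ((b.repr x j / γ j : k⟮a⟯) : L) = aeval a (C (c j)⁻¹ * q) := by
        rw [IntermediateField.coe_div, hq, hγj', map_mul, aeval_C, map_inv₀]
        field_simp
      rcases eq_or_ne i j with rfl | h
      · exact ⟨_, by rw [hr1]; exact h1⟩
      · obtain ⟨p, hp⟩ := hrepr x hx i
        refine ⟨p - C (c i) * X ^ (d j - d i) * (C (c j)⁻¹ * q), ?_⟩
        rw [hr2 x i h, AddSubgroupClass.coe_sub, IntermediateField.coe_mul, h1, hp, hγL]
        simp only [map_sub, map_mul, map_pow, aeval_C, aeval_X]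
    · intro i P hP
      rcases eq_or_ne i j with rfl | h
      · rw [Function.update_self]
        have h1 : b' i / a ^ (d i - 1) = a * (b' i / a ^ d i) := by
          have h2 : a ^ d i = a ^ (d i - 1) * a := by
            rw [← pow_succ, Nat.sub_add_cancel (Nat.one_le_iff_ne_zero.2 hdj)]
          rw [h2]
          field_simp
        rw [h1]
        exact hkey P hP
      · rw [hb'1 i h, Function.update_of_ne h]
        exact hinf i P hP

end Pool.Agent.FibC
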