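import Pool.Agent.FibC.Normal

/-! Module P5: dual bases and coordinates at infinity. -/

set_option autoImplicit false
set_option linter.unusedVariables false

open Polynomial IntermediateField

namespace Pool.Agent.FibC

open Pool.Agent.LowDeg

variable {k L : Type} [Field k] [Field L] [Algebra k L]

namespace NormalInfAux

/-- polynomials in an integral element are integral -/
lemma int_aeval {P : Place k L} {u : L} (hu : P.Int u) (g : k[X]) : P.Int (aeval u g) := by
  rw [aeval_eq_sum_range]
  apply Place.Int.sum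
  intro i _
  rw [Algebra.smul_def]
  exact (P.int_const _).mul (hu.pow i)

/-- `a (f(a) / a^deg f - lc f)` is integral at infinity -/
lemma near_poly {P : Place k L} {a : L} (ha : ¬ P.Int a) (f : k[X]) :
    P.Int (a * (aeval a f / a ^ f.natDegree - algebraMap k L f.leadingCoeff)) := by
  have ha0 : a ≠ 0 := by
    rintro rfl
    exact ha P.int_zero
  have hu : P.Int a⁻¹ := (Place.sm_inv_of_not_int ha).int
  have h1 : aeval a f / a ^ f.natDegree = aeval a⁻¹ f.reverse := by
    rw [div_eq_iff (pow_ne_zero _ ha0)]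
    let _ : Invertible a := invertibleOfNonzero ha0
    have h2 := eval₂_reverse_mul_pow (algebraMap k L) a f
    rw [invOf_eq_inv] at h2
    rw [aeval_def, aeval_def, h2]
  have h3 : aeval a⁻¹ f.reverse =
      aeval a⁻¹ (divX f.reverse) * a⁻¹ + algebraMap k L f.leadingCoeff := by
    conv_lhs => rw [← divX_mul_X_add f.reverse]
    rw [map_add, map_mul, aeval_X, aeval_C, coeff_zero_reverse]
  rw [h1, h3, add_sub_cancel_right, mul_left_comm, mul_inv_cancel₀ ha0, mul_one]
  exact int_aeval hu _

/-- the quotient of two polynomials of the same degree -/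
lemma near_quot {P : Place k L} {a : L} (ha : ¬ P.Int a) {A B : L} {α β : k} (hβ : β ≠ 0)
    (hA : P.Int (a * (A - algebraMap k L α))) (hB : P.Int (a * (B - algebraMap k L β))) :
    P.Int (a * (A / B - algebraMap k L (α / β))) ∧ P.Int (A / B) := by
  have ha0 : a ≠ 0 := by
    rintro rfl
    exact ha P.int_zero
  have hu : P.Sm a⁻¹ := Place.sm_inv_of_not_int ha
  have hAval : P.IsVal A α := by
    have h1 := hu.mul_int hA
    rwa [inv_mul_cancel_left₀ ha0] at h1
  have hBval : P.IsVal B β := by
    have h1 := hu.mul_int hB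
    rwa [inv_mul_cancel_left₀ ha0] at h1
  have hBns : ¬ P.Sm B := by
    intro h
    have h1 : P.IsVal B 0 := Place.isVal_zero_iff.2 h
    exact hβ (hBval.unique h1)
  have hBinv : P.Int B⁻¹ := hBval.int.inv_of_not_sm hBns
  have hB0 : B ≠ 0 := fun h => hBns (Or.inl h)
  have hβ0 : algebraMap k L β ≠ 0 := by simpa using hβ
  constructor
  · have h1 : a * (A / B - algebraMap k L (α / β)) =
        (a * (A - algebraMap k L α)) * B⁻¹ -
          algebraMap k L (α / β) * (a * (B - algebraMap k L β)) * B⁻¹ := by
      rw [map_div₀]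
      field_simp
      ring
    rw [h1]
    exact (hA.mul hBinv).sub (((P.int_const _).mul hB).mul hBinv)
  · rw [div_eq_mul_inv]
    exact hAval.int.mul hBinv

end NormalInfAux

open NormalInfAux

variable [IsAlgClosed k] [CharZero k]

/-- dual bases. PROOF: `Algebra.traceForm`, nondegenerate (separable), `BilinForm.dualBasis`. -/
theorem exists_dual {a : L} [FiniteDimensional k⟮a⟯ L] {m : ℕ} (b : Module.Basis (Fin m) k⟮a⟯ L) :
    ∃ b' : Fin m → L,
      (∀ i j, Algebra.trace k⟮a⟯ L (b i * b' j) = if i = j then 1 else 0) ∧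
      ∀ (x : L) (i : Fin m), b.repr x i = Algebra.trace k⟮a⟯ L (x * b' i) := by
  refine ⟨b.traceDual, fun i j => b.trace_mul_traceDual i j, fun x i => ?_⟩
  have h := b.traceDual.traceDual_repr_apply x i
  rw [Module.Basis.traceDual_traceDual] at h
  exact h

/-- The coordinates of an element which is integral at infinity.

PROOF: `b.repr x i = p i / q i` with polynomials in `a` (elements of `k(a)`). Suppose that
`e := max_i (deg p i + d i - deg q i)` (over the `i` with `p i ≠ 0`) is `≥ 1`. Let `c i` = quotient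
of the leading coefficients if `i` attains the maximum, else `0`; so `c ≠ 0`, and
`a * ((b.repr x i) * a^(d i) / a^e - c i)` is integral at all infinite places (a rational function of
degree `≤ 0` in `a`). Then `a * (x / a^e)` is integral at infinity, and
`x / a^e = ∑ ((b.repr x i) * a^(d i) / a^e) (b i / a^(d i))`, so `a * ∑ c i (b i / a^(d i))` is
integral at infinity, contradiction to `indep`. -/
theorem repr_inf {a : L} (ha : Transcendental k a) [FiniteDimensional k⟮a⟯ L] {m : ℕ}
    {b : Module.Basis (Fin m) k⟮a⟯ L} {d : Fin m → ℕ} (hb : IsNormal b d) (x : L)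
    (hx : ∀ P : Place k L, ¬ P.Int a → P.Int x) (i : Fin m) :
    ∃ p q : k[X], q ≠ 0 ∧ (b.repr x i : L) * aeval a q = aeval a p ∧
      (p = 0 ∨ p.natDegree + d i ≤ q.natDegree) := by
  classical
  have hav : ∀ f : k[X], f ≠ 0 → aeval a f ≠ 0 := fun f hf h0 => ha ⟨f, hf, h0⟩
  have hex : ∀ j, ∃ p q : k[X], q ≠ 0 ∧ (b.repr x j : L) * aeval a q = aeval a p := by
    intro j
    obtain ⟨r, s, hrs⟩ := (mem_adjoin_simple_iff k _).1 (b.repr x j).2
    by_cases hs : s = 0
    · refine ⟨0, 1, one_ne_zero, ?_⟩
      rw [hrs, hs]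
      simp
    · refine ⟨r, s, hs, ?_⟩
      rw [hrs, div_mul_cancel₀ _ (hav s hs)]
  choose p q hq hpq using hex
  refine ⟨p i, q i, hq i, hpq i, ?_⟩
  by_contra hcon
  push Not at hcon
  obtain ⟨hpi, hdeg⟩ := hcon
  set f : Fin m → ℤ := fun j => ((p j).natDegree : ℤ) + d j - (q j).natDegree with hf
  obtain ⟨j0, hj0, hmax⟩ := (Finset.univ.filter fun j => p j ≠ 0).exists_max_image f
    ⟨i, by simp [hpi]⟩
  have hpj0 : p j0 ≠ 0 := by simpa using hj0
  have hfi : 1 ≤ f i := by
    simp only [hf]
    omega
  have hfj0 : 1 ≤ f j0 := hfi.trans (hmax i (by simp [hpi]))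
  obtain ⟨e, he⟩ : ∃ e : ℕ, f j0 = (e : ℤ) + 1 := ⟨(f j0 - 1).toNat, by omega⟩
  set c : Fin m → k := fun j => if p j ≠ 0 ∧ f j = f j0 then
    (p j).leadingCoeff / (q j).leadingCoeff else 0 with hc
  have hcz := hb.indep c ?_
  · have h1 : c j0 ≠ 0 := by
      change (if p j0 ≠ 0 ∧ f j0 = f j0 then (p j0).leadingCoeff / (q j0).leadingCoeff else 0) ≠ 0
      rw [if_pos ⟨hpj0, rfl⟩]
      exact div_ne_zero (leadingCoeff_ne_zero.2 hpj0) (leadingCoeff_ne_zero.2 (hq j0))
    exact h1 (congrFun hcz j0)
  intro P hP
  have ha0 : a ≠ 0 := by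
    rintro rfl
    exact hP P.int_zero
  have hu : P.Int a⁻¹ := (Place.sm_inv_of_not_int hP).int
  -- the scaled coordinates
  set y : Fin m → L := fun j => (b.repr x j : L) * a ^ d j / a ^ (e + 1) with hy
  have hnear : ∀ j, P.Int (a * (y j - algebraMap k L (c j))) := by
    intro j
    by_cases hpj : p j = 0
    · have h1 : (b.repr x j : L) = 0 := by
        have h2 := hpq j
        rw [hpj, map_zero] at h2
        exact (mul_eq_zero.1 h2).resolve_right (hav _ (hq j))
      have h3 : c j = 0 := by
        simp only [hc]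
        rw [if_neg (by simp [hpj])]
      simp only [hy]
      rw [h1, h3]
      simp [P.int_zero]
    · have hfj : f j ≤ f j0 := hmax j (by simp [hpj])
      obtain ⟨n, hn⟩ : ∃ n : ℕ, f j0 - f j = n := ⟨(f j0 - f j).toNat, by omega⟩
      have hlq : (q j).leadingCoeff ≠ 0 := leadingCoeff_ne_zero.2 (hq j)
      obtain ⟨hq1, hq2⟩ := near_quot hP hlq (near_poly hP (p j)) (near_poly hP (q j))
      set A := aeval a (p j) / a ^ (p j).natDegree with hA
      set B := aeval a (q j) / a ^ (q j).natDegree with hB
      have hyj : y j = A / B * a⁻¹ ^ n := by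
        have h1 : (b.repr x j : L) = aeval a (p j) / aeval a (q j) := by
          rw [eq_div_iff (hav _ (hq j)), hpq j]
        have hexp : (p j).natDegree + d j + n = e + 1 + (q j).natDegree := by
          simp only [hf] at hn he
          omega
        have hapow : a ^ (p j).natDegree * a ^ d j * a ^ n = a ^ (e + 1) * a ^ (q j).natDegree := by
          rw [← pow_add, ← pow_add, ← pow_add, hexp]
        have hq0 := hav _ (hq j)
        simp only [hy]
        rw [h1, hA, hB, inv_pow]
        have e1 : a ^ (p j).natDegree ≠ 0 := pow_ne_zero _ ha0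
        have e2 : a ^ n ≠ 0 := pow_ne_zero _ ha0
        have e3 : a ^ (e + 1) ≠ 0 := pow_ne_zero _ ha0
        have e4 : a ^ (q j).natDegree ≠ 0 := pow_ne_zero _ ha0
        generalize a ^ (p j).natDegree = X1 at *
        generalize a ^ n = X2 at *
        generalize a ^ (e + 1) = X3 at *
        generalize a ^ (q j).natDegree = X4 at *
        generalize a ^ d j = X5 at *
        generalize aeval a (q j) = X6 at *
        generalize aeval a (p j) = X7 at *
        field_simp
        linear_combination X7 * hapow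
      rcases Nat.eq_zero_or_pos n with hn0 | hnpos
      · have h3 : c j = (p j).leadingCoeff / (q j).leadingCoeff := by
          simp only [hc]
          rw [if_pos ⟨hpj, by omega⟩]
        rw [hyj, hn0, h3, pow_zero, mul_one]
        exact hq1
      · have h3 : c j = 0 := by
          simp only [hc]
          rw [if_neg]
          rintro ⟨-, h4⟩
          omega
        obtain ⟨n', rfl⟩ : ∃ n', n = n' + 1 := ⟨n - 1, by omega⟩
        rw [hyj, h3, map_zero, sub_zero, pow_succ]
        have h4 : a * (A / B * (a⁻¹ ^ n' * a⁻¹)) = A / B * a⁻¹ ^ n' := by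
          field_simp
        rw [h4]
        exact hq2.mul (hu.pow n')
  have hsum : x / a ^ (e + 1) = ∑ j, y j * (b j / a ^ d j) := by
    have h1 : x = ∑ j, (b.repr x j : L) * b j := by
      conv_lhs => rw [← b.sum_repr x]
      rfl
    conv_lhs => rw [h1]
    rw [Finset.sum_div]
    apply Finset.sum_congr rfl
    intro j _
    simp only [hy]
    have e1 : a ^ d j ≠ 0 := pow_ne_zero _ ha0
    field_simp
  have hfin : a * ∑ j, algebraMap k L (c j) * (b j / a ^ d j) =
      x * a⁻¹ ^ e - ∑ j, a * (y j - algebraMap k L (c j)) * (b j / a ^ d j) := by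
    have h1 : x * a⁻¹ ^ e = a * (x / a ^ (e + 1)) := by
      rw [inv_pow, pow_succ]
      field_simp
    rw [h1, hsum, Finset.mul_sum, Finset.mul_sum, ← Finset.sum_sub_distrib]
    apply Finset.sum_congr rfl
    intro j _
    ring
  rw [hfin]
  exact ((hx P hP).mul (hu.pow e)).sub
    (Place.Int.sum _ fun j _ => (hnear j).mul (hb.inf j P hP))

end Pool.Agent.FibC
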