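import Pool.Agent.FibC.NormalInf
import Pool.Agent.FibC.Approx

/-! Module P6: the dual of a normal basis gives regular differentials. -/

set_option autoImplicit false
set_option linter.unusedVariables false

open Polynomial IntermediateField

namespace Pool.Agent.FibC

open Pool.Agent.LowDeg

/-- `u da` is a regular differential of `L / k`. -/
def RegL (k : Type) {L : Type} [Field k] [Field L] [Algebra k L] (a u : L) : Prop :=
  ∀ P : Place k L, (∀ c : k, P.Sm (a - algebraMap k L c) → P.Sm ((a - algebraMap k L c) * u)) ∧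
    (¬ P.Int a → P.Sm (a * u))

variable {k L : Type} [Field k] [Field L] [Algebra k L] [IsAlgClosed k] [CharZero k]

namespace RegDualAux

omit [IsAlgClosed k] [CharZero k] in
theorem rev_aeval {a : L} (ha : a ≠ 0) (f : k[X]) :
    aeval a⁻¹ f.reverse * a ^ f.natDegree = aeval a f := by
  have hinv : Invertible a := invertibleOfNonzero ha
  have h := eval₂_reverse_mul_pow (algebraMap k L) a f
  rw [invOf_eq_inv] at h
  exact h

omit [IsAlgClosed k] [CharZero k] in
theorem adjoin_sub (a : L) (c : k) : k⟮a - algebraMap k L c⟯ = k⟮a⟯ := by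
  apply le_antisymm
  · rw [adjoin_simple_le_iff]
    exact sub_mem (mem_adjoin_simple_self k a) (IntermediateField.algebraMap_mem _ c)
  · rw [adjoin_simple_le_iff]
    have h := add_mem (mem_adjoin_simple_self k (a - algebraMap k L c))
      (IntermediateField.algebraMap_mem k⟮a - algebraMap k L c⟯ c)
    rwa [sub_add_cancel] at h

omit [IsAlgClosed k] [CharZero k] in
theorem adjoin_inv (a : L) : k⟮a⁻¹⟯ = k⟮a⟯ := by
  apply le_antisymm
  · rw [adjoin_simple_le_iff]
    exact inv_mem (mem_adjoin_simple_self k a)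
  · rw [adjoin_simple_le_iff]
    have h := inv_mem (mem_adjoin_simple_self k a⁻¹)
    rwa [inv_inv] at h

omit [IsAlgClosed k] [CharZero k] in
/-- pulling polynomials in `a` out of the trace -/
theorem trace_poly {a : L} [FiniteDimensional k⟮a⟯ L] (f : k[X]) (z : L) :
    (Algebra.trace k⟮a⟯ L (aeval a f * z) : L) = aeval a f * (Algebra.trace k⟮a⟯ L z : L) := by
  have h1 : aeval a f * z = (aeval (AdjoinSimple.gen k a) f : k⟮a⟯) • z := by
    rw [Algebra.smul_def]
    congr 1
    exact aeval_algHom_apply (IntermediateField.val k⟮a⟯) (AdjoinSimple.gen k a) f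
  have h2 : ((aeval (AdjoinSimple.gen k a) f : k⟮a⟯) : L) = aeval a f :=
    (aeval_algHom_apply (IntermediateField.val k⟮a⟯) (AdjoinSimple.gen k a) f).symm
  rw [h1, map_smul, smul_eq_mul, IntermediateField.coe_mul, h2]

end RegDualAux

open RegDualAux

/-- PROOF: `sm_of_trace`. Finite places over `c`: `t = a - c`, `y = (a - c) a^l b'_i`; if `x` is
integral over `k[a]` then `Tr (y x) = (a - c) a^l (b.repr x i)` is a polynomial in `t` without
constant term (`IsNormal.repr`). Infinite places: `t = 1 / a`, `y = a · a^l b'_i`; if `x` is integral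
over `k[1/a]` then it is integral at the infinite places and `Tr (y x) = a^(l+1) (b.repr x i)`
`= a^(l+1) p / q` with `deg p + d i ≤ deg q` (`repr_inf`), `l + 1 < d i`, so it vanishes at `t = 0`
(reverse the polynomials). -/
theorem reg_dual {a : L} (ha : Transcendental k a) [FiniteDimensional k⟮a⟯ L] {m : ℕ}
    {b : Module.Basis (Fin m) k⟮a⟯ L} {d : Fin m → ℕ} (hb : IsNormal b d) {b' : Fin m → L}
    (hb' : ∀ (x : L) (i : Fin m), b.repr x i = Algebra.trace k⟮a⟯ L (x * b' i))
    (i : Fin m) (l : ℕ) (hl : l + 2 ≤ d i) : RegL k a (a ^ l * b' i) := by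
  have ha0 : a ≠ 0 := by
    rintro rfl
    exact ha isAlgebraic_zero
  intro P
  constructor
  · intro c hP
    refine sm_of_trace a ha (a - algebraMap k L c) (adjoin_sub a c) _ ?_ P hP
    intro x hx
    have hx' : ∀ P : Place k L, P.Int a → P.Int x := fun P hPa => hx P (hPa.sub (P.int_const c))
    obtain ⟨p0, hp0⟩ := hb.repr x hx' i
    refine ⟨X * ((X + C c) ^ l * p0.comp (X + C c)), 1, by simp, by simp, ?_⟩
    have h1 : (a - algebraMap k L c) * (a ^ l * b' i) * x =
        aeval a ((X - C c) * X ^ l : k[X]) * (x * b' i) := by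
      simp only [map_mul, map_sub, map_pow, aeval_X, aeval_C]
      ring
    rw [h1, trace_poly, ← hb', hp0]
    simp only [map_mul, map_sub, map_pow, map_add, aeval_X, aeval_C, map_one, aeval_comp,
      sub_add_cancel]
    ring
  · intro hP
    refine sm_of_trace a ha a⁻¹ (adjoin_inv a) _ ?_ P (Place.sm_inv_of_not_int hP)
    intro x hx
    have hx' : ∀ P : Place k L, ¬ P.Int a → P.Int x :=
      fun P hPa => hx P (Place.sm_inv_of_not_int hPa).int
    obtain ⟨p0, q0, hq0, he, hdeg⟩ := repr_inf ha hb x hx' i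
    have h1 : a * (a ^ l * b' i) * x = aeval a (X ^ (l + 1) : k[X]) * (x * b' i) := by
      simp only [map_pow, aeval_X]
      ring
    have haq : aeval a q0 ≠ 0 := by
      intro h
      exact ha ⟨q0, hq0, h⟩
    rcases hdeg with hp0 | hdeg
    · refine ⟨0, 1, by simp, by simp, ?_⟩
      rw [h1, trace_poly, ← hb']
      rw [hp0, map_zero] at he
      have h2 : (b.repr x i : L) = 0 := (mul_eq_zero.mp he).resolve_right haq
      rw [h2]
      simp
    · obtain ⟨e, he2⟩ : ∃ e, q0.natDegree = (l + 1) + p0.natDegree + (e + 1) :=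
        ⟨q0.natDegree - (l + 1) - p0.natDegree - 1, by omega⟩
      refine ⟨X ^ (e + 1) * p0.reverse, q0.reverse, ?_, by simp, ?_⟩
      · rw [← coeff_zero_eq_eval_zero, coeff_zero_reverse]
        exact leadingCoeff_ne_zero.mpr hq0
      · rw [h1, trace_poly, ← hb']
        have h3 := rev_aeval ha0 p0
        have h4 := rev_aeval ha0 q0
        rw [he2] at h4
        rw [← h3, ← h4] at he
        simp only [map_mul, map_pow, aeval_X]
        have h5 : a ^ (p0.natDegree) ≠ 0 := pow_ne_zero _ ha0
        have h6 : a ^ (e + 1) ≠ 0 := pow_ne_zero _ ha0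
        apply mul_right_cancel₀ (mul_ne_zero h5 h6)
        have h8 : a⁻¹ ^ (e + 1) * a ^ (e + 1) = 1 := by
          rw [← mul_pow, inv_mul_cancel₀ ha0, one_pow]
        generalize aeval a⁻¹ q0.reverse = Q at he ⊢
        generalize aeval a⁻¹ p0.reverse = R at he ⊢
        generalize (b.repr x i : L) = r at he ⊢
        generalize a⁻¹ ^ (e + 1) = A at h8 ⊢
        rw [pow_add, pow_add] at he
        linear_combination he - R * a ^ p0.natDegree * h8

end Pool.Agent.FibC
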