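import Pool.Agent.FibC.Fields
import Pool.Agent.FibC.RegDual
import Pool.Agent.FibC.PlaceVal

/-! Module D5: regular differentials and valuation rings of `K`. -/

set_option autoImplicit false
set_option linter.unusedVariables false

open IntermediateField

namespace Pool.Agent.FibC

open Pool.Agent.LowDeg

variable {N : ℕ} {K : Type} [Field K] [Algebra ℂ K]

namespace RegConvAux

theorem val_lt_iff {F : Type} [Field F] (O : ValuationSubring F) (x : F) :
    O.valuation x < 1 ↔ x = 0 ∨ x⁻¹ ∉ O := by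
  by_cases hx : x = 0
  · subst hx
    simp
  · rw [or_iff_right hx, ← O.valuation_le_one_iff, map_inv₀, not_le]
    have h0 : O.valuation x ≠ 0 := (Valuation.ne_zero_iff _).2 hx
    constructor
    · intro h
      exact (one_lt_inv₀ (zero_lt_iff.2 h0)).2 h
    · intro h
      exact (one_lt_inv₀ (zero_lt_iff.2 h0)).1 h

end RegConvAux

open RegConvAux in
/-- PROOF: let `O` be a valuation ring of `K` containing `k`, `O' = O ∩ L`
(`ValuationSubring.comap`). If `O' = ⊤` then `a - c` and `a` are units of `O`, nothing to prove.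
Otherwise `exists_place_of_val` gives a place `P` of `L / k` with `P.Int x ↔ x ∈ O`, and
`P.Sm x ↔ O.valuation x < 1` (`sm_iff_inv`). -/
theorem isReg_of_regL [IsAlgClosed K] {t a : K} (hb : IsTranscendenceBasis ℂ ![t, a])
    (ξ : Fin (N + 1) → K) (ha : a ∈ LL ξ t) (u : LL ξ t)
    (hu : RegL (kk t) (⟨a, ha⟩ : LL ξ t) u) : IsReg t a (u : K) := by
  intro O hO
  set O' : ValuationSubring (LL ξ t) := O.comap (algebraMap (LL ξ t) K) with hO'
  have hmem : ∀ x : LL ξ t, x ∈ O' ↔ (x : K) ∈ O := fun x => Iff.rfl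
  have hv : ∀ x : LL ξ t, O.valuation (x : K) < 1 ↔ x = 0 ∨ x⁻¹ ∉ O' := by
    intro x
    rw [val_lt_iff, hmem]
    simp
  by_cases htop : O' = ⊤
  · have hall : ∀ x : LL ξ t, x ∈ O' := fun x => by rw [htop]; exact ValuationSubring.mem_top x
    refine ⟨?_, ?_⟩
    · intro c hc hac
      have hck : c ∈ kk t := mem_kk.2 hc
      have h1 := (hv (⟨a, ha⟩ - algebraMap (kk t) (LL ξ t) ⟨c, hck⟩)).1 hac
      rcases h1 with h1 | h1
      · have h2 : a - c = 0 := congrArg (fun x : LL ξ t => (x : K)) h1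
        rw [h2, zero_mul, map_zero]
        exact zero_lt_one
      · exact absurd (hall _) h1
    · intro h
      have := (O.valuation_le_one_iff a).2 ((hmem ⟨a, ha⟩).1 (hall _))
      exact absurd this (not_le.2 h)
  · have : IsAlgClosed (kk t) := isAlgClosed_kk t
    have : CharZero (kk t) := inferInstance
    have := findim_LL hb ξ ha
    have htr : Transcendental (kk t) (⟨a, ha⟩ : LL ξ t) := by
      intro h
      apply trans_kk hb
      exact IsAlgebraic.algHom (IntermediateField.val (LL ξ t)) h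
    obtain ⟨P, hP⟩ := exists_place_of_val (K := kk t) (⟨a, ha⟩ : LL ξ t) htr O'
      (fun c => (hmem _).2 (hO _ (mem_kk.1 c.2))) htop
    have hsm : ∀ x : LL ξ t, P.Sm x ↔ O.valuation (x : K) < 1 := by
      intro x
      rw [sm_iff_inv, hP, hv]
    refine ⟨?_, ?_⟩
    · intro c hc hac
      have hck : c ∈ kk t := mem_kk.2 hc
      have h1 : P.Sm ((⟨a, ha⟩ : LL ξ t) - algebraMap (kk t) (LL ξ t) ⟨c, hck⟩) :=
        (hsm _).2 hac
      exact (hsm _).1 ((hu P).1 ⟨c, hck⟩ h1)
    · intro h
      have h1 : ¬ P.Int (⟨a, ha⟩ : LL ξ t) := by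
        rw [hP, hmem, ← O.valuation_le_one_iff]
        exact not_le.2 h
      exact (hsm _).1 ((hu P).2 h1)

end Pool.Agent.FibC
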