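import Pool.Agent.FibC.ExtFib
import Pool.Agent.FibC.GMLem
import Pool.Agent.FibC.Exact
import Pool.Agent.FibC.RegConv
import Pool.Agent.FibC.Auto
import Pool.Agent.FibC.AL

/-! Module D10: cycles supported on one fibre. -/

set_option autoImplicit false

namespace Pool.Agent.FibC

open Pool.Agent.LowDeg

variable {N : ℕ} {K : Type} [Field K] [Algebra ℂ K] [IsAlgClosed K]

namespace OneFibAux

omit [IsAlgClosed K] in
theorem fld_le (ξ : Fin (N + 1) → K) (t x : K) (hx : x ∈ fld ξ) : x ∈ LL ξ t := by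
  rw [mem_LL]
  have h : fld ξ ≤ big ξ t := IntermediateField.adjoin.mono ℂ _ _ Set.subset_union_left
  exact h hx

omit [IsAlgClosed K] in
theorem coord_mem (ξ : Fin (N + 1) → K) (t : K) (j : Fin (N + 1)) : ξ j ∈ LL ξ t :=
  IntermediateField.subset_adjoin (kk t) _ ⟨j, rfl⟩

/-- an automorphism which fixes the elements algebraic over `ℂ(t)`, on `L = k(ξ)` -/
noncomputable def sig (ξ : Fin (N + 1) → K) (t : K) (θ : K ≃ₐ[ℂ] K)
    (hθ : ∀ x, Alg t x → θ x = x) : LL ξ t →ₐ[kk t] K where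
  toFun x := θ (x : K)
  map_one' := by simp
  map_mul' x y := by simp
  map_zero' := by simp
  map_add' x y := by simp
  commutes' c := by
    have h : ((algebraMap (kk t) (LL ξ t) c : LL ξ t) : K) = (c : K) := rfl
    rw [h]
    exact hθ _ (mem_kk.1 c.2)

end OneFibAux

open OneFibAux

/-- `gm`, `hgen` and `isReg_of_regL` give for `u ∈ L` with `RegL` a `G` with
`∑ c i θ_i(u) δa (θ_i a) = δa G`; `exact_zero` (with `σ i` = restriction of `θ i` to `L`, `D` from
`exists_derK`) shows that it is zero; `al` for `x = ξ` in `L`; a vector with coordinates in `k` is an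
`IsNdPt` by `nd_of_alg`. -/
theorem one_fibre {ξ : Fin (N + 1) → K} {t a : fld ξ} (h1 : ξ 0 = 1)
    (hb : IsTranscendenceBasis ℂ ![(t : K), (a : K)]) {δt δa : Derivation ℂ K K}
    (hδ : δt t = 1 ∧ δt a = 0 ∧ δa t = 0 ∧ δa a = 1) (W : Set (fld ξ))
    (hgen : ∀ u ∈ big ξ (t : K), IsReg (t : K) (a : K) u → GM (t : K) δt δa (Subtype.val '' W) u)
    {ι : Type} [Fintype ι] (c : ι → ℤ) (θ : ι → K ≃ₐ[ℂ] K)
    (hθ : ∀ i x, Alg (t : K) x → θ i x = x)
    (hW : ∀ f ∈ W, ∑ i, (c i : K) * (θ i (f : K) * δa (θ i (a : K))) = 0) :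
    ∑ i, c i • FreeAbelianGroup.of (fun j => θ i (ξ j)) ∈ KRat ξ ⊔ ND ξ := by
  have : IsAlgClosed (kk (t : K)) := isAlgClosed_kk (t : K)
  have ha : (a : K) ∈ LL ξ (t : K) := fld_le ξ (t : K) (a : K) a.2
  have htr : Transcendental (kk (t : K)) (⟨(a : K), ha⟩ : LL ξ (t : K)) := by
    have h := trans_kk hb
    exact (transcendental_algebraMap_iff (a := (⟨(a : K), ha⟩ : LL ξ (t : K)))
      (algebraMap (LL ξ (t : K)) K).injective).1 h
  have : FiniteDimensional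
      (IntermediateField.adjoin (kk (t : K)) {(⟨(a : K), ha⟩ : LL ξ (t : K))})
      (LL ξ (t : K)) := findim_LL hb ξ ha
  obtain ⟨D, hD⟩ := exists_derK hb hδ
  have hrel : ∀ u : LL ξ (t : K), RegL (kk (t : K)) (⟨(a : K), ha⟩ : LL ξ (t : K)) u →
      ∑ i, (c i : K) * (sig ξ (t : K) (θ i) (hθ i) u *
        D (sig ξ (t : K) (θ i) (hθ i) (⟨(a : K), ha⟩ : LL ξ (t : K)))) = 0 := by
    intro u hu
    have h2 := isReg_of_regL hb ξ ha u hu
    have h3 := hgen (u : K) (mem_LL.1 u.2) h2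
    obtain ⟨G, hG⟩ := gm hb hδ c θ hθ (Subtype.val '' W) (by
      rintro f ⟨f, hf, rfl⟩
      exact hW f hf) (u : K) h3
    have h4 : ∑ i, (c i : K) * (sig ξ (t : K) (θ i) (hθ i) u *
        D (sig ξ (t : K) (θ i) (hθ i) (⟨(a : K), ha⟩ : LL ξ (t : K)))) = D G := by
      rw [hD G, ← hG]
      refine Finset.sum_congr rfl fun i _ => ?_
      rw [hD]
      rfl
    have h5 := exact_zero D (fun x hx => alg_kk hb x hx) (⟨(a : K), ha⟩ : LL ξ (t : K)) htr c
      (fun i => sig ξ (t : K) (θ i) (hθ i)) u hu G h4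
    rw [h4, h5]
  have hx0 : (fun j => (⟨ξ j, coord_mem ξ (t : K) j⟩ : LL ξ (t : K))) ≠ 0 := by
    intro h
    have h2 := congrFun h 0
    have h3 : ξ 0 = 0 := congrArg (Subtype.val : LL ξ (t : K) → K) h2
    rw [h1] at h3
    exact one_ne_zero h3
  have hmain := al D (fun x hx => by
      rw [hD] at hx
      exact ⟨⟨x, mem_kk.2 ((ker_iff hb hδ x).1 hx)⟩, rfl⟩)
    (⟨(a : K), ha⟩ : LL ξ (t : K)) htr c (fun i => sig ξ (t : K) (θ i) (hθ i)) hrel ξ
    (fun j => (⟨ξ j, coord_mem ξ (t : K) j⟩ : LL ξ (t : K))) hx0 (algebraMap ℂ (kk (t : K)))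
    (fun r => rfl) (by
      intro e G _ hG0
      apply (algebraMap (LL ξ (t : K)) K).injective
      rw [map_zero, MvPolynomial.eval₂_comp_left, ← hG0, MvPolynomial.aeval_def]
      rfl)
  have hle : AddSubgroup.closure {y : Zv N K | ∃ z : Fin (N + 1) → K, z ≠ 0 ∧ On ξ z ∧
        (∀ j, z j ∈ Set.range (algebraMap (kk (t : K)) K)) ∧ y = FreeAbelianGroup.of z} ≤
      ND ξ := by
    rw [AddSubgroup.closure_le]
    rintro y ⟨z, hz, hon, hr, rfl⟩
    refine AddSubgroup.subset_closure ⟨z, nd_of_alg h1 hb hz hon fun j => ?_, rfl⟩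
    obtain ⟨w, hw⟩ := hr j
    rw [← hw]
    exact mem_kk.1 w.2
  exact (sup_le_sup_left hle (KRat ξ)) hmain

end Pool.Agent.FibC
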