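import Pool.Agent.FibC.Model

/-! Module P8: places of the model. -/

set_option autoImplicit false
set_option linter.unusedVariables false

open Polynomial IntermediateField

namespace Pool.Agent.FibC

open Pool.Agent.LowDeg

variable {k K L : Type} [Field k] [IsAlgClosed k] [CharZero k] [Field K] [IsAlgClosed K] [CharZero K]
  [Field L] [Algebra k K] [Algebra k L] {a : L} {D : Derivation k K K} (M : Model k K L a D)

/-- Dichotomy. -/
theorem triv_or (ha : Transcendental k a) [FiniteDimensional k⟮a⟯ L] (P : Place K M.E) :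
    M.IsTriv P ∨ ∃ P₀ : Place k L, (∀ x, P₀.Int x ↔ P.Int (M.j x)) ∧
      ∀ x, P₀.Sm x ↔ P.Sm (M.j x) := by
  by_cases h : ∃ x : L, x ≠ 0 ∧ P.Sm (M.j x)
  · obtain ⟨x, hx, hsm⟩ := h
    exact Or.inr (exists_place_comap a ha P M.j (fun c => ⟨algebraMap k K c, M.comm c⟩) x hx hsm)
  · left
    have hint : ∀ x : L, P.Int (M.j x) := by
      intro x
      by_cases hx : x = 0
      · rw [hx, map_zero]
        exact P.int_zero
      · have h1 : ¬ P.Sm (M.j x⁻¹) := fun h2 => h ⟨x⁻¹, inv_ne_zero hx, h2⟩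
        have h2 : M.j x⁻¹ ≠ 0 := (map_ne_zero M.j).2 (inv_ne_zero hx)
        rw [Place.sm_iff_ord h2, map_inv₀, P.ord_inv] at h1
        right
        omega
    choose v hv using fun x => (hint x).exists_isVal
    exact ⟨v, hv⟩

theorem not_triv_of {P : Place K M.E} {x : L} (hx : x ≠ 0) (h : P.Sm (M.j x)) :
    ¬ M.IsTriv P := by
  rintro ⟨v, hv⟩
  have h1 := h.mul_int (hv x⁻¹).int
  rw [← map_mul, mul_inv_cancel₀ hx, map_one] at h1
  exact P.not_sm_one h1

/-- The value map is a homomorphism. -/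
theorem triv_hom {P : Place K M.E} {v : L → K} (h : M.Triv P v) :
    ∃ σ : L →ₐ[k] K, ∀ x, σ x = v x := by
  refine ⟨{ toFun := v, map_one' := ?_, map_mul' := ?_, map_zero' := ?_, map_add' := ?_,
            commutes' := ?_ }, fun x => rfl⟩
  · have h1 := h 1
    rw [map_one] at h1
    exact h1.unique Place.isVal_one
  · intro x y
    have h1 := h (x * y)
    rw [map_mul] at h1
    exact h1.unique ((h x).mul (h y))
  · have h1 := h 0
    rw [map_zero] at h1
    exact h1.unique (Place.isVal_zero_iff.2 P.sm_zero)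
  · intro x y
    have h1 := h (x + y)
    rw [map_add] at h1
    exact h1.unique ((h x).add (h y))
  · intro c
    have h1 := h (algebraMap k L c)
    rw [M.comm] at h1
    exact h1.unique (Place.isVal_const _)

/-- A place over a value `c` of `a` which is not in `k` is trivial on `L`; the value of `a` at a place
trivial on `L` is not in `k`. -/
theorem triv_iff (ha : Transcendental k a) [FiniteDimensional k⟮a⟯ L] {P : Place K M.E} {c : K}
    (h : P.IsVal (M.j a) c) : M.IsTriv P ↔ c ∉ Set.range (algebraMap k K) := by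
  constructor
  · rintro ⟨v, hv⟩ ⟨c₀, hc₀⟩
    obtain ⟨σ, hσ⟩ := triv_hom M hv
    have h1 : σ a = algebraMap k K c₀ := by
      rw [hσ, hc₀]
      exact (hv a).unique h
    have h2 : σ (a - algebraMap k L c₀) = 0 := by
      rw [map_sub, h1, AlgHom.commutes, sub_self]
    have h3 : a - algebraMap k L c₀ = 0 := (map_eq_zero_iff σ σ.toRingHom.injective).1 h2
    apply ha
    rw [sub_eq_zero] at h3
    rw [h3]
    exact isAlgebraic_algebraMap c₀
  · intro hc
    rcases triv_or M ha P with h1 | ⟨P₀, h1, h2⟩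
    · exact h1
    · exfalso
      obtain ⟨c₀, hc₀⟩ := ((h1 a).2 h.int).exists_isVal
      have h3 := (h2 _).1 hc₀
      rw [map_sub, M.comm] at h3
      have h4 : P.IsVal (M.j a) (algebraMap k K c₀) := h3
      exact hc ⟨c₀, h4.unique h⟩

/-- Elements of `L` which are integral over `k[a]`, resp. integral at the infinite places of `L`, are
integral at the corresponding places of `E`. -/
theorem int_of_int (ha : Transcendental k a) [FiniteDimensional k⟮a⟯ L] (P : Place K M.E) (x : L) :
    ((∀ P₀ : Place k L, P₀.Int a → P₀.Int x) → P.Int (M.j a) → P.Int (M.j x)) ∧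
    ((∀ P₀ : Place k L, ¬ P₀.Int a → P₀.Int x) → ¬ P.Int (M.j a) → P.Int (M.j x)) := by
  rcases triv_or M ha P with ⟨v, hv⟩ | ⟨P₀, h1, h2⟩
  · exact ⟨fun _ _ => (hv x).int, fun _ _ => (hv x).int⟩
  · exact ⟨fun h h3 => (h1 x).1 (h P₀ ((h1 a).2 h3)),
      fun h h3 => (h1 x).1 (h P₀ fun h4 => h3 ((h1 a).1 h4))⟩

end Pool.Agent.FibC
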