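import Pool.Agent.FibC.Triv

/-! Module P9: the places which are trivial on `L` are unramified. -/

set_option autoImplicit false
set_option linter.unusedVariables false

open Polynomial IntermediateField

namespace Pool.Agent.FibC

open Pool.Agent.LowDeg

variable {k K L : Type} [Field k] [IsAlgClosed k] [CharZero k] [Field K] [IsAlgClosed K] [CharZero K]
  [Field L] [Algebra k K] [Algebra k L] {a : L} {D : Derivation k K K} (M : Model k K L a D)

namespace UnramAux

lemma adjoin_sub {K E : Type} [Field K] [Field E] [Algebra K E] (x : E) (c : K) :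
    K⟮x - algebraMap K E c⟯ = K⟮x⟯ := by
  apply le_antisymm
  · rw [adjoin_simple_le_iff]
    exact sub_mem (mem_adjoin_simple_self K x) (IntermediateField.algebraMap_mem _ c)
  · rw [adjoin_simple_le_iff]
    have h : x = (x - algebraMap K E c) + algebraMap K E c := by ring
    have h2 : (x - algebraMap K E c) + algebraMap K E c ∈ K⟮x - algebraMap K E c⟯ :=
      add_mem (mem_adjoin_simple_self K _) (IntermediateField.algebraMap_mem _ c)
    rwa [← h] at h2

lemma trans_sub {K E : Type} [Field K] [Field E] [Algebra K E] {x : E} (hx : Transcendental K x)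
    (c : K) : Transcendental K (x - algebraMap K E c) := by
  intro h
  apply hx
  have h2 := h.add (isAlgebraic_algebraMap (R := K) (A := E) c)
  rwa [sub_add_cancel] at h2

/-- the trace formula at the places over `c` -/
lemma key (ha : Transcendental k a) [FiniteDimensional k⟮a⟯ L] {c : K}
    (hc : c ∉ Set.range (algebraMap k K)) :
    ∃ (S : Finset (Place K M.E)) (w : Place K M.E → L → K),
      (∀ P, P ∈ S ↔ P.IsVal (M.j a) c) ∧ (∀ P ∈ S, M.Triv P (w P)) ∧
      (∀ P ∈ S, 1 ≤ P.ord (M.j a - algebraMap K M.E c)) ∧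
      ∀ (x : L) (s : k), Algebra.trace k⟮a⟯ L x = algebraMap k k⟮a⟯ s →
        algebraMap k K s = ∑ P ∈ S, (P.ord (M.j a - algebraMap K M.E c) : K) * w P x := by
  classical
  have ht := trans_sub M.trans c
  have ht0 : M.j a - algebraMap K M.E c ≠ 0 := by
    intro h
    rw [h] at ht
    exact ht isAlgebraic_zero
  have htriv : ∀ P : Place K M.E, P.Sm (M.j a - algebraMap K M.E c) → ∃ v, M.Triv P v := by
    intro P hP
    exact (triv_iff M ha (c := c) hP).2 hc
  have hfin : {P : Place K M.E | P.Sm (M.j a - algebraMap K M.E c)}.Finite := by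
    refine Set.Finite.subset (finite_zeros (M.j a) M.trans _ ht0) ?_
    intro P hP
    have h1 : 0 < P.ord (M.j a - algebraMap K M.E c) := hP.resolve_left ht0
    exact h1.ne'
  let w : Place K M.E → L → K := fun P => if h : ∃ v, M.Triv P v then h.choose else 0
  have hw : ∀ P, P.Sm (M.j a - algebraMap K M.E c) → M.Triv P (w P) := by
    intro P hP
    have h := htriv P hP
    simp only [w, dif_pos h]
    exact h.choose_spec
  refine ⟨hfin.toFinset, w, fun P => ?_, fun P hP => ?_, fun P hP => ?_, ?_⟩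
  · rw [Set.Finite.mem_toFinset]; rfl
  · rw [Set.Finite.mem_toFinset] at hP
    exact hw P hP
  · rw [Set.Finite.mem_toFinset] at hP
    exact hP.resolve_left ht0
  · intro x s hx
    have hg : ∀ P : Place K M.E, P.Sm (M.j a - algebraMap K M.E c) → P.Int (M.j x) :=
      fun P hP => (hw P hP x).int
    obtain ⟨S, hS, p, q, hq, h1, h2⟩ := trace_val (M.j a) M.trans (M.j a - algebraMap K M.E c)
      (adjoin_sub _ _) (M.j x) hg
    have hSS : hfin.toFinset = S := by
      ext P
      rw [Set.Finite.mem_toFinset, hS]; rfl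
    rw [hSS]
    have h3 := h2 (fun P => w P x) (fun P hP => hw P ((hS P).1 hP) x)
    rw [← h3]
    rw [M.trace x, hx] at h1
    have h4 : ((algebraMap k k⟮a⟯ s : k⟮a⟯) : L) = algebraMap k L s := rfl
    rw [h4, M.comm] at h1
    have h5 : aeval (M.j a - algebraMap K M.E c) (C (algebraMap k K s) * q - p) = 0 := by
      rw [map_sub, map_mul, aeval_C, h1, sub_self]
    have h6 : C (algebraMap k K s) * q - p = 0 := by
      by_contra hne
      exact ht ⟨_, hne, h5⟩
    have h7 : p = C (algebraMap k K s) * q := (sub_eq_zero.1 h6).symm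
    rw [h7, eval_mul, eval_C, mul_div_assoc, div_self hq, mul_one]

end UnramAux

open UnramAux

/-- The places over the value of `a` at a trivial place. -/
theorem unram (ha : Transcendental k a) [FiniteDimensional k⟮a⟯ L] {m : ℕ}
    (b : Module.Basis (Fin m) k⟮a⟯ L) (b' : Fin m → L)
    (hb' : ∀ i j, Algebra.trace k⟮a⟯ L (b i * b' j) = if i = j then 1 else 0)
    {P : Place K M.E} {v : L → K} (hP : M.Triv P v) :
    P.ord (M.j a - algebraMap K M.E (v a)) = 1 ∧ ∑ i, v (b' i) * v (b i) = 1 ∧
      ∀ (Q : Place K M.E) (w : L → K), M.Triv Q w → w a = v a → Q ≠ P →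
        ∑ i, v (b' i) * w (b i) = 0 := by
  classical
  have hc : v a ∉ Set.range (algebraMap k K) := (triv_iff M ha (hP a)).1 ⟨v, hP⟩
  obtain ⟨S, w, hS, hw, hord, htr⟩ := key M ha hc
  set c := v a with hcdef
  have hval : ∀ {Q : Place K M.E} {u : L → K}, M.Triv Q u → Q ∈ S → w Q = u := by
    intro Q u hu hQ
    funext x
    exact (hw Q hQ x).unique (hu x)
  -- the matrices
  let A : Matrix (Fin m) S K := fun i Q => w Q.1 (b i)
  let B : Matrix S (Fin m) K := fun Q l =>
    (Q.1.ord (M.j a - algebraMap K M.E c) : K) * w Q.1 (b' l)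
  have hmul : ∀ Q : S, ∀ x y : L, w Q.1 (x * y) = w Q.1 x * w Q.1 y := by
    intro Q x y
    have h1 := hw Q.1 Q.2 (x * y)
    rw [map_mul] at h1
    exact h1.unique ((hw Q.1 Q.2 x).mul (hw Q.1 Q.2 y))
  have hAB : A * B = 1 := by
    ext i l
    rw [Matrix.mul_apply, Matrix.one_apply]
    have h1 := htr (b i * b' l) (if i = l then 1 else 0) (by
      rw [hb' i l]; split_ifs <;> simp)
    rw [← Finset.sum_coe_sort] at h1
    have h2 : ∑ Q : S, A i Q * B Q l =
        ∑ Q : S, (Q.1.ord (M.j a - algebraMap K M.E c) : K) * w Q.1 (b i * b' l) := by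
      refine Finset.sum_congr rfl fun Q _ => ?_
      rw [hmul Q]
      ring
    rw [h2, ← h1]
    split_ifs <;> simp
  have hle : m ≤ S.card := by
    have h1 : (1 : Matrix (Fin m) (Fin m) K).rank ≤ S.card := by
      rw [← hAB]
      refine (Matrix.rank_mul_le_left A B).trans ?_
      have h2 := Matrix.rank_le_card_width A
      rwa [Fintype.card_coe] at h2
    rwa [Matrix.rank_one, Fintype.card_fin] at h1
  have hfr : Module.finrank k⟮a⟯ L = m := by
    rw [Module.finrank_eq_card_basis b, Fintype.card_fin]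
  have hone : ∀ Q ∈ S, w Q 1 = 1 := by
    intro Q hQ
    have h1 := hw Q hQ 1
    rw [map_one] at h1
    exact h1.unique Place.isVal_one
  have hsum : ∑ Q ∈ S, Q.ord (M.j a - algebraMap K M.E c) = (m : ℤ) := by
    have h1 := htr 1 (m : k) (by
      rw [← map_one (algebraMap k⟮a⟯ L), Algebra.trace_algebraMap, hfr, nsmul_eq_mul, mul_one,
        map_natCast])
    have h2 : ∑ Q ∈ S, (Q.ord (M.j a - algebraMap K M.E c) : K) * w Q 1 =
        ((∑ Q ∈ S, Q.ord (M.j a - algebraMap K M.E c) : ℤ) : K) := by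
      rw [Int.cast_sum]
      refine Finset.sum_congr rfl fun Q hQ => ?_
      rw [hone Q hQ, mul_one]
    rw [h2, map_natCast] at h1
    exact_mod_cast h1.symm
  have hcard : (S.card : ℤ) ≤ m := by
    rw [← hsum]
    calc (S.card : ℤ) = ∑ Q ∈ S, (1 : ℤ) := by simp
      _ ≤ ∑ Q ∈ S, Q.ord (M.j a - algebraMap K M.E c) := Finset.sum_le_sum hord
  have hcm : S.card = m := le_antisymm (by exact_mod_cast hcard) hle
  have hord1 : ∀ Q ∈ S, Q.ord (M.j a - algebraMap K M.E c) = 1 := by
    have h1 : ∑ Q ∈ S, (Q.ord (M.j a - algebraMap K M.E c) - 1) = 0 := by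
      rw [Finset.sum_sub_distrib, hsum]
      simp [hcm]
    have h2 := (Finset.sum_eq_zero_iff_of_nonneg (fun Q hQ => by
      have := hord Q hQ; omega)).1 h1
    intro Q hQ
    have := h2 Q hQ
    omega
  have hBA : B * A = 1 := by
    refine (Matrix.mul_eq_one_comm_of_card_eq _ _ _ ?_).1 hAB
    rw [Fintype.card_fin, Fintype.card_coe, hcm]
  have hPS : P ∈ S := (hS P).2 (hP a)
  have hwP : w P = v := hval hP hPS
  have hrow : ∀ Q : S, ∑ i, v (b' i) * w Q.1 (b i) = if (⟨P, hPS⟩ : S) = Q then 1 else 0 := by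
    intro Q
    have h1 := congrFun (congrFun hBA ⟨P, hPS⟩) Q
    rw [Matrix.mul_apply, Matrix.one_apply] at h1
    rw [← h1]
    refine Finset.sum_congr rfl fun i _ => ?_
    simp only [A, B]
    rw [hord1 P hPS, hwP]
    simp
  refine ⟨hord1 P hPS, ?_, ?_⟩
  · have h1 := hrow ⟨P, hPS⟩
    rw [if_pos rfl] at h1
    simpa only [hwP] using h1
  · intro Q u hQ hua hne
    have hQS : Q ∈ S := by
      rw [hS, ← hua]
      exact hQ a
    have h1 := hrow ⟨Q, hQS⟩
    rw [if_neg (fun h => hne (congrArg Subtype.val h).symm)] at h1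
    simpa only [hval hQ hQS] using h1

/-- A place trivial on `L` is determined by its value map. -/
theorem triv_unique (ha : Transcendental k a) [FiniteDimensional k⟮a⟯ L] {P Q : Place K M.E}
    {v : L → K} (hP : M.Triv P v) (hQ : M.Triv Q v) : P = Q := by
  by_contra hne
  obtain ⟨b', hb', -⟩ := exists_dual (k := k) (a := a) (Module.finBasis k⟮a⟯ L)
  have h := unram M ha (Module.finBasis k⟮a⟯ L) b' hb' hP
  have h2 := h.2.2 Q v hQ rfl (Ne.symm hne)
  rw [h.2.1] at h2
  exact one_ne_zero h2

/-- The set of the places over `c ∉ k` has exactly `[L : k(a)]` elements. -/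
theorem card_over (ha : Transcendental k a) [FiniteDimensional k⟮a⟯ L] {c : K}
    (hc : c ∉ Set.range (algebraMap k K)) (S : Finset (Place K M.E))
    (hS : ∀ P, P ∈ S ↔ P.IsVal (M.j a) c) : S.card = Module.finrank k⟮a⟯ L := by
  classical
  obtain ⟨S', w, hS', hw, hord, htr⟩ := key M ha hc
  have hSS : S = S' := by
    ext P
    rw [hS, hS']
  subst hSS
  obtain ⟨b', hb', -⟩ := exists_dual (k := k) (a := a) (Module.finBasis k⟮a⟯ L)
  have hord1 : ∀ Q ∈ S, Q.ord (M.j a - algebraMap K M.E c) = 1 := by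
    intro Q hQ
    have h1 := (unram M ha (Module.finBasis k⟮a⟯ L) b' hb' (hw Q hQ)).1
    have h2 : w Q a = c := (hw Q hQ a).unique ((hS Q).1 hQ)
    rwa [h2] at h1
  have hone : ∀ Q ∈ S, w Q 1 = 1 := by
    intro Q hQ
    have h1 := hw Q hQ 1
    rw [map_one] at h1
    exact h1.unique Place.isVal_one
  have h1 := htr 1 (Module.finrank k⟮a⟯ L : k) (by
    rw [← map_one (algebraMap k⟮a⟯ L), Algebra.trace_algebraMap, nsmul_eq_mul, mul_one,
      map_natCast])
  have h2 : ∑ Q ∈ S, (Q.ord (M.j a - algebraMap K M.E c) : K) * w Q 1 = (S.card : K) := by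
    have h3 : ∑ Q ∈ S, (Q.ord (M.j a - algebraMap K M.E c) : K) * w Q 1 = ∑ Q ∈ S, (1 : K) := by
      refine Finset.sum_congr rfl fun Q hQ => ?_
      rw [hone Q hQ, hord1 Q hQ]
      simp
    rw [h3]
    simp
  rw [h2, map_natCast] at h1
  exact_mod_cast h1.symm

end Pool.Agent.FibC
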